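import Pool.Agent.Work.MP_f194bb_nt.Fold

/-!
# MP_f194bb_nt: divisors on `ℂ/Γ` of the elements of `K`
-/

set_option autoImplicit false

open scoped ComplexConjugate Topology
open Set

noncomputable section

namespace Pool.Agent.F194

universe u

lemma nhdsNE_of_codiscrete {F G : ℂ → ℂ} (h : F =ᶠ[Filter.codiscrete ℂ] G) (x : ℂ) :
    F =ᶠ[𝓝[≠] x] G := by
  have h1 : {z | F z = G z} ∈ Filter.codiscrete ℂ := h
  rw [mem_codiscrete] at h1
  have h2 := h1 x
  rw [Filter.disjoint_principal_right, compl_compl] at h2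
  exact h2

lemma order_congr {F G : ℂ → ℂ} (h : F =ᶠ[Filter.codiscrete ℂ] G) (x : ℂ) :
    meromorphicOrderAt F x = meromorphicOrderAt G x :=
  meromorphicOrderAt_congr (nhdsNE_of_codiscrete h x)

lemma dv_congr {F G : ℂ → ℂ} (h : F =ᶠ[Filter.codiscrete ℂ] G) : dv F = dv G := by
  funext x
  rw [dv, dv, order_congr h]

variable {L : PeriodPair} {K : Type u} [Field K]

lemma EllRep.nz (ρ : EllRep L K) {u : K} (hu : u ≠ 0) : NZ (ρ.ev u) := by
  intro z h
  have h1 : ρ.ev u * ρ.ev u⁻¹ =ᶠ[Filter.codiscrete ℂ] 1 := by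
    have h2 := ρ.map_mul u u⁻¹
    rw [mul_inv_cancel₀ hu] at h2
    exact h2.symm.trans ρ.map_one
  have h3 := order_congr h1 z
  rw [meromorphicOrderAt_mul (ρ.mero _ z) (ρ.mero _ z), h, top_add] at h3
  have h4 : meromorphicOrderAt (1 : ℂ → ℂ) z = 0 := by
    have : (1 : ℂ → ℂ) = fun _ => 1 := rfl
    rw [this, meromorphicOrderAt_const]
    simp
  rw [h4] at h3
  exact absurd h3 (by simp)

lemma EllRep.dv_zero (ρ : EllRep L K) : dv (ρ.ev 0) = 0 := by
  have h1 := ρ.map_add 0 0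
  rw [add_zero] at h1
  have h2 : ρ.ev 0 =ᶠ[Filter.codiscrete ℂ] 0 := by
    filter_upwards [h1] with z hz
    rw [Pi.add_apply] at hz
    rw [Pi.zero_apply]
    linear_combination -hz
  rw [dv_congr h2]
  funext x
  rw [dv]
  have : meromorphicOrderAt (0 : ℂ → ℂ) x = ⊤ := by
    rw [meromorphicOrderAt_eq_top_iff]
    exact Filter.Eventually.of_forall fun _ => rfl
  rw [this]
  rfl

lemma EllRep.dv_one (ρ : EllRep L K) : dv (ρ.ev 1) = 0 := by
  rw [dv_congr ρ.map_one]
  funext x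
  rw [dv]
  have : (1 : ℂ → ℂ) = fun _ => 1 := rfl
  rw [this, meromorphicOrderAt_const]
  simp

lemma EllRep.dv_mul (ρ : EllRep L K) {u v : K} (hu : u ≠ 0) (hv : v ≠ 0) :
    dv (ρ.ev (u * v)) = dv (ρ.ev u) + dv (ρ.ev v) := by
  rw [dv_congr (ρ.map_mul u v)]
  funext x
  rw [Pi.add_apply, dv, dv, dv, meromorphicOrderAt_mul (ρ.mero _ x) (ρ.mero _ x),
    WithTop.untop₀_add (ρ.nz hu x) (ρ.nz hv x)]

lemma EllRep.one_sub (ρ : EllRep L K) (u : K) :
    ρ.ev (1 - u) =ᶠ[Filter.codiscrete ℂ] fun z => 1 - ρ.ev u z := by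
  have h1 := ρ.map_add (1 - u) u
  rw [sub_add_cancel] at h1
  filter_upwards [h1, ρ.map_one] with z hz hz1
  rw [Pi.add_apply, hz1, Pi.one_apply] at hz
  linear_combination -hz

/-- The divisor of `u ∈ K` on `ℂ/Γ`, with rational coefficients; points of `ℂ/Γ` are represented
in the fundamental parallelogram. It is `0` for `u = 0`. -/
def divT (ρ : EllRep L K) (u : K) : ℂ →₀ ℚ :=
  Finsupp.ofSupportFinite
    ((ZSpan.fundamentalDomain L.basis).indicator fun x => (dv (ρ.ev u) x : ℚ))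
    ((dv_fin (ρ.mero u) (‖L.ω₁‖ + ‖L.ω₂‖)).subset fun x hx => by
      have h1 : x ∈ ZSpan.fundamentalDomain L.basis := Set.mem_of_indicator_ne_zero hx
      refine ⟨FD_sub_ball L h1, fun h => hx ?_⟩
      rw [Set.indicator_of_mem h1, h, Int.cast_zero])

lemma divT_apply (ρ : EllRep L K) (u : K) (x : ℂ) :
    divT ρ u x = (ZSpan.fundamentalDomain L.basis).indicator (fun x => (dv (ρ.ev u) x : ℚ)) x :=
  rfl

/-- the divisor as a homomorphism -/
def divH (ρ : EllRep L K) : Additive Kˣ →+ (ℂ →₀ ℚ) where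
  toFun a := divT ρ (Additive.toMul a : Kˣ)
  map_zero' := by
    ext x
    rw [divT_apply, toMul_zero, Units.val_one, ρ.dv_one]
    by_cases h : x ∈ ZSpan.fundamentalDomain L.basis
    · rw [Set.indicator_of_mem h]; simp
    · rw [Set.indicator_of_notMem h]; simp
  map_add' a b := by
    ext x
    rw [Finsupp.add_apply, divT_apply, divT_apply, divT_apply, toMul_add, Units.val_mul,
      ρ.dv_mul (Units.ne_zero _) (Units.ne_zero _)]
    by_cases h : x ∈ ZSpan.fundamentalDomain L.basis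
    · rw [Set.indicator_of_mem h, Set.indicator_of_mem h, Set.indicator_of_mem h, Pi.add_apply]
      push_cast
      rfl
    · rw [Set.indicator_of_notMem h, Set.indicator_of_notMem h, Set.indicator_of_notMem h, add_zero]

lemma divH_ofMul (ρ : EllRep L K) (u : Kˣ) : divH ρ (Additive.ofMul u) = divT ρ (u : K) := rfl

lemma divH_unitOf (ρ : EllRep L K) (u : K) : divH ρ (unitOf (some u)) = divT ρ u := by
  classical
  by_cases h : u = 0
  · subst h
    have h1 : (unitOf (some (0 : K)) : Additive Kˣ) = 0 := by simp [unitOf]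
    rw [h1, map_zero]
    ext x
    rw [divT_apply, ρ.dv_zero]
    by_cases h : x ∈ ZSpan.fundamentalDomain L.basis
    · rw [Set.indicator_of_mem h]; simp
    · rw [Set.indicator_of_notMem h]; simp
  · simp only [unitOf, dif_neg h]
    rfl

/-- the character sum of a divisor with rational coefficients -/
def chs (L : PeriodPair) (D : ℂ →₀ ℚ) (γ : ℂ) : ℂ := D.sum fun x a => (a : ℂ) * chi L x γ

lemma chs_add (L : PeriodPair) (D D' : ℂ →₀ ℚ) (γ : ℂ) :
    chs L (D + D') γ = chs L D γ + chs L D' γ := by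
  unfold chs
  rw [Finsupp.sum_add_index']
  · intro x; simp
  · intro x a b; push_cast; ring

lemma chs_smul (L : PeriodPair) (c : ℚ) (D : ℂ →₀ ℚ) (γ : ℂ) :
    chs L (c • D) γ = (c : ℂ) * chs L D γ := by
  unfold chs
  rw [Finsupp.sum_smul_index (by intro x; simp), Finsupp.mul_sum]
  refine Finsupp.sum_congr fun x _ => ?_
  push_cast
  ring

lemma chs_bdd (L : PeriodPair) (D : ℂ →₀ ℚ) : ∃ C : ℝ, 0 ≤ C ∧ ∀ γ, ‖chs L D γ‖ ≤ C := by
  refine ⟨∑ x ∈ D.support, |(D x : ℝ)|, Finset.sum_nonneg fun _ _ => abs_nonneg _, fun γ => ?_⟩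
  unfold chs Finsupp.sum
  refine (norm_sum_le _ _).trans (Finset.sum_le_sum fun x _ => ?_)
  rw [norm_mul, norm_chi, mul_one]
  simp

lemma chs_divT (ρ : EllRep L K) (u : K) (γ : ℂ) : chs L (divT ρ u) γ = pr L (dv (ρ.ev u)) γ := by
  classical
  unfold chs pr Finsupp.sum
  rw [finsum_mem_def, finsum_eq_sum_of_support_subset (s := (divT ρ u).support)]
  · refine Finset.sum_congr rfl fun x hx => ?_
    rw [Finsupp.mem_support_iff, divT_apply] at hx
    have h1 := Set.mem_of_indicator_ne_zero hx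
    rw [Set.indicator_of_mem h1, divT_apply, Set.indicator_of_mem h1]
    push_cast
    rfl
  · intro x hx
    have h1 := Set.mem_of_indicator_ne_zero hx
    rw [Finset.mem_coe, Finsupp.mem_support_iff, divT_apply, Set.indicator_of_mem h1]
    intro h
    apply hx
    rw [Set.indicator_of_mem h1]
    have : dv (ρ.ev u) x = 0 := by exact_mod_cast h
    rw [this]
    simp

end Pool.Agent.F194

end
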