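import Pool.Agent.Work.MP_f194bb_nt.CP

/-!
# MP_f194bb_nt: `∂̄ (f'/f) = π ∑ ord_x(f) δ_x`
-/

set_option autoImplicit false

open scoped ComplexConjugate ENNReal Topology
open MeasureTheory Set Filter

noncomputable section

namespace Pool.Agent.F194

lemma int_mul {K : Set ℂ} (hK : IsCompact K) {φ W : ℂ → ℂ} (hφ : ContinuousOn φ K)
    (hW : Continuous W) (hs : Function.support W ⊆ K) : Integrable fun z => φ z * W z := by
  have h1 : IntegrableOn (fun z => φ z * W z) K :=
    (hφ.mul hW.continuousOn).integrableOn_compact hK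
  refine (integrableOn_iff_integrable_of_support_subset ?_).1 h1
  intro z hz
  apply hs
  intro h
  apply hz
  show φ z * W z = 0
  rw [h, mul_zero]

/-- a holomorphic function against `∂̄ Ψ` -/
lemma hol_dbar {φ Ψ : ℂ → ℂ} (hφ : ∀ z ∈ tsupport Ψ, AnalyticAt ℂ φ z) (hΨ : ContDiff ℝ 1 Ψ)
    (hc : HasCompactSupport Ψ) :
    Integrable (fun z => φ z * dbar Ψ z) ∧ ∫ z, φ z * dbar Ψ z = 0 := by
  have hK := hc.isCompact
  have hφc : ContinuousOn φ (tsupport Ψ) := fun z hz => (hφ z hz).continuousAt.continuousWithinAt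
  have hdc : Continuous (fderiv ℝ Ψ) := hΨ.continuous_fderiv one_ne_zero
  have hds : ∀ v, Function.support (fun z => fderiv ℝ Ψ z v) ⊆ tsupport Ψ := by
    intro v z hz
    by_contra h
    apply hz
    have h2 : z ∉ tsupport (fderiv ℝ Ψ) := fun h' => h (tsupport_fderiv_subset ℝ h')
    show fderiv ℝ Ψ z v = 0
    rw [image_eq_zero_of_notMem_tsupport h2]
    rfl
  have hi1 : ∀ v, Integrable fun z => φ z * fderiv ℝ Ψ z v := fun v =>
    int_mul hK hφc (by fun_prop) (hds v)
  have hφR : ∀ z ∈ tsupport Ψ, HasFDerivAt φ ((deriv φ z • (1 : ℂ →L[ℂ] ℂ)).restrictScalars ℝ) z := by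
    intro z hz
    have h1 := (hφ z hz).differentiableAt.hasDerivAt.complexToReal_fderiv
    exact h1
  have hfd : ∀ z ∈ tsupport Ψ, ∀ v, fderiv ℝ φ z v = deriv φ z * v := by
    intro z hz v
    rw [(hφR z hz).fderiv]
    simp
  have hi2 : ∀ v, Integrable fun z => fderiv ℝ φ z v * Ψ z := by
    intro v
    refine int_mul hK ?_ hΨ.continuous subset_closure
    have : ContinuousOn (fun z => deriv φ z * v) (tsupport Ψ) := by
      intro z hz
      exact ((hφ z hz).deriv.continuousAt.continuousWithinAt).mul continuousWithinAt_const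
    exact this.congr fun z hz => hfd z hz v
  have hi3 : Integrable fun z => φ z * Ψ z := int_mul hK hφc hΨ.continuous subset_closure
  have hibp : ∀ v, ∫ z, φ z * fderiv ℝ Ψ z v = -∫ z, fderiv ℝ φ z v * Ψ z := fun v =>
    integral_mul_fderiv_eq_neg_fderiv_mul_of_integrable (hi2 v) (hi1 v) hi3
      (fun z hz => (hφR z hz).differentiableAt)
      (fun z _ => hΨ.differentiable one_ne_zero z)
  have he : (fun z => φ z * dbar Ψ z) = fun z => (1 / 2 : ℂ) * (φ z * fderiv ℝ Ψ z 1) +
      (Complex.I / 2) * (φ z * fderiv ℝ Ψ z Complex.I) := by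
    funext z
    unfold dbar
    ring
  have hiall : Integrable (fun z => φ z * dbar Ψ z) := by
    rw [he]
    exact ((hi1 1).const_mul _).add ((hi1 Complex.I).const_mul _)
  refine ⟨hiall, ?_⟩
  rw [he, integral_add ((hi1 1).const_mul _) ((hi1 Complex.I).const_mul _), integral_const_mul,
    integral_const_mul, hibp, hibp]
  have h5 : ∫ z, fderiv ℝ φ z Complex.I * Ψ z = Complex.I * ∫ z, fderiv ℝ φ z 1 * Ψ z := by
    rw [← integral_const_mul]
    refine integral_congr_ae (Filter.Eventually.of_forall fun z => ?_)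
    show fderiv ℝ φ z Complex.I * Ψ z = Complex.I * (fderiv ℝ φ z 1 * Ψ z)
    by_cases hz : z ∈ tsupport Ψ
    · rw [hfd z hz, hfd z hz]
      ring
    · rw [image_eq_zero_of_notMem_tsupport hz]
      ring
  rw [h5]
  linear_combination (-(1 / 2 : ℂ) * ∫ z, fderiv ℝ φ z 1 * Ψ z) * Complex.I_mul_I

theorem dist_q (f : ℂ → ℂ) (hf : Meromorphic f) (h0 : NZ f) (Ψ : ℂ → ℂ) (hΨ : ContDiff ℝ 1 Ψ)
    (hc : HasCompactSupport Ψ) :
    ∫ z, deriv f z / f z * dbar Ψ z = -Real.pi * ∑ᶠ x, (dv f x : ℂ) * Ψ x := by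
  classical
  obtain ⟨R, hR⟩ := hc.isCompact.isBounded.subset_ball (0 : ℂ)
  set U := Metric.closedBall (0 : ℂ) R with hU
  have hfU : MeromorphicOn f U := fun z _ => hf z
  have hfin : (MeromorphicOn.divisor f U).support.Finite :=
    (MeromorphicOn.divisor f U).finiteSupport (isCompact_closedBall 0 R)
  obtain ⟨g, hg1, hg2, hg3⟩ := hfU.extract_zeros_poles (fun u => h0 u) hfin
  set D := MeromorphicOn.divisor f U with hD
  set S := hfin.toFinset with hS
  have hDv : ∀ x ∈ U, D x = dv f x := fun x hx => MeromorphicOn.divisor_apply hfU hx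
  -- the factorization as a product
  have hprod : ∀ w, (((∏ᶠ u, (· - u) ^ D u) : ℂ → ℂ) • g) w = (∏ u ∈ S, (w - u) ^ D u) * g w := by
    intro w
    rw [Function.FactorizedRational.finprod_eq_fun hfin]
    show (∏ᶠ u, (w - u) ^ D u) • g w = _
    rw [smul_eq_mul, finprod_eq_prod_of_mulSupport_subset _ (s := S)]
    intro u hu
    rw [hS, Set.Finite.coe_toFinset]
    intro h
    apply hu
    show (w - u) ^ D u = 1
    rw [h, zpow_zero]
  have hae : ∀ᵐ z, z ∈ Metric.ball (0 : ℂ) R →
      deriv f z / f z = (∑ u ∈ S, (D u : ℂ) / (z - u)) + deriv g z / g z := by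
    have h1 : ∀ᵐ z ∂(volume.restrict U), f z = (((∏ᶠ u, (· - u) ^ D u) : ℂ → ℂ) • g) z :=
      ae_restrict_le_codiscreteWithin Metric.isClosed_closedBall.measurableSet hg3
    rw [ae_restrict_iff' Metric.isClosed_closedBall.measurableSet] at h1
    have h2 : ∀ᵐ z : ℂ, z ∉ S := by
      have := (S.finite_toSet.countable).ae_notMem (volume : Measure ℂ)
      exact this
    filter_upwards [h1, h2] with z hz1 hz2 hzb
    have hzU : z ∈ U := Metric.ball_subset_closedBall hzb
    have hev : f =ᶠ[𝓝 z] fun w => (∏ u ∈ S, (w - u) ^ D u) * g w := by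
      have h3 := hg3
      rw [Filter.EventuallyEq, Filter.Eventually, mem_codiscreteWithin] at h3
      have h4 := h3 z hzU
      rw [disjoint_principal_right] at h4
      have h5 : ∀ᶠ w in 𝓝 z, w ∈ Metric.ball (0 : ℂ) R := Metric.isOpen_ball.eventually_mem hzb
      rw [mem_nhdsWithin_iff_eventually] at h4
      filter_upwards [h4, h5] with w hw1 hw2
      rw [← hprod]
      by_cases hwz : w = z
      · rw [hwz]
        exact hz1 hzU
      · have h6 := hw1 hwz
        by_contra h7
        exact h6 ⟨Metric.ball_subset_closedBall hw2, h7⟩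
    have hne : ∀ u ∈ S, z - u ≠ 0 := fun u hu h => hz2 (by rwa [sub_eq_zero.1 h])
    have hgz : g z ≠ 0 := hg2 ⟨z, hzU⟩
    have hgd : DifferentiableAt ℂ g z := (hg1 z hzU).differentiableAt
    have hdiff : ∀ u ∈ S, DifferentiableAt ℂ (fun w : ℂ => (w - u) ^ D u) z := fun u hu =>
      DifferentiableAt.zpow (by fun_prop) (Or.inl (hne u hu))
    have e1 : deriv f z / f z = logDeriv (fun w => (∏ u ∈ S, (w - u) ^ D u) * g w) z := by
      rw [logDeriv_apply, hev.deriv_eq, hev.eq_of_nhds]
    rw [e1, logDeriv_mul z (Finset.prod_ne_zero_iff.2 fun u hu => zpow_ne_zero _ (hne u hu)) hgz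
      (by
        have := DifferentiableAt.fun_finsetProd (u := S) (f := fun u (w : ℂ) => (w - u) ^ D u)
          (x := z) (𝕜 := ℂ) hdiff
        exact this) hgd,
      logDeriv_prod (f := fun u (w : ℂ) => (w - u) ^ D u)
        (fun u hu => zpow_ne_zero _ (hne u hu)) hdiff]
    congr 1
    refine Finset.sum_congr rfl fun u hu => ?_
    rw [logDeriv_fun_zpow (by fun_prop), logDeriv_apply]
    have : deriv (fun w : ℂ => w - u) z = 1 := by
      rw [deriv_sub_const, deriv_id'']
    rw [this, mul_one_div]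
  -- the integrals
  have hzero : ∀ z, z ∉ Metric.ball (0 : ℂ) R → dbar Ψ z = 0 := by
    intro z hz
    have h1 : z ∉ tsupport Ψ := fun h => hz (hR h)
    have h2 : z ∉ tsupport (fderiv ℝ Ψ) := fun h' => h1 (tsupport_fderiv_subset ℝ h')
    unfold dbar
    rw [image_eq_zero_of_notMem_tsupport h2]
    simp
  have hcp := cauchy_pompeiu Ψ hΨ hc
  have hpi : (Real.pi : ℂ) ≠ 0 := by exact_mod_cast Real.pi_ne_zero
  have hi : ∀ u : ℂ, Integrable (fun z => dbar Ψ z / (z - u)) ∧
      ∫ z, dbar Ψ z / (z - u) = -(Real.pi * Ψ u) := by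
    intro u
    have h1 : (fun z => dbar Ψ z / (z - u)) = fun z => -(dbar Ψ z / (u - z)) := by
      funext z
      rw [← neg_sub u z, div_neg]
    rw [h1]
    refine ⟨(hcp u).1.neg, ?_⟩
    rw [integral_neg, (hcp u).2, ← mul_assoc, mul_inv_cancel₀ hpi, one_mul]
  have hhol := hol_dbar (φ := fun z => deriv g z / g z) (Ψ := Ψ) (fun z hz => by
    have hzU : z ∈ U := Metric.ball_subset_closedBall (hR hz)
    exact (hg1 z hzU).deriv.div (hg1 z hzU) (hg2 ⟨z, hzU⟩)) hΨ hc
  have hcongr : ∫ z, deriv f z / f z * dbar Ψ z =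
      ∫ z, ((∑ u ∈ S, (D u : ℂ) * (dbar Ψ z / (z - u))) + deriv g z / g z * dbar Ψ z) := by
    refine integral_congr_ae ?_
    filter_upwards [hae] with z hz
    by_cases hzb : z ∈ Metric.ball (0 : ℂ) R
    · rw [hz hzb, add_mul, Finset.sum_mul]
      congr 1
      refine Finset.sum_congr rfl fun u _ => ?_
      ring
    · rw [hzero z hzb]
      simp
  rw [hcongr, integral_add (integrable_finsetSum _ fun u _ => (hi u).1.const_mul _) hhol.1,
    hhol.2, add_zero, integral_finsetSum _ fun u _ => (hi u).1.const_mul _]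
  rw [finsum_eq_sum_of_support_subset (s := S) _ (by
    intro x hx
    rw [hS, Set.Finite.coe_toFinset]
    intro h
    apply hx
    show (dv f x : ℂ) * Ψ x = 0
    by_cases hxs : x ∈ tsupport Ψ
    · have hxU : x ∈ U := Metric.ball_subset_closedBall (hR hxs)
      rw [← hDv x hxU, h]
      simp
    · rw [image_eq_zero_of_notMem_tsupport hxs, mul_zero]), Finset.mul_sum]
  refine Finset.sum_congr rfl fun u hu => ?_
  have huU : u ∈ U := by
    rw [hS, Set.Finite.mem_toFinset] at hu
    exact D.supportWithinDomain hu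
  rw [integral_const_mul, (hi u).2, hDv u huU]
  ring

end Pool.Agent.F194

end
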