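import Pool.Agent.Work.MP_f194bb_nt.Torus

/-!
# MP_f194bb_nt: the Cauchy-Pompeiu formula
-/

set_option autoImplicit false

open scoped ComplexConjugate
open MeasureTheory Set

noncomputable section

namespace Pool.Agent.F194

/-- `e^{iθ}` -/
private def ee (θ : ℝ) : ℂ := Real.cos θ + Real.sin θ * Complex.I

private lemma ee_deriv (θ : ℝ) : HasDerivAt ee (Complex.I * ee θ) θ := by
  have h1 : HasDerivAt (fun θ : ℝ => ((Real.cos θ : ℝ) : ℂ)) ((-Real.sin θ : ℝ) : ℂ) θ :=
    (Real.hasDerivAt_cos θ).ofReal_comp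
  have h2 : HasDerivAt (fun θ : ℝ => ((Real.sin θ : ℝ) : ℂ)) ((Real.cos θ : ℝ) : ℂ) θ :=
    (Real.hasDerivAt_sin θ).ofReal_comp
  have h3 := h1.add (h2.mul_const Complex.I)
  refine h3.congr_deriv ?_
  unfold ee
  rw [Complex.ofReal_neg]
  linear_combination (-(Real.sin θ : ℂ)) * Complex.I_mul_I

private lemma ee_cont : Continuous ee :=
  continuous_iff_continuousAt.2 fun θ => (ee_deriv θ).continuousAt

private lemma ee_ne (θ : ℝ) : ee θ ≠ 0 := by
  have h : ee θ = Complex.exp (θ * Complex.I) := by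
    rw [Complex.exp_mul_I, ee]
    push_cast
    rfl
  rw [h]
  exact Complex.exp_ne_zero _

private lemma ee_norm (θ : ℝ) : ‖ee θ‖ = 1 := by
  have h : ee θ = Complex.exp (θ * Complex.I) := by
    rw [Complex.exp_mul_I, ee]
    push_cast
    rfl
  rw [h]
  exact Complex.norm_exp_ofReal_mul_I θ

/-- `1/‖z‖` is locally integrable. -/
lemma integrableOn_inv_norm (r : ℝ) :
    IntegrableOn (fun z : ℂ => ‖z‖⁻¹) (Metric.ball 0 r) := by
  have h := (integrableOn_fun_norm_addHaar (volume : Measure ℂ) (f := fun y : ℝ => y⁻¹) (r := r)).2 ?_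
  · exact h
  · rw [Complex.finrank_real_complex]
    refine (integrableOn_const (C := (1 : ℝ)) (s := Ioo (0 : ℝ) r) (by simp)).congr_fun ?_
      measurableSet_Ioo
    intro y hy
    have : y ≠ 0 := hy.1.ne'
    simp [this]

lemma dbar_continuous {V : ℂ → ℂ} (hV : ContDiff ℝ 1 V) : Continuous (dbar V) := by
  have h : Continuous (fderiv ℝ V) := hV.continuous_fderiv one_ne_zero
  unfold dbar
  fun_prop

lemma dbar_compact {V : ℂ → ℂ} (hc : HasCompactSupport V) : HasCompactSupport (dbar V) := by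
  have h := hc.fderiv (𝕜 := ℝ)
  refine h.mono' ?_
  intro z hz
  apply subset_closure
  intro h0
  apply hz
  simp [dbar, h0]

lemma dbar_div_integrable {V : ℂ → ℂ} (hV : ContDiff ℝ 1 V) (hc : HasCompactSupport V) (t : ℂ) :
    Integrable (fun ζ => dbar V ζ / (t - ζ)) := by
  obtain ⟨C, hC⟩ := (dbar_compact hc).exists_bound_of_continuous (dbar_continuous hV)
  obtain ⟨r, hr⟩ := (dbar_compact hc).isCompact.isBounded.subset_closedBall t
  -- dominate by `C / ‖t - ζ‖` on the ball
  have h1 : IntegrableOn (fun ζ : ℂ => C * ‖t - ζ‖⁻¹) (Metric.ball t (r + 1)) := by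
    have h2 := (integrableOn_inv_norm (r + 1)).const_mul C
    have h3 : MeasurePreserving (fun ζ : ℂ => t - ζ) volume volume :=
      Measure.measurePreserving_sub_left volume t
    have h4 := h3.integrableOn_comp_preimage (f := fun z : ℂ => C * ‖z‖⁻¹)
      (s := Metric.ball (0 : ℂ) (r + 1)) (MeasurableEquiv.subLeft t).measurableEmbedding
    have h5 : (fun ζ : ℂ => t - ζ) ⁻¹' Metric.ball (0 : ℂ) (r + 1) = Metric.ball t (r + 1) := by
      ext ζ
      simp only [mem_preimage, Metric.mem_ball, dist_eq_norm, sub_zero]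
      rw [norm_sub_rev]
    rw [h5] at h4
    exact h4.2 h2
  have h6 : IntegrableOn (fun ζ => dbar V ζ / (t - ζ)) (Metric.ball t (r + 1)) := by
    refine Integrable.mono' h1 ?_ (Filter.Eventually.of_forall fun ζ => ?_)
    · exact ((dbar_continuous hV).measurable.div (by fun_prop)).aestronglyMeasurable
    · rw [norm_div, div_eq_mul_inv]
      exact mul_le_mul_of_nonneg_right (hC ζ) (by positivity)
  refine (integrableOn_iff_integrable_of_support_subset ?_).1 h6
  intro ζ hζ
  have h7 : dbar V ζ ≠ 0 := fun h => hζ (by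
    show dbar V ζ / (t - ζ) = 0
    rw [h, zero_div])
  have h8 := hr (subset_closure h7)
  rw [Metric.mem_closedBall] at h8
  rw [Metric.mem_ball]
  linarith

/-- CP: Cauchy-Pompeiu. -/
theorem cauchy_pompeiu (V : ℂ → ℂ) (hV : ContDiff ℝ 1 V) (hc : HasCompactSupport V) (t : ℂ) :
    Integrable (fun ζ => dbar V ζ / (t - ζ)) ∧
      V t = (Real.pi : ℂ)⁻¹ * ∫ ζ, dbar V ζ / (t - ζ) := by
  refine ⟨dbar_div_integrable hV hc t, ?_⟩
  obtain ⟨R', hR'⟩ := hc.isCompact.isBounded.subset_closedBall t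
  set R := max R' 0 + 1 with hR
  have hR0 : 0 < R := by have := le_max_right R' 0; linarith
  have hzero : ∀ r : ℝ, R ≤ r → ∀ θ : ℝ, t + r * ee θ ∉ tsupport V := by
    intro r hr θ hmem
    have h1 := hR' hmem
    rw [Metric.mem_closedBall, dist_eq_norm, add_sub_cancel_left, norm_mul, ee_norm, mul_one,
      Complex.norm_real, Real.norm_eq_abs] at h1
    have h2 := le_max_left R' 0
    have h3 := le_abs_self r
    linarith
  have hfz : ∀ r : ℝ, R ≤ r → ∀ θ : ℝ, fderiv ℝ V (t + r * ee θ) = 0 := by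
    intro r hr θ
    have h1 := hzero r hr θ
    have h2 : t + r * ee θ ∉ tsupport (fderiv ℝ V) := fun h => h1 (tsupport_fderiv_subset ℝ h)
    exact image_eq_zero_of_notMem_tsupport h2
  have hVz : ∀ θ : ℝ, V (t + R * ee θ) = 0 := fun θ =>
    image_eq_zero_of_notMem_tsupport (hzero R le_rfl θ)
  have hDc : Continuous (fderiv ℝ V) := hV.continuous_fderiv one_ne_zero
  let G1 : ℝ × ℝ → ℂ := fun p => fderiv ℝ V (t + p.1 * ee p.2) (ee p.2)
  let G2 : ℝ × ℝ → ℂ := fun p => fderiv ℝ V (t + p.1 * ee p.2) (Complex.I * ee p.2)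
  have hee := ee_cont
  have hG1 : Continuous G1 := by
    show Continuous fun p : ℝ × ℝ => fderiv ℝ V (t + p.1 * ee p.2) (ee p.2)
    exact (hDc.comp (by fun_prop)).clm_apply (by fun_prop)
  have hG2 : Continuous G2 := by
    show Continuous fun p : ℝ × ℝ => fderiv ℝ V (t + p.1 * ee p.2) (Complex.I * ee p.2)
    exact (hDc.comp (by fun_prop)).clm_apply (by fun_prop)
  have hint : ∀ G : ℝ × ℝ → ℂ, Continuous G →
      IntegrableOn G (Ioc (0 : ℝ) R ×ˢ Ioc (-Real.pi) Real.pi) := by
    intro G hG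
    refine (hG.continuousOn.integrableOn_compact
      ((isCompact_Icc (a := (0 : ℝ)) (b := R)).prod
        (isCompact_Icc (a := -Real.pi) (b := Real.pi)))).mono_set ?_
    exact prod_mono Ioc_subset_Icc_self Ioc_subset_Icc_self
  -- polar coordinates
  have hpol : ∫ ζ, dbar V ζ / (t - ζ) =
      ∫ p in Ioc (0 : ℝ) R ×ˢ Ioc (-Real.pi) Real.pi, -(1 / 2 : ℂ) * (G1 p + Complex.I * G2 p) := by
    rw [← integral_add_left_eq_self (fun ζ => dbar V ζ / (t - ζ)) t,
      ← Complex.integral_comp_polarCoord_symm]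
    have h1 : polarCoord.target = Ioi (0 : ℝ) ×ˢ Ioo (-Real.pi) Real.pi := rfl
    rw [h1]
    have h2 : ∫ p in Ioi (0 : ℝ) ×ˢ Ioo (-Real.pi) Real.pi,
        p.1 • (dbar V (t + Complex.polarCoord.symm p) / (t - (t + Complex.polarCoord.symm p))) =
        ∫ p in Ioi (0 : ℝ) ×ˢ Ioo (-Real.pi) Real.pi, -(1 / 2 : ℂ) * (G1 p + Complex.I * G2 p) := by
      refine setIntegral_congr_fun (measurableSet_Ioi.prod measurableSet_Ioo) fun p hp => ?_
      have hp1 : (p.1 : ℂ) ≠ 0 := by
        have : (0 : ℝ) < p.1 := hp.1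
        exact_mod_cast this.ne'
      have h3 : Complex.polarCoord.symm p = p.1 * ee p.2 := Complex.polarCoord_symm_apply p
      show p.1 • (dbar V (t + Complex.polarCoord.symm p) / (t - (t + Complex.polarCoord.symm p))) =
        -(1 / 2 : ℂ) * (fderiv ℝ V (t + p.1 * ee p.2) (ee p.2) +
          Complex.I * fderiv ℝ V (t + p.1 * ee p.2) (Complex.I * ee p.2))
      rw [h3]
      set D := fderiv ℝ V (t + p.1 * ee p.2) with hD
      have h4 : D (ee p.2) = Real.cos p.2 * D 1 + Real.sin p.2 * D Complex.I := by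
        have : ee p.2 = Real.cos p.2 • (1 : ℂ) + Real.sin p.2 • Complex.I := by
          rw [ee]
          simp
        rw [this, map_add, map_smul, map_smul]
        simp
      have h5 : D (Complex.I * ee p.2) = -Real.sin p.2 * D 1 + Real.cos p.2 * D Complex.I := by
        have : Complex.I * ee p.2 = (-Real.sin p.2) • (1 : ℂ) + Real.cos p.2 • Complex.I := by
          rw [ee]
          simp only [Complex.real_smul, Complex.ofReal_neg]
          linear_combination (Real.sin p.2 : ℂ) * Complex.I_mul_I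
        rw [this, map_add, map_smul, map_smul]
        simp
      rw [h4, h5, dbar, ← hD, Complex.real_smul]
      have h6 : t - (t + p.1 * ee p.2) = -(p.1 * ee p.2) := by ring
      have h7 : ee p.2 ≠ 0 := ee_ne p.2
      have h8 : (Real.cos p.2 : ℂ) ^ 2 + (Real.sin p.2 : ℂ) ^ 2 = 1 := by
        exact_mod_cast Real.cos_sq_add_sin_sq p.2
      rw [h6, mul_div_assoc', div_eq_iff (neg_ne_zero.2 (mul_ne_zero hp1 h7))]
      have h9 : ee p.2 = Real.cos p.2 + Real.sin p.2 * Complex.I := rfl
      rw [h9]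
      have hI : Complex.I * Complex.I = -1 := Complex.I_mul_I
      linear_combination (-(p.1 : ℂ) / 2 * (D 1 + Complex.I * D Complex.I)) * h8 +
        ((p.1 : ℂ) / 2 * (D 1 * (Real.sin p.2 : ℂ) ^ 2 -
          (Real.sin p.2 : ℂ) * Real.cos p.2 * D Complex.I)) * hI
    rw [h2, setIntegral_eq_of_subset_of_forall_sdiff_eq_zero
      (s := Ioc (0 : ℝ) R ×ˢ Ioo (-Real.pi) Real.pi)
      (measurableSet_Ioi.prod measurableSet_Ioo)
      (prod_mono Ioc_subset_Ioi_self (le_refl _))]
    · refine setIntegral_congr_set ?_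
      rw [Measure.volume_eq_prod]
      exact Measure.set_prod_ae_eq (Filter.EventuallyEq.refl _ _) Ioo_ae_eq_Ioc
    · rintro p ⟨⟨hp1, hp2⟩, hp3⟩
      have h3 : R ≤ p.1 := by
        by_contra h
        exact hp3 ⟨⟨hp1, (not_le.1 h).le⟩, hp2⟩
      show -(1 / 2 : ℂ) * (fderiv ℝ V (t + p.1 * ee p.2) (ee p.2) +
          Complex.I * fderiv ℝ V (t + p.1 * ee p.2) (Complex.I * ee p.2)) = 0
      rw [hfz p.1 h3 p.2]
      simp
  -- the radial part
  have hI1 : ∫ p in Ioc (0 : ℝ) R ×ˢ Ioc (-Real.pi) Real.pi, G1 p = -(2 * Real.pi) * V t := by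
    rw [Measure.volume_eq_prod, ← setIntegral_prod_swap, setIntegral_prod _ (by
      have h := hint G1 hG1
      unfold IntegrableOn at h ⊢
      rw [Measure.volume_eq_prod, ← Measure.prod_restrict] at h
      rw [← Measure.prod_restrict]
      exact h.swap)]
    have h1 : ∀ θ : ℝ, ∫ r in Ioc (0 : ℝ) R, G1 (Prod.swap (θ, r)) = -V t := by
      intro θ
      rw [← intervalIntegral.integral_of_le hR0.le]
      have hd : ∀ r ∈ uIcc (0 : ℝ) R, HasDerivAt (fun r : ℝ => V (t + r * ee θ))
          (G1 (Prod.swap (θ, r))) r := by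
        intro r _
        have h2 : HasFDerivAt V (fderiv ℝ V (t + r * ee θ)) (t + r * ee θ) :=
          (hV.differentiable one_ne_zero _).hasFDerivAt
        have h3 : HasDerivAt (fun r : ℝ => t + (r : ℂ) * ee θ) (ee θ) r := by
          have h4 : HasDerivAt (fun s : ℝ => (s : ℂ)) 1 r := Complex.ofRealCLM.hasDerivAt
          have h5 := (h4.mul_const (ee θ)).const_add t
          rwa [one_mul] at h5
        exact h2.comp_hasDerivAt r h3
      have hcont : Continuous fun r : ℝ => G1 (Prod.swap (θ, r)) := by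
        have : Continuous fun r : ℝ => Prod.swap (θ, r) := by fun_prop
        exact hG1.comp this
      rw [intervalIntegral.integral_eq_sub_of_hasDerivAt hd (hcont.intervalIntegrable _ _), hVz]
      simp
    simp only [h1]
    rw [setIntegral_const, Measure.real, Real.volume_Ioc, ENNReal.toReal_ofReal (by
      have := Real.pi_pos; linarith)]
    rw [Complex.real_smul]
    push_cast
    ring
  -- the angular part
  have hI2 : ∫ p in Ioc (0 : ℝ) R ×ˢ Ioc (-Real.pi) Real.pi, G2 p = 0 := by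
    rw [Measure.volume_eq_prod, setIntegral_prod _ (by
      have h := hint G2 hG2
      rwa [Measure.volume_eq_prod] at h)]
    have h1 : ∀ r ∈ Ioc (0 : ℝ) R, ∫ θ in Ioc (-Real.pi) Real.pi, G2 (r, θ) = 0 := by
      intro r hr
      rw [← intervalIntegral.integral_of_le (by have := Real.pi_pos; linarith)]
      have hd : ∀ θ ∈ uIcc (-Real.pi) Real.pi, HasDerivAt (fun θ : ℝ => (r : ℂ)⁻¹ * V (t + r * ee θ))
          (G2 (r, θ)) θ := by
        intro θ _
        have h2 : HasFDerivAt V (fderiv ℝ V (t + r * ee θ)) (t + r * ee θ) :=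
          (hV.differentiable one_ne_zero _).hasFDerivAt
        have h3 : HasDerivAt (fun θ : ℝ => t + (r : ℂ) * ee θ) ((r : ℂ) * (Complex.I * ee θ)) θ :=
          ((ee_deriv θ).const_mul (r : ℂ)).const_add t
        have h4 := (h2.comp_hasDerivAt θ h3).const_mul (r : ℂ)⁻¹
        refine h4.congr_deriv ?_
        have h5 : (r : ℂ) * (Complex.I * ee θ) = r • (Complex.I * ee θ) := by
          rw [Complex.real_smul]
        have hr0 : (r : ℂ) ≠ 0 := by exact_mod_cast hr.1.ne'
        rw [h5, map_smul, Complex.real_smul, ← mul_assoc, inv_mul_cancel₀ hr0, one_mul]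
      have hcont : Continuous fun θ : ℝ => G2 (r, θ) := hG2.comp (by fun_prop)
      rw [intervalIntegral.integral_eq_sub_of_hasDerivAt hd (hcont.intervalIntegrable _ _)]
      have h6 : ee Real.pi = ee (-Real.pi) := by
        simp [ee]
      rw [h6, sub_self]
    rw [setIntegral_congr_fun measurableSet_Ioc h1]
    simp
  rw [hpol, integral_const_mul, integral_add (hint G1 hG1) ((hint G2 hG2).const_mul _),
    integral_const_mul, hI1, hI2]
  have hpi : (Real.pi : ℂ) ≠ 0 := by exact_mod_cast Real.pi_ne_zero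
  field_simp
  ring

end Pool.Agent.F194

end
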