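import Pool.Agent.Work.MP_f194bb_nt.Meas
import Pool.Agent.Work.MP_f194bb_nt.CP

/-!
# MP_f194bb_nt: local integrability of `|log ‖f‖|^k` and `|f'/f|^(3/2)`
-/

set_option autoImplicit false

open scoped ComplexConjugate ENNReal Topology
open MeasureTheory Set

noncomputable section

namespace Pool.Agent.F194

lemma log_third : Real.log (1 / 3) ≤ -1 := by
  rw [Real.log_le_iff_le_exp (by norm_num), Real.exp_neg, one_div]
  apply inv_anti₀ (Real.exp_pos 1)
  have := Real.exp_one_lt_d9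
  linarith

/-- Near a point: `log ‖f‖` is at most a multiple of `log ‖z - x‖`, `f'/f` at most a multiple of
`1/‖z - x‖`. -/
lemma local_form {f : ℂ → ℂ} {x : ℂ} (hf : MeromorphicAt f x) (h : meromorphicOrderAt f x ≠ ⊤) :
    ∃ ρ : ℝ, 0 < ρ ∧ ρ ≤ 1 / 3 ∧ ∃ C : ℝ, 0 ≤ C ∧ ∀ z ∈ Metric.ball x ρ, z ≠ x →
      |Real.log ‖f z‖| ≤ C * |Real.log ‖z - x‖| ∧ ‖deriv f z / f z‖ ≤ C * ‖z - x‖⁻¹ := by
  obtain ⟨g, hg, hg0, hfg⟩ := (meromorphicOrderAt_ne_top_iff hf).1 h
  set n := (meromorphicOrderAt f x).untop₀ with hn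
  have e1 : ∀ᶠ z in 𝓝 x, AnalyticAt ℂ g z := hg.eventually_analyticAt
  have e2 : ∀ᶠ z in 𝓝 x, g z ≠ 0 := hg.continuousAt.eventually_ne hg0
  have e3 : ∀ᶠ z in 𝓝 x, |Real.log ‖g z‖| < |Real.log ‖g x‖| + 1 := by
    have hc : ContinuousAt (fun z => |Real.log ‖g z‖|) x :=
      (hg.continuousAt.norm.log (norm_ne_zero_iff.2 hg0)).abs
    exact hc.eventually (gt_mem_nhds (lt_add_one _))
  have e4 : ∀ᶠ z in 𝓝 x, ‖deriv g z / g z‖ < ‖deriv g x / g x‖ + 1 := by
    have hc : ContinuousAt (fun z => ‖deriv g z / g z‖) x :=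
      (hg.deriv.continuousAt.div hg.continuousAt hg0).norm
    exact hc.eventually (gt_mem_nhds (lt_add_one _))
  have e5 : ∀ᶠ z in 𝓝 x, z ≠ x → f z = (z - x) ^ n • g z := by
    have := hfg
    rw [Filter.EventuallyEq, eventually_nhdsWithin_iff] at this
    exact this
  obtain ⟨ρ, hρ, hall⟩ := Metric.eventually_nhds_iff_ball.1 (e1.and (e2.and (e3.and (e4.and e5))))
  refine ⟨min ρ (1 / 3), lt_min hρ (by norm_num), min_le_right _ _,
    |(n : ℝ)| + max (|Real.log ‖g x‖| + 1) (‖deriv g x / g x‖ + 1), by positivity, ?_⟩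
  intro z hz hzx
  have hzρ : z ∈ Metric.ball x ρ := Metric.ball_subset_ball (min_le_left _ _) hz
  have hz3 : ‖z - x‖ < 1 / 3 := by
    have := Metric.mem_ball.1 hz
    rw [dist_eq_norm] at this
    exact lt_of_lt_of_le this (min_le_right _ _)
  obtain ⟨a1, a2, a3, a4, a5⟩ := hall z hzρ
  have hzx0 : z - x ≠ 0 := sub_ne_zero.2 hzx
  have hpos : 0 < ‖z - x‖ := norm_pos_iff.2 hzx0
  constructor
  · rw [a5 hzx, norm_smul, norm_zpow, Real.log_mul (zpow_ne_zero _ hpos.ne') (norm_ne_zero_iff.2 a2),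
      Real.log_zpow]
    have h1 : 1 ≤ |Real.log ‖z - x‖| := by
      have h2 : Real.log ‖z - x‖ ≤ Real.log (1 / 3) := Real.log_le_log hpos hz3.le
      have h3 := log_third
      rw [abs_of_neg (by linarith)]
      linarith
    calc |(n : ℝ) * Real.log ‖z - x‖ + Real.log ‖g z‖|
        ≤ |(n : ℝ)| * |Real.log ‖z - x‖| + |Real.log ‖g z‖| := by
          rw [← abs_mul]; exact abs_add_le _ _
      _ ≤ |(n : ℝ)| * |Real.log ‖z - x‖| + (|Real.log ‖g x‖| + 1) * |Real.log ‖z - x‖| := by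
          have : |Real.log ‖g x‖| + 1 ≤ (|Real.log ‖g x‖| + 1) * |Real.log ‖z - x‖| :=
            le_mul_of_one_le_right (by positivity) h1
          linarith
      _ ≤ _ := by
          rw [← add_mul]
          refine mul_le_mul_of_nonneg_right ?_ (abs_nonneg _)
          have := le_max_left (|Real.log ‖g x‖| + 1) (‖deriv g x / g x‖ + 1)
          linarith
  · -- derivative
    have hev : f =ᶠ[𝓝 z] fun w => (w - x) ^ n * g w := by
      have h1 : ∀ᶠ w in 𝓝 z, w ∈ Metric.ball x ρ ∧ w ≠ x :=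
        (Metric.isOpen_ball.eventually_mem hzρ).and (eventually_ne_nhds hzx)
      filter_upwards [h1] with w hw
      have := (hall w hw.1).2.2.2.2 hw.2
      rw [this, smul_eq_mul]
    have hd : HasDerivAt (fun w => (w - x) ^ n * g w)
        ((n : ℂ) * (z - x) ^ (n - 1) * 1 * g z + (z - x) ^ n * deriv g z) z := by
      have h1 : HasDerivAt (fun w : ℂ => w - x) 1 z := (hasDerivAt_id z).sub_const x
      have h2' : HasDerivAt (fun w : ℂ => w ^ n) ((n : ℂ) * (z - x) ^ (n - 1)) (z - x) :=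
        hasDerivAt_zpow n (z - x) (Or.inl hzx0)
      have h2 : HasDerivAt (fun w : ℂ => (w - x) ^ n) ((n : ℂ) * (z - x) ^ (n - 1) * 1) z :=
        HasDerivAt.comp (h := fun w : ℂ => w - x) z h2' h1
      exact h2.mul a1.differentiableAt.hasDerivAt
    have h2 : deriv f z / f z = (n : ℂ) * (z - x)⁻¹ + deriv g z / g z := by
      rw [hev.deriv_eq, hd.deriv, hev.eq_of_nhds, zpow_sub_one₀ hzx0]
      have h3 : (z - x) ^ n ≠ 0 := zpow_ne_zero _ hzx0
      field_simp
    rw [h2]
    have h1 : 1 ≤ ‖z - x‖⁻¹ := by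
      rw [one_le_inv₀ hpos]
      linarith
    calc ‖(n : ℂ) * (z - x)⁻¹ + deriv g z / g z‖ ≤ |(n : ℝ)| * ‖z - x‖⁻¹ + ‖deriv g z / g z‖ := by
          refine (norm_add_le _ _).trans (add_le_add (le_of_eq ?_) le_rfl)
          rw [norm_mul, norm_inv]
          congr 1
          rw [Complex.norm_intCast]
      _ ≤ |(n : ℝ)| * ‖z - x‖⁻¹ + (‖deriv g x / g x‖ + 1) * ‖z - x‖⁻¹ := by
          have : ‖deriv g x / g x‖ + 1 ≤ (‖deriv g x / g x‖ + 1) * ‖z - x‖⁻¹ :=
            le_mul_of_one_le_right (by positivity) h1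
          linarith
      _ ≤ _ := by
          rw [← add_mul]
          refine mul_le_mul_of_nonneg_right ?_ (by positivity)
          have := le_max_right (|Real.log ‖g x‖| + 1) (‖deriv g x / g x‖ + 1)
          linarith

/-- shifting local integrability of radial functions -/
lemma radial_shift (h : ℝ → ℝ) (x : ℂ) (ρ : ℝ)
    (hi : IntegrableOn (fun z : ℂ => h ‖z‖) (Metric.ball 0 ρ)) :
    IntegrableOn (fun z : ℂ => h ‖z - x‖) (Metric.ball x ρ) := by
  have h3 : MeasurePreserving (fun ζ : ℂ => ζ - x) volume volume :=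
    measurePreserving_sub_right volume x
  have h4 := h3.integrableOn_comp_preimage (f := fun z : ℂ => h ‖z‖)
    (s := Metric.ball (0 : ℂ) ρ) (MeasurableEquiv.subRight x).measurableEmbedding
  have h5 : (fun ζ : ℂ => ζ - x) ⁻¹' Metric.ball (0 : ℂ) ρ = Metric.ball x ρ := by
    ext ζ
    simp only [mem_preimage, Metric.mem_ball, dist_eq_norm, sub_zero]
  rw [h5] at h4
  exact h4.2 hi

lemma integrableOn_rpow_norm (x : ℂ) (ρ : ℝ) (hρ : 0 < ρ) :
    IntegrableOn (fun z : ℂ => ‖z - x‖ ^ (-(3 / 2) : ℝ)) (Metric.ball x ρ) := by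
  refine radial_shift (fun y => y ^ (-(3 / 2) : ℝ)) x ρ ?_
  refine (integrableOn_fun_norm_addHaar (volume : Measure ℂ)
    (f := fun y : ℝ => y ^ (-(3 / 2) : ℝ)) (r := ρ)).2 ?_
  rw [Complex.finrank_real_complex]
  refine ((intervalIntegral.integrableOn_Ioo_rpow_iff hρ (s := (-(1 / 2) : ℝ))).2
    (by norm_num)).congr_fun ?_ measurableSet_Ioo
  intro y hy
  have hy0 : 0 < y := hy.1
  show y ^ (-(1 / 2) : ℝ) = y ^ (2 - 1) • y ^ (-(3 / 2) : ℝ)
  rw [smul_eq_mul]
  norm_num
  nth_rewrite 2 [← Real.rpow_one y]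
  rw [← Real.rpow_add hy0]
  norm_num

lemma integrableOn_log_pow (x : ℂ) (ρ : ℝ) (hρ1 : ρ ≤ 1) (k : ℕ) :
    IntegrableOn (fun z : ℂ => |Real.log ‖z - x‖| ^ k) (Metric.ball x ρ) := by
  rcases Nat.eq_zero_or_pos k with hk | hk
  · subst hk
    simp only [pow_zero]
    exact integrableOn_const (by
      exact (Metric.isBounded_ball.measure_lt_top).ne)
  have h1 : IntegrableOn (fun z : ℂ => (k : ℝ) ^ k * ‖z - x‖⁻¹) (Metric.ball x ρ) :=
    (radial_shift (fun y => y⁻¹) x ρ (integrableOn_inv_norm ρ)).const_mul _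
  refine Integrable.mono' h1 ?_ ?_
  · have : Measurable fun z : ℂ => |Real.log ‖z - x‖| ^ k := by fun_prop
    exact this.aestronglyMeasurable
  · have h2 : ∀ᵐ z ∂(volume.restrict (Metric.ball x ρ)), z ∈ Metric.ball x ρ ∧ z ≠ x := by
      refine (ae_restrict_mem Metric.isOpen_ball.measurableSet).and ?_
      refine ae_restrict_of_ae ?_
      exact Measure.ae_ne volume x
    filter_upwards [h2] with z hz
    have hpos : 0 < ‖z - x‖ := norm_pos_iff.2 (sub_ne_zero.2 hz.2)
    have hle : ‖z - x‖ ≤ 1 := by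
      have := Metric.mem_ball.1 hz.1
      rw [dist_eq_norm] at this
      linarith
    have hk0 : (0 : ℝ) < 1 / k := by positivity
    have h3 := Real.abs_log_mul_self_rpow_lt _ _ hpos hle hk0
    rw [one_div_one_div, abs_mul, abs_of_nonneg (Real.rpow_nonneg hpos.le _)] at h3
    have h4 := pow_le_pow_left₀ (by positivity) h3.le k
    rw [mul_pow, ← Real.rpow_natCast (‖z - x‖ ^ (1 / (k : ℝ))) k, ← Real.rpow_mul hpos.le,
      one_div, inv_mul_cancel₀ (by positivity), Real.rpow_one] at h4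
    rw [Real.norm_eq_abs, abs_of_nonneg (by positivity), ← div_eq_mul_inv, le_div_iff₀ hpos]
    exact h4

/-- LOC -/
theorem loc_log (f : ℂ → ℂ) (hf : Meromorphic f) (h0 : NZ f) (k : ℕ) (r : ℝ) :
    IntegrableOn (fun z => |Real.log ‖f z‖| ^ k) (Metric.closedBall 0 r) := by
  have h : LocallyIntegrable (fun z => |Real.log ‖f z‖| ^ k) := by
    intro x
    obtain ⟨ρ, hρ, hρ3, C, hC, hall⟩ := local_form (hf x) (h0 x)
    refine ⟨Metric.ball x ρ, Metric.ball_mem_nhds x hρ, ?_⟩
    refine Integrable.mono' ((integrableOn_log_pow x ρ (by linarith) k).const_mul (C ^ k)) ?_ ?_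
    · have hm := hf.measurable
      have : Measurable fun z : ℂ => |Real.log ‖f z‖| ^ k := by fun_prop
      exact this.aestronglyMeasurable
    · have h2 : ∀ᵐ z ∂(volume.restrict (Metric.ball x ρ)), z ∈ Metric.ball x ρ ∧ z ≠ x := by
        refine (ae_restrict_mem Metric.isOpen_ball.measurableSet).and ?_
        refine ae_restrict_of_ae ?_
        exact Measure.ae_ne volume x
      filter_upwards [h2] with z hz
      rw [Real.norm_eq_abs, abs_of_nonneg (by positivity), ← mul_pow]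
      exact pow_le_pow_left₀ (abs_nonneg _) (hall z hz.1 hz.2).1 k
  exact h.integrableOn_isCompact (isCompact_closedBall 0 r)

theorem loc_q (f : ℂ → ℂ) (hf : Meromorphic f) (h0 : NZ f) (r : ℝ) :
    IntegrableOn (fun z => ‖deriv f z / f z‖ ^ (3 / 2 : ℝ)) (Metric.closedBall 0 r) := by
  have h : LocallyIntegrable (fun z => ‖deriv f z / f z‖ ^ (3 / 2 : ℝ)) := by
    intro x
    obtain ⟨ρ, hρ, hρ3, C, hC, hall⟩ := local_form (hf x) (h0 x)
    refine ⟨Metric.ball x ρ, Metric.ball_mem_nhds x hρ, ?_⟩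
    refine Integrable.mono' ((integrableOn_rpow_norm x ρ hρ).const_mul (C ^ (3 / 2 : ℝ))) ?_ ?_
    · have hm := hf.measurable
      have hd : Measurable (deriv f) := measurable_deriv f
      have : Measurable fun z : ℂ => ‖deriv f z / f z‖ ^ (3 / 2 : ℝ) := by fun_prop
      exact this.aestronglyMeasurable
    · have h2 : ∀ᵐ z ∂(volume.restrict (Metric.ball x ρ)), z ∈ Metric.ball x ρ ∧ z ≠ x := by
        refine (ae_restrict_mem Metric.isOpen_ball.measurableSet).and ?_
        refine ae_restrict_of_ae ?_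
        exact Measure.ae_ne volume x
      filter_upwards [h2] with z hz
      rw [Real.norm_eq_abs, abs_of_nonneg (by positivity)]
      have h3 := (hall z hz.1 hz.2).2
      calc ‖deriv f z / f z‖ ^ (3 / 2 : ℝ) ≤ (C * ‖z - x‖⁻¹) ^ (3 / 2 : ℝ) :=
            Real.rpow_le_rpow (norm_nonneg _) h3 (by norm_num)
        _ = C ^ (3 / 2 : ℝ) * ‖z - x‖ ^ (-(3 / 2) : ℝ) := by
            rw [Real.mul_rpow hC (by positivity), Real.rpow_neg (norm_nonneg _),
              Real.inv_rpow (norm_nonneg _)]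
  exact h.integrableOn_isCompact (isCompact_closedBall 0 r)

/-- `log ‖f‖` is in all `L^p`, locally. -/
lemma memLp_lg_ball (f : ℂ → ℂ) (hf : Meromorphic f) (h0 : NZ f) (p : ℕ) (r : ℝ) :
    MemLp (lg f) p (volume.restrict (Metric.closedBall 0 r)) := by
  have hm : Measurable (lg f) := by
    have := hf.measurable
    unfold lg
    fun_prop
  rcases Nat.eq_zero_or_pos p with hp | hp
  · subst hp
    rw [Nat.cast_zero, memLp_zero_iff_aestronglyMeasurable]
    exact hm.aestronglyMeasurable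
  · rw [← integrable_norm_rpow_iff hm.aestronglyMeasurable (by
      exact_mod_cast hp.ne') (ENNReal.natCast_ne_top p)]
    have h1 := loc_log f hf h0 p r
    refine h1.congr (Filter.Eventually.of_forall fun z => ?_)
    show |Real.log ‖f z‖| ^ p = ‖lg f z‖ ^ ((p : ℝ≥0∞).toReal)
    rw [lg, Complex.norm_real, Real.norm_eq_abs, ENNReal.toReal_natCast, Real.rpow_natCast]

theorem memLp_lg (L : PeriodPair) (f : ℂ → ℂ) (hf : Meromorphic f) (h0 : NZ f) (p : ℕ) :
    MemLp (tor L (lg f)) p := (memLp_tor L _ _ (memLp_lg_ball f hf h0 p _)).2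

lemma memLp_qq_ball (f : ℂ → ℂ) (c : ℂ) (hf : Meromorphic f) (h0 : NZ fun z => f z - c) (r : ℝ) :
    MemLp (qq f c) (3 / 2) (volume.restrict (Metric.closedBall 0 r)) := by
  have hfc : Meromorphic (fun z => f z - c) := hf.sub (Meromorphic.const c)
  have hd : deriv (fun z => f z - c) = deriv f := by
    funext z
    exact deriv_sub_const c
  have hm : Measurable (qq f c) := by
    have h1 := hf.measurable
    have h2 : Measurable (deriv f) := measurable_deriv f
    unfold qq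
    fun_prop
  have h32 : ((3 / 2 : ℝ≥0∞)).toReal = 3 / 2 := by
    rw [ENNReal.toReal_div]
    norm_num
  rw [← integrable_norm_rpow_iff hm.aestronglyMeasurable (by norm_num)
    (ENNReal.div_ne_top (by norm_num) (by norm_num)), h32]
  have h1 := loc_q _ hfc h0 r
  rw [hd] at h1
  exact h1

theorem memLp_qq (L : PeriodPair) (f : ℂ → ℂ) (c : ℂ) (hf : Meromorphic f)
    (h0 : NZ fun z => f z - c) : MemLp (tor L (qq f c)) (3 / 2) :=
  (memLp_tor L _ _ (memLp_qq_ball f c hf h0 _)).2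

end Pool.Agent.F194

end
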