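import Pool.Agent.Work.MP_f194bb_nt.Fold
import Pool.Agent.Work.MP_f194bb_nt.Dist
import Pool.Agent.Work.MP_f194bb_nt.Loc

/-!
# MP_f194bb_nt: the Fourier coefficients of `f'/f` and of `log ‖f‖`
-/

set_option autoImplicit false

open scoped ComplexConjugate ENNReal Topology
open MeasureTheory Set

noncomputable section

namespace Pool.Agent.F194

/-- the exponent of the character -/
def chiArg (L : PeriodPair) (γ : ℂ) : ℂ →L[ℝ] ℂ :=
  (areaA L)⁻¹ • ((conj γ) • (ContinuousLinearMap.id ℝ ℂ) - γ • (Complex.conjCLE : ℂ →L[ℝ] ℂ))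

lemma chiArg_apply (L : PeriodPair) (γ z : ℂ) :
    chiArg L γ z = (areaA L)⁻¹ * (z * conj γ - conj z * γ) := by
  show (areaA L)⁻¹ * (conj γ * z - γ * conj z) = _
  ring

lemma chi_hasFDerivAt (L : PeriodPair) (γ z : ℂ) :
    HasFDerivAt (fun z => chi L z γ) (chi L z γ • chiArg L γ) z := by
  have h1 : HasFDerivAt (fun z => chiArg L γ z) (chiArg L γ) z := (chiArg L γ).hasFDerivAt
  have h2 := h1.cexp
  have h3 : (fun z => chi L z γ) = fun z => Complex.exp (chiArg L γ z) := by
    funext w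
    rw [chiArg_apply]
    rfl
  rw [h3, show chi L z γ = Complex.exp (chiArg L γ z) from congrFun h3 z]
  exact h2

lemma chi_contDiff (L : PeriodPair) (γ : ℂ) {n : WithTop ℕ∞} : ContDiff ℝ n fun z => chi L z γ := by
  have h3 : (fun z => chi L z γ) = fun z => Complex.exp (chiArg L γ z) := by
    funext w
    rw [chiArg_apply]
    rfl
  rw [h3]
  exact (chiArg L γ).contDiff.cexp

lemma chi_fderiv (L : PeriodPair) (γ z w : ℂ) :
    fderiv ℝ (fun z => chi L z γ) z w =
      chi L z γ * ((areaA L)⁻¹ * (w * conj γ - conj w * γ)) := by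
  rw [(chi_hasFDerivAt L γ z).fderiv, smul_apply, chiArg_apply, smul_eq_mul]

lemma chi_dbar (L : PeriodPair) (γ z : ℂ) :
    dbar (fun z => chi L z γ) z = -((areaA L)⁻¹ * γ) * chi L z γ := by
  rw [dbar, chi_fderiv, chi_fderiv, map_one, Complex.conj_I]
  linear_combination (-(chi L z γ) * (areaA L)⁻¹ * (-(conj γ) - γ) / 2) * Complex.I_mul_I

lemma chi_dd (L : PeriodPair) (γ z : ℂ) :
    dd (fun z => chi L z γ) z = (areaA L)⁻¹ * conj γ * chi L z γ := by
  rw [dd, chi_fderiv, chi_fderiv, map_one, Complex.conj_I]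
  linear_combination (-(chi L z γ) * (areaA L)⁻¹ * (conj γ + γ) / 2) * Complex.I_mul_I

lemma chi_per (L : PeriodPair) (γ : L.lattice) : Per L fun z => chi L z γ := by
  intro l z
  show chi L (z + l) γ = chi L z γ
  obtain ⟨x, rfl⟩ := exists_coord L z
  have h1 : (l : ℂ) = E L ![-((crd L l 1 : ℤ) : ℝ), ((crd L l 0 : ℤ) : ℝ)] := by
    rw [coe_eq L l, E]
    simp
  have h2 : E L x + (l : ℂ) = E L (x + ![-((crd L l 1 : ℤ) : ℝ), ((crd L l 0 : ℤ) : ℝ)]) := by
    rw [h1]
    simp only [E, Pi.add_apply]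
    push_cast
    ring
  rw [h2, chi_E, chi_E]
  congr 1
  funext i
  have hz : ∀ n : ℤ, ((n : ℝ) : UnitAddCircle) = 0 := by
    intro n
    rw [AddCircle.coe_eq_zero_iff]
    exact ⟨n, by simp⟩
  fin_cases i
  · show ((x 0 + -((crd L l 1 : ℤ) : ℝ) : ℝ) : UnitAddCircle) = (x 0 : UnitAddCircle)
    have := hz (-(crd L l 1))
    push_cast at this
    rw [AddCircle.coe_add, this, add_zero]
  · show ((x 1 + ((crd L l 0 : ℤ) : ℝ) : ℝ) : UnitAddCircle) = (x 1 : UnitAddCircle)
    rw [AddCircle.coe_add, hz, add_zero]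

lemma chi_norm (L : PeriodPair) (z γ : ℂ) : ‖chi L z γ‖ = 1 := norm_chi L z γ

/-- the test function -/
lemma test_dbar (L : PeriodPair) (γ z : ℂ) :
    dbar (fun z => (tens L beta beta z : ℂ) * chi L z γ) z =
      (tens L beta beta z : ℂ) * (-((areaA L)⁻¹ * γ) * chi L z γ) +
      ((tens L (deriv beta) beta z : ℂ) * (((co L 0 1 + Complex.I * co L 0 Complex.I) / 2) *
        chi L z γ) +
      (tens L beta (deriv beta) z : ℂ) * (((co L 1 1 + Complex.I * co L 1 Complex.I) / 2) *
        chi L z γ)) := by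
  have hb : ∀ s, HasDerivAt beta (deriv beta s) s := fun s =>
    (beta_smooth.differentiable (by norm_num) s).hasDerivAt
  have h0 : HasFDerivAt (fun z => beta (co L 0 z)) (deriv beta (co L 0 z) • co L 0) z :=
    (hb _).comp_hasFDerivAt z (co L 0).hasFDerivAt
  have h1 : HasFDerivAt (fun z => beta (co L 1 z)) (deriv beta (co L 1 z) • co L 1) z :=
    (hb _).comp_hasFDerivAt z (co L 1).hasFDerivAt
  have h2 := h0.mul h1
  have h3 : HasFDerivAt (fun z => (tens L beta beta z : ℂ))
      (Complex.ofRealCLM.comp (beta (co L 0 z) • (deriv beta (co L 1 z) • co L 1) +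
        beta (co L 1 z) • (deriv beta (co L 0 z) • co L 0))) z :=
    Complex.ofRealCLM.hasFDerivAt.comp z h2
  have h4 := h3.mul (chi_hasFDerivAt L γ z)
  have h5 : ∀ w, fderiv ℝ (fun z => (tens L beta beta z : ℂ) * chi L z γ) z w =
      (tens L beta beta z : ℂ) * (chi L z γ * ((areaA L)⁻¹ * (w * conj γ - conj w * γ))) +
      chi L z γ * ((beta (co L 0 z) * (deriv beta (co L 1 z) * co L 1 w) +
        beta (co L 1 z) * (deriv beta (co L 0 z) * co L 0 w) : ℝ) : ℂ) := by
    intro w
    have h6 : fderiv ℝ (fun z => (tens L beta beta z : ℂ) * chi L z γ) z = _ := h4.fderiv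
    rw [h6]
    simp only [add_apply, smul_apply, smul_eq_mul,
      chiArg_apply, ContinuousLinearMap.comp_apply, Complex.ofRealCLM_apply]
  rw [dbar, h5, h5, map_one, Complex.conj_I]
  simp only [tens]
  push_cast
  linear_combination (-(beta (co L 0 z) * beta (co L 1 z) * chi L z γ) * (areaA L)⁻¹ *
    (-(conj γ) - γ) / 2) * Complex.I_mul_I

lemma tens_contDiff (L : PeriodPair) : ContDiff ℝ 1 (fun z => (tens L beta beta z : ℂ)) := by
  have h : ContDiff ℝ 1 beta := beta_smooth.of_le (by norm_num)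
  have h1 : ContDiff ℝ 1 (tens L beta beta) := by
    unfold tens
    exact (h.comp (co L 0).contDiff).mul (h.comp (co L 1).contDiff)
  exact Complex.ofRealCLM.contDiff.comp h1

lemma q_eq (f : ℂ → ℂ) : qq f 0 = fun z => deriv f z / f z := by
  funext z
  rw [qq, sub_zero]

lemma q_per (L : PeriodPair) {f : ℂ → ℂ} (hper : Per L f) : Per L fun z => deriv f z / f z := by
  intro l z
  have h1 : (fun w => f (w + l)) = f := funext fun w => hper l w
  have h2 : deriv f (z + l) = deriv f z := by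
    rw [← deriv_comp_add_const, h1]
  show deriv f (z + l) / f (z + l) = deriv f z / f z
  rw [h2, hper l z]

lemma q_int {f : ℂ → ℂ} (hf : Meromorphic f) (h0 : NZ f) (r : ℝ) :
    IntegrableOn (fun z => deriv f z / f z) (Metric.closedBall 0 r) := by
  have h1 : NZ fun z => f z - 0 := by simpa only [sub_zero] using h0
  have h2 := memLp_qq_ball f 0 hf h1 r
  rw [q_eq] at h2
  have : IsFiniteMeasure (volume.restrict (Metric.closedBall (0 : ℂ) r)) :=
    ⟨by rw [Measure.restrict_apply_univ]; exact measure_closedBall_lt_top⟩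
  exact h2.integrable (by
    rw [ENNReal.le_div_iff_mul_le (by norm_num) (by norm_num)]
    norm_num)

lemma lg_int {f : ℂ → ℂ} (hf : Meromorphic f) (h0 : NZ f) (r : ℝ) :
    IntegrableOn (lg f) (Metric.closedBall 0 r) := by
  have h2 := memLp_lg_ball f hf h0 1 r
  rw [Nat.cast_one] at h2
  exact memLp_one_iff_integrable.1 h2

lemma chi_mul_int (L : PeriodPair) (γ : ℂ) {F : ℂ → ℂ} {s : Set ℂ} (h : IntegrableOn F s) :
    IntegrableOn (fun z => F z * chi L z γ) s := by
  refine Integrable.mul_bdd (c := 1) h ?_ ?_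
  · exact (chi_contDiff L γ (n := 0)).continuous.aestronglyMeasurable
  · exact Filter.Eventually.of_forall fun z => (chi_norm L z γ).le

theorem four_q (L : PeriodPair) (f : ℂ → ℂ) (hf : Meromorphic f) (h0 : NZ f) (hper : Per L f)
    (γ : L.lattice) (hγ : γ ≠ 0) :
    mean L (fun z => deriv f z / f z * chi L z γ) =
      Real.pi * areaA L / vol L * (pr L (dv f) γ / γ) := by
  set Ψ : ℂ → ℂ := fun z => (tens L beta beta z : ℂ) * chi L z γ with hΨdef
  have hΨ : ContDiff ℝ 1 Ψ := (tens_contDiff L).mul (chi_contDiff L γ)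
  have hΨc : HasCompactSupport Ψ := by
    refine HasCompactSupport.intro (isCompact_closedBall (0 : ℂ) (‖L.ω₁‖ + ‖L.ω₂‖)) fun z hz => ?_
    rw [hΨdef]
    show (tens L beta beta z : ℂ) * chi L z γ = 0
    rw [tens_supp L unf_beta unf_beta z hz]
    simp
  have h1 := dist_q f hf h0 Ψ hΨ hΨc
  -- the right hand side
  have hDper : Per L fun x => (dv f x : ℂ) * chi L x γ := by
    intro l z
    have h2 : chi L (z + l) γ = chi L z γ := chi_per L γ l z
    show (dv f (z + l) : ℂ) * chi L (z + l) γ = (dv f z : ℂ) * chi L z γ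
    rw [dv_per L hper, h2]
  have hR : ∑ᶠ x, (dv f x : ℂ) * Ψ x = pr L (dv f) γ := by
    have h2 := unfold_sum L (fun x => (dv f x : ℂ) * chi L x γ) hDper
      ((dv_fin hf _).subset fun x hx => ⟨hx.1, fun h => hx.2 (by
        show (dv f x : ℂ) * chi L x γ = 0
        rw [h]; simp)⟩)
    rw [pr, ← h2]
    refine finsum_congr fun x => ?_
    rw [hΨdef]
    ring
  -- the left hand side
  set F : ℂ → ℂ := fun z => deriv f z / f z * chi L z γ with hF
  have hFper : Per L F := by
    intro l z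
    have h2 : chi L (z + l) γ = chi L z γ := chi_per L γ l z
    have h3 : deriv f (z + l) / f (z + l) = deriv f z / f z := q_per L hper l z
    show deriv f (z + l) / f (z + l) * chi L (z + l) γ = deriv f z / f z * chi L z γ
    rw [h2, h3]
  have hFint : ∀ r, IntegrableOn F (Metric.closedBall 0 r) := fun r =>
    chi_mul_int L γ (q_int hf h0 r)
  set c0 : ℂ := (co L 0 1 + Complex.I * co L 0 Complex.I) / 2 with hc0
  set c1 : ℂ := (co L 1 1 + Complex.I * co L 1 Complex.I) / 2 with hc1
  have hL : ∫ z, deriv f z / f z * dbar Ψ z = -((areaA L)⁻¹ * γ) * (vol L * mean L F) := by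
    have h2 : ∀ z, deriv f z / f z * dbar Ψ z =
        -((areaA L)⁻¹ * γ) * ((tens L beta beta z : ℂ) * F z) +
        (c0 * ((tens L (deriv beta) beta z : ℂ) * F z) +
          c1 * ((tens L beta (deriv beta) z : ℂ) * F z)) := by
      intro z
      rw [hΨdef, test_dbar, hF]
      ring
    have i1 := tens_mul_integrable L unf_beta unf_beta F hFint
    have i2 := tens_mul_integrable L unf_dbeta unf_beta F hFint
    have i3 := tens_mul_integrable L unf_beta unf_dbeta F hFint
    have i4 : Integrable fun z => c0 * ((tens L (deriv beta) beta z : ℂ) * F z) +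
        c1 * ((tens L beta (deriv beta) z : ℂ) * F z) := (i2.const_mul _).add (i3.const_mul _)
    simp only [h2]
    rw [integral_add (i1.const_mul _) i4,
      integral_add (i2.const_mul _) (i3.const_mul _), integral_const_mul, integral_const_mul,
      integral_const_mul, unfold_C L unf_beta unf_beta F hFper hFint,
      unfold_C L unf_dbeta unf_beta F hFper hFint, unfold_C L unf_beta unf_dbeta F hFper hFint]
    push_cast
    ring
  rw [hL, hR] at h1
  have hγ0 : (γ : ℂ) ≠ 0 := fun h => hγ (Subtype.ext h)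
  have hA := areaA_ne_zero L
  have hv : (vol L : ℂ) ≠ 0 := by exact_mod_cast (vol_pos L).ne'
  have h3 : (γ : ℂ) * (vol L * mean L F) = Real.pi * pr L (dv f) γ * areaA L := by
    have h4 : (areaA L)⁻¹ * γ * (vol L * mean L F) = Real.pi * pr L (dv f) γ := by
      linear_combination -h1
    rw [← h4]
    field_simp
  show mean L F = _
  rw [div_mul_div_comm, eq_div_iff (mul_ne_zero hv hγ0)]
  linear_combination h3

/-- the set where `f` is analytic and does not vanish has countable complement -/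
lemma bad_countable {f : ℂ → ℂ} (hf : Meromorphic f) (h0 : NZ f) :
    {z | ¬ (AnalyticAt ℂ f z ∧ f z ≠ 0)}.Countable := by
  have h1 : {z | AnalyticAt ℂ f z}ᶜ.Countable := hf.countable_compl_analyticAt
  have h2 : Meromorphic f⁻¹ := hf.inv
  have h3 : {z | AnalyticAt ℂ f⁻¹ z}ᶜ.Countable := h2.countable_compl_analyticAt
  refine (h1.union h3).mono ?_
  intro z hz
  by_contra h
  rw [mem_union, not_or, notMem_compl_iff, notMem_compl_iff] at h
  obtain ⟨ha, hb⟩ := h
  apply hz
  refine ⟨ha, fun h5 => ?_⟩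
  have h6 : f⁻¹ z = 0 := by rw [Pi.inv_apply, h5, inv_zero]
  have c1 : Filter.Tendsto f (𝓝[≠] z) (𝓝 0) := by
    have := ha.continuousAt.tendsto
    rw [h5] at this
    exact this.mono_left nhdsWithin_le_nhds
  have c2 : Filter.Tendsto f⁻¹ (𝓝[≠] z) (𝓝 0) := by
    have := hb.continuousAt.tendsto
    rw [h6] at this
    exact this.mono_left nhdsWithin_le_nhds
  have c3 : Filter.Tendsto (fun w => f w * f⁻¹ w) (𝓝[≠] z) (𝓝 (0 * 0)) := c1.mul c2
  have c4 : ∀ᶠ w in 𝓝[≠] z, f w ≠ 0 := by
    rcases ha.eventually_eq_zero_or_eventually_ne_zero with h | h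
    · exfalso
      apply h0 z
      rw [meromorphicOrderAt_eq_top_iff]
      exact h.filter_mono nhdsWithin_le_nhds
    · exact h
  have c5 : Filter.Tendsto (fun w => f w * f⁻¹ w) (𝓝[≠] z) (𝓝 1) := by
    refine tendsto_const_nhds.congr' ?_
    filter_upwards [c4] with w hw
    rw [Pi.inv_apply, mul_inv_cancel₀ hw]
  have := tendsto_nhds_unique c3 c5
  simp at this

lemma E_ae (L : PeriodPair) {S : Set ℂ} (hS : S.Countable) :
    ∀ᵐ x ∂(volume.restrict box), E L x ∉ S := by
  refine ae_restrict_of_ae ?_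
  have h : (E L ⁻¹' S).Countable := hS.preimage (E_injective L)
  exact h.ae_notMem _

lemma lg_hasFDerivAt {f : ℂ → ℂ} {z : ℂ} (ha : AnalyticAt ℂ f z) (hz : f z ≠ 0) :
    ∃ D : ℂ →L[ℝ] ℂ, HasFDerivAt (lg f) D z ∧ ContDiffAt ℝ 1 (lg f) z ∧
      ∀ w, D w = (((deriv f z / f z * w).re : ℝ) : ℂ) := by
  have hfR : HasFDerivAt f ((deriv f z • (1 : ℂ →L[ℂ] ℂ)).restrictScalars ℝ) z :=
    ha.differentiableAt.hasDerivAt.complexToReal_fderiv
  have h1 := hfR.norm_sq
  have hn : ‖f z‖ ^ 2 ≠ 0 := pow_ne_zero _ (norm_ne_zero_iff.2 hz)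
  have h2 := (h1.log hn).const_mul (1 / 2 : ℝ)
  have h3 := Complex.ofRealCLM.hasFDerivAt.comp z h2
  have he : lg f = ⇑Complex.ofRealCLM ∘ fun x => (1 / 2 : ℝ) * Real.log (‖f x‖ ^ 2) := by
    funext w
    simp only [lg, Function.comp_apply, Complex.ofRealCLM_apply, Real.log_pow]
    push_cast
    ring
  rw [← he] at h3
  refine ⟨_, h3, ?_, ?_⟩
  · have hfc : ContDiffAt ℝ 1 f z := (ha.contDiffAt (n := 1)).restrict_scalars ℝ
    have h4 : ContDiffAt ℝ 1 (fun w => ‖f w‖) z := hfc.norm ℝ hz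
    have h5 : ContDiffAt ℝ 1 (fun w => Real.log ‖f w‖) z := h4.log (norm_ne_zero_iff.2 hz)
    exact Complex.ofRealCLM.contDiff.contDiffAt.comp z h5
  · intro w
    simp only [ContinuousLinearMap.comp_apply, smul_apply, Complex.ofRealCLM_apply, smul_eq_mul,
      nsmul_eq_mul, innerSL_apply_apply]
    congr 1
    rw [Complex.inner]
    have h5 : (‖f z‖ : ℝ) ^ 2 = Complex.normSq (f z) := (Complex.normSq_eq_norm_sq _).symm
    have h6 : deriv f z / f z * w = (deriv f z * w) * conj (f z) / (Complex.normSq (f z) : ℂ) := by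
      have h7 : (Complex.normSq (f z) : ℂ) ≠ 0 := by
        exact_mod_cast (Complex.normSq_pos.2 hz).ne'
      rw [eq_div_iff h7, ← Complex.mul_conj]
      field_simp
    rw [h6, h5, Complex.div_ofReal_re]
    simp
    ring

lemma int_box (L : PeriodPair) {F : ℂ → ℂ} (h : ∀ r, IntegrableOn F (Metric.closedBall 0 r)) :
    IntegrableOn (fun x => F (E L x)) box :=
  memLp_one_iff_integrable.1 (memLp_tor L F 1 (memLp_one_iff_integrable.2 (h _))).1

lemma lg_per (L : PeriodPair) {f : ℂ → ℂ} (hper : Per L f) : Per L (lg f) := by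
  intro l z
  show ((Real.log ‖f (z + l)‖ : ℝ) : ℂ) = _
  rw [hper l z]
  rfl

theorem four_log (L : PeriodPair) (f : ℂ → ℂ) (hf : Meromorphic f) (h0 : NZ f) (hper : Per L f)
    (γ : L.lattice) (hγ : γ ≠ 0) :
    mean L (fun z => lg f z * chi L z γ) =
      -(Real.pi * areaA L ^ 2 / (2 * vol L)) * (pr L (dv f) γ / ‖(γ : ℂ)‖ ^ 2) := by
  set F : ℂ → ℂ := fun z => lg f z * chi L z γ with hF
  set S : Set ℂ := {z | ¬ (AnalyticAt ℂ f z ∧ f z ≠ 0)} with hS
  have hSc : S.Countable := bad_countable hf h0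
  have hFper : Per L F := by
    intro l z
    have h2 : chi L (z + l) γ = chi L z γ := chi_per L γ l z
    show lg f (z + l) * chi L (z + l) γ = lg f z * chi L z γ
    rw [h2, lg_per L hper l z]
  have hgood : ∀ z, z ∉ S → ContDiffAt ℝ 1 F z ∧ ∀ w, fderiv ℝ F z w =
      lg f z * (chi L z γ * chiArg L γ w) + chi L z γ * (((deriv f z / f z * w).re : ℝ) : ℂ) := by
    intro z hz
    rw [hS, Set.mem_ofPred_eq, not_not] at hz
    obtain ⟨D, h1, h2, h3⟩ := lg_hasFDerivAt hz.1 hz.2
    refine ⟨h2.mul (chi_contDiff L γ).contDiffAt, fun w => ?_⟩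
    have h4 : fderiv ℝ F z = _ := (h1.mul (chi_hasFDerivAt L γ z)).fderiv
    rw [h4]
    simp only [add_apply, smul_apply, smul_eq_mul, h3]
  have iq := int_box L fun r => q_int hf h0 r
  have il := int_box L fun r => lg_int hf h0 r
  have hb : ∀ z, z ∉ S → ∀ w, ‖fderiv ℝ F z w‖ ≤
      (‖deriv f z / f z‖ + ‖lg f z‖ * ‖chiArg L γ‖) * ‖w‖ := by
    intro z hz w
    rw [(hgood z hz).2 w]
    refine (norm_add_le _ _).trans ?_
    rw [norm_mul, norm_mul, norm_mul, chi_norm, one_mul, one_mul, Complex.norm_real,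
      Real.norm_eq_abs]
    have h1 : |(deriv f z / f z * w).re| ≤ ‖deriv f z / f z‖ * ‖w‖ := by
      refine (Complex.abs_re_le_norm _).trans ?_
      rw [norm_mul]
    have h2 : ‖lg f z‖ * ‖chiArg L γ w‖ ≤ ‖lg f z‖ * (‖chiArg L γ‖ * ‖w‖) :=
      mul_le_mul_of_nonneg_left ((chiArg L γ).le_opNorm w) (norm_nonneg _)
    linarith
  have hint : IntegrableOn (fun x => ‖fderiv ℝ F (E L x)‖) box := by
    refine Integrable.mono' (iq.norm.add (il.norm.mul_const ‖chiArg L γ‖)) ?_ ?_
    · have : Measurable fun x => ‖fderiv ℝ F (E L x)‖ :=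
        ((measurable_fderiv ℝ F).comp (continuous_E L).measurable).norm
      exact this.aestronglyMeasurable
    · filter_upwards [E_ae L hSc] with x hx
      rw [norm_norm]
      exact ContinuousLinearMap.opNorm_le_bound _
        (add_nonneg (norm_nonneg _) (mul_nonneg (norm_nonneg _) (norm_nonneg _))) (hb _ hx)
  have hiw : ∀ w, IntegrableOn (fun x => fderiv ℝ F (E L x) w) box := by
    intro w
    refine Integrable.mono' (hint.mul_const ‖w‖) ?_ ?_
    · have : Measurable fun x => fderiv ℝ F (E L x) w :=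
        (measurable_fderiv_apply_const ℝ F w).comp (continuous_E L).measurable
      exact this.aestronglyMeasurable
    · exact Filter.Eventually.of_forall fun x => (fderiv ℝ F (E L x)).le_opNorm w
  have hm := fun w => mean_fderiv L F hFper S hSc (fun z hz => (hgood z hz).1) hint w
  have hcomb : mean L (fun z => fderiv ℝ F z 1 - Complex.I * fderiv ℝ F z Complex.I) = 0 := by
    have h1 : mean L (fun z => fderiv ℝ F z 1 - Complex.I * fderiv ℝ F z Complex.I) =
        mean L (fun z => fderiv ℝ F z 1) - Complex.I * mean L (fun z => fderiv ℝ F z Complex.I) := by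
      unfold mean
      rw [integral_sub (hiw 1) ((hiw Complex.I).const_mul _), integral_const_mul]
    rw [h1, hm, hm]
    simp
  have hae : mean L (fun z => fderiv ℝ F z 1 - Complex.I * fderiv ℝ F z Complex.I) =
      mean L (fun z => deriv f z / f z * chi L z γ) +
        2 * ((areaA L)⁻¹ * conj (γ : ℂ)) * mean L F := by
    unfold mean
    have hq2 := int_box L fun r => chi_mul_int L γ (q_int hf h0 r)
    have hl2 := int_box L fun r => chi_mul_int L γ (lg_int hf h0 r)
    rw [← integral_const_mul, ← integral_add hq2 (hl2.const_mul _)]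
    refine integral_congr_ae ?_
    filter_upwards [E_ae L hSc] with x hx
    rw [(hgood _ hx).2, (hgood _ hx).2, chiArg_apply, chiArg_apply, map_one, Complex.conj_I, mul_one]
    have h5 : (((deriv f (E L x) / f (E L x)).re : ℝ) : ℂ) -
        Complex.I * (((deriv f (E L x) / f (E L x) * Complex.I).re : ℝ) : ℂ) =
        deriv f (E L x) / f (E L x) := by
      apply Complex.ext <;> simp
    have h6 : ∀ a b c d e : ℂ, a * (c * b) + c * d - Complex.I * (a * (c * e) +
        c * (((deriv f (E L x) / f (E L x) * Complex.I).re : ℝ) : ℂ)) =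
        a * c * (b - Complex.I * e) + c * (d - Complex.I *
          (((deriv f (E L x) / f (E L x) * Complex.I).re : ℝ) : ℂ)) := by
      intros
      ring
    rw [h6, h5]
    show _ = deriv f (E L x) / f (E L x) * chi L (E L x) γ +
      2 * ((areaA L)⁻¹ * conj (γ : ℂ)) * (lg f (E L x) * chi L (E L x) γ)
    linear_combination (-(lg f (E L x) * chi L (E L x) γ) * (areaA L)⁻¹ * (conj (γ : ℂ) + γ)) *
      Complex.I_mul_I
  rw [hcomb, four_q L f hf h0 hper γ hγ] at hae
  have hγ0 : (γ : ℂ) ≠ 0 := fun h => hγ (Subtype.ext h)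
  have hγc : conj (γ : ℂ) ≠ 0 := by
    rw [Ne, map_eq_zero]
    exact hγ0
  have hA := areaA_ne_zero L
  have hv : (vol L : ℂ) ≠ 0 := by exact_mod_cast (vol_pos L).ne'
  have hn : ((‖(γ : ℂ)‖ : ℝ) : ℂ) ^ 2 = γ * conj (γ : ℂ) := by
    rw [Complex.mul_conj, Complex.normSq_eq_norm_sq]
    push_cast
    rfl
  rw [hn]
  field_simp at hae ⊢
  linear_combination -hae

end Pool.Agent.F194

end
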