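import Pool.Agent.Work.MP_f194bb_nt.Torus

/-!
# MP_f194bb_nt: means of derivatives of periodic functions
-/

set_option autoImplicit false

open scoped ComplexConjugate
open MeasureTheory Set

noncomputable section

namespace Pool.Agent.F194

/-- an integral over the box as an integral over a product -/
lemma box_integral (G : ℝ → ℝ → ℂ) :
    ∫ x in box, G (x 0) (x 1) = ∫ p in Ioc (0 : ℝ) 1 ×ˢ Ioc (0 : ℝ) 1, G p.1 p.2 := by
  have h := (volume_preserving_finTwoArrow ℝ).setIntegral_preimage_emb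
    (MeasurableEquiv.measurableEmbedding _) (fun p : ℝ × ℝ => G p.1 p.2)
    (Ioc (0 : ℝ) 1 ×ˢ Ioc (0 : ℝ) 1)
  rw [← h]
  congr 2
  ext x
  simp only [box, mem_pi, mem_univ, true_implies, Fin.forall_fin_two, mem_preimage, mem_prod]
  rfl

lemma box_integrable (G : ℝ → ℝ → ℂ) :
    IntegrableOn (fun x : Fin 2 → ℝ => G (x 0) (x 1)) box ↔
      IntegrableOn (fun p : ℝ × ℝ => G p.1 p.2) (Ioc (0 : ℝ) 1 ×ˢ Ioc (0 : ℝ) 1) := by
  have h := (volume_preserving_finTwoArrow ℝ).integrableOn_comp_preimage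
    (MeasurableEquiv.measurableEmbedding _) (f := fun p : ℝ × ℝ => G p.1 p.2)
    (s := Ioc (0 : ℝ) 1 ×ˢ Ioc (0 : ℝ) 1)
  rw [← h]
  have hb : (MeasurableEquiv.finTwoArrow : (Fin 2 → ℝ) ≃ᵐ ℝ × ℝ) ⁻¹'
      (Ioc (0 : ℝ) 1 ×ˢ Ioc (0 : ℝ) 1) = box := by
    ext x
    simp only [box, mem_pi, mem_univ, true_implies, Fin.forall_fin_two, mem_preimage, mem_prod]
    rfl
  rw [hb]
  rfl

lemma continuous_E (L : PeriodPair) : Continuous (E L) := by
  unfold E
  fun_prop

lemma measurableSet_box : MeasurableSet box :=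
  MeasurableSet.univ_pi fun _ => measurableSet_Ioc

lemma per_one (L : PeriodPair) {F : ℂ → ℂ} (h : Per L F) (z : ℂ) : F (z + L.ω₁) = F z :=
  h ⟨L.ω₁, L.ω₁_mem_lattice⟩ z

lemma per_two (L : PeriodPair) {F : ℂ → ℂ} (h : Per L F) (z : ℂ) : F (z + L.ω₂) = F z :=
  h ⟨L.ω₂, L.ω₂_mem_lattice⟩ z

lemma dir_core (u v : ℂ) (F : ℂ → ℂ) (hu : ∀ z, F (z + u) = F z) (T : Set ℝ) (hT : T.Countable)
    (hF : ∀ t ∉ T, ∀ s : ℝ, ContDiffAt ℝ 1 F (t * v + s * u))
    (hint : IntegrableOn (fun p : ℝ × ℝ => fderiv ℝ F (p.1 * v + p.2 * u) u)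
      (Ioc (0 : ℝ) 1 ×ˢ Ioc (0 : ℝ) 1)) :
    ∫ p in Ioc (0 : ℝ) 1 ×ˢ Ioc (0 : ℝ) 1, fderiv ℝ F ((p : ℝ × ℝ).1 * v + p.2 * u) u = 0 := by
  rw [Measure.volume_eq_prod, setIntegral_prod _ (by rwa [Measure.volume_eq_prod] at hint)]
  have h0 : ∀ᵐ t : ℝ ∂(volume.restrict (Ioc (0 : ℝ) 1)),
      (∫ s in Ioc (0 : ℝ) 1, fderiv ℝ F (t * v + s * u) u) = 0 := by
    have h1 : ∀ᵐ t : ℝ ∂(volume.restrict (Ioc (0 : ℝ) 1)), t ∉ T :=
      ae_restrict_of_ae (by
        rw [ae_iff]
        simp only [not_not]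
        exact hT.measure_zero _)
    filter_upwards [h1] with t ht
    rw [← intervalIntegral.integral_of_le zero_le_one]
    have hd : ∀ s ∈ uIcc (0 : ℝ) 1, HasDerivAt (fun s : ℝ => F (t * v + s * u))
        (fderiv ℝ F (t * v + s * u) u) s := by
      intro s _
      have h2 : HasFDerivAt F (fderiv ℝ F (t * v + s * u)) (t * v + s * u) :=
        ((hF t ht s).differentiableAt one_ne_zero).hasFDerivAt
      have h3 : HasDerivAt (fun s : ℝ => (t : ℂ) * v + (s : ℂ) * u) u s := by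
        have h4 : HasDerivAt (fun s : ℝ => (s : ℂ)) 1 s := Complex.ofRealCLM.hasDerivAt
        have h5 := (h4.mul_const u).const_add ((t : ℂ) * v)
        rwa [one_mul] at h5
      exact h2.comp_hasDerivAt s h3
    have hc : ContinuousOn (fun s : ℝ => fderiv ℝ F (t * v + s * u) u) (uIcc (0 : ℝ) 1) := by
      intro s _
      apply ContinuousAt.continuousWithinAt
      have h2 : ContinuousAt (fderiv ℝ F) (t * v + s * u) :=
        (hF t ht s).continuousAt_fderiv one_ne_zero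
      have h3 : ContinuousAt (fun s : ℝ => (t : ℂ) * v + (s : ℂ) * u) s := by fun_prop
      exact (ContinuousAt.comp (f := fun s : ℝ => (t : ℂ) * v + (s : ℂ) * u) h2 h3).clm_apply
        continuousAt_const
    rw [intervalIntegral.integral_eq_sub_of_hasDerivAt hd hc.intervalIntegrable]
    have h6 : (t : ℂ) * v + ((1 : ℝ) : ℂ) * u = (t : ℂ) * v + ((0 : ℝ) : ℂ) * u + u := by
      push_cast; ring
    rw [h6, hu, sub_self]
  rw [integral_congr_ae h0, integral_zero]

/-- coordinates of a point -/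
lemma exists_coord (L : PeriodPair) (z : ℂ) : ∃ x : Fin 2 → ℝ, E L x = z := by
  refine ⟨L.basis.repr z, ?_⟩
  have h := L.basis.sum_repr z
  rw [Fin.sum_univ_two] at h
  refine Eq.trans ?_ h
  simp [E]

lemma E_injective (L : PeriodPair) : Function.Injective (E L) := by
  intro x y hxy
  have h : ∀ x : Fin 2 → ℝ, E L x = ∑ i, x i • L.basis i := by
    intro x
    rw [Fin.sum_univ_two]
    simp [E]
  rw [h, h] at hxy
  have h2 := L.basis.linearIndependent
  rw [Fintype.linearIndependent_iff] at h2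
  have h3 := h2 (fun i => x i - y i) (by
    simp only [sub_smul, Finset.sum_sub_distrib]
    rw [hxy, sub_self])
  funext i
  exact sub_eq_zero.1 (h3 i)

/-- DIR: the mean of a derivative of a periodic function is zero. -/
theorem mean_fderiv (L : PeriodPair) (F : ℂ → ℂ) (hper : Per L F) (S : Set ℂ) (hS : S.Countable)
    (hF : ∀ z, z ∉ S → ContDiffAt ℝ 1 F z)
    (hint : IntegrableOn (fun x => ‖fderiv ℝ F (E L x)‖) box) (w : ℂ) :
    mean L (fun z => fderiv ℝ F z w) = 0 := by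
  classical
  -- integrability of the directional derivatives
  have hi : ∀ w : ℂ, IntegrableOn (fun x => fderiv ℝ F (E L x) w) box := by
    intro w
    refine Integrable.mono' (hint.mul_const ‖w‖) ?_ ?_
    · exact ((measurable_fderiv_apply_const ℝ F w).comp (continuous_E L).measurable).aestronglyMeasurable
    · exact Filter.Eventually.of_forall fun x => ContinuousLinearMap.le_opNorm _ _
  -- the two basic directions
  have hcount : ∀ i : Fin 2, ((fun z => L.basis.repr z i) '' S).Countable := fun i => hS.image _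
  have hE : ∀ (x y : ℝ), E L ![x, y] = x * L.ω₁ + y * L.ω₂ := by
    intro x y
    simp [E]
  have hrep : ∀ x : Fin 2 → ℝ, ∀ i, L.basis.repr (E L x) i = x i := by
    intro x i
    have h : E L x = ∑ i, x i • L.basis i := by
      rw [Fin.sum_univ_two]
      simp [E]
    rw [h, Module.Basis.repr_sum_self]
  have h2 : mean L (fun z => fderiv ℝ F z L.ω₂) = 0 := by
    have := dir_core L.ω₂ L.ω₁ F (per_two L hper) _ (hcount 0) (fun t ht s => ?_) ?_
    · rw [← this]
      exact box_integral fun a b => fderiv ℝ F (a * L.ω₁ + b * L.ω₂) L.ω₂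
    · apply hF
      intro hz
      apply ht
      refine ⟨_, hz, ?_⟩
      have h3 := hrep ![t, s] 0
      rw [hE] at h3
      exact h3
    · exact (box_integrable fun a b => fderiv ℝ F (a * L.ω₁ + b * L.ω₂) L.ω₂).1 (hi L.ω₂)
  have h1 : mean L (fun z => fderiv ℝ F z L.ω₁) = 0 := by
    have := dir_core L.ω₁ L.ω₂ F (per_one L hper) _ (hcount 1) (fun t ht s => ?_) ?_
    · have h3 : mean L (fun z => fderiv ℝ F z L.ω₁) =
          ∫ p in Ioc (0 : ℝ) 1 ×ˢ Ioc (0 : ℝ) 1,
            fderiv ℝ F ((p : ℝ × ℝ).1 * L.ω₁ + p.2 * L.ω₂) L.ω₁ :=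
        box_integral fun a b => fderiv ℝ F (a * L.ω₁ + b * L.ω₂) L.ω₁
      rw [h3, ← this, Measure.volume_eq_prod, ← setIntegral_prod_swap]
      refine setIntegral_congr_fun (measurableSet_Ioc.prod measurableSet_Ioc) fun p _ => ?_
      show fderiv ℝ F (p.2 * L.ω₁ + p.1 * L.ω₂) L.ω₁ = fderiv ℝ F (p.1 * L.ω₂ + p.2 * L.ω₁) L.ω₁
      rw [add_comm]
    · apply hF
      intro hz
      apply ht
      refine ⟨_, hz, ?_⟩
      have h3 := hrep ![s, t] 1
      rw [hE, add_comm] at h3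
      exact h3
    · have h3 := (box_integrable fun a b => fderiv ℝ F (a * L.ω₁ + b * L.ω₂) L.ω₁).1 (hi L.ω₁)
      unfold IntegrableOn at h3 ⊢
      rw [Measure.volume_eq_prod, ← Measure.prod_restrict] at h3 ⊢
      refine h3.swap.congr (Filter.Eventually.of_forall fun p => ?_)
      show fderiv ℝ F (p.2 * L.ω₁ + p.1 * L.ω₂) L.ω₁ = fderiv ℝ F (p.1 * L.ω₂ + p.2 * L.ω₁) L.ω₁
      rw [add_comm]
  -- general direction
  obtain ⟨x, rfl⟩ := exists_coord L w
  have h3 : mean L (fun z => fderiv ℝ F z (E L x)) =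
      (x 0 : ℂ) * mean L (fun z => fderiv ℝ F z L.ω₁) +
        (x 1 : ℂ) * mean L (fun z => fderiv ℝ F z L.ω₂) := by
    unfold mean
    rw [← integral_const_mul, ← integral_const_mul, ← integral_add]
    · refine integral_congr_ae (Filter.Eventually.of_forall fun y => ?_)
      show fderiv ℝ F (E L y) (x 0 * L.ω₁ + x 1 * L.ω₂) = _
      have h5 : (x 0 : ℂ) * L.ω₁ + x 1 * L.ω₂ = x 0 • L.ω₁ + x 1 • L.ω₂ := by
        simp
      rw [h5, map_add, map_smul, map_smul]
      simp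
    · exact (hi L.ω₁).const_mul _
    · exact (hi L.ω₂).const_mul _
  rw [h3, h1, h2, mul_zero, mul_zero, add_zero]

end Pool.Agent.F194

end
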