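import Pool.Agent.Work.MP_f194bb_nt.Loc
import Pool.Agent.Work.MP_f194bb_nt.Dir

/-!
# MP_f194bb_nt: the vanishing of `∫ V(f) f'/(f - c)` (helper52)
-/

set_option autoImplicit false

open MeasureTheory Filter Set
open scoped ENNReal Topology ComplexConjugate

noncomputable section

namespace Pool.Agent.F194

/-- the points where `h` is not analytic or vanishes -/
def badSet (h : ℂ → ℂ) : Set ℂ := {z | ¬ (AnalyticAt ℂ h z ∧ h z ≠ 0)}

theorem countable_zeros {h : ℂ → ℂ} (hm : Meromorphic h) (h0 : NZ h) : {z | h z = 0}.Countable := by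
  apply (HereditarilyLindelofSpace.isLindelof _).countable_of_isDiscrete
  rw [isDiscrete_iff_nhdsNE]
  intro x _
  have h1 := (meromorphicOrderAt_ne_top_iff_eventually_ne_zero (hm x)).1 (h0 x)
  refine _root_.disjoint_iff.1 ?_
  rw [Filter.disjoint_principal_right]
  exact h1

theorem countable_badSet {h : ℂ → ℂ} (hm : Meromorphic h) (h0 : NZ h) : (badSet h).Countable := by
  refine (hm.countable_compl_analyticAt.union (countable_zeros hm h0)).mono fun z hz => ?_
  by_cases h1 : AnalyticAt ℂ h z
  · right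
    by_contra h2
    exact hz ⟨h1, h2⟩
  · left
    exact h1

theorem ae_E (L : PeriodPair) {S : Set ℂ} (hS : S.Countable) :
    ∀ᵐ x ∂(volume.restrict box), E L x ∉ S := by
  refine ae_restrict_of_ae ?_
  rw [ae_iff]
  simp only [not_not]
  exact (hS.preimage_of_injOn (E_injective L).injOn).measure_zero _

theorem hasFDerivAt_lg {h : ℂ → ℂ} {z : ℂ} (ha : AnalyticAt ℂ h z) (h0 : h z ≠ 0) :
    HasFDerivAt (lg h) (Complex.ofRealCLM.comp (Complex.reCLM.comp
      ((ContinuousLinearMap.toSpanSingleton ℂ (deriv h z / h z)).restrictScalars ℝ))) z := by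
  have h1 : HasDerivAt (fun y => Complex.log (h y / h z)) (deriv h z / h z) z := by
    have h2 := (ha.differentiableAt.hasDerivAt.div_const (h z)).clog (by
      rw [div_self h0]
      exact Complex.one_mem_slitPlane)
    rwa [div_self h0, div_one] at h2
  have h2 := h1.hasFDerivAt.restrictScalars ℝ
  have h3 := (Complex.ofRealCLM.hasFDerivAt.comp z (Complex.reCLM.hasFDerivAt.comp z h2)).add_const
    ((Real.log ‖h z‖ : ℝ) : ℂ)
  refine h3.congr_of_eventuallyEq ?_
  filter_upwards [ha.continuousAt.eventually_ne h0] with y hy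
  simp only [Function.comp, Complex.reCLM_apply, Complex.ofRealCLM_apply, Complex.log_re, lg]
  rw [norm_div, Real.log_div (norm_ne_zero_iff.2 hy) (norm_ne_zero_iff.2 h0)]
  push_cast
  ring

theorem fderiv_lg {h : ℂ → ℂ} {z : ℂ} (ha : AnalyticAt ℂ h z) (h0 : h z ≠ 0) (w : ℂ) :
    fderiv ℝ (lg h) z w = (((deriv h z / h z * w).re : ℝ) : ℂ) := by
  rw [(hasFDerivAt_lg ha h0).fderiv]
  simp [mul_comm]

theorem norm_fderiv_lg_le {h : ℂ → ℂ} {z : ℂ} (ha : AnalyticAt ℂ h z) (h0 : h z ≠ 0) :
    ‖fderiv ℝ (lg h) z‖ ≤ ‖deriv h z / h z‖ := by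
  refine ContinuousLinearMap.opNorm_le_bound _ (norm_nonneg _) fun w => ?_
  rw [fderiv_lg ha h0, Complex.norm_real, Real.norm_eq_abs, ← norm_mul]
  exact Complex.abs_re_le_norm _

theorem contDiffAt_lg {h : ℂ → ℂ} {z : ℂ} (ha : AnalyticAt ℂ h z) (h0 : h z ≠ 0) :
    ContDiffAt ℝ 1 (lg h) z := by
  have h1 : ContDiffAt ℝ 1 h z := (ha.contDiffAt (n := 1)).restrict_scalars ℝ
  have h2 : ContDiffAt ℝ 1 (fun y => Real.log ‖h y‖) z :=
    (h1.norm ℝ h0).log (norm_ne_zero_iff.2 h0)
  exact Complex.ofRealCLM.contDiff.contDiffAt.comp z h2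

instance : IsFiniteMeasure (volume.restrict (box : Set (Fin 2 → ℝ))) := by
  refine isFiniteMeasure_restrict.2 ?_
  refine (lt_of_le_of_lt (measure_mono (fun x hx => ?_))
    (isCompact_univ_pi (fun _ : Fin 2 => isCompact_Icc (a := (0 : ℝ)) (b := 1))).measure_lt_top).ne
  intro i _
  exact Ioc_subset_Icc_self (hx i (mem_univ i))

theorem integrable_qq (L : PeriodPair) {f : ℂ → ℂ} {c : ℂ} (hf : Meromorphic f)
    (hc : NZ fun z => f z - c) : IntegrableOn (fun x => qq f c (E L x)) box :=
  ((memLp_tor L _ _ (memLp_qq_ball f c hf hc _)).1).integrable (by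
    rw [ENNReal.le_div_iff_mul_le (Or.inl two_ne_zero) (Or.inl ENNReal.ofNat_ne_top)]
    norm_num)

/-- VAN, first part: the mean of `f'/(f - c)` is zero. -/
theorem mean_qq (L : PeriodPair) (f : ℂ → ℂ) (hf : Meromorphic f) (hper : Per L f) (c : ℂ)
    (hc : NZ fun z => f z - c) : mean L (qq f c) = 0 := by
  set h : ℂ → ℂ := fun z => f z - c with hh
  have hm : Meromorphic h := hf.sub (Meromorphic.const c)
  have hd : ∀ z, deriv h z / h z = qq f c z := fun z => by
    have : deriv h = deriv f := by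
      funext z
      exact deriv_sub_const c
    rw [this]
    rfl
  have hperl : Per L (lg h) := fun l z => by simp only [lg, hh, hper l z]
  have hS := countable_badSet hm hc
  have hgood : ∀ z, z ∉ badSet h → AnalyticAt ℂ h z ∧ h z ≠ 0 := fun z hz => not_not.1 hz
  have hi := integrable_qq L hf hc
  have hint : IntegrableOn (fun x => ‖fderiv ℝ (lg h) (E L x)‖) box := by
    refine Integrable.mono' hi.norm ?_ ?_
    · exact ((measurable_fderiv ℝ (lg h)).comp (continuous_E L).measurable).norm.aestronglyMeasurable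
    · filter_upwards [ae_E L hS] with x hx
      obtain ⟨h1, h2⟩ := hgood _ hx
      rw [norm_norm, ← hd]
      exact norm_fderiv_lg_le h1 h2
  have key := mean_fderiv L (lg h) hperl (badSet h) hS
    (fun z hz => contDiffAt_lg (hgood z hz).1 (hgood z hz).2) hint
  have hre : ∀ w : ℂ, ∫ x in box, (((qq f c (E L x) * w).re : ℝ) : ℂ) = 0 := fun w => by
    rw [← key w, mean]
    refine integral_congr_ae ?_
    filter_upwards [ae_E L hS] with x hx
    obtain ⟨h1, h2⟩ := hgood _ hx
    rw [fderiv_lg h1 h2, hd]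
  have h1 : ∫ x in box, (qq f c (E L x) * 1).re = 0 := by
    have := hre 1
    rw [integral_complex_ofReal] at this
    exact_mod_cast this
  have h2 : ∫ x in box, (qq f c (E L x) * Complex.I).re = 0 := by
    have := hre Complex.I
    rw [integral_complex_ofReal] at this
    exact_mod_cast this
  apply Complex.ext
  · rw [mean, ← Complex.reCLM_apply, ← ContinuousLinearMap.integral_comp_comm _ hi]
    simpa using h1
  · rw [mean, ← Complex.imCLM_apply, ← ContinuousLinearMap.integral_comp_comm _ hi]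
    simp only [Complex.mul_I_re] at h2
    rw [integral_neg] at h2
    simpa using h2

/-- The potential of a bounded function with compact support is bounded. -/
theorem dbar_unif {V : ℂ → ℂ} (hV : ContDiff ℝ 1 V) (hc : HasCompactSupport V) :
    ∃ M : ℝ, 0 ≤ M ∧ ∀ t : ℂ, ∫ ζ, ‖dbar V ζ / (t - ζ)‖ ≤ M := by
  obtain ⟨B, hB⟩ := (dbar_compact hc).exists_bound_of_continuous (dbar_continuous hV)
  obtain ⟨R, hR⟩ := (dbar_compact hc).isCompact.isBounded.subset_closedBall (0 : ℂ)
  have hB0 : 0 ≤ B := (norm_nonneg _).trans (hB 0)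
  set I1 : ℝ := ∫ z in Metric.ball (0 : ℂ) 1, ‖z‖⁻¹ with hI1
  have hI1' : 0 ≤ I1 := integral_nonneg fun _ => by positivity
  refine ⟨B * I1 + B * (volume : Measure ℂ).real (Metric.closedBall (0 : ℂ) R), by positivity,
    fun t => ?_⟩
  have hi1 : Integrable ((Metric.ball t 1).indicator fun ζ : ℂ => ‖ζ - t‖⁻¹) :=
    (integrable_indicator_iff Metric.isOpen_ball.measurableSet).2
      (radial_shift (fun y => y⁻¹) t 1 (integrableOn_inv_norm 1))
  have hi2 : Integrable ((Metric.closedBall (0 : ℂ) R).indicator fun _ : ℂ => (1 : ℝ)) :=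
    (integrable_indicator_iff Metric.isClosed_closedBall.measurableSet).2
      (integrableOn_const (by exact (Metric.isBounded_closedBall.measure_lt_top).ne))
  have hv1 : ∫ ζ, (Metric.ball t 1).indicator (fun ζ : ℂ => ‖ζ - t‖⁻¹) ζ = I1 := by
    rw [hI1, ← integral_indicator Metric.isOpen_ball.measurableSet,
      ← integral_sub_right_eq_self (fun z : ℂ =>
        (Metric.ball (0 : ℂ) 1).indicator (fun z : ℂ => ‖z‖⁻¹) z) t]
    refine integral_congr_ae (ae_of_all _ fun ζ => ?_)
    simp only [indicator, Metric.mem_ball, dist_eq_norm, sub_zero]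
  have hv2 : ∫ ζ, (Metric.closedBall (0 : ℂ) R).indicator (fun _ : ℂ => (1 : ℝ)) ζ =
      (volume : Measure ℂ).real (Metric.closedBall (0 : ℂ) R) := by
    rw [integral_indicator Metric.isClosed_closedBall.measurableSet]
    simp
  calc ∫ ζ, ‖dbar V ζ / (t - ζ)‖
      ≤ ∫ ζ, (B * (Metric.ball t 1).indicator (fun ζ : ℂ => ‖ζ - t‖⁻¹) ζ +
        B * (Metric.closedBall (0 : ℂ) R).indicator (fun _ : ℂ => (1 : ℝ)) ζ) := by
        refine integral_mono (dbar_div_integrable hV hc t).norm
          ((hi1.const_mul B).add (hi2.const_mul B)) fun ζ => ?_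
        simp only
        rw [norm_div]
        by_cases h1 : ζ ∈ Metric.ball t 1
        · rw [indicator_of_mem h1, norm_sub_rev, div_eq_mul_inv]
          have h2 : 0 ≤ B * (Metric.closedBall (0 : ℂ) R).indicator (fun _ : ℂ => (1 : ℝ)) ζ :=
            mul_nonneg hB0 (indicator_nonneg (fun _ _ => zero_le_one) _)
          have h3 : ‖dbar V ζ‖ * ‖ζ - t‖⁻¹ ≤ B * ‖ζ - t‖⁻¹ :=
            mul_le_mul_of_nonneg_right (hB ζ) (by positivity)
          linarith
        · rw [indicator_of_notMem h1, mul_zero, zero_add]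
          by_cases h2 : ζ ∈ Metric.closedBall (0 : ℂ) R
          · rw [indicator_of_mem h2, mul_one]
            have h3 : 1 ≤ ‖t - ζ‖ := by
              rw [Metric.mem_ball, dist_comm, dist_eq_norm, not_lt] at h1
              exact h1
            exact (div_le_self (norm_nonneg _) h3).trans (hB ζ)
          · have h3 : dbar V ζ = 0 := by
              by_contra hne
              exact h2 (hR (subset_tsupport _ (Function.mem_support.2 hne)))
            rw [h3, norm_zero, zero_div]
            exact mul_nonneg hB0 (indicator_nonneg (fun _ _ => zero_le_one) _)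
    _ = _ := by
        rw [integral_add (hi1.const_mul B) (hi2.const_mul B), integral_const_mul,
          integral_const_mul, hv1, hv2]

theorem measurable_qq {f : ℂ → ℂ} (hf : Meromorphic f) (c : ℂ) : Measurable (qq f c) := by
  have h1 := hf.measurable
  have h2 : Measurable (deriv f) := measurable_deriv f
  unfold qq
  fun_prop

/-- VAN, second part. -/
theorem mean_V (L : PeriodPair) (f : ℂ → ℂ) (hf : Meromorphic f) (hper : Per L f) (c : ℂ)
    (hc : ∀ a : ℂ, NZ fun z => f z - a) (V : ℂ → ℂ) (hV : ContDiff ℝ 1 V)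
    (hcp : HasCompactSupport V) : mean L (fun z => V (f z) * qq f c z) = 0 := by
  obtain ⟨M, hM0, hM⟩ := dbar_unif hV hcp
  have hq := integrable_qq L hf (hc c)
  have hdm : Measurable (dbar V) := (dbar_continuous hV).measurable
  have hfm : Measurable f := hf.measurable
  have hqm : Measurable (qq f c) := measurable_qq hf c
  have hEm : Measurable (E L) := (continuous_E L).measurable
  set H : (Fin 2 → ℝ) → ℂ → ℂ := fun x ζ =>
    qq f c (E L x) * (dbar V ζ / (f (E L x) - ζ)) with hH
  have hHm : Measurable (Function.uncurry H) := by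
    simp only [hH, Function.uncurry_def]
    fun_prop
  have hHi : Integrable (Function.uncurry H) ((volume.restrict box).prod volume) := by
    refine (integrable_prod_iff hHm.aestronglyMeasurable).2 ⟨ae_of_all _ fun x => by
      have := (cauchy_pompeiu V hV hcp (f (E L x))).1.const_mul (qq f c (E L x))
      exact this, ?_⟩
    refine Integrable.mono' (hq.norm.const_mul M)
      hHm.aestronglyMeasurable.norm.integral_prod_right' (ae_of_all _ fun x => ?_)
    rw [Real.norm_of_nonneg (integral_nonneg fun _ => norm_nonneg _)]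
    simp only [Function.uncurry, hH, norm_mul]
    rw [integral_const_mul, mul_comm]
    exact mul_le_mul_of_nonneg_right (hM _) (norm_nonneg _)
  have h1 : mean L (fun z => V (f z) * qq f c z) =
      ∫ x in box, (Real.pi : ℂ)⁻¹ * ∫ ζ, H x ζ := by
    rw [mean]
    refine integral_congr_ae (ae_of_all _ fun x => ?_)
    simp only [hH]
    rw [integral_const_mul, (cauchy_pompeiu V hV hcp (f (E L x))).2]
    ring
  rw [h1, integral_const_mul, integral_integral_swap hHi]
  have h2 : ∀ᵐ ζ : ℂ, ∫ x in box, H x ζ = 0 := by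
    filter_upwards [Measure.ae_ne volume c] with ζ hζ
    have hcz : c - ζ ≠ 0 := sub_ne_zero.2 (Ne.symm hζ)
    have hqz := integrable_qq L hf (hc ζ)
    have h3 : ∫ x in box, H x ζ = ∫ x in box, (dbar V ζ / (c - ζ)) *
        (qq f c (E L x) - qq f ζ (E L x)) := by
      refine integral_congr_ae ?_
      filter_upwards [ae_E L (countable_zeros (hf.sub (Meromorphic.const c)) (hc c)),
        ae_E L (countable_zeros (hf.sub (Meromorphic.const ζ)) (hc ζ))] with x hx1 hx2
      have hx1' : f (E L x) - c ≠ 0 := hx1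
      have hx2' : f (E L x) - ζ ≠ 0 := hx2
      simp only [hH, qq]
      field_simp
      ring
    rw [h3, integral_const_mul, integral_sub hq hqz]
    have h4 := mean_qq L f hf hper c (hc c)
    have h5 := mean_qq L f hf hper ζ (hc ζ)
    rw [mean] at h4 h5
    rw [h4, h5, sub_zero, mul_zero]
  rw [integral_congr_ae h2, integral_zero, mul_zero]

theorem memLp_pow_van {α : Type*} [MeasurableSpace α] {μ : Measure α} [IsFiniteMeasure μ]
    {U : α → ℂ} (hU : ∀ p : ℕ, MemLp U p μ) (m : ℕ) : ∀ p : ℕ, MemLp (fun x => U x ^ m) p μ := by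
  induction m with
  | zero =>
    intro p
    simp only [pow_zero]
    exact memLp_const 1
  | succ m ih =>
    intro p
    haveI : ENNReal.HolderTriple ((2 * p : ℕ) : ℝ≥0∞) ((2 * p : ℕ) : ℝ≥0∞) (p : ℝ≥0∞) := ⟨by
      push_cast
      rw [ENNReal.mul_inv (Or.inl two_ne_zero) (Or.inl ENNReal.ofNat_ne_top), ← add_mul,
        ENNReal.inv_two_add_inv_two, one_mul]⟩
    have := MemLp.smul (p := ((2 * p : ℕ) : ℝ≥0∞)) (q := ((2 * p : ℕ) : ℝ≥0∞)) (r := (p : ℝ≥0∞))
      (hU (2 * p)) (ih (2 * p))
    refine (memLp_congr_ae (ae_of_all _ fun x => ?_)).2 this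
    simp only [Pi.smul_apply', smul_eq_mul]
    rw [pow_succ]

/-- the cut off power of the logarithm -/
def cutLog (b : ContDiffBump (0 : ℝ)) (n k : ℕ) (t : ℂ) : ℂ :=
  if t = 0 then 0 else ((b (Real.log ‖t‖ / (n + 1)) * Real.log ‖t‖ ^ k : ℝ) : ℂ)

theorem cutLog_eq_zero (b : ContDiffBump (0 : ℝ)) (n k : ℕ) {t : ℂ}
    (h : b.rOut * (n + 1) ≤ |Real.log ‖t‖|) : cutLog b n k t = 0 := by
  unfold cutLog
  split_ifs
  · rfl
  · rw [b.zero_of_le_dist, zero_mul, Complex.ofReal_zero]
    rw [dist_zero_right, Real.norm_eq_abs, abs_div, abs_of_pos (by positivity : (0 : ℝ) < n + 1),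
      le_div_iff₀ (by positivity)]
    exact h

theorem contDiff_cutLog (b : ContDiffBump (0 : ℝ)) (n k : ℕ) : ContDiff ℝ 1 (cutLog b n k) := by
  rw [contDiff_iff_contDiffAt]
  intro t
  rcases eq_or_ne t 0 with rfl | ht
  · have h1 : cutLog b n k =ᶠ[𝓝 0] fun _ => 0 := by
      have h2 : ∀ᶠ t : ℂ in 𝓝 0, ‖t‖ < Real.exp (-(b.rOut * (n + 1))) := by
        have : Tendsto (fun t : ℂ => ‖t‖) (𝓝 0) (𝓝 0) := by
          simpa using (continuous_norm (E := ℂ)).tendsto 0
        exact this.eventually (gt_mem_nhds (Real.exp_pos _))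
      filter_upwards [h2] with t ht
      rcases eq_or_ne t 0 with rfl | ht0
      · simp [cutLog]
      · apply cutLog_eq_zero
        have h3 : Real.log ‖t‖ ≤ -(b.rOut * (n + 1)) := by
          rw [Real.log_le_iff_le_exp (norm_pos_iff.2 ht0)]
          exact ht.le
        have h4 : 0 < b.rOut * ((n : ℝ) + 1) := mul_pos b.rOut_pos (by positivity)
        rw [abs_of_nonpos (by linarith)]
        linarith
    exact contDiffAt_const.congr_of_eventuallyEq h1
  · have h1 : cutLog b n k =ᶠ[𝓝 t] fun t =>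
        ((b (Real.log ‖t‖ / (n + 1)) * Real.log ‖t‖ ^ k : ℝ) : ℂ) := by
      filter_upwards [isOpen_ne.mem_nhds ht] with s hs
      rw [cutLog, if_neg hs]
    refine ContDiffAt.congr_of_eventuallyEq ?_ h1
    have h2 : ContDiffAt ℝ 1 (fun t : ℂ => Real.log ‖t‖) t :=
      (contDiffAt_id.norm ℝ ht).log (norm_ne_zero_iff.2 ht)
    have h3 : ContDiffAt ℝ 1 (fun t : ℂ => b (Real.log ‖t‖ / (n + 1))) t :=
      (b.contDiff (n := 1)).contDiffAt.comp t (h2.div_const _)
    exact Complex.ofRealCLM.contDiff.contDiffAt.comp t (h3.mul (h2.pow k))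

theorem hasCompactSupport_cutLog (b : ContDiffBump (0 : ℝ)) (n k : ℕ) :
    HasCompactSupport (cutLog b n k) := by
  refine HasCompactSupport.intro
    (isCompact_closedBall (0 : ℂ) (Real.exp (b.rOut * (n + 1)))) fun t ht => ?_
  apply cutLog_eq_zero
  rw [mem_closedBall_zero_iff, not_le] at ht
  have h1 : b.rOut * (n + 1) ≤ Real.log ‖t‖ := by
    rw [Real.le_log_iff_exp_le ((Real.exp_pos _).trans ht)]
    exact ht.le
  exact h1.trans (le_abs_self _)

/-- VAN, third part. -/
theorem mean_log_pow (L : PeriodPair) (f : ℂ → ℂ) (hf : Meromorphic f) (hper : Per L f) (c : ℂ)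
    (hc : ∀ a : ℂ, NZ fun z => f z - a) (k : ℕ) :
    mean L (fun z => lg f z ^ k * qq f c z) = 0 := by
  have h0 : NZ f := by simpa using hc 0
  set b : ContDiffBump (0 : ℝ) := ⟨1, 2, one_pos, one_lt_two⟩ with hb
  have h1 : ∀ n : ℕ, ∫ x in box, cutLog b n k (f (E L x)) * qq f c (E L x) = 0 := fun n =>
    mean_V L f hf hper c hc _ (contDiff_cutLog b n k) (hasCompactSupport_cutLog b n k)
  have hpow : MemLp (fun x => lg f (E L x) ^ k) (3 : ℕ) (volume.restrict box) :=
    memLp_pow_van (fun p => (memLp_tor L _ _ (memLp_lg_ball f hf h0 p _)).1) k 3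
  have hq : MemLp (fun x => qq f c (E L x)) (3 / 2) (volume.restrict box) :=
    (memLp_tor L _ _ (memLp_qq_ball f c hf (hc c) _)).1
  haveI : ENNReal.HolderTriple (3 : ℝ≥0∞) (3 / 2 : ℝ≥0∞) 1 := ⟨by
    rw [ENNReal.inv_div (Or.inl ENNReal.ofNat_ne_top) (Or.inl two_ne_zero)]
    rw [← ENNReal.toReal_eq_toReal_iff' (by finiteness) (by finiteness)]
    rw [ENNReal.toReal_add (by finiteness) (by finiteness)]
    simp only [ENNReal.toReal_inv, ENNReal.toReal_div, ENNReal.toReal_ofNat]
    norm_num⟩
  have hint : Integrable (fun x => lg f (E L x) ^ k * qq f c (E L x)) (volume.restrict box) :=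
    memLp_one_iff_integrable.1 (MemLp.smul (p := 3) (q := 3 / 2) (r := 1) hq
      (by exact_mod_cast hpow))
  have hlim : Tendsto (fun n : ℕ => ∫ x in box, cutLog b n k (f (E L x)) * qq f c (E L x)) atTop
      (𝓝 (∫ x in box, lg f (E L x) ^ k * qq f c (E L x))) := by
    refine tendsto_integral_of_dominated_convergence
      (fun x => ‖lg f (E L x) ^ k * qq f c (E L x)‖) (fun n => ?_) hint.norm (fun n => ?_) ?_
    · exact (((contDiff_cutLog b n k).continuous.measurable.comp
        (hf.measurable.comp (continuous_E L).measurable)).mul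
        ((measurable_qq hf c).comp (continuous_E L).measurable)).aestronglyMeasurable
    · refine ae_of_all _ fun x => ?_
      rw [norm_mul, norm_mul]
      refine mul_le_mul_of_nonneg_right ?_ (norm_nonneg _)
      unfold cutLog
      split_ifs with h
      · rw [norm_zero]
        exact norm_nonneg _
      · rw [lg, ← Complex.ofReal_pow, Complex.norm_real, Complex.norm_real, norm_mul]
        refine mul_le_of_le_one_left (norm_nonneg _) ?_
        rw [Real.norm_of_nonneg b.nonneg]
        exact b.le_one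
    · filter_upwards [ae_E L (countable_zeros hf h0)] with x hx
      have hx' : f (E L x) ≠ 0 := hx
      refine tendsto_const_nhds.congr' ?_
      obtain ⟨N, hN⟩ := exists_nat_ge |Real.log ‖f (E L x)‖|
      filter_upwards [eventually_ge_atTop N] with n hn
      have h3 : b (Real.log ‖f (E L x)‖ / (n + 1)) = 1 := by
        apply b.one_of_mem_closedBall
        rw [mem_closedBall_zero_iff, Real.norm_eq_abs, abs_div,
          abs_of_pos (by positivity : (0 : ℝ) < n + 1), div_le_iff₀ (by positivity)]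
        change |Real.log ‖f (E L x)‖| ≤ 1 * ((n : ℝ) + 1)
        have : (N : ℝ) ≤ n := by exact_mod_cast hn
        linarith
      rw [cutLog, if_neg hx', h3, one_mul, lg]
      push_cast
      rfl
  rw [mean]
  have h4 : (fun n : ℕ => ∫ x in box, cutLog b n k (f (E L x)) * qq f c (E L x)) = fun _ => 0 :=
    funext h1
  rw [h4] at hlim
  exact (tendsto_nhds_unique hlim tendsto_const_nhds)

end Pool.Agent.F194

end
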