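import Pool.Agent.Work.MP_f194bb_nt.KSym
import Pool.Agent.Work.MP_f194bb_nt.Van
import Pool.Agent.Work.MP_f194bb_nt.Four

/-!
# MP_f194bb_nt: `K_n(f, f, 1 - f) = 0` (helper52)
-/

set_option autoImplicit false

open MeasureTheory UnitAddTorus
open scoped ENNReal Topology ComplexConjugate

noncomputable section

namespace Pool.Agent.F194

theorem holder_aux3 : ENNReal.HolderTriple (3 : ℝ≥0∞) (3 / 2 : ℝ≥0∞) 1 := ⟨by
  rw [ENNReal.inv_div (Or.inl ENNReal.ofNat_ne_top) (Or.inl two_ne_zero)]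
  rw [← ENNReal.toReal_eq_toReal_iff' (by finiteness) (by finiteness)]
  rw [ENNReal.toReal_add (by finiteness) (by finiteness)]
  simp only [ENNReal.toReal_inv, ENNReal.toReal_div, ENNReal.toReal_ofNat]
  norm_num⟩

theorem measureReal_TT : (volume : Measure TT).real Set.univ = 1 := by
  have h : (volume : Measure TT) Set.univ = 1 := by
    rw [volume_pi, Measure.pi_univ]
    simp [UnitAddCircle.measure_univ]
  rw [measureReal_def, h, ENNReal.toReal_one]

/-- The integral of `(log |f| - m)^N f'/(f - 1)` vanishes. -/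
theorem integral_pow_zero (L : PeriodPair) (f : ℂ → ℂ) (hf : Meromorphic f) (hper : Per L f)
    (hc : ∀ a : ℂ, NZ fun z => f z - a) (m : ℂ) (N : ℕ) :
    ∫ x : TT, tor L (fun z => lg f z - m) x ^ N * tor L (qq f 1) x = 0 := by
  have h0 : NZ f := by simpa using hc 0
  haveI := holder_aux3
  have hU : ∀ p : ℕ, MemLp (tor L (lg f)) p := memLp_lg L f hf h0
  have hQ := memLp_qq L f 1 hf (hc 1)
  have h1 : ∀ x : TT, tor L (fun z => lg f z - m) x ^ N * tor L (qq f 1) x =
      ∑ j ∈ Finset.range (N + 1), ((-m) ^ (N - j) * (N.choose j : ℂ)) *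
        (tor L (lg f) x ^ j * tor L (qq f 1) x) := fun x => by
    have : tor L (fun z => lg f z - m) x = tor L (lg f) x + (-m) := by
      rw [← sub_eq_add_neg]
      rfl
    rw [this, add_pow, Finset.sum_mul]
    refine Finset.sum_congr rfl fun j _ => ?_
    ring
  have h2 : ∀ j : ℕ, Integrable fun x : TT => tor L (lg f) x ^ j * tor L (qq f 1) x := fun j =>
    memLp_one_iff_integrable.1 (MemLp.smul (p := 3) (q := 3 / 2) (r := 1) hQ
      (by exact_mod_cast memLp_pow hU j 3))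
  have h3 : ∀ j : ℕ, ∫ x : TT, tor L (lg f) x ^ j * tor L (qq f 1) x = 0 := fun j => by
    have := mean_log_pow L f hf hper 1 hc j
    rw [← integral_tor] at this
    exact this
  rw [integral_congr_ae (ae_of_all _ h1), integral_finset_sum _ fun j _ => (h2 j).const_mul _]
  refine Finset.sum_eq_zero fun j _ => ?_
  rw [integral_const_mul, h3 j, mul_zero]

theorem kvanish_nonconst (L : PeriodPair) (q : ℕ) (f : ℂ → ℂ) (hf : Meromorphic f)
    (hper : Per L f) (hc : ∀ a : ℂ, NZ fun z => f z - a) :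
    Ksum L q (pr L (dv f)) (pr L (dv f)) (pr L (dv fun z => 1 - f z)) = 0 := by
  have h0 : NZ f := by simpa using hc 0
  set f₁ : ℂ → ℂ := fun z => 1 - f z with hf₁
  have hf₁m : Meromorphic f₁ := fun z => (MeromorphicAt.const 1 z).sub (hf z)
  have hf₁nz : NZ f₁ := fun z h => hc 1 z (by
    have h1 : (fun z => f z - 1) = -f₁ := by
      funext w
      simp [hf₁]
    rw [h1, ← meromorphicOrderAt_neg]
    exact h)
  have hf₁p : Per L f₁ := fun l z => by simp only [hf₁, hper l z]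
  obtain ⟨C₁, hC₁0, hC₁⟩ := pr_bdd L (dv f)
  obtain ⟨C₂, hC₂0, hC₂⟩ := pr_bdd L (dv f₁)
  obtain ⟨c₀, hc₀, hcr⟩ := norm_crd_le L
  set m : ℂ := mean L (lg f) with hm
  set U : TT → ℂ := tor L (fun z => lg f z - m) with hUdef
  set Q : TT → ℂ := tor L (qq f 1) with hQdef
  have hlgm : ∀ p : ℕ, MemLp (tor L (lg f)) p := memLp_lg L f hf h0
  have hQm : MemLp Q (3 / 2) := memLp_qq L f 1 hf (hc 1)
  have hUm : ∀ p : ℕ, MemLp U p := fun p => (hlgm p).sub (memLp_const m)
  have hlgi : Integrable (tor L (lg f)) := by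
    have := hlgm 1
    rw [Nat.cast_one] at this
    exact memLp_one_iff_integrable.1 this
  have hUk : ∀ k, mFourierCoeff U k = mFourierCoeff (tor L (lg f)) k -
      mFourierCoeff (fun _ : TT => m) k := fun k => by
    rw [mFourierCoeff_def, mFourierCoeff_def, mFourierCoeff_def, ← integral_sub]
    · refine integral_congr_ae (ae_of_all _ fun x => ?_)
      simp only [hUdef, tor]
      ring
    · exact (memLp_one_iff_integrable.1
        (memLp_mFourier_mul (memLp_one_iff_integrable.2 hlgi) (-k)))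
    · exact (memLp_one_iff_integrable.1
        (memLp_mFourier_mul (memLp_one_iff_integrable.2 (integrable_const m)) (-k)))
  set κ : ℂ := -(Real.pi * areaA L ^ 2 / (2 * vol L)) with hκ
  set κ' : ℂ := Real.pi * areaA L / vol L with hκ'
  have hpi : (Real.pi : ℂ) ≠ 0 := by exact_mod_cast Real.pi_ne_zero
  have hv : (vol L : ℂ) ≠ 0 := by exact_mod_cast (vol_pos_tor L).ne'
  have hκ0 : κ ≠ 0 := neg_ne_zero.2 (div_ne_zero (mul_ne_zero hpi (pow_ne_zero 2
    (areaA_ne_zero L))) (mul_ne_zero two_ne_zero hv))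
  have hκ'0 : κ' ≠ 0 := div_ne_zero (mul_ne_zero hpi (areaA_ne_zero L)) hv
  have hu0 : mFourierCoeff U 0 = 0 := by
    rw [hUk, coeff_tor_zero, mFourierCoeff_def]
    simp only [neg_zero, mFourier_zero, ContinuousMap.one_apply, one_mul, integral_const,
      measureReal_TT, one_smul, hm, sub_self]
  have hv0 : mFourierCoeff Q 0 = 0 := by
    rw [coeff_tor_zero]
    exact mean_qq L f hf hper 1 (hc 1)
  have hu : ∀ γ : L.lattice, γ ≠ 0 →
      mFourierCoeff U (crd L γ) = κ * (pr L (dv f) γ / ‖(γ : ℂ)‖ ^ 2) := fun γ hγ => by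
    rw [hUk, coeff_tor, coeff_const m ((map_ne_zero_iff _ (crd L).injective).2 hγ), sub_zero]
    exact four_log L f hf h0 hper γ hγ
  have hvv : ∀ γ : L.lattice, γ ≠ 0 →
      mFourierCoeff Q (crd L γ) = κ' * (pr L (dv f₁) γ / γ) := fun γ hγ => by
    rw [coeff_tor, ← four_q L f₁ hf₁m hf₁nz hf₁p γ hγ]
    congr 1
    funext z
    have : deriv f₁ z = -deriv f z := by
      rw [hf₁, deriv_const_sub]
    rw [this, qq]
    congr 1
    simp only [hf₁]
    rw [← neg_sub (f z) 1, neg_div_neg_eq]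
  refine ksum_eq_zero_of L q (C := max C₁ C₂) (fun z => (hC₁ z).trans (le_max_left _ _))
    (fun z => (hC₂ z).trans (le_max_right _ _)) ?_
  refine hasSum_idx L q hκ0 hκ'0 hu0 hv0 hu hvv ?_
  -- the bounds for the Fourier coefficients
  set C : ℝ := max (‖κ‖ * C₁ * (2 / c₀ ^ 2)) (‖κ'‖ * C₂ * (2 / c₀)) with hC
  have hC0 : 0 ≤ C := le_max_of_le_left (by positivity)
  have hcase : ∀ k : Fin 2 → ℤ, k = 0 ∨ ∃ γ : L.lattice, γ ≠ 0 ∧ crd L γ = k ∧
      1 ≤ ‖k‖ ∧ c₀ * ‖k‖ ≤ ‖(γ : ℂ)‖ := fun k => by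
    rcases eq_or_ne k 0 with h | h
    · exact Or.inl h
    · refine Or.inr ⟨(crd L).symm k, ?_, (crd L).apply_symm_apply k, one_le_norm_int h, ?_⟩
      · exact (map_ne_zero_iff _ (crd L).symm.injective).2 h
      · have := hcr ((crd L).symm k)
        rwa [AddEquiv.apply_symm_apply] at this
  have hbU : ∀ k : Fin 2 → ℤ, ‖mFourierCoeff U k‖ ≤ C * (1 + ‖k‖ ^ 2)⁻¹ := fun k => by
    rcases hcase k with rfl | ⟨γ, hγ, rfl, h1, h2⟩
    · rw [hu0, norm_zero]
      positivity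
    · rw [hu γ hγ]
      rw [norm_mul, norm_div, norm_pow, Complex.norm_real, Real.norm_eq_abs, abs_norm]
      have h3 : (c₀ * ‖crd L γ‖) ^ 2 ≤ ‖(γ : ℂ)‖ ^ 2 :=
        pow_le_pow_left₀ (by positivity) h2 2
      have h4 : 0 < (c₀ * ‖crd L γ‖) ^ 2 := by positivity
      calc ‖κ‖ * (‖pr L (dv f) γ‖ / ‖(γ : ℂ)‖ ^ 2)
          ≤ ‖κ‖ * (C₁ / (c₀ * ‖crd L γ‖) ^ 2) := by
            gcongr
            exact hC₁ _
        _ ≤ (‖κ‖ * C₁ * (2 / c₀ ^ 2)) * (1 + ‖crd L γ‖ ^ 2)⁻¹ := by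
            rw [mul_pow]
            have h5 : (‖crd L γ‖ ^ 2)⁻¹ ≤ 2 * (1 + ‖crd L γ‖ ^ 2)⁻¹ := by
              rw [← one_div, ← one_div, mul_one_div, div_le_div_iff₀ (by positivity)
                (by positivity)]
              nlinarith
            calc ‖κ‖ * (C₁ / (c₀ ^ 2 * ‖crd L γ‖ ^ 2))
                = (‖κ‖ * C₁ / c₀ ^ 2) * (‖crd L γ‖ ^ 2)⁻¹ := by field_simp
              _ ≤ (‖κ‖ * C₁ / c₀ ^ 2) * (2 * (1 + ‖crd L γ‖ ^ 2)⁻¹) := by gcongr
              _ = _ := by ring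
        _ ≤ C * (1 + ‖crd L γ‖ ^ 2)⁻¹ := by
            gcongr
            exact le_max_left _ _
  have hbQ : ∀ k : Fin 2 → ℤ, ‖mFourierCoeff Q k‖ ≤ C * (1 + ‖k‖)⁻¹ := fun k => by
    rcases hcase k with rfl | ⟨γ, hγ, rfl, h1, h2⟩
    · rw [hv0, norm_zero]
      positivity
    · rw [hvv γ hγ]
      rw [norm_mul, norm_div (pr L (dv f₁) γ)]
      have h4 : 0 < c₀ * ‖crd L γ‖ := by positivity
      calc ‖κ'‖ * (‖pr L (dv f₁) γ‖ / ‖(γ : ℂ)‖)
          ≤ ‖κ'‖ * (C₂ / (c₀ * ‖crd L γ‖)) := by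
            gcongr
            exact hC₂ _
        _ ≤ (‖κ'‖ * C₂ * (2 / c₀)) * (1 + ‖crd L γ‖)⁻¹ := by
            have h5 : (‖crd L γ‖)⁻¹ ≤ 2 * (1 + ‖crd L γ‖)⁻¹ := by
              rw [← one_div, ← one_div, mul_one_div, div_le_div_iff₀ (by positivity)
                (by positivity)]
              linarith
            calc ‖κ'‖ * (C₂ / (c₀ * ‖crd L γ‖))
                = (‖κ'‖ * C₂ / c₀) * (‖crd L γ‖)⁻¹ := by field_simp
              _ ≤ (‖κ'‖ * C₂ / c₀) * (2 * (1 + ‖crd L γ‖)⁻¹) := by gcongr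
              _ = _ := by ring
        _ ≤ C * (1 + ‖crd L γ‖)⁻¹ := by
            gcongr
            exact le_max_right _ _
  have hmain := conv_main U Q (q + 2) (by omega) hUm hQm C hbU hbQ
  have hz : ∫ x, U x ^ (q + 2) * Q x = 0 := integral_pow_zero L f hf hper hc m (q + 2)
  rwa [hz] at hmain

/-- Constant functions have divisor zero. -/
theorem dv_eq_zero {f : ℂ → ℂ} (hf : Meromorphic f) (h0 : NZ f) {a : ℂ}
    (ha : ¬ NZ fun z => f z - a) : ∀ z, dv f z = 0 := by
  have hm : Meromorphic fun z => f z - a := fun z => (hf z).sub (MeromorphicAt.const a z)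
  have htop : ∀ z, meromorphicOrderAt (fun z => f z - a) z = ⊤ := by
    intro z
    by_contra hne
    refine ha fun w => ?_
    exact (MeromorphicOn.meromorphicOrderAt_ne_top_of_isPreconnected (U := Set.univ)
      (fun z _ => hm z) isPreconnected_univ (Set.mem_univ z) (Set.mem_univ w) hne)
  intro z
  have h1 := meromorphicOrderAt_eq_top_iff.1 (htop z)
  have h2 : f =ᶠ[𝓝[≠] z] fun _ => a := by
    filter_upwards [h1] with w hw
    exact sub_eq_zero.1 hw
  have ha0 : a ≠ 0 := by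
    rintro rfl
    apply h0 z
    simpa using htop z
  have h3 : meromorphicOrderAt f z = 0 := by
    rw [meromorphicOrderAt_congr h2]
    classical
    rw [meromorphicOrderAt_const, if_neg ha0]
  rw [dv, h3]
  rfl

/-- KV: `K_n(f, f, 1 - f) = 0`. -/
theorem kvanish (L : PeriodPair) (q : ℕ) (f : ℂ → ℂ) (hf : Meromorphic f) (hper : Per L f)
    (h0 : NZ f) (h1 : NZ fun z => 1 - f z) :
    Ksum L q (pr L (dv f)) (pr L (dv f)) (pr L (dv fun z => 1 - f z)) = 0 := by
  by_cases hc : ∀ a : ℂ, NZ fun z => f z - a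
  · exact kvanish_nonconst L q f hf hper hc
  · push Not at hc
    obtain ⟨a, ha⟩ := hc
    have h2 := dv_eq_zero hf h0 ha
    have h3 : ∀ γ, pr L (dv f) γ = 0 := fun γ => by
      simp only [pr, h2, Int.cast_zero, zero_mul, finsum_zero]
    rw [Ksum]
    have h4 : ∀ c : Idx L q, kterm L q (pr L (dv f)) (pr L (dv f))
        (pr L (dv fun z => 1 - f z)) c.1 = 0 := fun c => by
      rw [kterm, h3]
      simp only [zero_mul, zero_div]
    rw [tsum_congr h4, tsum_zero]

end Pool.Agent.F194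

end
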