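import Pool.Agent.Work.MP_f194bb_nt.KSym

/-!
# MP_f194bb_nt: formal properties of the lattice sum (helper52)
-/

set_option autoImplicit false

open scoped ComplexConjugate

noncomputable section

namespace Pool.Agent.F194

/-- bounded functions -/
def Bd (P : ℂ → ℂ) : Prop := ∃ C : ℝ, ∀ z, ‖P z‖ ≤ C

theorem bd_pr (L : PeriodPair) (D : ℂ → ℤ) : Bd (pr L D) := by
  obtain ⟨C, _, hC⟩ := pr_bdd L D
  exact ⟨C, hC⟩

theorem Bd.sum {ι : Type*} {s : Finset ι} {a : ι → ℂ} {P : ι → ℂ → ℂ} (h : ∀ i ∈ s, Bd (P i)) :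
    Bd fun z => ∑ i ∈ s, a i * P i z := by
  classical
  induction s using Finset.induction_on with
  | empty => exact ⟨0, fun z => by simp⟩
  | insert i s hi ih =>
    obtain ⟨C, hC⟩ := h i (Finset.mem_insert_self i s)
    obtain ⟨C', hC'⟩ := ih fun j hj => h j (Finset.mem_insert_of_mem hj)
    refine ⟨‖a i‖ * C + C', fun z => ?_⟩
    change ‖∑ j ∈ insert i s, a j * P j z‖ ≤ _
    rw [Finset.sum_insert hi]
    refine (norm_add_le _ _).trans (add_le_add ?_ (hC' z))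
    rw [norm_mul]
    exact mul_le_mul_of_nonneg_left (hC z) (norm_nonneg _)

theorem Bd.smul {P : ℂ → ℂ} (h : Bd P) (a : ℂ) : Bd fun z => a * P z := by
  obtain ⟨C, hC⟩ := h
  refine ⟨‖a‖ * C, fun z => ?_⟩
  rw [norm_mul]
  exact mul_le_mul_of_nonneg_left (hC z) (norm_nonneg _)

theorem ksum_summable (L : PeriodPair) (q : ℕ) (P₁ P₂ P₃ : ℂ → ℂ) (C : ℝ)
    (h₁ : ∀ z, ‖P₁ z‖ ≤ C) (h₂ : ∀ z, ‖P₂ z‖ ≤ C) (h₃ : ∀ z, ‖P₃ z‖ ≤ C) :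
    Summable (fun c : Idx L q => kterm L q P₁ P₂ P₃ c) := by
  have hC : 0 ≤ C := (norm_nonneg _).trans (h₁ 0)
  refine Summable.of_norm_bounded (((idx_summable L q (Fin.last (q + 2))).add
    (idx_summable L q (Fin.last (q + 1)).castSucc)).mul_left (C * C ^ (q + 1) * C)) fun c => ?_
  have h0 : 0 ≤ ∏ i, ‖(c.1 i : ℂ)‖ ^ 2 := Finset.prod_nonneg fun i _ => sq_nonneg _
  rw [kterm, norm_div, Complex.norm_real, Real.norm_eq_abs, abs_of_nonneg h0, norm_mul, norm_mul,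
    norm_mul, norm_prod]
  have h4 : ∏ i : Fin (q + 1), ‖P₂ (c.1 i.castSucc.succ)‖ ≤ C ^ (q + 1) :=
    (Finset.prod_le_prod (fun i _ => norm_nonneg _) (g := fun _ => C) fun i _ => h₂ _).trans
      (by simp)
  have h5 : ‖(conj (c.1 (Fin.last (q + 2)) : ℂ) - conj (c.1 (Fin.last (q + 1)).castSucc : ℂ))‖ ≤
      ‖(c.1 (Fin.last (q + 2)) : ℂ)‖ + ‖(c.1 (Fin.last (q + 1)).castSucc : ℂ)‖ := by
    refine (norm_sub_le _ _).trans ?_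
    rw [Complex.norm_conj, Complex.norm_conj]
  rw [← add_mul, ← mul_assoc, div_eq_mul_inv]
  refine mul_le_mul_of_nonneg_right ?_ (inv_nonneg.2 h0)
  refine mul_le_mul (mul_le_mul (mul_le_mul (h₁ _) h4 (Finset.prod_nonneg fun _ _ =>
    norm_nonneg _) hC) (h₃ _) (norm_nonneg _) (by positivity)) h5 (norm_nonneg _) (by positivity)

theorem ksum_summable' (L : PeriodPair) (q : ℕ) {P₁ P₂ P₃ : ℂ → ℂ} (h₁ : Bd P₁) (h₂ : Bd P₂)
    (h₃ : Bd P₃) : Summable (fun c : Idx L q => kterm L q P₁ P₂ P₃ c) := by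
  obtain ⟨C₁, hC₁⟩ := h₁
  obtain ⟨C₂, hC₂⟩ := h₂
  obtain ⟨C₃, hC₃⟩ := h₃
  refine ksum_summable L q P₁ P₂ P₃ (max C₁ (max C₂ C₃)) (fun z => (hC₁ z).trans (le_max_left _ _))
    (fun z => (hC₂ z).trans ((le_max_left _ _).trans (le_max_right _ _)))
    (fun z => (hC₃ z).trans ((le_max_right _ _).trans (le_max_right _ _)))

theorem ksum_congr (L : PeriodPair) (q : ℕ) {P₁ P₂ P₃ P₁' P₂' P₃' : ℂ → ℂ}
    (h₁ : ∀ γ : L.lattice, γ ≠ 0 → P₁ γ = P₁' γ) (h₂ : ∀ γ : L.lattice, γ ≠ 0 → P₂ γ = P₂' γ)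
    (h₃ : ∀ γ : L.lattice, γ ≠ 0 → P₃ γ = P₃' γ) : Ksum L q P₁ P₂ P₃ = Ksum L q P₁' P₂' P₃' := by
  refine tsum_congr fun c => ?_
  unfold kterm
  rw [h₁ _ (c.2.1 _), h₃ _ (c.2.1 _), Finset.prod_congr rfl fun i _ => h₂ _ (c.2.1 _)]

/-- linearity in the first slot -/
theorem ksum_sum_one (L : PeriodPair) (q : ℕ) {ι : Type*} (s : Finset ι) (a : ι → ℂ)
    {P : ι → ℂ → ℂ} {P₂ P₃ : ℂ → ℂ} (h : ∀ i ∈ s, Bd (P i)) (h₂ : Bd P₂) (h₃ : Bd P₃) :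
    Ksum L q (fun z => ∑ i ∈ s, a i * P i z) P₂ P₃ = ∑ i ∈ s, a i * Ksum L q (P i) P₂ P₃ := by
  have h1 : ∀ c : Idx L q, kterm L q (fun z => ∑ i ∈ s, a i * P i z) P₂ P₃ c =
      ∑ i ∈ s, a i * kterm L q (P i) P₂ P₃ c := fun c => by
    simp only [kterm, Finset.sum_mul, Finset.sum_div]
    refine Finset.sum_congr rfl fun i _ => ?_
    ring
  have h2 : ∀ i ∈ s, Summable fun c : Idx L q => a i * kterm L q (P i) P₂ P₃ c := fun i hi =>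
    (ksum_summable' L q (h i hi) h₂ h₃).mul_left _
  rw [Ksum, tsum_congr h1, Summable.tsum_finsetSum h2]
  refine Finset.sum_congr rfl fun i _ => ?_
  rw [tsum_mul_left]
  rfl

/-- linearity in the third slot -/
theorem ksum_sum_three (L : PeriodPair) (q : ℕ) {ι : Type*} (s : Finset ι) (a : ι → ℂ)
    {P : ι → ℂ → ℂ} {P₁ P₂ : ℂ → ℂ} (h : ∀ i ∈ s, Bd (P i)) (h₁ : Bd P₁) (h₂ : Bd P₂) :
    Ksum L q P₁ P₂ (fun z => ∑ i ∈ s, a i * P i z) = ∑ i ∈ s, a i * Ksum L q P₁ P₂ (P i) := by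
  have h1 : ∀ c : Idx L q, kterm L q P₁ P₂ (fun z => ∑ i ∈ s, a i * P i z) c =
      ∑ i ∈ s, a i * kterm L q P₁ P₂ (P i) c := fun c => by
    simp only [kterm, Finset.mul_sum, Finset.sum_mul, Finset.sum_div]
    refine Finset.sum_congr rfl fun i _ => ?_
    ring
  have h2 : ∀ i ∈ s, Summable fun c : Idx L q => a i * kterm L q P₁ P₂ (P i) c := fun i hi =>
    (ksum_summable' L q h₁ h₂ (h i hi)).mul_left _
  rw [Ksum, tsum_congr h1, Summable.tsum_finsetSum h2]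
  refine Finset.sum_congr rfl fun i _ => ?_
  rw [tsum_mul_left]
  rfl

/-- homogeneity in all slots -/
theorem ksum_smul (L : PeriodPair) (q : ℕ) (a b c : ℂ) (P₁ P₂ P₃ : ℂ → ℂ) :
    Ksum L q (fun z => a * P₁ z) (fun z => b * P₂ z) (fun z => c * P₃ z) =
      a * b ^ (q + 1) * c * Ksum L q P₁ P₂ P₃ := by
  rw [Ksum, Ksum, ← tsum_mul_left]
  refine tsum_congr fun d => ?_
  simp only [kterm, Finset.prod_mul_distrib, Finset.prod_const, Finset.card_univ, Fintype.card_fin]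
  ring

theorem ksum_smul_two (L : PeriodPair) (q : ℕ) (b : ℂ) (P₁ P₂ P₃ : ℂ → ℂ) :
    Ksum L q P₁ (fun z => b * P₂ z) P₃ = b ^ (q + 1) * Ksum L q P₁ P₂ P₃ := by
  have h := ksum_smul L q 1 b 1 P₁ P₂ P₃
  simpa only [one_mul, mul_one] using h

theorem ksum_zero_two (L : PeriodPair) (q : ℕ) (P₁ P₃ : ℂ → ℂ) :
    Ksum L q P₁ (fun _ => 0) P₃ = 0 := by
  have h := ksum_smul_two L q 0 P₁ (fun _ => 0) P₃
  simpa using h

/-- The sum vanishes when the second and the third function agree. -/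
theorem ksum_swap (L : PeriodPair) (q : ℕ) (P₁ P₂ : ℂ → ℂ) : Ksum L q P₁ P₂ P₂ = 0 := by
  obtain ⟨σ, hσ⟩ : ∃ σ : Equiv.Perm (Fin (q + 3)),
    σ = Equiv.swap (Fin.last (q + 1)).castSucc (Fin.last (q + 2)) := ⟨_, rfl⟩
  have hb : (Fin.last (q + 1)).castSucc ≠ Fin.last (q + 2) := Fin.castSucc_ne_last _
  have h1 : σ (Fin.last (q + 2)) = (Fin.last (q + 1)).castSucc := by
    rw [hσ, Equiv.swap_apply_right]
  have h2 : σ (Fin.last (q + 1)).castSucc = Fin.last (q + 2) := by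
    rw [hσ, Equiv.swap_apply_left]
  have h3 : ∀ i : Fin (q + 1), σ i.castSucc.castSucc = i.castSucc.castSucc := fun i => by
    rw [hσ]
    refine Equiv.swap_apply_of_ne_of_ne ?_ (Fin.castSucc_ne_last _)
    intro h
    exact Fin.castSucc_ne_last i (Fin.castSucc_injective _ h)
  have hk : ∀ c : Fin (q + 3) → L.lattice, kterm L q P₁ P₂ P₂ c =
      (P₁ (c 0) * ∏ i : Fin (q + 2), P₂ (c i.succ)) *
      (conj (c (Fin.last (q + 2)) : ℂ) - conj (c (Fin.last (q + 1)).castSucc : ℂ)) /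
      ((∏ i, ‖(c i : ℂ)‖ ^ 2 : ℝ) : ℂ) := fun c => by
    rw [kterm, Fin.prod_univ_castSucc (fun i : Fin (q + 2) => P₂ (c i.succ))]
    simp only [Fin.succ_last]
    ring
  have h0 : σ 0 = 0 := by
    have := h3 0
    simpa using this
  have hneg : ∀ c : Idx L q, kterm L q P₁ P₂ P₂ (idxPerm L q σ c).1 =
      -kterm L q P₁ P₂ P₂ c.1 := fun c => by
    rw [idxPerm_coe, hk, hk]
    have e1 : ∏ i : Fin (q + 2), P₂ (c.1 (σ i.succ)) = ∏ i : Fin (q + 2), P₂ (c.1 i.succ) := by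
      have e2 : ∏ i : Fin (q + 3), (if i = 0 then (1 : ℂ) else P₂ (c.1 (σ i))) =
          ∏ i : Fin (q + 3), (if i = 0 then (1 : ℂ) else P₂ (c.1 i)) := by
        rw [← Equiv.prod_comp σ fun i => (if i = 0 then (1 : ℂ) else P₂ (c.1 i))]
        refine Finset.prod_congr rfl fun i _ => ?_
        have e3 : σ i = 0 ↔ i = 0 :=
          ⟨fun h => σ.injective (h.trans h0.symm), fun h => by rw [h, h0]⟩
        simp only [e3]
      rw [Fin.prod_univ_succ (fun i : Fin (q + 3) => if i = 0 then (1 : ℂ) else P₂ (c.1 (σ i))),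
        Fin.prod_univ_succ (fun i : Fin (q + 3) => if i = 0 then (1 : ℂ) else P₂ (c.1 i))] at e2
      simpa only [if_true, one_mul, Fin.succ_ne_zero, if_false] using e2
    have e4 : ∏ i, ‖(c.1 (σ i) : ℂ)‖ ^ 2 = ∏ i, ‖(c.1 i : ℂ)‖ ^ 2 :=
      Equiv.prod_comp σ fun i => ‖(c.1 i : ℂ)‖ ^ 2
    rw [e1, e4, h0, h1, h2]
    ring
  have hsum : Ksum L q P₁ P₂ P₂ = -Ksum L q P₁ P₂ P₂ := by
    conv_lhs => rw [Ksum, ← (idxPerm L q σ).tsum_eq fun c : Idx L q => kterm L q P₁ P₂ P₂ c.1]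
    rw [tsum_congr hneg, tsum_neg]
    rfl
  have h4 : (2 : ℂ) * Ksum L q P₁ P₂ P₂ = 0 := by linear_combination hsum
  simpa using h4

theorem ksum_smul1c (L : PeriodPair) (q : ℕ) (a : ℂ) (P₁ P₂ P₃ : ℂ → ℂ) :
    Ksum L q (fun z => a * P₁ z) P₂ P₃ = a * Ksum L q P₁ P₂ P₃ := by
  have h := ksum_smul L q a 1 1 P₁ P₂ P₃
  simpa only [one_mul, mul_one, one_pow] using h

theorem ksum_smul3c (L : PeriodPair) (q : ℕ) (a : ℂ) (P₁ P₂ P₃ : ℂ → ℂ) :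
    Ksum L q P₁ P₂ (fun z => a * P₃ z) = a * Ksum L q P₁ P₂ P₃ := by
  have h := ksum_smul L q 1 1 a P₁ P₂ P₃
  simpa only [one_mul, mul_one, one_pow] using h

theorem ksum_smul1 (L : PeriodPair) (q : ℕ) (c : ℚ) (P₁ P₂ P₃ : ℂ → ℂ) :
    Ksum L q (fun z => (c : ℂ) * P₁ z) P₂ P₃ = (c : ℂ) * Ksum L q P₁ P₂ P₃ :=
  ksum_smul1c L q c P₁ P₂ P₃

theorem ksum_smul3 (L : PeriodPair) (q : ℕ) (c : ℚ) (P₁ P₂ P₃ : ℂ → ℂ) :
    Ksum L q P₁ P₂ (fun z => (c : ℂ) * P₃ z) = (c : ℂ) * Ksum L q P₁ P₂ P₃ :=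
  ksum_smul3c L q c P₁ P₂ P₃

theorem ksum_smul2 (L : PeriodPair) (q : ℕ) (c : ℚ) (P₁ P₂ P₃ : ℂ → ℂ) :
    Ksum L q P₁ (fun z => (c : ℂ) * P₂ z) P₃ = (c : ℂ) ^ (q + 1) * Ksum L q P₁ P₂ P₃ :=
  ksum_smul_two L q c P₁ P₂ P₃

/-- additivity in the first slot -/
theorem ksum_add1 (L : PeriodPair) (q : ℕ) (P₁ P₁' P₂ P₃ : ℂ → ℂ) (h₁ : ∃ C : ℝ, ∀ z, ‖P₁ z‖ ≤ C)
    (h₁' : ∃ C : ℝ, ∀ z, ‖P₁' z‖ ≤ C) (h₂ : ∃ C : ℝ, ∀ z, ‖P₂ z‖ ≤ C)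
    (h₃ : ∃ C : ℝ, ∀ z, ‖P₃ z‖ ≤ C) :
    Ksum L q (fun z => P₁ z + P₁' z) P₂ P₃ = Ksum L q P₁ P₂ P₃ + Ksum L q P₁' P₂ P₃ := by
  have h1 : ∀ c : Idx L q, kterm L q (fun z => P₁ z + P₁' z) P₂ P₃ c =
      kterm L q P₁ P₂ P₃ c + kterm L q P₁' P₂ P₃ c := fun c => by
    simp only [kterm]
    ring
  rw [Ksum, tsum_congr h1]
  exact (ksum_summable' L q h₁ h₂ h₃).tsum_add (ksum_summable' L q h₁' h₂ h₃)

/-- additivity in the third slot -/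
theorem ksum_add3 (L : PeriodPair) (q : ℕ) (P₁ P₂ P₃ P₃' : ℂ → ℂ) (h₁ : ∃ C : ℝ, ∀ z, ‖P₁ z‖ ≤ C)
    (h₂ : ∃ C : ℝ, ∀ z, ‖P₂ z‖ ≤ C) (h₃ : ∃ C : ℝ, ∀ z, ‖P₃ z‖ ≤ C)
    (h₃' : ∃ C : ℝ, ∀ z, ‖P₃' z‖ ≤ C) :
    Ksum L q P₁ P₂ (fun z => P₃ z + P₃' z) = Ksum L q P₁ P₂ P₃ + Ksum L q P₁ P₂ P₃' := by
  have h1 : ∀ c : Idx L q, kterm L q P₁ P₂ (fun z => P₃ z + P₃' z) c =
      kterm L q P₁ P₂ P₃ c + kterm L q P₁ P₂ P₃' c := fun c => by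
    simp only [kterm]
    ring
  rw [Ksum, tsum_congr h1]
  exact (ksum_summable' L q h₁ h₂ h₃).tsum_add (ksum_summable' L q h₁ h₂ h₃')

end Pool.Agent.F194

end
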