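import Mathlib

/-!
# MP_f194bb_nt: the linear algebra of short cocycles
-/

set_option autoImplicit false

noncomputable section

namespace Pool.Agent.F194

variable {V : Type*} [AddCommGroup V] [Module ℚ V]

/-- A tensor `∑ x i ⊗ y i` killed by all `l ⊗ s` is killed by all bilinear maps. -/
lemma bilin_zero {ι : Type*} (S : Finset ι) (x y : ι → V)
    (h : ∀ l s : V →ₗ[ℚ] ℚ, ∑ i ∈ S, l (x i) * s (y i) = 0) (B : V →ₗ[ℚ] V →ₗ[ℚ] ℂ) :
    ∑ i ∈ S, B (x i) (y i) = 0 := by
  classical
  let b := Module.Basis.ofVectorSpace ℚ V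
  let T : Finset _ := S.biUnion fun i => (b.repr (x i)).support
  have hx : ∀ i ∈ S, x i = ∑ k ∈ T, b.repr (x i) k • b k := by
    intro i hi
    conv_lhs => rw [← b.linearCombination_repr (x i)]
    rw [Finsupp.linearCombination_apply]
    refine Finsupp.sum_of_support_subset _ (Finset.subset_biUnion_of_mem
      (fun i => (b.repr (x i)).support) hi) _ ?_
    intro k _
    exact zero_smul _ _
  have hk : ∀ k, ∑ i ∈ S, b.repr (x i) k • y i = 0 := by
    intro k
    rw [← Module.forall_dual_apply_eq_zero_iff ℚ]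
    intro s
    rw [map_sum, ← h (b.coord k) s]
    refine Finset.sum_congr rfl fun i _ => ?_
    rw [map_smul, smul_eq_mul]
    rfl
  calc ∑ i ∈ S, B (x i) (y i) = ∑ i ∈ S, ∑ k ∈ T, B (b k) (b.repr (x i) k • y i) := by
        refine Finset.sum_congr rfl fun i hi => ?_
        conv_lhs => rw [hx i hi]
        rw [map_sum, LinearMap.sum_apply]
        refine Finset.sum_congr rfl fun k _ => ?_
        rw [map_smul, map_smul, LinearMap.smul_apply]
    _ = ∑ k ∈ T, B (b k) (∑ i ∈ S, b.repr (x i) k • y i) := by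
        rw [Finset.sum_comm]
        refine Finset.sum_congr rfl fun k _ => ?_
        rw [map_sum]
    _ = 0 := Finset.sum_eq_zero fun k _ => by rw [hk k, map_zero]

/-- The tensor powers of the vectors `e j` are linearly independent. -/
def PowInd (p : ℕ) {J : Type*} (e : J → V) : Prop :=
  LinearIndependent ℚ fun (j : J) (ν : Fin p → (V →ₗ[ℚ] ℚ)) => ∏ k, ν k (e j)

theorem linalg {ι J : Type*} [Fintype ι] [Fintype J] (p : ℕ) (f w g : ι → V)
    (κ : V → V → V → ℂ)
    (h1a : ∀ x x' f w, κ (x + x') f w = κ x f w + κ x' f w)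
    (h1s : ∀ (c : ℚ) x f w, κ (c • x) f w = c • κ x f w)
    (h3a : ∀ x f w w', κ x f (w + w') = κ x f w + κ x f w')
    (h3s : ∀ (c : ℚ) x f w, κ x f (c • w) = c • κ x f w)
    (h2 : ∀ (c : ℚ) x f w, κ x (c • f) w = c ^ (p + 2) • κ x f w)
    (hff : ∀ x f, κ x f f = 0) (hfw : ∀ i, κ (f i) (f i) (w i) = 0)
    (hid : ∀ (l m r s : V →ₗ[ℚ] ℚ) (ν : Fin p → (V →ₗ[ℚ] ℚ)),
      ∑ i, (l (w i) * m (f i) - l (f i) * m (w i)) * (∏ k, ν k (f i)) *
        (r (f i) * s (g i) - r (g i) * s (f i)) = 0)
    (c : ι → J) (a : ι → ℚ) (e : J → V) (hf : ∀ i, f i = a i • e (c i)) (he : PowInd p e) :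
    ∑ i, κ (g i) (f i) (w i) = 0 := by
  classical
  -- per line identity
  have hline : ∀ (j : J) (l m r s : V →ₗ[ℚ] ℚ),
      ∑ i ∈ Finset.univ.filter (fun i => c i = j), a i ^ (p + 2) *
        ((l (w i) * m (e j) - l (e j) * m (w i)) * (r (e j) * s (g i) - r (g i) * s (e j))) = 0 := by
    intro j l m r s
    have h := Fintype.linearIndependent_iff.1 he (fun j =>
      ∑ i ∈ Finset.univ.filter (fun i => c i = j), a i ^ (p + 2) *
        ((l (w i) * m (e j) - l (e j) * m (w i)) * (r (e j) * s (g i) - r (g i) * s (e j)))) ?_ j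
    · exact h
    · funext ν
      rw [Finset.sum_apply, Pi.zero_apply, ← hid l m r s ν]
      rw [← Finset.sum_fiberwise Finset.univ c]
      refine Finset.sum_congr rfl fun j _ => ?_
      rw [Pi.smul_apply, smul_eq_mul, Finset.sum_mul]
      refine Finset.sum_congr rfl fun i hi => ?_
      have hci : c i = j := (Finset.mem_filter.1 hi).2
      rw [hf i, hci]
      simp only [map_smul, smul_eq_mul]
      rw [Finset.prod_mul_distrib, Finset.prod_const, Finset.card_univ, Fintype.card_fin]
      ring
  rw [← Finset.sum_fiberwise Finset.univ c]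
  refine Finset.sum_eq_zero fun j _ => ?_
  by_cases hej : e j = 0
  · refine Finset.sum_eq_zero fun i hi => ?_
    have hci : c i = j := (Finset.mem_filter.1 hi).2
    have h0 : f i = (0 : ℚ) • f i := by rw [hf i, hci, hej, smul_zero, smul_zero]
    rw [h0, h2, zero_pow (by omega), zero_smul]
  obtain ⟨μ, hμ⟩ : ∃ μ : V →ₗ[ℚ] ℚ, μ (e j) = 1 := by
    by_contra hcon
    push Not at hcon
    apply hej
    rw [← Module.forall_dual_apply_eq_zero_iff ℚ]
    intro φ
    by_contra hφ
    refine hcon ((φ (e j))⁻¹ • φ) ?_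
    rw [LinearMap.smul_apply, smul_eq_mul, inv_mul_cancel₀ hφ]
  let P : V →ₗ[ℚ] V := LinearMap.id - μ.smulRight (e j)
  have hP : ∀ x, P x = x - μ x • e j := fun x => rfl
  let Bm : V →ₗ[ℚ] V →ₗ[ℚ] ℂ := LinearMap.mk₂ ℚ (fun x y => κ y (e j) x)
    (fun x x' y => h3a _ _ _ _) (fun q x y => h3s _ _ _ _) (fun x y y' => h1a _ _ _ _)
    (fun q x y => h1s _ _ _ _)
  have hB : ∀ x y, Bm x y = κ y (e j) x := fun x y => rfl
  have key := bilin_zero (Finset.univ.filter (fun i => c i = j))
    (fun i => (a i ^ (p + 2)) • P (w i)) (fun i => P (g i)) ?_ Bm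
  · rw [← key]
    refine Finset.sum_congr rfl fun i hi => ?_
    have hci : c i = j := (Finset.mem_filter.1 hi).2
    by_cases hai : a i = 0
    · have h0 : f i = (0 : ℚ) • f i := by rw [hf i, hai, zero_smul, zero_smul]
      rw [h0, h2, zero_pow (by omega), zero_smul, hai, zero_pow (by omega), zero_smul, map_zero,
        LinearMap.zero_apply]
    · have hwe : κ (e j) (e j) (w i) = 0 := by
        have := hfw i
        rw [hf i, hci, h1s, h2] at this
        rcases smul_eq_zero.1 this with h | h
        · exact absurd h hai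
        · rcases smul_eq_zero.1 h with h | h
          · exact absurd (pow_eq_zero_iff (by omega) |>.1 h) hai
          · exact h
      have hee : Bm (e j) = 0 := by
        ext y
        rw [hB, hff]
        rfl
      have hw' : Bm (P (w i)) = Bm (w i) := by
        rw [hP, map_sub, map_smul, hee, smul_zero, sub_zero]
      have h5 : Bm (P (w i)) (P (g i)) = κ (g i) (e j) (w i) := by
        rw [hw', hP, map_sub, map_smul, hB, hB, hwe, smul_zero, sub_zero]
      rw [map_smul, LinearMap.smul_apply, h5, hf i, hci, h2]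
  · intro l s
    have h := hline j l μ μ s
    rw [← h]
    refine Finset.sum_congr rfl fun i _ => ?_
    simp only [hP, map_smul, map_sub, smul_eq_mul, hμ]
    ring

/-- Pairwise non-proportional vectors, at most `p + 1` of them: the `p`-th tensor powers are
linearly independent. -/
theorem powInd_of_card {J : Type*} [Fintype J] (p : ℕ) (hJ : Fintype.card J ≤ p + 1) (e : J → V)
    (h0 : ∀ j, e j ≠ 0) (he : ∀ i j, i ≠ j → e i ∉ Submodule.span ℚ {e j}) : PowInd p e := by
  classical
  rw [PowInd, Fintype.linearIndependent_iff]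
  intro t ht j
  -- functionals killing the other vectors
  have hex : ∀ i : {i : J // i ≠ j}, ∃ φ : V →ₗ[ℚ] ℚ, φ (e i) = 0 ∧ φ (e j) ≠ 0 := by
    intro i
    have hn := he j i (Ne.symm i.2)
    obtain ⟨φ, hφ1, hφ2⟩ := Submodule.exists_dual_map_eq_bot_of_notMem hn inferInstance
    refine ⟨φ, ?_, hφ1⟩
    have h1 : φ (e i) ∈ Submodule.map φ (Submodule.span ℚ {e i}) :=
      Submodule.mem_map_of_mem (Submodule.mem_span_singleton_self _)
    rw [hφ2] at h1
    exact (Submodule.mem_bot ℚ).1 h1
  choose φ hφ using hex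
  have hcard : Fintype.card {i : J // i ≠ j} ≤ p := by
    have h1 : Fintype.card {i : J // i ≠ j} = Fintype.card J - 1 := by
      rw [Fintype.card_subtype_compl, Fintype.card_subtype_eq]
    omega
  obtain ⟨emb⟩ : Nonempty ({i : J // i ≠ j} ↪ Fin p) :=
    Function.Embedding.nonempty_of_card_le (by rw [Fintype.card_fin]; exact hcard)
  -- a functional which does not vanish at `e j`
  by_cases hsub : Nonempty {i : J // i ≠ j}
  · obtain ⟨i0⟩ := hsub
    let ν : Fin p → (V →ₗ[ℚ] ℚ) := fun k =>
      if h : ∃ i, emb i = k then φ h.choose else φ i0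
    have hν : ∀ i, ν (emb i) = φ i := by
      intro i
      have h : ∃ i', emb i' = emb i := ⟨i, rfl⟩
      show (if h : ∃ i', emb i' = emb i then φ h.choose else φ i0) = φ i
      rw [dif_pos h, emb.injective h.choose_spec]
    have h0 := congrFun ht ν
    rw [Finset.sum_apply, Finset.sum_eq_single j] at h0
    · rw [Pi.smul_apply, smul_eq_mul, Pi.zero_apply, mul_eq_zero] at h0
      rcases h0 with h0 | h0
      · exact h0
      · exfalso
        rw [Finset.prod_eq_zero_iff] at h0
        obtain ⟨k, _, hk⟩ := h0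
        revert hk
        show (if h : ∃ i, emb i = k then φ h.choose else φ i0) (e j) = 0 → False
        split_ifs with h
        · exact (hφ _).2
        · exact (hφ _).2
    · intro i _ hij
      rw [Pi.smul_apply, smul_eq_mul, Finset.prod_eq_zero (Finset.mem_univ (emb ⟨i, hij⟩)), mul_zero]
      rw [hν]
      exact (hφ ⟨i, hij⟩).1
    · intro h
      exact absurd (Finset.mem_univ j) h
  · -- only one vector
    have hall : ∀ i, i = j := fun i => by
      by_contra h
      exact hsub ⟨⟨i, h⟩⟩
    obtain ⟨μ, hμ⟩ : ∃ μ : V →ₗ[ℚ] ℚ, μ (e j) ≠ 0 := by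
      by_contra hcon
      push Not at hcon
      exact h0 j ((Module.forall_dual_apply_eq_zero_iff ℚ _).1 hcon)
    have h0 := congrFun ht (fun _ => μ)
    rw [Finset.sum_apply, Finset.sum_eq_single j] at h0
    · rw [Pi.smul_apply, smul_eq_mul, Pi.zero_apply, mul_eq_zero] at h0
      rcases h0 with h0 | h0
      · exact h0
      · exfalso
        rw [Finset.prod_eq_zero_iff] at h0
        obtain ⟨_, _, hk⟩ := h0
        exact hμ hk
    · intro i _ hij
      exact absurd (hall i) hij
    · intro h
      exact absurd (Finset.mem_univ j) h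

end Pool.Agent.F194

end
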