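import Pool.Agent.Work.MP_f194bb_nt.Defs

/-!
# MP_f194bb_nt: the symbol on Goncharov's groups
-/

set_option autoImplicit false

open scoped TensorProduct

noncomputable section

namespace Pool.Agent.F194

universe u

/-! ### leading coefficients at a point -/

section lead
variable {F : Type u} [Field F]

open Polynomial in
/-- leading coefficient at `t₀` of a polynomial -/
def lcPoly (t₀ : F) : F[X] →*₀ F where
  toFun p := (p /ₘ (X - C t₀) ^ p.rootMultiplicity t₀).eval t₀
  map_zero' := by rw [Polynomial.zero_divByMonic, Polynomial.eval_zero]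
  map_one' := by
    have h : (1 : F[X]).rootMultiplicity t₀ = 0 := by
      apply Polynomial.rootMultiplicity_eq_zero
      simp [Polynomial.IsRoot]
    rw [h, pow_zero, Polynomial.divByMonic_one, Polynomial.eval_one]
  map_mul' p q := by
    by_cases hp : p = 0
    · rw [hp, zero_mul, Polynomial.zero_divByMonic, Polynomial.eval_zero, zero_mul]
    by_cases hq : q = 0
    · rw [hq, mul_zero, Polynomial.zero_divByMonic, Polynomial.eval_zero, mul_zero]
    have hpq : p * q ≠ 0 := mul_ne_zero hp hq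
    rw [← Polynomial.eval_mul]
    congr 1
    have h1 := Polynomial.pow_mul_divByMonic_rootMultiplicity_eq p t₀
    have h2 := Polynomial.pow_mul_divByMonic_rootMultiplicity_eq q t₀
    have h3 := Polynomial.pow_mul_divByMonic_rootMultiplicity_eq (p * q) t₀
    have hne : (X - C t₀) ^ (p * q).rootMultiplicity t₀ ≠ 0 :=
      pow_ne_zero _ (Polynomial.X_sub_C_ne_zero t₀)
    apply mul_left_cancel₀ hne
    rw [h3, Polynomial.rootMultiplicity_mul hpq, pow_add]
    conv_lhs => rw [← h1, ← h2]
    ring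

open Polynomial in
lemma lcPoly_of_ne (t₀ : F) (p : F[X]) (h : p.eval t₀ ≠ 0) : lcPoly t₀ p = p.eval t₀ := by
  show (p /ₘ (X - C t₀) ^ p.rootMultiplicity t₀).eval t₀ = _
  have h1 : p.rootMultiplicity t₀ = 0 := Polynomial.rootMultiplicity_eq_zero h
  rw [h1, pow_zero, Polynomial.divByMonic_one]

open Polynomial in
lemma lcPoly_ne_zero (t₀ : F) (p : F[X]) (h : p ≠ 0) : lcPoly t₀ p ≠ 0 :=
  Polynomial.eval_divByMonic_pow_rootMultiplicity_ne_zero t₀ h

open Polynomial nonZeroDivisors in
lemma lcPoly_cond (t₀ : F) : F[X]⁰ ≤ F⁰.comap (lcPoly t₀) := by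
  intro p hp
  rw [Submonoid.mem_comap, mem_nonZeroDivisors_iff_ne_zero]
  exact lcPoly_ne_zero t₀ p (nonZeroDivisors.ne_zero hp)

/-- leading coefficient at `t₀` of a rational function -/
def lcRat (t₀ : F) : RatFunc F →*₀ F := RatFunc.liftMonoidWithZeroHom (lcPoly t₀) (lcPoly_cond t₀)

/-- leading coefficient at `t₀`, on units -/
def lcU (t₀ : F) : Additive (RatFunc F)ˣ →+ Additive Fˣ :=
  MonoidHom.toAdditive (Units.map (lcRat t₀ : RatFunc F →* F))

lemma lcU_unitOf (t₀ : F) (f : RatFunc F) : lcU t₀ (unitOf (some f)) = unitOf (some (lcRat t₀ f)) := by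
  classical
  by_cases hf : f = 0
  · subst hf
    simp [unitOf]
  · have h2 : lcRat t₀ f ≠ 0 := (map_ne_zero _).2 hf
    simp only [unitOf, dif_neg hf, dif_neg h2]
    apply Additive.toMul.injective
    apply Units.ext
    rfl

lemma unitOf_one : unitOf (some (1 : F)) = 0 := by
  classical
  simp only [unitOf, dif_neg (one_ne_zero' F)]
  apply Additive.toMul.injective
  apply Units.ext
  rfl

lemma unitOf_zero : unitOf (some (0 : F)) = 0 := by
  classical
  simp [unitOf]

lemma unitOf_none : unitOf (none : Option F) = 0 := rfl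

lemma unitOf_neg (l : Additive Fˣ →+ ℚ) (x : F) : l (unitOf (some (-x))) = l (unitOf (some x)) := by
  classical
  by_cases hx : x = 0
  · rw [hx, neg_zero]
  · have hx' : -x ≠ 0 := neg_ne_zero.2 hx
    have h1 : l (Additive.ofMul (-1 : Fˣ)) = 0 := by
      have h2 : l (Additive.ofMul ((-1 : Fˣ) * (-1))) = 0 := by
        rw [neg_mul_neg, one_mul]
        exact map_zero l
      rw [ofMul_mul, map_add] at h2
      linarith
    have h3 : (unitOf (some (-x)) : Additive Fˣ) = Additive.ofMul (-1 : Fˣ) + unitOf (some x) := by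
      simp only [unitOf, dif_neg hx, dif_neg hx']
      rw [← ofMul_mul]
      congr 1
      apply Units.ext
      simp
    rw [h3, map_add, h1, zero_add]

end lead

/-! ### the symbol -/

/-- `(l ∧ m)((1-x) ∧ x) ∏ ν(x)` -/
def phiFun {F : Type u} [Field F] {k : ℕ} (l m : Additive Fˣ →+ ℚ) (ν : Fin k → (Additive Fˣ →+ ℚ))
    (x : Option F) : ℚ :=
  (l (unitOf (oneSub x)) * m (unitOf x) - l (unitOf x) * m (unitOf (oneSub x))) *
    ∏ j, ν j (unitOf x)

/-- the symbol as a homomorphism -/
def phi {F : Type u} [Field F] {k : ℕ} (l m : Additive Fˣ →+ ℚ) (ν : Fin k → (Additive Fˣ →+ ℚ)) :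
    FreeAbelianGroup (Option F) →+ ℚ := FreeAbelianGroup.lift (phiFun l m ν)

lemma phi_of {F : Type u} [Field F] {k : ℕ} (l m : Additive Fˣ →+ ℚ)
    (ν : Fin k → (Additive Fˣ →+ ℚ)) (x : Option F) :
    phi l m ν (FreeAbelianGroup.of x) = phiFun l m ν x := FreeAbelianGroup.lift_apply_of _ _

lemma phiFun_spec {F : Type u} [Field F] {k : ℕ} (l m : Additive Fˣ →+ ℚ)
    (ν : Fin k → (Additive Fˣ →+ ℚ)) (t₀ : F) (x : Option (RatFunc F)) :
    phiFun l m ν (evalAt t₀ x) =
      phiFun (l.comp (lcU t₀)) (m.comp (lcU t₀)) (fun j => (ν j).comp (lcU t₀)) x := by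
  classical
  rcases x with _ | f
  · simp [phiFun, evalAt, oneSub, unitOf]
  unfold phiFun
  simp only [oneSub, AddMonoidHom.comp_apply, lcU_unitOf]
  by_cases hf0 : f = 0
  · subst hf0
    simp [evalAt, unitOf_zero, unitOf_one, sub_zero]
  by_cases hf1 : f = 1
  · subst hf1
    simp [evalAt, unitOf_zero, unitOf_one]
  -- numerator and denominator
  set n := f.num with hn
  set d := f.denom with hd
  have hd0 : d ≠ 0 := f.denom_ne_zero
  have hn0 : n ≠ 0 := by
    rw [hn]
    exact RatFunc.num_ne_zero hf0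
  have hcop : IsCoprime n d := f.isCoprime_num_denom
  have hfe : f = algebraMap _ (RatFunc F) n / algebraMap _ (RatFunc F) d := (f.num_div_denom).symm
  have hdm : algebraMap _ (RatFunc F) d ≠ 0 := by
    exact (map_ne_zero_iff _ (RatFunc.algebraMap_injective F)).2 hd0
  have hfs : 1 - f = algebraMap _ (RatFunc F) (d - n) / algebraMap _ (RatFunc F) d := by
    rw [map_sub, sub_div, div_self hdm, ← hfe]
  have hlc : ∀ p : Polynomial F, lcRat t₀ (algebraMap _ (RatFunc F) p) = lcPoly t₀ p := by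
    intro p
    have := RatFunc.liftMonoidWithZeroHom_apply_div' (lcPoly t₀) (lcPoly_cond t₀) p 1
    simp only [map_one, div_one] at this
    exact this
  have hlf : lcRat t₀ f = lcPoly t₀ n / lcPoly t₀ d := by
    conv_lhs => rw [hfe]
    rw [map_div₀, hlc, hlc]
  have hls : lcRat t₀ (1 - f) = lcPoly t₀ (d - n) / lcPoly t₀ d := by
    rw [hfs, map_div₀, hlc, hlc]
  by_cases hdt : d.eval t₀ = 0
  · have hnt : n.eval t₀ ≠ 0 := by
      intro h
      obtain ⟨a, b, hab⟩ := hcop
      have := congrArg (Polynomial.eval t₀) hab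
      rw [Polynomial.eval_add, Polynomial.eval_mul, Polynomial.eval_mul, h, hdt, mul_zero,
        mul_zero, add_zero, Polynomial.eval_one] at this
      exact zero_ne_one this
    have he : evalAt t₀ (some f) = none := by
      simp only [evalAt, ← hd, if_pos hdt]
    have hdn : (d - n).eval t₀ ≠ 0 := by
      rw [Polynomial.eval_sub, hdt, zero_sub]
      exact neg_ne_zero.2 hnt
    have h1 : lcRat t₀ (1 - f) = - lcRat t₀ f := by
      rw [hlf, hls, lcPoly_of_ne _ _ hnt, lcPoly_of_ne _ _ hdn, Polynomial.eval_sub, hdt,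
        zero_sub, neg_div]
    rw [he, h1, unitOf_neg, unitOf_neg]
    simp only [unitOf_none, map_zero]
    ring
  · have he : evalAt t₀ (some f) = some (n.eval t₀ / d.eval t₀) := by
      simp only [evalAt, ← hd, ← hn, if_neg hdt]
    rw [he]
    have hld : lcPoly t₀ d = d.eval t₀ := lcPoly_of_ne _ _ hdt
    by_cases hnt : n.eval t₀ = 0
    · have hdn : (d - n).eval t₀ ≠ 0 := by
        rw [Polynomial.eval_sub, hnt, sub_zero]
        exact hdt
      have h1 : lcRat t₀ (1 - f) = 1 := by
        rw [hls, lcPoly_of_ne _ _ hdn, hld, Polynomial.eval_sub, hnt, sub_zero, div_self hdt]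
      rw [hnt, zero_div, h1]
      simp only [unitOf_zero, unitOf_one, sub_zero, map_zero]
      ring
    · have hln : lcPoly t₀ n = n.eval t₀ := lcPoly_of_ne _ _ hnt
      have h2 : lcRat t₀ f = n.eval t₀ / d.eval t₀ := by rw [hlf, hln, hld]
      by_cases hnd : n.eval t₀ = d.eval t₀
      · have h3 : n.eval t₀ / d.eval t₀ = 1 := by rw [hnd, div_self hdt]
        rw [h2, h3]
        simp only [unitOf_one, sub_self, unitOf_zero, map_zero]
        ring
      · have hdn : (d - n).eval t₀ ≠ 0 := by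
          rw [Polynomial.eval_sub, sub_ne_zero]
          exact fun h => hnd h.symm
        have h1 : lcRat t₀ (1 - f) = 1 - n.eval t₀ / d.eval t₀ := by
          rw [hls, lcPoly_of_ne _ _ hdn, hld, Polynomial.eval_sub, sub_div, div_self hdt]
        rw [h1, h2]

lemma phi_spec {F : Type u} [Field F] {k : ℕ} (l m : Additive Fˣ →+ ℚ)
    (ν : Fin k → (Additive Fˣ →+ ℚ)) (t₀ : F) (α : FreeAbelianGroup (Option (RatFunc F))) :
    phi l m ν (FreeAbelianGroup.map (evalAt t₀) α) =
      phi (l.comp (lcU t₀)) (m.comp (lcU t₀)) (fun j => (ν j).comp (lcU t₀)) α := by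
  have h : (phi l m ν).comp (FreeAbelianGroup.map (evalAt t₀)) =
      phi (l.comp (lcU t₀)) (m.comp (lcU t₀)) (fun j => (ν j).comp (lcU t₀)) := by
    ext x
    rw [AddMonoidHom.comp_apply, FreeAbelianGroup.map_of_apply, phi_of, phi_of]
    exact phiFun_spec l m ν t₀ x
  exact DFunLike.congr_fun h α

/-- a functional on `B ⊗ M` from functionals on `B` and `M` -/
def tmap {A M : Type u} [AddCommGroup A] [AddCommGroup M] (a : A →+ ℚ) (b : M →+ ℚ) :
    Tens A M →+ ℚ :=
  (TensorProduct.lift
    { toFun := fun x => (a x) • b.toIntLinearMap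
      map_add' := fun x y => by rw [map_add, add_smul]
      map_smul' := fun c x => by
        rw [map_zsmul, RingHom.id_apply, smul_assoc] } : A ⊗[ℤ] M →ₗ[ℤ] ℚ).toAddMonoidHom

lemma tmap_tmul {A M : Type u} [AddCommGroup A] [AddCommGroup M] (a : A →+ ℚ) (b : M →+ ℚ)
    (x : A) (y : M) : tmap a b (tmul x y) = a x * b y := rfl

/-- `l ∧ m` on `Λ²` -/
def wmap {A : Type u} [AddCommGroup A] (l m : A →+ ℚ) : Ext2 A →+ ℚ :=
  QuotientAddGroup.lift (diag A) (tmap l m - tmap m l) (by
    have h : diag A ≤ (tmap l m - tmap m l).ker := by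
      rw [diag, AddSubgroup.closure_le]
      rintro t ⟨a, rfl⟩
      rw [SetLike.mem_coe, AddMonoidHom.mem_ker, AddMonoidHom.sub_apply, tmap_tmul, tmap_tmul]
      ring
    exact fun x hx => h hx)

lemma wmap_wdg {A : Type u} [AddCommGroup A] (l m : A →+ ℚ) (a b : A) :
    wmap l m (wdg a b) = l a * m b - l b * m a := by
  have h : wmap l m (wdg a b) = tmap l m (tmul a b) - tmap m l (tmul a b) := rfl
  rw [h, tmap_tmul, tmap_tmul]
  ring

/-- The symbol kills Goncharov's relations. -/
theorem phi_kills (k : ℕ) : ∀ (F : Type u) [Field F] (l m : Additive Fˣ →+ ℚ)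
    (ν : Fin k → (Additive Fˣ →+ ℚ)), ∀ x ∈ R k F, phi l m ν x = 0 := by
  have gens : ∀ (k : ℕ) (F : Type u) [Field F] (Z : Set (FreeAbelianGroup (Option (RatFunc F)))),
      (∀ (l m : Additive (RatFunc F)ˣ →+ ℚ) (ν : Fin k → (Additive (RatFunc F)ˣ →+ ℚ)),
        ∀ α ∈ Z, phi l m ν α = 0) →
      ∀ (l m : Additive Fˣ →+ ℚ) (ν : Fin k → (Additive Fˣ →+ ℚ)), ∀ x ∈ relOf F Z,
        phi l m ν x = 0 := by
    intro k F _ Z hZ l m ν x hx
    have h1 : relOf F Z ≤ (phi l m ν).ker := by
      rw [relOf, AddSubgroup.closure_le]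
      rintro y ((h | h) | ⟨α, hα, h⟩)
      · rw [SetLike.mem_coe, AddMonoidHom.mem_ker, h, phi_of]
        simp [phiFun, unitOf_zero, oneSub, unitOf_one]
      · rw [SetLike.mem_coe, AddMonoidHom.mem_ker, h, phi_of]
        simp [phiFun, unitOf_none, oneSub]
      · rw [SetLike.mem_coe, AddMonoidHom.mem_ker, h, map_sub, phi_spec, phi_spec, hZ _ _ _ α hα,
          hZ _ _ _ α hα, sub_zero]
    exact h1 hx
  induction k with
  | zero =>
    intro F _ l m ν x hx
    refine gens 0 F _ ?_ l m ν x hx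
    intro l m ν α hα
    have h : phi l m ν = (wmap l m).comp (delta2 (RatFunc F)) := by
      ext x
      rw [phi_of, AddMonoidHom.comp_apply, delta2, FreeAbelianGroup.lift_apply_of]
      rw [wmap_wdg, phiFun, Finset.univ_eq_empty, Finset.prod_empty, mul_one]
    rw [h, AddMonoidHom.comp_apply, hα, map_zero]
  | succ k ih =>
    intro F _ l m ν x hx
    refine gens (k + 1) F _ ?_ l m ν x hx
    intro l m ν α hα
    let φ : (FreeAbelianGroup (Option (RatFunc F)) ⧸ R k (RatFunc F)) →+ ℚ :=
      QuotientAddGroup.lift _ (phi l m (fun j => ν j.castSucc)) (ih (RatFunc F) l m _)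
    have h : phi l m ν = (show TQ (RatFunc F) (R k (RatFunc F)) →+ ℚ from
        tmap φ (ν (Fin.last k))).comp (deltaN (RatFunc F) (R k (RatFunc F))) := by
      ext x
      rw [phi_of, AddMonoidHom.comp_apply, deltaN, FreeAbelianGroup.lift_apply_of]
      show _ = phi l m (fun j => ν j.castSucc) (FreeAbelianGroup.of x) * ν (Fin.last k) (unitOf x)
      rw [phi_of, phiFun, phiFun, Fin.prod_univ_castSucc, mul_assoc]
    rw [h, AddMonoidHom.comp_apply, hα, map_zero]

/-- The numerical form of condition (i). -/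
theorem cocycle_num (k : ℕ) {K : Type u} [Field K] {ι : Type} [Fintype ι] (f g : ι → Kˣ)
    (h : CocycleI k f g) (l m r s : Additive Kˣ →+ ℚ) (ν : Fin k → (Additive Kˣ →+ ℚ)) :
    ∑ i, (l (unitOf (some (1 - (f i : K)))) * m (Additive.ofMul (f i)) -
        l (Additive.ofMul (f i)) * m (unitOf (some (1 - (f i : K))))) *
      (∏ j, ν j (Additive.ofMul (f i))) *
      (r (Additive.ofMul (f i)) * s (Additive.ofMul (g i)) -
        r (Additive.ofMul (g i)) * s (Additive.ofMul (f i))) = 0 := by
  classical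
  let φ : B k K →+ ℚ := QuotientAddGroup.lift _ (phi l m ν) (phi_kills k K l m ν)
  have h1 := congrArg (tmap φ (wmap r s)) h
  rw [map_sum, map_zero] at h1
  rw [← h1]
  refine Finset.sum_congr rfl fun i _ => ?_
  rw [tmap_tmul]
  have h2 : φ (cls k (some (f i : K))) = phiFun l m ν (some (f i : K)) := phi_of l m ν _
  have h3 : unitOf (some (f i : K)) = Additive.ofMul (f i) := by
    simp only [unitOf, dif_neg (f i).ne_zero, Units.mk0_val]
  have h4 : (wmap r s) (wdg (Additive.ofMul (f i)) (Additive.ofMul (g i))) =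
      r (Additive.ofMul (f i)) * s (Additive.ofMul (g i)) -
        r (Additive.ofMul (g i)) * s (Additive.ofMul (f i)) := wmap_wdg r s _ _
  rw [h2, h4, phiFun, h3]
  rfl

end Pool.Agent.F194

end
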