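import Pool.Agent.Work.MP_f194bb_nt.Divs
import Pool.Agent.Work.MP_f194bb_nt.Symbol
import Pool.Agent.Work.MP_f194bb_nt.LinAlg
import Pool.Agent.Work.MP_f194bb_nt.KVanish
import Pool.Agent.Work.MP_f194bb_nt.KsumLin

/-!
# MP_f194bb_nt: short cocycles, assembly
-/

set_option autoImplicit false

open scoped ComplexConjugate Topology
open Set

noncomputable section

namespace Pool.Agent.F194

universe u


/-- `K_n` as a function of three divisors with rational coefficients -/
def kap (L : PeriodPair) (q : ℕ) (x f w : ℂ →₀ ℚ) : ℂ := Ksum L q (chs L x) (chs L f) (chs L w)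

lemma chs_bd (L : PeriodPair) (D : ℂ →₀ ℚ) : ∃ C : ℝ, ∀ γ, ‖chs L D γ‖ ≤ C := by
  obtain ⟨C, _, hC⟩ := chs_bdd L D
  exact ⟨C, hC⟩

section kap
variable (L : PeriodPair) (q : ℕ)

lemma kap_add1 (x x' f w : ℂ →₀ ℚ) : kap L q (x + x') f w = kap L q x f w + kap L q x' f w := by
  have h := ksum_add1 L q (chs L x) (chs L x') (chs L f) (chs L w) (chs_bd L x) (chs_bd L x')
    (chs_bd L f) (chs_bd L w)
  rw [kap, kap, kap, ← h]
  congr 1
  funext z
  exact chs_add L x x' z

lemma kap_add3 (x f w w' : ℂ →₀ ℚ) : kap L q x f (w + w') = kap L q x f w + kap L q x f w' := by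
  have h := ksum_add3 L q (chs L x) (chs L f) (chs L w) (chs L w') (chs_bd L x) (chs_bd L f)
    (chs_bd L w) (chs_bd L w')
  rw [kap, kap, kap, ← h]
  congr 1
  funext z
  exact chs_add L w w' z

lemma kap_smul1 (c : ℚ) (x f w : ℂ →₀ ℚ) : kap L q (c • x) f w = c • kap L q x f w := by
  have h : chs L (c • x) = fun z => (c : ℂ) * chs L x z := funext fun z => chs_smul L c x z
  rw [kap, kap, h, ksum_smul1, Rat.smul_def]

lemma kap_smul3 (c : ℚ) (x f w : ℂ →₀ ℚ) : kap L q x f (c • w) = c • kap L q x f w := by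
  have h : chs L (c • w) = fun z => (c : ℂ) * chs L w z := funext fun z => chs_smul L c w z
  rw [kap, kap, h, ksum_smul3, Rat.smul_def]

lemma kap_smul2 (c : ℚ) (x f w : ℂ →₀ ℚ) : kap L q x (c • f) w = c ^ (q + 1) • kap L q x f w := by
  have h : chs L (c • f) = fun z => (c : ℂ) * chs L f z := funext fun z => chs_smul L c f z
  rw [kap, kap, h, ksum_smul2, Rat.smul_def]
  push_cast
  rfl

lemma kap_swap (x f : ℂ →₀ ℚ) : kap L q x f f = 0 := ksum_swap L q _ _

end kap

variable {L : PeriodPair} {K : Type u} [Field K]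

lemma kap_divT (ρ : EllRep L K) (q : ℕ) (g f w : K) :
    kap L q (divT ρ g) (divT ρ f) (divT ρ w) =
      Ksum L q (pr L (dv (ρ.ev g))) (pr L (dv (ρ.ev f))) (pr L (dv (ρ.ev w))) := by
  have h : ∀ u, chs L (divT ρ u) = pr L (dv (ρ.ev u)) := fun u => funext fun γ => chs_divT ρ u γ
  rw [kap, h, h, h]

lemma kap_ffw (ρ : EllRep L K) (q : ℕ) (f : Kˣ) :
    kap L q (divT ρ (f : K)) (divT ρ (f : K)) (divT ρ (1 - f : K)) = 0 := by
  by_cases hf : (1 - f : K) = 0
  · have h0 : divT ρ (1 - f : K) = (0 : ℚ) • (0 : ℂ →₀ ℚ) := by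
      rw [hf, smul_zero]
      ext x
      rw [divT_apply, ρ.dv_zero]
      by_cases h : x ∈ ZSpan.fundamentalDomain L.basis
      · rw [Set.indicator_of_mem h]; simp
      · rw [Set.indicator_of_notMem h]; simp
    rw [h0, kap_smul3, zero_smul]
  · rw [kap_divT, dv_congr (ρ.one_sub f)]
    refine kvanish L q (ρ.ev f) (ρ.mero f) (ρ.per f) (ρ.nz f.ne_zero) ?_
    intro z
    rw [← order_congr (ρ.one_sub f) z]
    exact ρ.nz hf z

/-- general form -/
theorem short_powInd (ρ : EllRep L K) (p : ℕ) {ι : Type} [Fintype ι] (f g : ι → Kˣ)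
    (h : CocycleI p f g) {J : Type*} [Fintype J] (e : J → (ℂ →₀ ℚ)) (he : PowInd p e)
    (hf : ∀ i, ∃ (j : J) (a : ℚ), divT ρ (f i : K) = a • e j) :
    ∑ i, kap L (p + 1) (divT ρ (g i : K)) (divT ρ (f i : K)) (divT ρ (1 - f i : K)) = 0 := by
  choose c a hca using hf
  refine linalg p (fun i => divT ρ (f i : K)) (fun i => divT ρ (1 - f i : K))
    (fun i => divT ρ (g i : K)) (kap L (p + 1)) (kap_add1 L _) (kap_smul1 L _) (kap_add3 L _)
    (kap_smul3 L _) (kap_smul2 L _) (kap_swap L _) (fun i => kap_ffw ρ _ (f i)) ?_ c a e hca he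
  intro l m r s ν
  have h1 := cocycle_num p f g h (l.toAddMonoidHom.comp (divH ρ)) (m.toAddMonoidHom.comp (divH ρ))
    (r.toAddMonoidHom.comp (divH ρ)) (s.toAddMonoidHom.comp (divH ρ))
    (fun k => (ν k).toAddMonoidHom.comp (divH ρ))
  rw [← h1]
  refine Finset.sum_congr rfl fun i _ => ?_
  simp only [AddMonoidHom.comp_apply, divH_unitOf, divH_ofMul, LinearMap.toAddMonoidHom_coe]

/-- reduction to pairwise non-proportional nonzero vectors -/
lemma lines_reduce {V : Type*} [AddCommGroup V] [Module ℚ V] {ι : Type} [Fintype ι] (p : ℕ)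
    (f : ι → V) {J : Type*} [Fintype J] (e : J → V) (hJ : Fintype.card J ≤ p + 1)
    (hf : ∀ i, ∃ (j : J) (a : ℚ), f i = a • e j) (hne : ∃ i, f i ≠ 0) :
    ∃ (S : Finset (Submodule ℚ V)) (e' : S → V), PowInd p e' ∧
      ∀ i, ∃ (W : S) (a : ℚ), f i = a • e' W := by
  classical
  set S : Finset (Submodule ℚ V) :=
    (Finset.univ.filter fun i => f i ≠ 0).image fun i => Submodule.span ℚ {f i} with hS
  have hS1 : ∀ W : S, ∃ i, f i ≠ 0 ∧ Submodule.span ℚ {f i} = W := by
    intro W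
    obtain ⟨i, hi, hW⟩ := Finset.mem_image.1 W.2
    exact ⟨i, (Finset.mem_filter.1 hi).2, hW⟩
  choose t ht0 htW using hS1
  have hcard : Fintype.card S ≤ p + 1 := by
    rw [Fintype.card_coe]
    refine le_trans ?_ hJ
    have h1 : S ⊆ Finset.univ.image fun j => Submodule.span ℚ {e j} := by
      intro W hW
      obtain ⟨i, hi, rfl⟩ := Finset.mem_image.1 hW
      have hi0 := (Finset.mem_filter.1 hi).2
      obtain ⟨j, a, hja⟩ := hf i
      have ha : a ≠ 0 := fun h => hi0 (by rw [hja, h, zero_smul])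
      refine Finset.mem_image.2 ⟨j, Finset.mem_univ _, ?_⟩
      rw [hja, Submodule.span_singleton_smul_eq (IsUnit.mk0 a ha)]
    exact (Finset.card_le_card h1).trans (Finset.card_image_le.trans (by rw [Finset.card_univ]))
  refine ⟨S, fun W => f (t W), ?_, ?_⟩
  · refine powInd_of_card p hcard _ ht0 ?_
    intro W W' hWW' hmem
    apply hWW'
    apply Subtype.ext
    rw [← htW W, ← htW W']
    obtain ⟨b, hb⟩ := Submodule.mem_span_singleton.1 hmem
    have hb0 : b ≠ 0 := fun h => ht0 W (by rw [← hb, h, zero_smul])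
    rw [← hb, Submodule.span_singleton_smul_eq (IsUnit.mk0 b hb0)]
  · intro i
    by_cases hi : f i = 0
    · obtain ⟨i0, hi0⟩ := hne
      refine ⟨⟨Submodule.span ℚ {f i0}, Finset.mem_image.2 ⟨i0, Finset.mem_filter.2
        ⟨Finset.mem_univ _, hi0⟩, rfl⟩⟩, 0, ?_⟩
      rw [hi, zero_smul]
    · have hW : Submodule.span ℚ {f i} ∈ S :=
        Finset.mem_image.2 ⟨i, Finset.mem_filter.2 ⟨Finset.mem_univ _, hi⟩, rfl⟩
      have h1 : f i ∈ Submodule.span ℚ {f (t ⟨_, hW⟩)} := by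
        rw [htW ⟨_, hW⟩]
        exact Submodule.mem_span_singleton_self _
      obtain ⟨b, hb⟩ := Submodule.mem_span_singleton.1 h1
      exact ⟨⟨_, hW⟩, b, hb.symm⟩

theorem short_cocycle (ρ : EllRep L K) (p : ℕ) {ι : Type} [Fintype ι] (f g : ι → Kˣ)
    (h : CocycleI p f g) {J : Type*} [Fintype J] (e : J → (ℂ →₀ ℚ))
    (he : Fintype.card J ≤ p + 1 ∨ PowInd p e)
    (hf : ∀ i, ∃ (j : J) (a : ℚ), divT ρ (f i : K) = a • e j) :
    ∑ i, Ksum L (p + 1) (pr L (dv (ρ.ev (g i : K)))) (pr L (dv (ρ.ev (f i : K))))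
      (pr L (dv (ρ.ev (1 - f i : K)))) = 0 := by
  simp only [← kap_divT]
  rcases he with he | he
  · by_cases hne : ∃ i, divT ρ (f i : K) ≠ 0
    · obtain ⟨S, e', h1, h2⟩ := lines_reduce p (fun i => divT ρ (f i : K)) e he hf hne
      exact short_powInd ρ p f g h e' h1 h2
    · push Not at hne
      refine Finset.sum_eq_zero fun i _ => ?_
      have h0 : divT ρ (f i : K) = (0 : ℚ) • divT ρ (f i : K) := by rw [hne i, smul_zero]
      rw [h0, kap_smul2, zero_pow (by omega), zero_smul]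
  · exact short_powInd ρ p f g h e he hf

end Pool.Agent.F194

end
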