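import Pool.Agent.Work.MP_f194bb_nt.LinAlg

/-!
# MP_f194bb_nt: independence of tensor powers of integral vectors in a box
-/

set_option autoImplicit false

noncomputable section

namespace Pool.Agent.F194

/-- separation by products of linear forms -/
lemma powInd_of_sep {V : Type*} [AddCommGroup V] [Module ℚ V] {J : Type*} [Fintype J] (p : ℕ)
    (e : J → V) (h : ∀ j, ∃ ν : Fin p → (V →ₗ[ℚ] ℚ), ∏ k, ν k (e j) ≠ 0 ∧
      ∀ j', j' ≠ j → ∏ k, ν k (e j') = 0) : PowInd p e := by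
  classical
  rw [PowInd, Fintype.linearIndependent_iff]
  intro t ht j
  obtain ⟨ν, h1, h2⟩ := h j
  have h0 := congrFun ht ν
  rw [Finset.sum_apply, Finset.sum_eq_single j] at h0
  · rw [Pi.smul_apply, smul_eq_mul, Pi.zero_apply, mul_eq_zero] at h0
    exact h0.resolve_right h1
  · intro i _ hij
    rw [Pi.smul_apply, smul_eq_mul, h2 i hij, mul_zero]
  · intro h
    exact absurd (Finset.mem_univ j) h

/-- half of a box -/
def halfBox (s : ℕ) : Finset (ℤ × ℤ) :=
  (Finset.Icc 1 (s : ℤ) ×ˢ Finset.Icc (-(s : ℤ)) s) ∪ ({0} ×ˢ Finset.Icc 1 (s : ℤ))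

lemma card_halfBox (s : ℕ) : (halfBox s).card ≤ 2 * s * (s + 1) := by
  refine (Finset.card_union_le _ _).trans ?_
  rw [Finset.card_product, Finset.card_product, Int.card_Icc, Int.card_Icc, Finset.card_singleton]
  have h1 : ((s : ℤ) + 1 - 1).toNat = s := by simp
  have h2 : ((s : ℤ) + 1 - -(s : ℤ)).toNat = 2 * s + 1 := by
    have : (s : ℤ) + 1 - -(s : ℤ) = ((2 * s + 1 : ℕ) : ℤ) := by push_cast; ring
    rw [this, Int.toNat_natCast]
  rw [h1, h2]
  ring_nf
  rfl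

lemma mem_halfBox {s : ℕ} {b c : ℤ} (hb : |b| ≤ s) (hc : |c| ≤ s) (h : ¬ (b = 0 ∧ c = 0)) :
    (b, c) ∈ halfBox s ∨ (-b, -c) ∈ halfBox s := by
  rw [abs_le] at hb hc
  unfold halfBox
  simp only [Finset.mem_union, Finset.mem_product, Finset.mem_Icc, Finset.mem_singleton]
  omega

/-- the separating forms -/
lemma sep_box {X J : Type*} [DecidableEq X] (s p : ℕ) (S : Finset X) (e : J → (X →₀ ℚ))
    (hint : ∀ j x, ∃ z : ℤ, |z| ≤ s ∧ e j x = z) (hsupp : ∀ j, ∀ x, x ∉ S → e j x = 0)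
    (hne : ∀ j, e j ≠ 0) (hprop : ∀ i j, i ≠ j → e i ∉ Submodule.span ℚ {e j})
    (hp : (S.card - 1) * (2 * s * (s + 1)) ≤ p) (j : J) :
    ∃ ν : Fin p → ((X →₀ ℚ) →ₗ[ℚ] ℚ), ∏ k, ν k (e j) ≠ 0 ∧
      ∀ j', j' ≠ j → ∏ k, ν k (e j') = 0 := by
  classical
  obtain ⟨x₀, hx₀⟩ := Finsupp.ne_iff.1 (hne j)
  rw [Finsupp.zero_apply] at hx₀
  have hx₀S : x₀ ∈ S := by
    by_contra h
    exact hx₀ (hsupp j x₀ h)
  set T : Finset (X × (ℤ × ℤ)) := (S.erase x₀) ×ˢ halfBox s with hT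
  have hTcard : Fintype.card T ≤ p := by
    rw [Fintype.card_coe, hT, Finset.card_product, Finset.card_erase_of_mem hx₀S]
    exact (Nat.mul_le_mul_left _ (card_halfBox s)).trans hp
  let ev : X → ((X →₀ ℚ) →ₗ[ℚ] ℚ) := fun x => Finsupp.lapply x
  let form : X × (ℤ × ℤ) → ((X →₀ ℚ) →ₗ[ℚ] ℚ) := fun t =>
    (t.2.1 : ℚ) • ev t.1 - (t.2.2 : ℚ) • ev x₀
  have hform : ∀ t v, form t v = t.2.1 * v t.1 - t.2.2 * v x₀ := fun t v => rfl
  let φ : T → ((X →₀ ℚ) →ₗ[ℚ] ℚ) := fun t => if form t.1 (e j) ≠ 0 then form t.1 else ev x₀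
  have hφ : ∀ t, φ t (e j) ≠ 0 := by
    intro t
    show (if form t.1 (e j) ≠ 0 then form t.1 else ev x₀) (e j) ≠ 0
    split_ifs with h
    · exact h
    · exact hx₀
  obtain ⟨emb⟩ : Nonempty (T ↪ Fin p) :=
    Function.Embedding.nonempty_of_card_le (by rw [Fintype.card_fin]; exact hTcard)
  let ν : Fin p → ((X →₀ ℚ) →ₗ[ℚ] ℚ) := fun k =>
    if h : ∃ t, emb t = k then φ h.choose else ev x₀
  have hν : ∀ t, ν (emb t) = φ t := by
    intro t
    have h : ∃ t', emb t' = emb t := ⟨t, rfl⟩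
    show (if h : ∃ t', emb t' = emb t then φ h.choose else ev x₀) = φ t
    rw [dif_pos h, emb.injective h.choose_spec]
  refine ⟨ν, ?_, ?_⟩
  · rw [Finset.prod_ne_zero_iff]
    intro k _
    show (if h : ∃ t, emb t = k then φ h.choose else ev x₀) (e j) ≠ 0
    split_ifs with h
    · exact hφ _
    · exact hx₀
  · intro j' hj'
    -- a coordinate where the ratio differs
    obtain ⟨x, hx⟩ : ∃ x, e j' x * e j x₀ ≠ e j x * e j' x₀ := by
      by_contra hcon
      push Not at hcon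
      apply hprop j' j hj'
      rw [Submodule.mem_span_singleton]
      refine ⟨e j' x₀ / e j x₀, ?_⟩
      ext y
      rw [Finsupp.smul_apply, smul_eq_mul, div_mul_eq_mul_div, div_eq_iff hx₀]
      rw [mul_comm (e j' x₀)]
      exact (hcon y).symm
    have hxS : x ∈ S := by
      by_contra h
      apply hx
      rw [hsupp j x h, hsupp j' x h, zero_mul, zero_mul]
    have hxx₀ : x ≠ x₀ := by
      rintro rfl
      exact hx (mul_comm _ _)
    obtain ⟨b, hb, hb'⟩ := hint j' x₀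
    obtain ⟨c, hc, hc'⟩ := hint j' x
    have hbc : ¬ (b = 0 ∧ c = 0) := by
      rintro ⟨rfl, rfl⟩
      apply hx
      rw [hb', hc']
      simp
    -- the index of the form killing `e j'`
    obtain ⟨t, ht, ht1, ht2⟩ : ∃ t : X × (ℤ × ℤ), t ∈ T ∧ form t (e j') = 0 ∧ form t (e j) ≠ 0 := by
      rcases mem_halfBox hb hc hbc with h | h
      · refine ⟨(x, (b, c)), Finset.mem_product.2 ⟨Finset.mem_erase.2 ⟨hxx₀, hxS⟩, h⟩, ?_, ?_⟩
        · rw [hform]
          show (b : ℚ) * e j' x - (c : ℚ) * e j' x₀ = 0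
          rw [hb', hc']
          ring
        · rw [hform]
          show (b : ℚ) * e j x - (c : ℚ) * e j x₀ ≠ 0
          rw [← hb', ← hc']
          intro h0
          exact hx (by linear_combination -h0)
      · refine ⟨(x, (-b, -c)), Finset.mem_product.2 ⟨Finset.mem_erase.2 ⟨hxx₀, hxS⟩, h⟩, ?_, ?_⟩
        · rw [hform]
          show ((-b : ℤ) : ℚ) * e j' x - ((-c : ℤ) : ℚ) * e j' x₀ = 0
          rw [hb', hc']
          push_cast
          ring
        · rw [hform]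
          show ((-b : ℤ) : ℚ) * e j x - ((-c : ℤ) : ℚ) * e j x₀ ≠ 0
          push_cast
          rw [← hb', ← hc']
          intro h0
          exact hx (by linear_combination h0)
    refine Finset.prod_eq_zero (Finset.mem_univ (emb ⟨t, ht⟩)) ?_
    rw [hν]
    show (if form t (e j) ≠ 0 then form t else ev x₀) (e j') = 0
    rw [if_pos ht2, ht1]

/-- representatives of the lines -/
lemma lines_reps {V : Type*} [AddCommGroup V] [Module ℚ V] {ι : Type*} [Fintype ι] (f : ι → V)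
    (hne : ∃ i, f i ≠ 0) :
    ∃ (S : Finset (Submodule ℚ V)) (t : S → ι), (∀ W, f (t W) ≠ 0) ∧
      (∀ W W', W ≠ W' → f (t W) ∉ Submodule.span ℚ {f (t W')}) ∧
      ∀ i, ∃ (W : S) (a : ℚ), f i = a • f (t W) := by
  classical
  set S : Finset (Submodule ℚ V) :=
    (Finset.univ.filter fun i => f i ≠ 0).image fun i => Submodule.span ℚ {f i} with hS
  have hS1 : ∀ W : S, ∃ i, f i ≠ 0 ∧ Submodule.span ℚ {f i} = W := by
    intro W
    obtain ⟨i, hi, hW⟩ := Finset.mem_image.1 W.2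
    exact ⟨i, (Finset.mem_filter.1 hi).2, hW⟩
  choose t ht0 htW using hS1
  refine ⟨S, t, ht0, ?_, ?_⟩
  · intro W W' hWW' hmem
    apply hWW'
    apply Subtype.ext
    rw [← htW W, ← htW W']
    obtain ⟨b, hb⟩ := Submodule.mem_span_singleton.1 hmem
    have hb0 : b ≠ 0 := fun h => ht0 W (by rw [← hb, h, zero_smul])
    rw [← hb, Submodule.span_singleton_smul_eq (IsUnit.mk0 b hb0)]
  · intro i
    by_cases hi : f i = 0
    · obtain ⟨i0, hi0⟩ := hne
      refine ⟨⟨Submodule.span ℚ {f i0}, Finset.mem_image.2 ⟨i0, Finset.mem_filter.2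
        ⟨Finset.mem_univ _, hi0⟩, rfl⟩⟩, 0, ?_⟩
      rw [hi, zero_smul]
    · have hW : Submodule.span ℚ {f i} ∈ S :=
        Finset.mem_image.2 ⟨i, Finset.mem_filter.2 ⟨Finset.mem_univ _, hi⟩, rfl⟩
      have h1 : f i ∈ Submodule.span ℚ {f (t ⟨_, hW⟩)} := by
        rw [htW ⟨_, hW⟩]
        exact Submodule.mem_span_singleton_self _
      obtain ⟨b, hb⟩ := Submodule.mem_span_singleton.1 h1
      exact ⟨⟨_, hW⟩, b, hb.symm⟩

end Pool.Agent.F194

end
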