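import Pool.Agent.Work.MP_f194bb_nt.Torus

/-!
# MP_f194bb_nt: absolute convergence of the lattice sums (helper52)
-/

set_option autoImplicit false

open scoped ComplexConjugate
open MeasureTheory

noncomputable section

namespace Pool.Agent.F194

/-- Products of one summable nonnegative function in several variables are summable. -/
theorem summable_pi_prod {α : Type*} {φ : α → ℝ} (h0 : ∀ a, 0 ≤ φ a) (h : Summable φ) (N : ℕ) :
    Summable (fun c : Fin N → α => ∏ i, φ (c i)) := by
  induction N with
  | zero => exact Summable.of_finite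
  | succ N ih =>
    rw [← (Fin.consEquiv fun _ : Fin (N + 1) => α).summable_iff]
    have := h.mul_of_nonneg ih h0 fun c => Finset.prod_nonneg fun i _ => h0 (c i)
    refine this.congr fun p => ?_
    simp [Fin.consEquiv, Fin.prod_univ_succ]

/-- Weighted AM-GM: one exponent `1`, the others `2`. -/
theorem prod_sq_div_le {N : ℕ} (hN : 1 ≤ N) (x : Fin (N + 1) → ℝ) (hx : ∀ i, 0 < x i)
    (j : Fin (N + 1)) :
    (∏ i, x i ^ 2) / x j ≤
      ∑ k : Fin (N + 1), ∏ i : Fin N, x (k.succAbove i) ^ ((2 * N + 1 : ℝ) / N) := by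
  set b : ℝ := (2 * N + 1 : ℝ) / N with hb
  have hN0 : (0 : ℝ) < N := by exact_mod_cast hN
  have hbpos : 0 < b := by positivity
  set e : Fin (N + 1) → ℝ := fun i => if i = j then 1 else 2 with he
  set w : Fin (N + 1) → ℝ := fun i => 1 - e i / b with hw
  set z : Fin (N + 1) → ℝ := fun k => ∏ i : Fin N, x (k.succAbove i) ^ b with hz
  have he2 : ∀ i, e i ≤ 2 := fun i => by simp only [he]; split_ifs <;> norm_num
  have he0 : ∀ i, 0 < e i := fun i => by simp only [he]; split_ifs <;> norm_num
  have hb2 : 2 < b := by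
    rw [hb, lt_div_iff₀ hN0]
    linarith
  have hw0 : ∀ i, 0 ≤ w i := fun i => by
    simp only [hw, sub_nonneg]
    rw [div_le_one hbpos]
    linarith [he2 i]
  have hw1' : ∀ i, w i ≤ 1 := fun i => by
    simp only [hw]
    have : 0 ≤ e i / b := div_nonneg (he0 i).le hbpos.le
    linarith
  have hsum_e : ∑ i, e i = 2 * N + 1 := by
    have : ∀ i, e i = 2 - (if i = j then 1 else 0 : ℝ) := fun i => by
      simp only [he]; split_ifs <;> norm_num
    rw [Finset.sum_congr rfl fun i _ => this i, Finset.sum_sub_distrib]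
    simp
    ring
  have hw1 : ∑ i, w i = 1 := by
    simp only [hw, Finset.sum_sub_distrib, ← Finset.sum_div, hsum_e]
    simp only [Finset.sum_const, Finset.card_univ, Fintype.card_fin, nsmul_eq_mul, mul_one, hb]
    push_cast
    field_simp
    ring
  have hzpos : ∀ k, 0 < z k := fun k => Finset.prod_pos fun i _ => Real.rpow_pos_of_pos (hx _) _
  have hmul : ∀ k, z k = (∏ i, x i ^ b) / x k ^ b := fun k => by
    rw [Fin.prod_univ_succAbove _ k]
    have := (Real.rpow_pos_of_pos (hx k) b).ne'
    field_simp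
    simp only [hz]
  have key := Real.geom_mean_le_arith_mean_weighted Finset.univ w z (fun i _ => hw0 i) hw1
    fun i _ => (hzpos i).le
  have hP : 0 < ∏ i, x i ^ b := Finset.prod_pos fun i _ => Real.rpow_pos_of_pos (hx _) _
  have hlhs : ∏ k, z k ^ w k = (∏ i, x i ^ 2) / x j := by
    have h1 : ∀ k, z k ^ w k = (∏ i, x i ^ b) ^ w k / x k ^ (b * w k) := fun k => by
      rw [hmul k, Real.div_rpow hP.le (Real.rpow_nonneg (hx k).le _), ← Real.rpow_mul (hx k).le]
    rw [Finset.prod_congr rfl fun k _ => h1 k, Finset.prod_div_distrib,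
      ← Real.rpow_sum_of_pos hP, hw1, Real.rpow_one, ← Finset.prod_div_distrib]
    have h2 : ∀ k, x k ^ b / x k ^ (b * w k) = x k ^ e k := fun k => by
      rw [← Real.rpow_sub (hx k)]
      congr 1
      simp only [hw]
      field_simp
      ring
    rw [Finset.prod_congr rfl fun k _ => h2 k]
    rw [Fin.prod_univ_succAbove _ j, Fin.prod_univ_succAbove (fun i => x i ^ 2) j]
    have h3 : ∀ i : Fin N, x (j.succAbove i) ^ e (j.succAbove i) = x (j.succAbove i) ^ 2 :=
      fun i => by
        simp only [he, Fin.succAbove_ne, if_false]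
        exact_mod_cast Real.rpow_natCast (x (j.succAbove i)) 2
    rw [Finset.prod_congr rfl fun i _ => h3 i]
    simp only [he, if_true, Real.rpow_one]
    have := (hx j).ne'
    field_simp
  rw [hlhs] at key
  refine key.trans (Finset.sum_le_sum fun k _ => ?_)
  exact mul_le_of_le_one_left (hzpos k).le (hw1' k)

/-- Absolute convergence over families of vectors with sum zero. -/
theorem summable_general {α S : Type*} [AddCommGroup α] {φ : α → ℝ} (hφ0 : ∀ a, 0 ≤ φ a)
    (hφ : ∀ b : ℝ, 2 < b → Summable (fun a => φ a ^ b)) {N : ℕ} (hN : 1 ≤ N)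
    (s : S → Fin (N + 1) → α) (hs : Function.Injective s) (h0 : ∀ c, ∑ i, s c i = 0)
    (hpos : ∀ c i, 0 < φ (s c i)) (j : Fin (N + 1)) :
    Summable (fun c => (∏ i, φ (s c i) ^ 2) / φ (s c j)) := by
  have hN0 : (0 : ℝ) < N := by exact_mod_cast hN
  have hb2 : (2 : ℝ) < (2 * N + 1 : ℝ) / N := by
    rw [lt_div_iff₀ hN0]
    linarith
  refine Summable.of_nonneg_of_le (fun c => div_nonneg (Finset.prod_nonneg fun i _ => sq_nonneg _)
    (hφ0 _)) (fun c => prod_sq_div_le hN (fun i => φ (s c i)) (hpos c) j) ?_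
  refine summable_sum fun k _ => ?_
  have h1 := summable_pi_prod (fun a => Real.rpow_nonneg (hφ0 a) _) (hφ _ hb2) N
  have hinj : Function.Injective fun c : S => fun i : Fin N => s c (k.succAbove i) := by
    intro c d h
    apply hs
    have hk : ∀ i : Fin N, s c (k.succAbove i) = s d (k.succAbove i) := fun i => congr_fun h i
    have hc := h0 c
    have hd := h0 d
    rw [Fin.sum_univ_succAbove _ k] at hc hd
    have hkk : s c k = s d k := by
      rw [eq_neg_of_add_eq_zero_left hc, eq_neg_of_add_eq_zero_left hd]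
      simp only [hk]
    funext i
    rcases Fin.eq_self_or_eq_succAbove k i with h' | ⟨i', rfl⟩
    · rw [h']
      exact hkk
    · exact hk i'
  exact h1.comp_injective hinj

/-- Absolute convergence over `Idx L q` with one exponent `1`. -/
theorem idx_summable (L : PeriodPair) (q : ℕ) (j : Fin (q + 3)) :
    Summable (fun c : Idx L q => ‖(c.1 j : ℂ)‖ * (∏ i, ‖(c.1 i : ℂ)‖ ^ 2)⁻¹) := by
  have hrank : Module.finrank ℤ L.lattice = 2 := by
    rw [ZLattice.rank ℝ L.lattice, Complex.finrank_real_complex]
  have h := summable_general (α := L.lattice) (S := Idx L q) (φ := fun a => ‖(a : ℂ)‖⁻¹)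
    (fun a => by positivity) (fun b hb => by
      have := ZLattice.summable_norm_rpow L.lattice (-b) (by rw [hrank]; push_cast; linarith)
      refine this.congr fun z => ?_
      rw [Real.inv_rpow (norm_nonneg _), Real.rpow_neg (norm_nonneg _)]
      rfl) (N := q + 2) (by omega) (fun c => c.1) Subtype.val_injective (fun c => c.2.2)
    (fun c i => by
      have : (c.1 i : ℂ) ≠ 0 := by
        have := c.2.1 i
        simpa using this
      positivity) j
  refine h.congr fun c => ?_
  simp only [inv_pow, Finset.prod_inv_distrib, div_inv_eq_mul]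
  ring

theorem areaA_eq (L : PeriodPair) :
    areaA L = (((conj L.ω₁ * L.ω₂).im / Real.pi : ℝ) : ℂ) := by
  have hpi : (Real.pi : ℂ) ≠ 0 := by exact_mod_cast Real.pi_ne_zero
  have h1 : conj L.ω₁ * L.ω₂ - L.ω₁ * conj L.ω₂ = 2 * ((conj L.ω₁ * L.ω₂).im : ℂ) * Complex.I := by
    have h := Complex.sub_conj (conj L.ω₁ * L.ω₂)
    rw [map_mul, Complex.conj_conj] at h
    rw [h]
    push_cast
    ring
  rw [areaA, h1]
  push_cast
  field_simp

theorem norm_chi (L : PeriodPair) (z γ : ℂ) : ‖chi L z γ‖ = 1 := by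
  have h1 : z * conj γ - conj z * γ = 2 * ((z * conj γ).im : ℂ) * Complex.I := by
    have h := Complex.sub_conj (z * conj γ)
    rw [map_mul, Complex.conj_conj] at h
    rw [h]
    push_cast
    ring
  rw [chi, areaA_eq, h1]
  have : ((((conj L.ω₁ * L.ω₂).im / Real.pi : ℝ) : ℂ))⁻¹ *
      (2 * ((z * conj γ).im : ℂ) * Complex.I) =
      (((((conj L.ω₁ * L.ω₂).im / Real.pi : ℝ))⁻¹ * (2 * (z * conj γ).im) : ℝ) : ℂ) * Complex.I := by
    push_cast
    ring
  rw [this, Complex.norm_exp_ofReal_mul_I]

/-- The character sums are bounded. -/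
theorem pr_bdd (L : PeriodPair) (D : ℂ → ℤ) : ∃ C : ℝ, 0 ≤ C ∧ ∀ γ, ‖pr L D γ‖ ≤ C := by
  classical
  set S : Set ℂ := {x | x ∈ ZSpan.fundamentalDomain L.basis ∧ D x ≠ 0} with hS
  by_cases hfin : S.Finite
  · refine ⟨∑ x ∈ hfin.toFinset, |(D x : ℝ)|, Finset.sum_nonneg fun _ _ => abs_nonneg _,
      fun γ => ?_⟩
    have h1 : pr L D γ = ∑ x ∈ hfin.toFinset, (D x : ℂ) * chi L x γ := by
      rw [pr, finsum_mem_def, finsum_eq_sum_of_support_subset]
      · refine Finset.sum_congr rfl fun x hx => ?_
        rw [Set.indicator_of_mem]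
        exact ((Set.Finite.mem_toFinset _).1 hx).1
      · intro x hx
        rw [Function.mem_support, ne_eq, Set.indicator_apply_eq_zero] at hx
        push Not at hx
        rw [Set.Finite.coe_toFinset]
        refine ⟨hx.1, fun h0 => hx.2 ?_⟩
        simp [h0]
    rw [h1]
    refine (norm_sum_le _ _).trans (Finset.sum_le_sum fun x _ => ?_)
    rw [norm_mul, norm_chi, mul_one]
    simp
  · refine ⟨0, le_rfl, fun γ => ?_⟩
    have : pr L D γ = 0 := by
      rw [pr, finsum_mem_def]
      apply finsum_of_infinite_support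
      intro hf
      apply hfin
      refine hf.subset fun x hx => ?_
      rw [Function.mem_support, Set.indicator_of_mem hx.1]
      have h2 : chi L x γ ≠ 0 := by
        intro h
        have := norm_chi L x γ
        rw [h, norm_zero] at this
        exact zero_ne_one this
      have h3 : (D x : ℂ) ≠ 0 := by exact_mod_cast hx.2
      exact mul_ne_zero h3 h2
    rw [this, norm_zero]

end Pool.Agent.F194

end
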