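import Pool.Agent.Work.MP_f194bb_nt.Pars
import Pool.Agent.Work.MP_f194bb_nt.Summ

/-!
# MP_f194bb_nt: the multiple Fourier sum of `U^N Q` (helper52)
-/

set_option autoImplicit false

open MeasureTheory UnitAddTorus
open scoped ENNReal Topology

noncomputable section

namespace Pool.Agent.F194

theorem coeff_mFourier_mul (G : TT → ℂ) (s k : Fin 2 → ℤ) :
    mFourierCoeff (fun x => mFourier s x * G x) k = mFourierCoeff G (k - s) := by
  rw [mFourierCoeff_def, mFourierCoeff_def]
  refine integral_congr_ae (ae_of_all _ fun t => ?_)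
  simp only
  rw [← mul_assoc, ← mFourier_add]
  congr 2
  abel_nf

/-- The multiple Fourier sum, by induction on the number of factors. -/
theorem conv_ind {p q : ℝ≥0∞} [ENNReal.HolderTriple p q 1] (hp : p ≠ ∞) {U : TT → ℂ}
    (hU : MemLp U p) (N : ℕ) : ∀ G : TT → ℂ, (∀ m : ℕ, MemLp (fun x => U x ^ m * G x) q) →
    (Summable fun c : Fin N → (Fin 2 → ℤ) =>
      ‖(∏ i, mFourierCoeff U (c i)) * mFourierCoeff G (-∑ i, c i)‖) →
    HasSum (fun c : Fin N → (Fin 2 → ℤ) =>
      (∏ i, mFourierCoeff U (c i)) * mFourierCoeff G (-∑ i, c i)) (∫ x, U x ^ N * G x) := by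
  induction N with
  | zero =>
    intro G _ _
    have h0 : ∫ x, U x ^ 0 * G x = mFourierCoeff G 0 := by
      rw [mFourierCoeff_def]
      refine integral_congr_ae (ae_of_all _ fun t => ?_)
      simp only [pow_zero, neg_zero, mFourier_zero, ContinuousMap.one_apply]
    rw [h0]
    have h := hasSum_fintype (fun c : Fin 0 → (Fin 2 → ℤ) =>
      (∏ i, mFourierCoeff U (c i)) * mFourierCoeff G (-∑ i, c i))
    simpa using h
  | succ N ih =>
    intro G hG hs
    set a := mFourierCoeff U with ha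
    set g := mFourierCoeff G with hg
    set UG : TT → ℂ := fun x => U x * G x with hUG
    have hG0 : MemLp G q := by simpa using hG 0
    -- the sum over pairs
    set F : (Fin N → (Fin 2 → ℤ)) × (Fin 2 → ℤ) → ℂ := fun p =>
      (a p.2 * ∏ i, a (p.1 i)) * g (-(p.2 + ∑ i, p.1 i)) with hF
    set e : (Fin N → (Fin 2 → ℤ)) × (Fin 2 → ℤ) ≃ (Fin (N + 1) → (Fin 2 → ℤ)) :=
      (Equiv.prodComm _ _).trans (Fin.consEquiv fun _ : Fin (N + 1) => (Fin 2 → ℤ)) with he
    have hFe : ∀ p, (∏ i, a (e p i)) * g (-∑ i, e p i) = F p := fun p => by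
      simp [he, hF, Fin.consEquiv, Fin.prod_univ_succ, Fin.sum_univ_succ]
    have hFs : Summable fun p => ‖F p‖ := by
      rw [← e.summable_iff] at hs
      refine hs.congr fun p => ?_
      simp only [Function.comp]
      rw [hFe]
    -- the inner sums
    have hin : ∀ c : Fin N → (Fin 2 → ℤ), HasSum (fun k => F (c, k))
        ((∏ i, a (c i)) * mFourierCoeff UG (-∑ i, c i)) := fun c => by
      rcases eq_or_ne (∏ i, a (c i)) 0 with h0 | h0
      · simp only [hF, h0, mul_zero, zero_mul]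
        exact hasSum_zero
      · set s : Fin 2 → ℤ := ∑ i, c i with hsdef
        set G' : TT → ℂ := fun x => mFourier s x * G x with hG'
        have hG'm : MemLp G' q := memLp_mFourier_mul hG0 s
        have hco : ∀ k, mFourierCoeff G' (-k) = g (-(k + s)) := fun k => by
          rw [hG', coeff_mFourier_mul, hg]
          congr 1
          abel
        have hsum : Summable fun k => a k * mFourierCoeff G' (-k) := by
          have h1 : Summable fun k => F (c, k) :=
            (hFs.comp_injective (i := fun k => (c, k)) fun x y h => (Prod.ext_iff.1 h).2).of_norm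
          have h2 := h1.mul_left (∏ i, a (c i))⁻¹
          refine h2.congr fun k => ?_
          simp only [hF]
          rw [hco]
          field_simp
          rfl
        have hP := (hasSum_parseval (p := p) (q := q) hp hU hG'm hsum).mul_left (∏ i, a (c i))
        have hval : ∫ x, U x * G' x = mFourierCoeff UG (-s) := by
          rw [mFourierCoeff_def]
          refine integral_congr_ae (ae_of_all _ fun x => ?_)
          simp only [hG', hUG, neg_neg]
          ring
        rw [hval] at hP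
        refine hP.congr_fun fun k => ?_
        simp only [hF]
        rw [hco]
        ring
    have hsN : Summable fun c : Fin N → (Fin 2 → ℤ) =>
        ‖(∏ i, a (c i)) * mFourierCoeff UG (-∑ i, c i)‖ := by
      refine Summable.of_nonneg_of_le (fun _ => norm_nonneg _) (fun c => ?_) hFs.prod
      rw [← (hin c).tsum_eq]
      exact norm_tsum_le_tsum_norm (hFs.comp_injective (i := fun k => (c, k)) fun x y h => (Prod.ext_iff.1 h).2)
    have hIH := ih UG (fun m => (memLp_congr_ae (ae_of_all _ fun x => by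
      simp only [hUG]
      ring)).2 (hG (m + 1))) hsN
    have htot := (hFs.of_norm.hasSum.prod_fiberwise hin).unique hIH
    have hval : ∫ x, U x ^ N * UG x = ∫ x, U x ^ (N + 1) * G x := by
      refine integral_congr_ae (ae_of_all _ fun x => ?_)
      simp only [hUG]
      ring
    rw [← e.hasSum_iff, ← hval, ← htot]
    refine hFs.of_norm.hasSum.congr_fun fun p => ?_
    simp only [Function.comp]
    rw [hFe]

theorem memLp_pow {U : TT → ℂ} (hU : ∀ p : ℕ, MemLp U p) (m : ℕ) :
    ∀ p : ℕ, MemLp (fun x => U x ^ m) p := by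
  induction m with
  | zero =>
    intro p
    simp only [pow_zero]
    exact memLp_const 1
  | succ m ih =>
    intro p
    haveI : ENNReal.HolderTriple ((2 * p : ℕ) : ℝ≥0∞) ((2 * p : ℕ) : ℝ≥0∞) (p : ℝ≥0∞) := ⟨by
      push_cast
      rw [ENNReal.mul_inv (Or.inl two_ne_zero) (Or.inl ENNReal.ofNat_ne_top), ← add_mul,
        ENNReal.inv_two_add_inv_two, one_mul]⟩
    have := MemLp.smul (p := ((2 * p : ℕ) : ℝ≥0∞)) (q := ((2 * p : ℕ) : ℝ≥0∞)) (r := (p : ℝ≥0∞))
      (hU (2 * p)) (ih (2 * p))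
    refine (memLp_congr_ae (ae_of_all _ fun x => ?_)).2 this
    simp only [Pi.smul_apply', smul_eq_mul]
    rw [pow_succ]

theorem holder_aux : ENNReal.HolderTriple (12 : ℝ≥0∞) (3 / 2 : ℝ≥0∞) (4 / 3 : ℝ≥0∞) := ⟨by
  rw [ENNReal.inv_div (Or.inl ENNReal.ofNat_ne_top) (Or.inl two_ne_zero),
    ENNReal.inv_div (Or.inl ENNReal.ofNat_ne_top) (Or.inl three_ne_zero)]
  rw [← ENNReal.toReal_eq_toReal_iff' (by finiteness) (by finiteness)]
  rw [ENNReal.toReal_add (by finiteness) (by finiteness)]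
  simp only [ENNReal.toReal_inv, ENNReal.toReal_div, ENNReal.toReal_ofNat]
  norm_num⟩

theorem holder_aux' : ENNReal.HolderTriple (4 : ℝ≥0∞) (4 / 3 : ℝ≥0∞) 1 := ⟨by
  rw [ENNReal.inv_div (Or.inl ENNReal.ofNat_ne_top) (Or.inl three_ne_zero)]
  rw [← ENNReal.toReal_eq_toReal_iff' (by finiteness) (by finiteness)]
  rw [ENNReal.toReal_add (by finiteness) (by finiteness)]
  simp only [ENNReal.toReal_inv, ENNReal.toReal_div, ENNReal.toReal_ofNat]
  norm_num⟩

/-- The summability in `conv_main`. -/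
theorem conv_summable (a g : (Fin 2 → ℤ) → ℂ) (N : ℕ) (hN : 1 ≤ N) (C : ℝ)
    (ha : ∀ k : Fin 2 → ℤ, ‖a k‖ ≤ C * (1 + ‖k‖ ^ 2)⁻¹)
    (hq : ∀ k : Fin 2 → ℤ, ‖g k‖ ≤ C * (1 + ‖k‖)⁻¹) :
    Summable fun c : Fin N → (Fin 2 → ℤ) => ‖(∏ i, a (c i)) * g (-∑ i, c i)‖ := by
  have hC : 0 ≤ C := by
    have h := (norm_nonneg _).trans (hq 0)
    simpa using h
  have hφ : ∀ b : ℝ, 2 < b → Summable fun k : Fin 2 → ℤ => ((1 + ‖k‖)⁻¹) ^ b := fun b hb => by
    have h1 := EisensteinSeries.summable_one_div_norm_rpow hb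
    have h2 : Summable fun k : Fin 2 → ℤ => if k = 0 then (1 : ℝ) else 0 :=
      (hasSum_ite_eq 0 1).summable
    refine Summable.of_nonneg_of_le (fun k => by positivity) (fun k => ?_) (h1.add h2)
    rcases eq_or_ne k 0 with h0 | h0
    · rw [h0]
      have : (0 : ℝ) ≤ ‖(0 : Fin 2 → ℤ)‖ ^ (-b) := by positivity
      simp only [norm_zero, add_zero, inv_one, Real.one_rpow, if_true]
      simp only [norm_zero] at this
      linarith
    · rw [if_neg h0, add_zero, Real.inv_rpow (by positivity), ← Real.rpow_neg (by positivity)]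
      exact Real.rpow_le_rpow_of_nonpos (norm_pos_iff.2 h0) (by linarith) (by linarith)
  have h := summable_general (α := Fin 2 → ℤ) (S := Fin N → (Fin 2 → ℤ))
    (φ := fun k => (1 + ‖k‖)⁻¹) (fun k => by positivity) hφ hN
    (fun c => Fin.cons (-∑ i, c i) c) (fun c d h => by
      have := congr_arg Fin.tail h
      simpa using this) (fun c => by simp [Fin.sum_univ_succ]) (fun c i => by positivity) 0
  refine Summable.of_nonneg_of_le (fun _ => norm_nonneg _) (fun c => ?_)
    (h.mul_left ((2 * C) ^ N * C))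
  have h1 : ∀ i, ‖a (c i)‖ ≤ (2 * C) * ((1 + ‖c i‖)⁻¹) ^ 2 := fun i => by
    refine (ha (c i)).trans ?_
    have h0 := norm_nonneg (c i)
    rw [inv_pow, mul_comm 2 C, mul_assoc]
    refine mul_le_mul_of_nonneg_left ?_ hC
    rw [inv_eq_one_div, inv_eq_one_div, mul_one_div, div_le_div_iff₀ (by positivity) (by positivity)]
    nlinarith [sq_nonneg (1 - ‖c i‖)]
  rw [norm_mul, norm_prod]
  have h2 : ∏ i, ‖a (c i)‖ ≤ (2 * C) ^ N * ∏ i, ((1 + ‖c i‖)⁻¹) ^ 2 := by
    calc ∏ i, ‖a (c i)‖ ≤ ∏ i, ((2 * C) * ((1 + ‖c i‖)⁻¹) ^ 2) :=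
          Finset.prod_le_prod (fun i _ => norm_nonneg _) fun i _ => h1 i
      _ = _ := by
          rw [Finset.prod_mul_distrib, Finset.prod_const, Finset.card_univ, Fintype.card_fin]
  have h3 := hq (-∑ i, c i)
  refine (mul_le_mul h2 h3 (norm_nonneg _) (by positivity)).trans (le_of_eq ?_)
  rw [Fin.prod_univ_succ]
  simp only [Fin.cons_zero, Fin.cons_succ]
  have h4 : (1 + ‖-∑ i, c i‖)⁻¹ ≠ 0 := by positivity
  field_simp

/-- CONV: the multiple Fourier sum of `U^N Q`. -/
theorem conv_main (U Q : UnitAddTorus (Fin 2) → ℂ) (N : ℕ) (hN : 2 ≤ N)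
    (hU : ∀ p : ℕ, MemLp U p) (hQ : MemLp Q (3 / 2)) (C : ℝ)
    (ha : ∀ k : Fin 2 → ℤ, ‖UnitAddTorus.mFourierCoeff U k‖ ≤ C * (1 + ‖k‖ ^ 2)⁻¹)
    (hq : ∀ k : Fin 2 → ℤ, ‖UnitAddTorus.mFourierCoeff Q k‖ ≤ C * (1 + ‖k‖)⁻¹) :
    HasSum (fun c : Fin N → (Fin 2 → ℤ) =>
      (∏ i, UnitAddTorus.mFourierCoeff U (c i)) * UnitAddTorus.mFourierCoeff Q (-∑ i, c i))
      (∫ x, U x ^ N * Q x) := by
  haveI := holder_aux
  haveI := holder_aux'
  refine conv_ind (p := 4) (q := 4 / 3) ENNReal.ofNat_ne_top (by exact_mod_cast hU 4) N Q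
    (fun m => ?_) (conv_summable _ _ N (by omega) C ha hq)
  exact MemLp.smul (p := 12) (q := 3 / 2) (r := 4 / 3) hQ (by exact_mod_cast memLp_pow hU m 12)

end Pool.Agent.F194

end
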