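import Pool.Agent.Work.MP_f194bb_nt.Conv

/-!
# MP_f194bb_nt: the multiple Fourier sum of `U_1 ... U_N Q` (helper52)
-/

set_option autoImplicit false

open MeasureTheory UnitAddTorus
open scoped ENNReal Topology

noncomputable section

namespace Pool.Agent.F194

/-- products of functions which are in all `L^p` -/
theorem memLp_mul_all {α : Type*} [MeasurableSpace α] {μ : Measure α} {U V : α → ℂ}
    (hU : ∀ p : ℕ, MemLp U p μ) (hV : ∀ p : ℕ, MemLp V p μ) :
    ∀ p : ℕ, MemLp (fun x => U x * V x) p μ := by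
  intro p
  have : ENNReal.HolderTriple ((2 * p : ℕ) : ℝ≥0∞) ((2 * p : ℕ) : ℝ≥0∞) (p : ℝ≥0∞) := ⟨by
    push_cast
    rw [ENNReal.mul_inv (Or.inl two_ne_zero) (Or.inl ENNReal.ofNat_ne_top), ← add_mul,
      ENNReal.inv_two_add_inv_two, one_mul]⟩
  exact MemLp.smul (p := ((2 * p : ℕ) : ℝ≥0∞)) (q := ((2 * p : ℕ) : ℝ≥0∞)) (r := (p : ℝ≥0∞))
    (hV (2 * p)) (hU (2 * p))

theorem memLp_prod_all {α : Type*} [MeasurableSpace α] {μ : Measure α} [IsFiniteMeasure μ]
    {ι : Type*} (s : Finset ι) {U : ι → α → ℂ} (hU : ∀ i ∈ s, ∀ p : ℕ, MemLp (U i) p μ) :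
    ∀ p : ℕ, MemLp (fun x => ∏ i ∈ s, U i x) p μ := by
  classical
  induction s using Finset.induction_on with
  | empty =>
    intro p
    simp only [Finset.prod_empty]
    exact memLp_const 1
  | insert i s hi ih =>
    simp only [Finset.prod_insert hi]
    exact memLp_mul_all (hU i (Finset.mem_insert_self i s))
      (ih fun j hj => hU j (Finset.mem_insert_of_mem hj))

/-- The multiple Fourier sum, by induction on the number of factors. -/
theorem conv_ind_mul {p q : ℝ≥0∞} [ENNReal.HolderTriple p q 1] (hp : p ≠ ∞) (N : ℕ) :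
    ∀ U : Fin N → TT → ℂ, (∀ i, ∀ p : ℕ, MemLp (U i) p) → (∀ i, MemLp (U i) p) →
    ∀ G : TT → ℂ, (∀ V : TT → ℂ, (∀ p : ℕ, MemLp V p) → MemLp (fun x => V x * G x) q) →
    (Summable fun c : Fin N → (Fin 2 → ℤ) =>
      ‖(∏ i, mFourierCoeff (U i) (c i)) * mFourierCoeff G (-∑ i, c i)‖) →
    HasSum (fun c : Fin N → (Fin 2 → ℤ) =>
      (∏ i, mFourierCoeff (U i) (c i)) * mFourierCoeff G (-∑ i, c i))
      (∫ x, (∏ i, U i x) * G x) := by
  induction N with
  | zero =>
    intro U _ _ G _ _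
    have h0 : ∫ x, (∏ i, U i x) * G x = mFourierCoeff G 0 := by
      rw [mFourierCoeff_def]
      refine integral_congr_ae (ae_of_all _ fun t => ?_)
      simp only [Finset.univ_eq_empty, Finset.prod_empty, neg_zero, mFourier_zero,
        ContinuousMap.one_apply]
    rw [h0]
    have h := hasSum_fintype (fun c : Fin 0 → (Fin 2 → ℤ) =>
      (∏ i, mFourierCoeff (U i) (c i)) * mFourierCoeff G (-∑ i, c i))
    simpa using h
  | succ N ih =>
    intro U hUn hUp G hG hs
    set a : Fin (N + 1) → (Fin 2 → ℤ) → ℂ := fun i => mFourierCoeff (U i) with ha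
    set g := mFourierCoeff G with hg
    set UG : TT → ℂ := fun x => U 0 x * G x with hUG
    have hG0 : MemLp G q := by
      have := hG (fun _ => 1) fun p => memLp_const 1
      simpa using this
    -- the sum over pairs
    set F : (Fin N → (Fin 2 → ℤ)) × (Fin 2 → ℤ) → ℂ := fun p =>
      (a 0 p.2 * ∏ i : Fin N, a i.succ (p.1 i)) * g (-(p.2 + ∑ i, p.1 i)) with hF
    set e : (Fin N → (Fin 2 → ℤ)) × (Fin 2 → ℤ) ≃ (Fin (N + 1) → (Fin 2 → ℤ)) :=
      (Equiv.prodComm _ _).trans (Fin.consEquiv fun _ : Fin (N + 1) => (Fin 2 → ℤ)) with he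
    have hFe : ∀ p, (∏ i, a i (e p i)) * g (-∑ i, e p i) = F p := fun p => by
      simp [he, hF, Fin.consEquiv, Fin.prod_univ_succ, Fin.sum_univ_succ]
    have hFs : Summable fun p => ‖F p‖ := by
      rw [← e.summable_iff] at hs
      refine hs.congr fun p => ?_
      simp only [Function.comp]
      exact congr_arg norm (hFe p)
    -- the inner sums
    have hin : ∀ c : Fin N → (Fin 2 → ℤ), HasSum (fun k => F (c, k))
        ((∏ i : Fin N, a i.succ (c i)) * mFourierCoeff UG (-∑ i, c i)) := fun c => by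
      rcases eq_or_ne (∏ i : Fin N, a i.succ (c i)) 0 with h0 | h0
      · simp only [hF, h0, mul_zero, zero_mul]
        exact hasSum_zero
      · set s : Fin 2 → ℤ := ∑ i, c i with hsdef
        set G' : TT → ℂ := fun x => mFourier s x * G x with hG'
        have hG'm : MemLp G' q := memLp_mFourier_mul hG0 s
        have hco : ∀ k, mFourierCoeff G' (-k) = g (-(k + s)) := fun k => by
          rw [hG', coeff_mFourier_mul, hg]
          congr 1
          abel
        have hsum : Summable fun k => a 0 k * mFourierCoeff G' (-k) := by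
          have h1 : Summable fun k => F (c, k) :=
            (hFs.comp_injective (i := fun k => (c, k)) fun x y h => (Prod.ext_iff.1 h).2).of_norm
          have h2 := h1.mul_left (∏ i : Fin N, a i.succ (c i))⁻¹
          refine h2.congr fun k => ?_
          simp only [hF]
          rw [hco]
          field_simp
          rfl
        have hP := (hasSum_parseval (p := p) (q := q) hp (hUp 0) hG'm hsum).mul_left
          (∏ i : Fin N, a i.succ (c i))
        have hval : ∫ x, U 0 x * G' x = mFourierCoeff UG (-s) := by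
          rw [mFourierCoeff_def]
          refine integral_congr_ae (ae_of_all _ fun x => ?_)
          simp only [hG', hUG, neg_neg]
          ring
        rw [hval] at hP
        refine hP.congr_fun fun k => ?_
        simp only [hF]
        rw [hco]
        ring
    have hsN : Summable fun c : Fin N → (Fin 2 → ℤ) =>
        ‖(∏ i : Fin N, mFourierCoeff (U i.succ) (c i)) * mFourierCoeff UG (-∑ i, c i)‖ := by
      refine Summable.of_nonneg_of_le (fun _ => norm_nonneg _) (fun c => ?_) hFs.prod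
      have h1 := (hin c).tsum_eq
      change ‖(∏ i : Fin N, a i.succ (c i)) * mFourierCoeff UG (-∑ i, c i)‖ ≤ _
      rw [← h1]
      exact norm_tsum_le_tsum_norm
        (hFs.comp_injective (i := fun k => (c, k)) fun x y h => (Prod.ext_iff.1 h).2)
    have hIH := ih (fun i => U i.succ) (fun i => hUn i.succ) (fun i => hUp i.succ) UG
      (fun V hV => (memLp_congr_ae (ae_of_all _ fun x => by
        simp only [hUG]
        ring)).2 (hG (fun x => V x * U 0 x) (memLp_mul_all hV (hUn 0)))) hsN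
    have htot := (hFs.of_norm.hasSum.prod_fiberwise hin).unique hIH
    have hval : ∫ x, (∏ i : Fin N, U i.succ x) * UG x = ∫ x, (∏ i, U i x) * G x := by
      refine integral_congr_ae (ae_of_all _ fun x => ?_)
      simp only [hUG, Fin.prod_univ_succ]
      ring
    rw [← e.hasSum_iff, ← hval, ← htot]
    refine hFs.of_norm.hasSum.congr_fun fun p => ?_
    simp only [Function.comp]
    exact hFe p

/-- The summability in `conv_main_mul`. -/
theorem conv_summable_mul {N : ℕ} (a : Fin N → (Fin 2 → ℤ) → ℂ) (g : (Fin 2 → ℤ) → ℂ)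
    (hN : 1 ≤ N) (C : ℝ) (ha : ∀ i, ∀ k : Fin 2 → ℤ, ‖a i k‖ ≤ C * (1 + ‖k‖ ^ 2)⁻¹)
    (hq : ∀ k : Fin 2 → ℤ, ‖g k‖ ≤ C * (1 + ‖k‖)⁻¹) :
    Summable fun c : Fin N → (Fin 2 → ℤ) => ‖(∏ i, a i (c i)) * g (-∑ i, c i)‖ := by
  have hC : 0 ≤ C := by
    have h := (norm_nonneg _).trans (hq 0)
    simpa using h
  have h := conv_summable (fun k => ((C * (1 + ‖k‖ ^ 2)⁻¹ : ℝ) : ℂ))
    (fun k => ((C * (1 + ‖k‖)⁻¹ : ℝ) : ℂ)) N hN C (fun k => by
      rw [Complex.norm_real, Real.norm_of_nonneg (by positivity)]) fun k => by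
      rw [Complex.norm_real, Real.norm_of_nonneg (by positivity)]
  refine Summable.of_nonneg_of_le (fun _ => norm_nonneg _) (fun c => ?_) h
  rw [norm_mul, norm_mul, norm_prod, norm_prod]
  refine mul_le_mul ?_ ?_ (norm_nonneg _) (Finset.prod_nonneg fun _ _ => norm_nonneg _)
  · refine Finset.prod_le_prod (fun _ _ => norm_nonneg _) fun i _ => ?_
    rw [Complex.norm_real, Real.norm_of_nonneg (by positivity)]
    exact ha i _
  · rw [Complex.norm_real, Real.norm_of_nonneg (by positivity)]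
    exact hq _

/-- The multiple Fourier sum of `U_1 ... U_N Q`. -/
theorem conv_main_mul {N : ℕ} (U : Fin N → TT → ℂ) (Q : TT → ℂ) (hN : 1 ≤ N)
    (hU : ∀ i, ∀ p : ℕ, MemLp (U i) p) (hQ : MemLp Q (3 / 2)) (C : ℝ)
    (ha : ∀ i, ∀ k : Fin 2 → ℤ, ‖mFourierCoeff (U i) k‖ ≤ C * (1 + ‖k‖ ^ 2)⁻¹)
    (hq : ∀ k : Fin 2 → ℤ, ‖mFourierCoeff Q k‖ ≤ C * (1 + ‖k‖)⁻¹) :
    HasSum (fun c : Fin N → (Fin 2 → ℤ) =>
      (∏ i, mFourierCoeff (U i) (c i)) * mFourierCoeff Q (-∑ i, c i))
      (∫ x, (∏ i, U i x) * Q x) := by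
  have := holder_aux
  have := holder_aux'
  refine conv_ind_mul (p := 4) (q := 4 / 3) ENNReal.ofNat_ne_top N U hU
    (fun i => by exact_mod_cast hU i 4) Q (fun V hV => ?_) (conv_summable_mul _ _ hN C ha hq)
  exact MemLp.smul (p := 12) (q := 3 / 2) (r := 4 / 3) hQ (by exact_mod_cast hV 12)

end Pool.Agent.F194

end
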