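import Mathlib

/-!
# MP_f194bb_nt, short 2-cocycles: definitions

* `R k F` is Goncharov's group `R_{k+2}(F)`, so that `FreeAbelianGroup (Option F) ⧸ R k F` is
  `B_{k+2}(F)` (`Option F` is `P¹(F)`, `none` is `∞`).
* `Ksum L q P₁ P₂ P₃` is the lattice sum `K_n`, `n = q + 3`, as a function of the three character
  sums `γ ↦ (D, γ)`.
-/

set_option autoImplicit false

open scoped TensorProduct ComplexConjugate

noncomputable section

namespace Pool.Agent.F194

universe u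

/-! ### Goncharov's groups -/

/-- The class of `x ∈ P¹(F)` in the (additively written) group `F*`; `0` and `∞` go to the
neutral element. -/
def unitOf {F : Type u} [Field F] : Option F → Additive Fˣ
  | none => 0
  | some x => open Classical in if h : x = 0 then 0 else Additive.ofMul (Units.mk0 x h)

/-- `f(t₀)` for `f ∈ P¹(F(t))`. -/
def evalAt {F : Type u} [Field F] (t₀ : F) : Option (RatFunc F) → Option F
  | none => none
  | some f => open Classical in if f.denom.eval t₀ = 0 then none else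
      some (f.num.eval t₀ / f.denom.eval t₀)

/-- `1 - x` on `P¹(F)`. -/
def oneSub {F : Type u} [Field F] : Option F → Option F
  | none => none
  | some x => some (1 - x)

/-- `A ⊗ M` (over `ℤ`) -/
def Tens (A M : Type u) [AddCommGroup A] [AddCommGroup M] : Type u := A ⊗[ℤ] M

instance (A M : Type u) [AddCommGroup A] [AddCommGroup M] : AddCommGroup (Tens A M) :=
  inferInstanceAs (AddCommGroup (A ⊗[ℤ] M))

/-- `a ⊗ m ∈ A ⊗ M` -/
def tmul {A M : Type u} [AddCommGroup A] [AddCommGroup M] (a : A) (m : M) : Tens A M :=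
  a ⊗ₜ[ℤ] m

/-- The subgroup of `A ⊗ A` generated by the `a ⊗ a`. -/
def diag (A : Type u) [AddCommGroup A] : AddSubgroup (Tens A A) :=
  AddSubgroup.closure {t | ∃ a : A, t = tmul a a}

/-- `Λ²A = (A ⊗ A)/⟨a ⊗ a⟩` -/
def Ext2 (A : Type u) [AddCommGroup A] : Type u := Tens A A ⧸ diag A

instance (A : Type u) [AddCommGroup A] : AddCommGroup (Ext2 A) :=
  inferInstanceAs (AddCommGroup (Tens A A ⧸ diag A))

/-- `a ∧ b ∈ Λ²A`. -/
def wdg {A : Type u} [AddCommGroup A] (a b : A) : Ext2 A :=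
  (QuotientAddGroup.mk (tmul a b) : Tens A A ⧸ diag A)

/-- shortcut instances (they are the standard structures) -/
instance addU (F : Type u) [Field F] : AddCommGroup (Additive Fˣ) := inferInstance

instance addQ (F : Type u) [Field F] (S : AddSubgroup (FreeAbelianGroup (Option F))) :
    AddCommGroup (FreeAbelianGroup (Option F) ⧸ S) := inferInstance

/-- `δ₂ {x} = (1 - x) ∧ x`, and `δ₂` kills `{0}, {1}, {∞}`. -/
def delta2 (F : Type u) [Field F] : FreeAbelianGroup (Option F) →+ Ext2 (Additive Fˣ) :=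
  FreeAbelianGroup.lift fun x => wdg (unitOf (oneSub x)) (unitOf x)

/-- `B ⊗ F*` for the quotient `B` of `ℤ[P¹(F)]` by `S` -/
def TQ (F : Type u) [Field F] (S : AddSubgroup (FreeAbelianGroup (Option F))) : Type u :=
  Tens (FreeAbelianGroup (Option F) ⧸ S) (Additive Fˣ)

instance (F : Type u) [Field F] (S : AddSubgroup (FreeAbelianGroup (Option F))) :
    AddCommGroup (TQ F S) :=
  inferInstanceAs (AddCommGroup (Tens (FreeAbelianGroup (Option F) ⧸ S) (Additive Fˣ)))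

/-- `{x} ⊗ x ∈ B ⊗ F*` for the quotient `B` of `ℤ[P¹(F)]` by `S` -/
def tself {F : Type u} [Field F] (S : AddSubgroup (FreeAbelianGroup (Option F))) (x : Option F) :
    TQ F S :=
  tmul (QuotientAddGroup.mk (FreeAbelianGroup.of x) : FreeAbelianGroup (Option F) ⧸ S) (unitOf x)

/-- `δ {x} = {x} ⊗ x ∈ B ⊗ F*` for a quotient `B` of `ℤ[P¹(F)]`; kills `{0}, {1}, {∞}`. -/
def deltaN (F : Type u) [Field F] (S : AddSubgroup (FreeAbelianGroup (Option F))) :
    FreeAbelianGroup (Option F) →+ TQ F S :=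
  FreeAbelianGroup.lift (tself S)

/-- The subgroup generated by `{0}`, `{∞}` and `α(0) - α(1)`, `α ∈ Z`. -/
def relOf (F : Type u) [Field F] (Z : Set (FreeAbelianGroup (Option (RatFunc F)))) :
    AddSubgroup (FreeAbelianGroup (Option F)) :=
  AddSubgroup.closure
    ({FreeAbelianGroup.of (some 0), FreeAbelianGroup.of none} ∪
      {y | ∃ α ∈ Z, y = FreeAbelianGroup.map (evalAt 0) α - FreeAbelianGroup.map (evalAt 1) α})

/-- `R k F = R_{k+2}(F)`. -/
def R : ℕ → (F : Type u) → [Field F] → AddSubgroup (FreeAbelianGroup (Option F))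
  | 0, F, _ => relOf F {α | delta2 (RatFunc F) α = 0}
  | k + 1, F, _ => relOf F {α | deltaN (RatFunc F) (R k (RatFunc F)) α = 0}

/-- `B k F = B_{k+2}(F)`. -/
abbrev B (k : ℕ) (F : Type u) [Field F] := FreeAbelianGroup (Option F) ⧸ R k F

/-- The class `{x}_{k+2}` in `B_{k+2}(F)`. -/
def cls (k : ℕ) {F : Type u} [Field F] (x : Option F) : B k F :=
  QuotientAddGroup.mk (FreeAbelianGroup.of x)

/-- Condition (i) for `∑ {f i}_{k+3} ⊗ g i ∈ B_{k+3}(K) ⊗ K*`:
`∑ {f i}_{k+2} ⊗ (f i ∧ g i) = 0` in `B_{k+2}(K) ⊗ Λ² K*`. -/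
def CocycleI (k : ℕ) {K : Type u} [Field K] {ι : Type} [Fintype ι] (f g : ι → Kˣ) : Prop :=
  ∑ i, tmul (cls k (some (f i : K))) (wdg (Additive.ofMul (f i)) (Additive.ofMul (g i))) = 0

/-! ### The lattice sums -/

/-- `A(Γ)` -/
def areaA (L : PeriodPair) : ℂ :=
  (conj L.ω₁ * L.ω₂ - L.ω₁ * conj L.ω₂) / (2 * Real.pi * Complex.I)

/-- `(z, γ)` -/
def chi (L : PeriodPair) (z γ : ℂ) : ℂ :=
  Complex.exp ((areaA L)⁻¹ * (z * conj γ - conj z * γ))

/-- The divisor of a meromorphic function. -/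
def dv (f : ℂ → ℂ) : ℂ → ℤ := fun x => (meromorphicOrderAt f x).untop₀

/-- `(D, γ) = ∑ D(x) (x, γ)`, the sum over the points `x` of `ℂ/Γ` (represented in the
fundamental parallelogram). -/
def pr (L : PeriodPair) (D : ℂ → ℤ) (γ : ℂ) : ℂ :=
  ∑ᶠ x ∈ ZSpan.fundamentalDomain L.basis, (D x : ℂ) * chi L x γ

/-- Index set of `K_n`, `n = q + 3`: `γ₁, …, γ_n ∈ Γ`, all nonzero, with sum `0`. -/
abbrev Idx (L : PeriodPair) (q : ℕ) :=
  {c : Fin (q + 3) → L.lattice // (∀ i, c i ≠ 0) ∧ ∑ i, c i = 0}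

/-- The summand of `K_n`, `n = q + 3`. -/
def kterm (L : PeriodPair) (q : ℕ) (P₁ P₂ P₃ : ℂ → ℂ) (c : Fin (q + 3) → L.lattice) : ℂ :=
  P₁ (c 0) * (∏ i : Fin (q + 1), P₂ (c i.castSucc.succ)) * P₃ (c (Fin.last (q + 2))) *
    (conj (c (Fin.last (q + 2)) : ℂ) - conj (c (Fin.last (q + 1)).castSucc : ℂ)) /
    ((∏ i, ‖(c i : ℂ)‖ ^ 2 : ℝ) : ℂ)

/-- `K_n` as a function of the three character sums, `n = q + 3`. -/
def Ksum (L : PeriodPair) (q : ℕ) (P₁ P₂ P₃ : ℂ → ℂ) : ℂ :=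
  ∑' c : Idx L q, kterm L q P₁ P₂ P₃ c

/-- `K` as a field of meromorphic functions on `ℂ/Γ`. -/
structure EllRep (L : PeriodPair) (K : Type u) [Field K] where
  /-- the function on `ℂ` -/
  ev : K → ℂ → ℂ
  mero : ∀ f, Meromorphic (ev f)
  per : ∀ f, ∀ l : L.lattice, ∀ z, ev f (z + l) = ev f z
  map_one : ev 1 =ᶠ[Filter.codiscrete ℂ] 1
  map_add : ∀ f g, ev (f + g) =ᶠ[Filter.codiscrete ℂ] ev f + ev g
  map_mul : ∀ f g, ev (f * g) =ᶠ[Filter.codiscrete ℂ] ev f * ev g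

end Pool.Agent.F194

end
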