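import Pool.Agent.Work.MP_f194bb_nt.Fold
import Pool.Agent.Work.MP_f194bb_nt.Four

/-!
# MP_f194bb_nt: the degree of a divisor, and Riemann-Hurwitz for the points `0, 1, ∞`

* `sum_dv`: the divisor of an elliptic function has degree `0`;
* `dv_bound`: if `f` and `1 - f` have zeros and poles only at `s` points of `ℂ/Γ`, then all the
  multiplicities of `f` are at most `s`.
-/

set_option autoImplicit false

open scoped ComplexConjugate Topology
open MeasureTheory Set

noncomputable section

namespace Pool.Agent.F194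

lemma chi_zero_right (L : PeriodPair) (z : ℂ) : chi L z 0 = 1 := by
  rw [chi, map_zero, mul_zero, mul_zero, sub_zero, mul_zero, Complex.exp_zero]

theorem sum_dv (L : PeriodPair) (f : ℂ → ℂ) (hf : Meromorphic f) (h0 : NZ f) (hper : Per L f) :
    ∑ᶠ x ∈ ZSpan.fundamentalDomain L.basis, (dv f x : ℂ) = 0 := by
  set Ψ : ℂ → ℂ := fun z => (tens L beta beta z : ℂ) * chi L z 0 with hΨdef
  have hΨ : ContDiff ℝ 1 Ψ := (tens_contDiff L).mul (chi_contDiff L 0)
  have hΨc : HasCompactSupport Ψ := by
    refine HasCompactSupport.intro (isCompact_closedBall (0 : ℂ) (‖L.ω₁‖ + ‖L.ω₂‖)) fun z hz => ?_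
    rw [hΨdef]
    show (tens L beta beta z : ℂ) * chi L z 0 = 0
    rw [tens_supp L unf_beta unf_beta z hz]
    simp
  have h1 := dist_q f hf h0 Ψ hΨ hΨc
  -- the right hand side
  have hDper : Per L fun x => (dv f x : ℂ) := by
    intro l z
    show (dv f (z + l) : ℂ) = (dv f z : ℂ)
    rw [dv_per L hper]
  have hR : ∑ᶠ x, (dv f x : ℂ) * Ψ x =
      ∑ᶠ x ∈ ZSpan.fundamentalDomain L.basis, (dv f x : ℂ) := by
    have h2 := unfold_sum L (fun x => (dv f x : ℂ)) hDper
      ((dv_fin hf _).subset fun x hx => ⟨hx.1, fun h => hx.2 (by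
        show (dv f x : ℂ) = 0
        rw [h]; simp)⟩)
    rw [← h2]
    refine finsum_congr fun x => ?_
    rw [hΨdef]
    show (dv f x : ℂ) * ((tens L beta beta x : ℂ) * chi L x 0) = _
    rw [chi_zero_right, mul_one, mul_comm]
  -- the left hand side
  set F : ℂ → ℂ := fun z => deriv f z / f z with hF
  have hFper : Per L F := q_per L hper
  have hFint : ∀ r, IntegrableOn F (Metric.closedBall 0 r) := fun r => q_int hf h0 r
  set c0 : ℂ := (co L 0 1 + Complex.I * co L 0 Complex.I) / 2 with hc0
  set c1 : ℂ := (co L 1 1 + Complex.I * co L 1 Complex.I) / 2 with hc1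
  have hL : ∫ z, deriv f z / f z * dbar Ψ z = 0 := by
    have h2 : ∀ z, deriv f z / f z * dbar Ψ z =
        c0 * ((tens L (deriv beta) beta z : ℂ) * F z) +
          c1 * ((tens L beta (deriv beta) z : ℂ) * F z) := by
      intro z
      rw [hΨdef, test_dbar, hF, chi_zero_right]
      ring
    have i2 := tens_mul_integrable L unf_dbeta unf_beta F hFint
    have i3 := tens_mul_integrable L unf_beta unf_dbeta F hFint
    simp only [h2]
    rw [integral_add (i2.const_mul _) (i3.const_mul _), integral_const_mul,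
      integral_const_mul, unfold_C L unf_dbeta unf_beta F hFper hFint,
      unfold_C L unf_beta unf_dbeta F hFper hFint]
    push_cast
    ring
  rw [hL, hR] at h1
  have hpi : (Real.pi : ℂ) ≠ 0 := by exact_mod_cast Real.pi_ne_zero
  have h3 : (Real.pi : ℂ) * ∑ᶠ x ∈ ZSpan.fundamentalDomain L.basis, (dv f x : ℂ) = 0 := by
    linear_combination h1
  exact (mul_eq_zero.1 h3).resolve_left hpi

/-- the degree as a finite sum of integers -/
lemma sum_dv_finset (L : PeriodPair) (f : ℂ → ℂ) (hf : Meromorphic f) (h0 : NZ f)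
    (hper : Per L f) (T : Finset ℂ) (hT : ∀ x ∈ T, x ∈ ZSpan.fundamentalDomain L.basis)
    (hT' : ∀ x ∈ ZSpan.fundamentalDomain L.basis, dv f x ≠ 0 → x ∈ T) :
    ∑ x ∈ T, dv f x = 0 := by
  have h1 := sum_dv L f hf h0 hper
  have h2 : ∑ᶠ x ∈ ZSpan.fundamentalDomain L.basis, (dv f x : ℂ) = ∑ x ∈ T, (dv f x : ℂ) := by
    refine finsum_mem_eq_sum_of_inter_support_eq _ ?_
    ext x
    rw [mem_inter_iff, mem_inter_iff, Function.mem_support, Finset.mem_coe]
    constructor
    · rintro ⟨hx, hn⟩
      exact ⟨hT' x hx fun h => hn (by rw [h, Int.cast_zero]), hn⟩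
    · rintro ⟨hx, hn⟩
      exact ⟨hT x hx, hn⟩
  rw [h2] at h1
  exact_mod_cast h1

/-- the function `f'/(f(1-f))` -/
def rr (f : ℂ → ℂ) : ℂ → ℂ := deriv f / (f * fun z => 1 - f z)

lemma rr_mero {f : ℂ → ℂ} (hf : Meromorphic f) : Meromorphic (rr f) := by
  intro x
  have h1 : MeromorphicAt (fun z => 1 - f z) x := (MeromorphicAt.const 1 x).sub (hf x)
  exact (hf x).deriv.div ((hf x).mul h1)

lemma rr_per (L : PeriodPair) {f : ℂ → ℂ} (hper : Per L f) : Per L (rr f) := by
  intro l z
  have h1 : (fun w => f (w + l)) = f := funext fun w => hper l w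
  have h2 : deriv f (z + l) = deriv f z := by
    rw [← deriv_comp_add_const, h1]
  show deriv f (z + l) / (f (z + l) * (1 - f (z + l))) = deriv f z / (f z * (1 - f z))
  rw [h2, hper l z]

/-- the order of `f'/(f(1-f))` -/
lemma rr_order {f : ℂ → ℂ} (hf : Meromorphic f) (hc : ∀ a : ℂ, NZ fun z => f z - a) (x : ℂ) :
    meromorphicOrderAt (rr f) x ≠ ⊤ ∧
      (dv f x < 0 → dv (rr f) x = -dv f x - 1) ∧ -1 ≤ dv (rr f) x ∧
      (dv f x = 0 → dv (fun z => 1 - f z) x = 0 → 0 ≤ dv (rr f) x) := by
  have hfx := hf x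
  have h1x : MeromorphicAt (fun z => 1 - f z) x := (MeromorphicAt.const 1 x).sub hfx
  have h0 : NZ f := by
    have := hc 0
    simpa only [sub_zero] using this
  have hN1 : NZ fun z => 1 - f z := by
    intro z h
    apply hc 1 z
    have h2 : (fun z => f z - 1) = -(fun z => 1 - f z) := by
      funext w
      simp
    rw [h2, ← meromorphicOrderAt_neg]
    exact h
  -- the orders as integers
  obtain ⟨a, ha⟩ := WithTop.ne_top_iff_exists.1 (h0 x)
  obtain ⟨b, hb⟩ := WithTop.ne_top_iff_exists.1 (hN1 x)
  have hda : dv f x = a := by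
    rw [dv, ← ha]
    rfl
  have hdb : dv (fun z => 1 - f z) x = b := by
    rw [dv, ← hb]
    rfl
  have hr : meromorphicOrderAt (rr f) x = meromorphicOrderAt (deriv f) x - ((a : WithTop ℤ) + b) := by
    rw [rr, meromorphicOrderAt_div hfx.deriv (hfx.mul h1x), meromorphicOrderAt_mul hfx h1x, ← ha,
      ← hb]
  -- it is enough to know the order of the derivative
  suffices h : ∃ c : ℤ, meromorphicOrderAt (deriv f) x = c ∧
      (a < 0 → c - (a + b) = -a - 1) ∧ -1 ≤ c - (a + b) ∧ (a = 0 → b = 0 → 0 ≤ c) by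
    obtain ⟨c, hc1, hc2, hc3, hc4⟩ := h
    have h3 : meromorphicOrderAt (rr f) x = ((c - (a + b) : ℤ) : WithTop ℤ) := by
      rw [hr, hc1]
      norm_cast
    have h4 : dv (rr f) x = c - (a + b) := by
      rw [dv, h3]
      rfl
    refine ⟨by rw [h3]; exact WithTop.coe_ne_top, ?_, ?_, ?_⟩
    · rw [h4, hda]
      exact hc2
    · rw [h4]
      exact hc3
    · rw [h4, hda, hdb]
      intro h5 h6
      have := hc4 h5 h6
      omega
  by_cases haz : a = 0
  · -- finite nonzero value
    have ha0 : meromorphicOrderAt f x = 0 := by rw [← ha, haz]; rfl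
    obtain ⟨v, hv0, hv⟩ := (tendsto_ne_zero_iff_meromorphicOrderAt_eq_zero hfx).2 ha0
    have hgx : MeromorphicAt (fun z => f z - v) x := hfx.sub (MeromorphicAt.const v x)
    have hpos : 0 < meromorphicOrderAt (fun z => f z - v) x := by
      rw [← tendsto_zero_iff_meromorphicOrderAt_pos hgx]
      have := hv.sub_const v
      rwa [sub_self] at this
    obtain ⟨e, he⟩ := WithTop.ne_top_iff_exists.1 (hc v x)
    have hepos : 0 < e := by
      rw [← he] at hpos
      exact_mod_cast hpos
    have hd : meromorphicOrderAt (deriv f) x = ((e - 1 : ℤ) : WithTop ℤ) := by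
      have h3 := meromorphicOrderAt_deriv_eq_sub_one (n := e)
        (by exact_mod_cast hepos.ne') he.symm
      have h4 : deriv (fun z => f z - v) = deriv f := by
        funext w
        rw [deriv_sub_const]
      rwa [h4] at h3
    refine ⟨e - 1, hd, fun h => absurd h (by omega), ?_, fun _ _ => by omega⟩
    by_cases hv1 : v = 1
    · -- b = e
      have h3 : (fun z => 1 - f z) = -(fun z => f z - v) := by
        funext w
        rw [hv1]
        simp
      have h4 : (b : WithTop ℤ) = e := by
        rw [hb, h3, ← meromorphicOrderAt_neg, ← he]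
      have h5 : b = e := by exact_mod_cast h4
      omega
    · -- b = 0
      have h3 : meromorphicOrderAt (fun z => 1 - f z) x = 0 := by
        rw [← tendsto_ne_zero_iff_meromorphicOrderAt_eq_zero h1x]
        exact ⟨1 - v, sub_ne_zero.2 (Ne.symm hv1), hv.const_sub 1⟩
      have h5 : b = 0 := by
        rw [← hb] at h3
        exact_mod_cast h3
      omega
  · have hd : meromorphicOrderAt (deriv f) x = ((a - 1 : ℤ) : WithTop ℤ) :=
      meromorphicOrderAt_deriv_eq_sub_one (n := a) (by exact_mod_cast haz) ha.symm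
    refine ⟨a - 1, hd, ?_, ?_, fun h => absurd h haz⟩
    · intro hneg
      -- b = a
      have h3 : meromorphicOrderAt (fun z => 1 - f z) x = a := by
        have h4 : (fun z => 1 - f z) = (fun _ => (1 : ℂ)) + -f := by
          funext w
          simp [sub_eq_add_neg]
        have h5 : meromorphicOrderAt (-f) x = a := by rw [← meromorphicOrderAt_neg, ← ha]
        have h6 : meromorphicOrderAt (fun _ : ℂ => (1 : ℂ)) x = 0 := by
          rw [meromorphicOrderAt_const]
          simp
        rw [h4, meromorphicOrderAt_add_of_ne (MeromorphicAt.const 1 x) hfx.neg (by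
          rw [h5, h6]
          exact_mod_cast Ne.symm haz), h5, h6]
        rw [min_eq_right]
        exact_mod_cast hneg.le
      have h5 : b = a := by
        rw [← hb] at h3
        exact_mod_cast h3
      omega
    · rcases lt_or_gt_of_ne haz with hneg | hpos
      · have h3 : meromorphicOrderAt (fun z => 1 - f z) x = a := by
          have h4 : (fun z => 1 - f z) = (fun _ => (1 : ℂ)) + -f := by
            funext w
            simp [sub_eq_add_neg]
          have h5 : meromorphicOrderAt (-f) x = a := by rw [← meromorphicOrderAt_neg, ← ha]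
          have h6 : meromorphicOrderAt (fun _ : ℂ => (1 : ℂ)) x = 0 := by
            rw [meromorphicOrderAt_const]
            simp
          rw [h4, meromorphicOrderAt_add_of_ne (MeromorphicAt.const 1 x) hfx.neg (by
            rw [h5, h6]
            exact_mod_cast Ne.symm haz), h5, h6]
          rw [min_eq_right]
          exact_mod_cast hneg.le
        have h5 : b = a := by
          rw [← hb] at h3
          exact_mod_cast h3
        omega
      · -- f tends to 0, b = 0
        have hlim : Filter.Tendsto f (𝓝[≠] x) (𝓝 0) := by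
          apply tendsto_zero_of_meromorphicOrderAt_pos
          rw [← ha]
          exact_mod_cast hpos
        have h3 : meromorphicOrderAt (fun z => 1 - f z) x = 0 := by
          rw [← tendsto_ne_zero_iff_meromorphicOrderAt_eq_zero h1x]
          refine ⟨1 - 0, by simp, hlim.const_sub 1⟩
        have h5 : b = 0 := by
          rw [← hb] at h3
          exact_mod_cast h3
        omega

theorem dv_bound (L : PeriodPair) (f : ℂ → ℂ) (hf : Meromorphic f) (hper : Per L f)
    (hc : ∀ a : ℂ, NZ fun z => f z - a) (S : Finset ℂ)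
    (hS : ∀ x ∈ ZSpan.fundamentalDomain L.basis,
      (dv f x ≠ 0 ∨ dv (fun z => 1 - f z) x ≠ 0) → x ∈ S) :
    ∀ x ∈ ZSpan.fundamentalDomain L.basis, |dv f x| ≤ S.card := by
  classical
  have h0 : NZ f := by
    have := hc 0
    simpa only [sub_zero] using this
  have hrm := rr_mero hf
  have hrN : NZ (rr f) := fun x => (rr_order hf hc x).1
  set FD := ZSpan.fundamentalDomain L.basis with hFD
  have hfinr : (FD ∩ Function.support (dv (rr f))).Finite :=
    (dv_fin hrm (‖L.ω₁‖ + ‖L.ω₂‖)).subset fun x hx => ⟨FD_sub_ball L hx.1, hx.2⟩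
  set T : Finset ℂ := (S.filter (· ∈ FD)) ∪ hfinr.toFinset with hT
  have hTF : ∀ x ∈ T, x ∈ FD := by
    intro x hx
    rw [hT, Finset.mem_union, Finset.mem_filter, Set.Finite.mem_toFinset] at hx
    rcases hx with hx | hx
    · exact hx.2
    · exact hx.1
  have hTS : ∀ x ∈ FD, x ∈ S → x ∈ T := fun x hx hxS =>
    Finset.mem_union_left _ (Finset.mem_filter.2 ⟨hxS, hx⟩)
  have hsr : ∑ x ∈ T, dv (rr f) x = 0 := by
    refine sum_dv_finset L (rr f) hrm hrN (rr_per L hper) T hTF fun x hx hn => ?_
    exact Finset.mem_union_right _ (hfinr.mem_toFinset.2 ⟨hx, hn⟩)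
  have hsf : ∑ x ∈ T, dv f x = 0 :=
    sum_dv_finset L f hf h0 hper T hTF fun x hx hn => hTS x hx (hS x hx (Or.inl hn))
  -- pointwise inequality
  have hpt : ∀ x ∈ T, max (-dv f x) 0 ≤ dv (rr f) x + if x ∈ S then 1 else 0 := by
    intro x hx
    obtain ⟨-, h1, h2, h3⟩ := rr_order hf hc x
    by_cases hxS : x ∈ S
    · rw [if_pos hxS]
      rcases lt_or_ge (dv f x) 0 with h | h
      · have := h1 h
        rw [max_eq_left (by omega)]
        omega
      · rw [max_eq_right (by omega)]
        omega
    · rw [if_neg hxS]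
      have h4 : ¬ (dv f x ≠ 0 ∨ dv (fun z => 1 - f z) x ≠ 0) := fun h => hxS (hS x (hTF x hx) h)
      rw [not_or, not_not, not_not] at h4
      have := h3 h4.1 h4.2
      rw [h4.1]
      simpa using this
  have hsum : ∑ x ∈ T, max (-dv f x) 0 ≤ S.card := by
    calc ∑ x ∈ T, max (-dv f x) 0 ≤ ∑ x ∈ T, (dv (rr f) x + if x ∈ S then 1 else 0) :=
          Finset.sum_le_sum hpt
      _ = ∑ x ∈ T, (if x ∈ S then (1 : ℤ) else 0) := by
          rw [Finset.sum_add_distrib, hsr, zero_add]
      _ = ((T.filter (· ∈ S)).card : ℤ) := by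
          rw [Finset.sum_boole]
      _ ≤ S.card := by
          exact_mod_cast Finset.card_le_card fun x hx => (Finset.mem_filter.1 hx).2
  have hsum2 : ∑ x ∈ T, max (dv f x) 0 ≤ S.card := by
    have h5 : ∑ x ∈ T, max (dv f x) 0 = ∑ x ∈ T, (max (-dv f x) 0 + dv f x) := by
      refine Finset.sum_congr rfl fun x _ => ?_
      rcases le_total (dv f x) 0 with h | h
      · rw [max_eq_right h, max_eq_left (by omega)]
        omega
      · rw [max_eq_left h, max_eq_right (by omega)]
        omega
    rw [h5, Finset.sum_add_distrib, hsf, add_zero]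
    exact hsum
  intro x hx
  by_cases hxT : x ∈ T
  · rw [abs_le]
    constructor
    · have h6 : max (-dv f x) 0 ≤ ∑ y ∈ T, max (-dv f y) 0 :=
        Finset.single_le_sum (f := fun y => max (-dv f y) 0) (fun y _ => le_max_right _ _) hxT
      have h7 := le_max_left (-dv f x) 0
      linarith
    · have h6 : max (dv f x) 0 ≤ ∑ y ∈ T, max (dv f y) 0 :=
        Finset.single_le_sum (f := fun y => max (dv f y) 0) (fun y _ => le_max_right _ _) hxT
      have h7 := le_max_left (dv f x) 0
      linarith
  · have h6 : dv f x = 0 := by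
      by_contra h
      exact hxT (hTS x hx (hS x hx (Or.inl h)))
    rw [h6, abs_zero]
    positivity

end Pool.Agent.F194

end
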