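import Pool.Agent.Work.MP_f194bb_nt.Box

/-!
# MP_f194bb_nt: independence of the tensor powers of all integral vectors of bounded norm
-/

set_option autoImplicit false

noncomputable section

namespace Pool.Agent.F194

/-- triangular separation by products of linear forms -/
lemma powInd_of_tri {V : Type*} [AddCommGroup V] [Module ℚ V] {J : Type*} [Fintype J] (p : ℕ)
    (e : J → V) (r : J → ℕ) (h : ∀ j, ∃ ν : Fin p → (V →ₗ[ℚ] ℚ), ∏ k, ν k (e j) ≠ 0 ∧
      ∀ j', j' ≠ j → r j' ≤ r j → ∏ k, ν k (e j') = 0) : PowInd p e := by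
  classical
  rw [PowInd, Fintype.linearIndependent_iff]
  intro t ht
  by_contra hcon
  push Not at hcon
  obtain ⟨j₀, hj₀⟩ := hcon
  obtain ⟨j, hj, hmax⟩ := Finset.exists_max_image (Finset.univ.filter fun j => t j ≠ 0) r
    ⟨j₀, Finset.mem_filter.2 ⟨Finset.mem_univ _, hj₀⟩⟩
  have htj := (Finset.mem_filter.1 hj).2
  obtain ⟨ν, h1, h2⟩ := h j
  have h0 := congrFun ht ν
  rw [Finset.sum_apply, Finset.sum_eq_single j] at h0
  · rw [Pi.smul_apply, smul_eq_mul, Pi.zero_apply, mul_eq_zero] at h0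
    rcases h0 with h0 | h0
    · exact htj h0
    · exact h1 h0
  · intro i _ hij
    rw [Pi.smul_apply, smul_eq_mul]
    by_cases hti : t i = 0
    · rw [hti, zero_mul]
    · rw [h2 i hij (hmax i (Finset.mem_filter.2 ⟨Finset.mem_univ _, hti⟩)), mul_zero]
  · intro h
    exact absurd (Finset.mem_univ j) h

/-- pairs `(b, c)` with `1 ≤ b ≤ m` and `0 < |c| ≤ n` -/
def box2 (m n : ℕ) : Finset (ℤ × ℤ) :=
  Finset.Icc 1 (m : ℤ) ×ˢ (Finset.Icc 1 (n : ℤ) ∪ Finset.Icc (-(n : ℤ)) (-1))

lemma card_box2 (m n : ℕ) : (box2 m n).card ≤ 2 * m * n := by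
  have h1 : ((m : ℤ) + 1 - 1).toNat = m := by simp
  have h2 : ((n : ℤ) + 1 - 1).toNat = n := by simp
  have h3 : (-1 + 1 - -(n : ℤ)).toNat = n := by simp
  rw [box2, Finset.card_product, Int.card_Icc, h1]
  have h4 : (Finset.Icc 1 (n : ℤ) ∪ Finset.Icc (-(n : ℤ)) (-1)).card ≤ 2 * n := by
    refine (Finset.card_union_le _ _).trans ?_
    rw [Int.card_Icc, Int.card_Icc, h2, h3]
    omega
  calc m * _ ≤ m * (2 * n) := Nat.mul_le_mul_left _ h4
    _ = 2 * m * n := by ring

lemma mem_box2 {m n : ℕ} {b c : ℤ} (hb : |b| ≤ m) (hc : |c| ≤ n) (hb0 : b ≠ 0) (hc0 : c ≠ 0) :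
    (b, c) ∈ box2 m n ∨ (-b, -c) ∈ box2 m n := by
  rw [abs_le] at hb hc
  unfold box2
  simp only [Finset.mem_union, Finset.mem_product, Finset.mem_Icc]
  omega

/-- an integral vector with small norm has a small coordinate -/
lemma exists_small {X : Type*} (A : Finset X) (hA : A.Nonempty) (z : X → ℤ) (N : ℕ)
    (hz : ∑ x ∈ A, |z x| ≤ N) : ∃ x ∈ A, |z x| ≤ ((N / A.card : ℕ) : ℤ) := by
  by_contra hcon
  push Not at hcon
  have hm : 0 < A.card := Finset.card_pos.2 hA
  have h1 : ∀ x ∈ A, (((N / A.card : ℕ) : ℤ) + 1) ≤ |z x| := fun x hx => hcon x hx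
  have h2 := Finset.card_nsmul_le_sum A (fun x => |z x|) _ h1
  rw [nsmul_eq_mul] at h2
  have h3 : N < A.card * (N / A.card + 1) := Nat.lt_mul_div_succ N hm
  have h4 : ((A.card : ℤ)) * (((N / A.card : ℕ) : ℤ) + 1) ≤ N := h2.trans hz
  have h5 : ((A.card * (N / A.card + 1) : ℕ) : ℤ) ≤ N := by
    push_cast
    push_cast at h4
    exact h4
  have h6 : A.card * (N / A.card + 1) ≤ N := by exact_mod_cast h5
  omega

/-- The tensor powers of pairwise non-proportional integral vectors of bounded norm are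
independent, whatever the number of the vectors and of the coordinates. -/
theorem powInd_of_norm {X J : Type*} [Fintype J] (d p : ℕ) (z : J → X → ℤ)
    (e : J → (X →₀ ℚ)) (hz : ∀ j x, e j x = z j x) (hnorm : ∀ j, ∑ x ∈ (e j).support, |z j x| ≤ 2 * d)
    (hbd : ∀ j x, |z j x| ≤ d) (hne : ∀ j, e j ≠ 0)
    (hprop : ∀ i j, i ≠ j → e i ∉ Submodule.span ℚ {e j}) (hp : 8 * d ^ 2 + 2 * d ≤ p) :
    PowInd p e := by
  classical
  refine powInd_of_tri p e (fun j => (e j).support.card) fun j => ?_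
  set A := (e j).support with hA
  have hAne : A.Nonempty := Finsupp.support_nonempty_iff.2 (hne j)
  set m := A.card with hm
  have hm0 : 0 < m := Finset.card_pos.2 hAne
  set t := 2 * d / m with ht
  have hmt : m * t ≤ 2 * d := Nat.mul_div_le (2 * d) m
  have hzA : ∀ j' x, x ∈ (e j').support ↔ z j' x ≠ 0 := by
    intro j' x
    rw [Finsupp.mem_support_iff, hz]
    exact_mod_cast Iff.rfl
  have hm2 : m ≤ 2 * d := by
    have h1 : ∀ x ∈ A, (1 : ℤ) ≤ |z j x| := fun x hx =>
      Int.one_le_abs ((hzA j x).1 hx)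
    have h2 := (Finset.card_nsmul_le_sum A (fun x => |z j x|) 1 h1).trans (hnorm j)
    rw [nsmul_eq_mul, mul_one] at h2
    exact_mod_cast h2
  -- the coordinate where `|e j|` is smallest
  obtain ⟨x₀, hx₀A, hx₀min⟩ := Finset.exists_min_image A (fun x => |z j x|) hAne
  have hx₀ : e j x₀ ≠ 0 := Finsupp.mem_support_iff.1 hx₀A
  have hzx₀ : z j x₀ ≠ 0 := (hzA j x₀).1 hx₀A
  set T : Finset (X × (ℤ × ℤ)) := (A ×ˢ {(1, 0)}) ∪ (A ×ˢ (box2 t d ∪ box2 d t)) with hT
  have hTcard : Fintype.card T ≤ p := by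
    rw [Fintype.card_coe]
    refine le_trans ?_ hp
    refine (Finset.card_union_le _ _).trans ?_
    rw [Finset.card_product, Finset.card_product, Finset.card_singleton, mul_one]
    have h1 : (box2 t d ∪ box2 d t).card ≤ 4 * t * d := by
      refine (Finset.card_union_le _ _).trans ?_
      refine (add_le_add (card_box2 t d) (card_box2 d t)).trans (le_of_eq ?_)
      ring
    have h5 : A.card * (box2 t d ∪ box2 d t).card ≤ m * (4 * t * d) := Nat.mul_le_mul_left _ h1
    have h6 : m * (4 * t * d) ≤ 8 * d ^ 2 := by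
      calc m * (4 * t * d) = 4 * d * (m * t) := by ring
        _ ≤ 4 * d * (2 * d) := Nat.mul_le_mul_left _ hmt
        _ = 8 * d ^ 2 := by ring
    omega
  let ev : X → ((X →₀ ℚ) →ₗ[ℚ] ℚ) := fun x => Finsupp.lapply x
  let form : X × (ℤ × ℤ) → ((X →₀ ℚ) →ₗ[ℚ] ℚ) := fun t =>
    (t.2.1 : ℚ) • ev t.1 - (t.2.2 : ℚ) • ev x₀
  have hform : ∀ t v, form t v = t.2.1 * v t.1 - t.2.2 * v x₀ := fun t v => rfl
  let φ : T → ((X →₀ ℚ) →ₗ[ℚ] ℚ) := fun t => if form t.1 (e j) ≠ 0 then form t.1 else ev x₀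
  have hφ : ∀ t, φ t (e j) ≠ 0 := by
    intro t
    show (if form t.1 (e j) ≠ 0 then form t.1 else ev x₀) (e j) ≠ 0
    split_ifs with h
    · exact h
    · exact hx₀
  obtain ⟨emb⟩ : Nonempty (T ↪ Fin p) :=
    Function.Embedding.nonempty_of_card_le (by rw [Fintype.card_fin]; exact hTcard)
  let ν : Fin p → ((X →₀ ℚ) →ₗ[ℚ] ℚ) := fun k =>
    if h : ∃ t, emb t = k then φ h.choose else ev x₀
  have hν : ∀ t, ν (emb t) = φ t := by
    intro t
    have h : ∃ t', emb t' = emb t := ⟨t, rfl⟩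
    show (if h : ∃ t', emb t' = emb t then φ h.choose else ev x₀) = φ t
    rw [dif_pos h, emb.injective h.choose_spec]
  have hkill : ∀ (j' : J) (t : X × (ℤ × ℤ)), t ∈ T → form t (e j') = 0 → form t (e j) ≠ 0 →
      ∏ k, ν k (e j') = 0 := by
    intro j' t htT h1 h2
    refine Finset.prod_eq_zero (Finset.mem_univ (emb ⟨t, htT⟩)) ?_
    rw [hν]
    show (if form t (e j) ≠ 0 then form t else ev x₀) (e j') = 0
    rw [if_pos h2, h1]
  refine ⟨ν, ?_, ?_⟩
  · rw [Finset.prod_ne_zero_iff]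
    intro k _
    show (if h : ∃ t, emb t = k then φ h.choose else ev x₀) (e j) ≠ 0
    split_ifs with h
    · exact hφ _
    · exact hx₀
  · intro j' hj' hcard
    by_cases hsub : A ⊆ (e j').support
    · -- the same support
      have hAeq : A = (e j').support := Finset.eq_of_subset_of_card_le hsub hcard
      have hz' : ∀ x ∈ A, z j' x ≠ 0 := fun x hx => (hzA j' x).1 (hsub hx)
      have hsum' : ∑ x ∈ A, |z j' x| ≤ ((2 * d : ℕ) : ℤ) := by
        rw [hAeq]
        exact_mod_cast hnorm j'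
      -- finding a pair
      have hpair : ∃ x ∈ A, z j' x * z j x₀ ≠ z j x * z j' x₀ ∧
          ((|z j' x₀| ≤ t ∧ |z j' x| ≤ d) ∨ (|z j' x₀| ≤ d ∧ |z j' x| ≤ t)) := by
        by_cases hs : |z j' x₀| ≤ t
        · obtain ⟨x, hx⟩ : ∃ x, e j' x * e j x₀ ≠ e j x * e j' x₀ := by
            by_contra hcon
            push Not at hcon
            apply hprop j' j hj'
            rw [Submodule.mem_span_singleton]
            refine ⟨e j' x₀ / e j x₀, ?_⟩
            ext y
            rw [Finsupp.smul_apply, smul_eq_mul, div_mul_eq_mul_div, div_eq_iff hx₀]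
            rw [mul_comm (e j' x₀)]
            exact (hcon y).symm
          have hxA : x ∈ A := by
            by_contra h
            apply hx
            have h1 : e j x = 0 := Finsupp.notMem_support_iff.1 h
            have h2 : e j' x = 0 := Finsupp.notMem_support_iff.1 (hAeq ▸ h)
            rw [h1, h2, zero_mul, zero_mul]
          refine ⟨x, hxA, ?_, Or.inl ⟨hs, hbd j' x⟩⟩
          intro h
          apply hx
          rw [hz, hz, hz, hz]
          exact_mod_cast h
        · obtain ⟨x, hxA, hx⟩ := exists_small A hAne (z j') (2 * d) hsum'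
          refine ⟨x, hxA, ?_, Or.inr ⟨hbd j' x₀, hx⟩⟩
          intro h
          have h1 := congrArg abs h
          rw [abs_mul, abs_mul] at h1
          have h2 := hx₀min x hxA
          have h3 : |z j' x| < |z j' x₀| := lt_of_le_of_lt hx (not_le.1 hs)
          have h4 : 0 < |z j x₀| := abs_pos.2 hzx₀
          have h5 : |z j' x| * |z j x₀| < |z j' x₀| * |z j x₀| := mul_lt_mul_of_pos_right h3 h4
          have h6 : |z j' x₀| * |z j x₀| ≤ |z j' x₀| * |z j x| :=
            mul_le_mul_of_nonneg_left h2 (abs_nonneg _)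
          have h7 : |z j' x₀| * |z j x| = |z j x| * |z j' x₀| := mul_comm _ _
          omega
      obtain ⟨x, hxA, hne', hsize⟩ := hpair
      have hb0 : z j' x₀ ≠ 0 := hz' x₀ hx₀A
      have hc0 : z j' x ≠ 0 := hz' x hxA
      have hmem : (z j' x₀, z j' x) ∈ box2 t d ∪ box2 d t ∨
          (-z j' x₀, -z j' x) ∈ box2 t d ∪ box2 d t := by
        rcases hsize with ⟨h1, h2⟩ | ⟨h1, h2⟩
        · rcases mem_box2 h1 h2 hb0 hc0 with h | h
          · exact Or.inl (Finset.mem_union_left _ h)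
          · exact Or.inr (Finset.mem_union_left _ h)
        · rcases mem_box2 h1 h2 hb0 hc0 with h | h
          · exact Or.inl (Finset.mem_union_right _ h)
          · exact Or.inr (Finset.mem_union_right _ h)
      have hneQ : ((z j' x₀ : ℤ) : ℚ) * z j x - (z j' x : ℤ) * z j x₀ ≠ 0 := by
        intro h
        apply hne'
        have h1 : ((z j' x₀ * z j x : ℤ) : ℚ) = ((z j' x * z j x₀ : ℤ) : ℚ) := by
          push_cast
          linarith
        have h2 : z j' x₀ * z j x = z j' x * z j x₀ := by exact_mod_cast h1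
        rw [← h2, mul_comm]
      rcases hmem with h | h
      · refine hkill j' (x, (z j' x₀, z j' x)) (Finset.mem_union_right _
          (Finset.mem_product.2 ⟨hxA, h⟩)) ?_ ?_
        · rw [hform]
          show ((z j' x₀ : ℤ) : ℚ) * e j' x - ((z j' x : ℤ) : ℚ) * e j' x₀ = 0
          rw [hz, hz]
          ring
        · rw [hform]
          show ((z j' x₀ : ℤ) : ℚ) * e j x - ((z j' x : ℤ) : ℚ) * e j x₀ ≠ 0
          rw [hz, hz]
          exact hneQ
      · refine hkill j' (x, (-z j' x₀, -z j' x)) (Finset.mem_union_right _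
          (Finset.mem_product.2 ⟨hxA, h⟩)) ?_ ?_
        · rw [hform]
          show ((-z j' x₀ : ℤ) : ℚ) * e j' x - ((-z j' x : ℤ) : ℚ) * e j' x₀ = 0
          rw [hz, hz]
          push_cast
          ring
        · rw [hform]
          show ((-z j' x₀ : ℤ) : ℚ) * e j x - ((-z j' x : ℤ) : ℚ) * e j x₀ ≠ 0
          rw [hz, hz]
          push_cast
          intro h0
          exact hneQ (by linarith)
    · -- a point of `A` outside the support of `e j'`
      obtain ⟨x, hxA, hx⟩ := Finset.not_subset.1 hsub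
      have h1 : e j' x = 0 := Finsupp.notMem_support_iff.1 hx
      have h2 : e j x ≠ 0 := Finsupp.mem_support_iff.1 hxA
      refine hkill j' (x, (1, 0)) (Finset.mem_union_left _
        (Finset.mem_product.2 ⟨hxA, Finset.mem_singleton.2 rfl⟩)) ?_ ?_
      · rw [hform]
        show ((1 : ℤ) : ℚ) * e j' x - ((0 : ℤ) : ℚ) * e j' x₀ = 0
        rw [h1]
        simp
      · rw [hform]
        show ((1 : ℤ) : ℚ) * e j x - ((0 : ℤ) : ℚ) * e j x₀ ≠ 0
        simpa using h2

end Pool.Agent.F194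

end
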