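import Pool.Agent.Work.MP_f194bb_nt.Asm
import Pool.Agent.Work.MP_f194bb_nt.SepDeg
import Pool.Agent.Work.MP_f194bb_nt.Riem

/-!
# MP_f194bb_nt: cocycles with functions of bounded degree
-/

set_option autoImplicit false

open scoped ComplexConjugate Topology
open Set

noncomputable section

namespace Pool.Agent.F194

universe u

/-- The degree of an elliptic function: the number of its zeros on `ℂ/Γ`, with multiplicities. -/
def degE (L : PeriodPair) (f : ℂ → ℂ) : ℕ :=
  ∑ᶠ x ∈ ZSpan.fundamentalDomain L.basis, (dv f x).toNat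

lemma dv_norm (L : PeriodPair) {f : ℂ → ℂ} (hf : Meromorphic f) (h0 : NZ f) (hper : Per L f)
    (T : Finset ℂ) (hT : ∀ x ∈ T, x ∈ ZSpan.fundamentalDomain L.basis)
    (hs : ∀ x ∈ ZSpan.fundamentalDomain L.basis, dv f x ≠ 0 → x ∈ T) :
    ∑ x ∈ T, |dv f x| = 2 * degE L f := by
  classical
  have h1 : degE L f = ∑ x ∈ T, (dv f x).toNat := by
    unfold degE
    refine finsum_mem_eq_sum_of_inter_support_eq _ ?_
    ext x
    simp only [Set.mem_inter_iff, Function.mem_support, Finset.mem_coe]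
    constructor
    · rintro ⟨h1, h2⟩
      exact ⟨hs x h1 fun h => h2 (by rw [h]; rfl), h2⟩
    · rintro ⟨h1, h2⟩
      exact ⟨hT x h1, h2⟩
  have h2 : ∑ x ∈ T, dv f x = 0 := sum_dv_finset L f hf h0 hper T hT hs
  have h3 : ∀ n : ℤ, |n| = 2 * (n.toNat : ℤ) - n := by
    intro n
    rcases le_total 0 n with h | h
    · rw [abs_of_nonneg h, Int.toNat_of_nonneg h]
      ring
    · rw [abs_of_nonpos h, Int.toNat_of_nonpos h]
      simp
  simp only [h3]
  rw [Finset.sum_sub_distrib, h2, sub_zero, h1, ← Finset.mul_sum]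
  push_cast
  rfl

variable {L : PeriodPair} {K : Type u} [Field K]

lemma divT_supp (ρ : EllRep L K) (u : K) (x : ℂ) :
    x ∈ (divT ρ u).support ↔ x ∈ ZSpan.fundamentalDomain L.basis ∧ dv (ρ.ev u) x ≠ 0 := by
  rw [Finsupp.mem_support_iff, divT_apply]
  by_cases hx : x ∈ ZSpan.fundamentalDomain L.basis
  · rw [Set.indicator_of_mem hx]
    simp [hx]
  · rw [Set.indicator_of_notMem hx]
    simp [hx]

lemma divT_norm (ρ : EllRep L K) (u : Kˣ) :
    ∑ x ∈ (divT ρ (u : K)).support, |dv (ρ.ev (u : K)) x| = 2 * degE L (ρ.ev (u : K)) :=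
  dv_norm L (ρ.mero _) (ρ.nz u.ne_zero) (ρ.per _) _
    (fun x hx => ((divT_supp ρ _ x).1 hx).1) (fun x h1 h2 => (divT_supp ρ _ x).2 ⟨h1, h2⟩)

lemma dv_le_deg (ρ : EllRep L K) (u : Kˣ) (x : ℂ) (hx : x ∈ ZSpan.fundamentalDomain L.basis) :
    |dv (ρ.ev (u : K)) x| ≤ degE L (ρ.ev (u : K)) := by
  classical
  by_cases h : dv (ρ.ev (u : K)) x = 0
  · rw [h]
    simp
  · -- the sum of the other multiplicities is at least the absolute value of this one
    have hxs : x ∈ (divT ρ (u : K)).support := (divT_supp ρ _ x).2 ⟨hx, h⟩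
    have h1 := divT_norm ρ u
    have h2 : ∑ y ∈ (divT ρ (u : K)).support, dv (ρ.ev (u : K)) y = 0 :=
      sum_dv_finset L _ (ρ.mero _) (ρ.nz u.ne_zero) (ρ.per _) _
        (fun x hx => ((divT_supp ρ _ x).1 hx).1) (fun x h1 h2 => (divT_supp ρ _ x).2 ⟨h1, h2⟩)
    rw [← Finset.add_sum_erase _ _ hxs] at h1 h2
    have h3 : |∑ y ∈ (divT ρ (u : K)).support.erase x, dv (ρ.ev (u : K)) y| ≤
        ∑ y ∈ (divT ρ (u : K)).support.erase x, |dv (ρ.ev (u : K)) y| :=
      Finset.abs_sum_le_sum_abs _ _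
    have h4 : |dv (ρ.ev (u : K)) x| =
        |∑ y ∈ (divT ρ (u : K)).support.erase x, dv (ρ.ev (u : K)) y| := by
      have : dv (ρ.ev (u : K)) x = -∑ y ∈ (divT ρ (u : K)).support.erase x,
          dv (ρ.ev (u : K)) y := by linarith
      rw [this, abs_neg]
    linarith

/-- **Bounded degree.** -/
theorem bounded_degree (ρ : EllRep L K) (p : ℕ) {ι : Type} [Fintype ι] (f g : ι → Kˣ)
    (h : CocycleI p f g) (d : ℕ) (hd : ∀ i, degE L (ρ.ev (f i : K)) ≤ d)
    (hp : 8 * d ^ 2 + 2 * d ≤ p) :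
    ∑ i, Ksum L (p + 1) (pr L (dv (ρ.ev (g i : K)))) (pr L (dv (ρ.ev (f i : K))))
      (pr L (dv (ρ.ev (1 - f i : K)))) = 0 := by
  classical
  by_cases hne : ∃ i, divT ρ (f i : K) ≠ 0
  · obtain ⟨T, t, h1, h2, h3⟩ := lines_reps (fun i => divT ρ (f i : K)) hne
    refine short_cocycle ρ p f g h (fun W : T => divT ρ (f (t W) : K)) (Or.inr ?_)
      (fun i => h3 i)
    refine powInd_of_norm d p (fun (W : T) x =>
      (ZSpan.fundamentalDomain L.basis).indicator (fun x => dv (ρ.ev (f (t W) : K)) x) x)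
      (fun W : T => divT ρ (f (t W) : K)) ?_ ?_ ?_ h1 (fun W W' => h2 W W') hp
    · intro W x
      rw [divT_apply]
      by_cases hx : x ∈ ZSpan.fundamentalDomain L.basis
      · rw [Set.indicator_of_mem hx, Set.indicator_of_mem hx]
      · rw [Set.indicator_of_notMem hx, Set.indicator_of_notMem hx, Int.cast_zero]
    · intro W
      have h4 := divT_norm ρ (f (t W))
      have h5 : ∑ x ∈ (divT ρ (f (t W) : K)).support,
          |(ZSpan.fundamentalDomain L.basis).indicator (fun x => dv (ρ.ev (f (t W) : K)) x) x| =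
          ∑ x ∈ (divT ρ (f (t W) : K)).support, |dv (ρ.ev (f (t W) : K)) x| := by
        refine Finset.sum_congr rfl fun x hx => ?_
        rw [Set.indicator_of_mem ((divT_supp ρ _ x).1 hx).1]
      rw [h5, h4]
      have := hd (t W)
      have h6 : ((degE L (ρ.ev (f (t W) : K)) : ℕ) : ℤ) ≤ d := by exact_mod_cast this
      linarith
    · intro W x
      by_cases hx : x ∈ ZSpan.fundamentalDomain L.basis
      · rw [Set.indicator_of_mem hx]
        refine (dv_le_deg ρ (f (t W)) x hx).trans ?_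
        exact_mod_cast hd (t W)
      · rw [Set.indicator_of_notMem hx]
        simp
  · push Not at hne
    refine short_cocycle ρ p f g h (fun _ : Unit => 0) (Or.inl (by simp)) fun i => ⟨(), 0, ?_⟩
    rw [hne i, zero_smul]

end Pool.Agent.F194

end
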