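import Mathlib

/-!
# MP_f194bb_nt: from rational to complex functionals; independent subspaces
-/

set_option autoImplicit false

noncomputable section

namespace Pool.Agent.F194

variable {V : Type*} [AddCommGroup V] [Module ℚ V]

/-- one slot -/
lemma ext_slot {ι : Type*} (S : Finset ι) (v : ι → V) (c : ι → ℂ)
    (h : ∀ φ : V →ₗ[ℚ] ℚ, ∑ i ∈ S, c i * ((φ (v i) : ℚ) : ℂ) = 0) (ψ : V →ₗ[ℚ] ℂ) :
    ∑ i ∈ S, c i * ψ (v i) = 0 := by
  classical
  let b := Module.Basis.ofVectorSpace ℚ V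
  let T : Finset _ := S.biUnion fun i => (b.repr (v i)).support
  have hx : ∀ i ∈ S, ψ (v i) = ∑ k ∈ T, ((b.repr (v i) k : ℚ) : ℂ) * ψ (b k) := by
    intro i hi
    have h1 : v i = ∑ k ∈ T, b.repr (v i) k • b k := by
      conv_lhs => rw [← b.linearCombination_repr (v i)]
      rw [Finsupp.linearCombination_apply]
      refine Finsupp.sum_of_support_subset _ (Finset.subset_biUnion_of_mem
        (fun i => (b.repr (v i)).support) hi) _ ?_
      intro k _
      exact zero_smul _ _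
    conv_lhs => rw [h1]
    rw [map_sum]
    refine Finset.sum_congr rfl fun k _ => ?_
    rw [map_smul, Rat.smul_def]
  calc ∑ i ∈ S, c i * ψ (v i)
      = ∑ i ∈ S, ∑ k ∈ T, ψ (b k) * (c i * ((b.repr (v i) k : ℚ) : ℂ)) := by
        refine Finset.sum_congr rfl fun i hi => ?_
        rw [hx i hi, Finset.mul_sum]
        refine Finset.sum_congr rfl fun k _ => ?_
        ring
    _ = ∑ k ∈ T, ψ (b k) * ∑ i ∈ S, c i * ((b.repr (v i) k : ℚ) : ℂ) := by
        rw [Finset.sum_comm]
        refine Finset.sum_congr rfl fun k _ => ?_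
        rw [Finset.mul_sum]
    _ = 0 := Finset.sum_eq_zero fun k _ => by
        have := h (b.coord k)
        simp only [Module.Basis.coord_apply] at this
        rw [this, mul_zero]

/-- a product of slots -/
lemma ext_prod {ι : Type*} (S : Finset ι) (v : ι → V) (N : ℕ) : ∀ c : ι → ℂ,
    (∀ ν : Fin N → (V →ₗ[ℚ] ℚ), ∑ i ∈ S, c i * ∏ k, ((ν k (v i) : ℚ) : ℂ) = 0) →
    ∀ ν : Fin N → (V →ₗ[ℚ] ℂ), ∑ i ∈ S, c i * ∏ k, ν k (v i) = 0 := by
  induction N with
  | zero =>
    intro c h ν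
    have := h (fun k => k.elim0)
    simpa using this
  | succ N ih =>
    intro c h ν
    have h1 : ∀ i, c i * ∏ k, ν k (v i) = (c i * ∏ k : Fin N, ν k.succ (v i)) * ν 0 (v i) := by
      intro i
      rw [Fin.prod_univ_succ]
      ring
    rw [Finset.sum_congr rfl fun i _ => h1 i]
    refine ext_slot S v (fun i => c i * ∏ k : Fin N, ν k.succ (v i)) (fun φ => ?_) (ν 0)
    have h2 := ih (fun i => c i * ((φ (v i) : ℚ) : ℂ)) (fun ν' => by
      have h3 := h (Fin.cons φ ν')
      rw [← h3]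
      refine Finset.sum_congr rfl fun i _ => ?_
      rw [Fin.prod_univ_succ]
      simp only [Fin.cons_zero, Fin.cons_succ]
      ring) (fun k => ν k.succ)
    rw [← h2]
    refine Finset.sum_congr rfl fun i _ => ?_
    ring

/-- the alternating slots -/
lemma ext_alt {ι : Type*} (S : Finset ι) (f w : ι → V) (c : ι → ℂ)
    (h : ∀ l m : V →ₗ[ℚ] ℚ, ∑ i ∈ S, c i * (((l (w i) * m (f i) - l (f i) * m (w i) : ℚ)) : ℂ) = 0)
    (l m : V →ₗ[ℚ] ℂ) : ∑ i ∈ S, c i * (l (w i) * m (f i) - l (f i) * m (w i)) = 0 := by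
  classical
  let v : ι × Bool → V := fun t => if t.2 then w t.1 else f t.1
  have key : ∀ (a b : ι → ℂ) (ψ : V →ₗ[ℚ] ℂ),
      ∑ t ∈ S ×ˢ (Finset.univ : Finset Bool), (if t.2 then a t.1 else b t.1) * ψ (v t) =
        ∑ i ∈ S, (a i * ψ (w i) + b i * ψ (f i)) := by
    intro a b ψ
    rw [Finset.sum_product]
    refine Finset.sum_congr rfl fun i _ => ?_
    rw [Fintype.sum_bool]
    rfl
  have keyQ : ∀ (a b : ι → ℂ) (ψ : V →ₗ[ℚ] ℚ),
      ∑ t ∈ S ×ˢ (Finset.univ : Finset Bool), (if t.2 then a t.1 else b t.1) *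
          ((ψ (v t) : ℚ) : ℂ) =
        ∑ i ∈ S, (a i * ((ψ (w i) : ℚ) : ℂ) + b i * ((ψ (f i) : ℚ) : ℂ)) := by
    intro a b ψ
    rw [Finset.sum_product]
    refine Finset.sum_congr rfl fun i _ => ?_
    rw [Fintype.sum_bool]
    rfl
  -- first `l`
  have h1 : ∀ (l : V →ₗ[ℚ] ℂ) (m : V →ₗ[ℚ] ℚ),
      ∑ i ∈ S, c i * (l (w i) * ((m (f i) : ℚ) : ℂ) - l (f i) * ((m (w i) : ℚ) : ℂ)) = 0 := by
    intro l m
    have h2 := ext_slot (S ×ˢ (Finset.univ : Finset Bool)) v
      (fun t => if t.2 then c t.1 * ((m (f t.1) : ℚ) : ℂ) else -(c t.1 * ((m (w t.1) : ℚ) : ℂ)))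
      (fun φ => by
        have e := keyQ (fun i => c i * ((m (f i) : ℚ) : ℂ)) (fun i => -(c i * ((m (w i) : ℚ) : ℂ))) φ
        rw [e, ← h φ m]
        refine Finset.sum_congr rfl fun i _ => ?_
        push_cast
        ring) l
    have e := key (fun i => c i * ((m (f i) : ℚ) : ℂ)) (fun i => -(c i * ((m (w i) : ℚ) : ℂ))) l
    rw [e] at h2
    rw [← h2]
    refine Finset.sum_congr rfl fun i _ => ?_
    ring
  have h2 := ext_slot (S ×ˢ (Finset.univ : Finset Bool)) v
    (fun t => if t.2 then -(c t.1 * l (f t.1)) else c t.1 * l (w t.1))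
    (fun φ => by
      have e := keyQ (fun i => -(c i * l (f i))) (fun i => c i * l (w i)) φ
      rw [e, ← h1 l φ]
      refine Finset.sum_congr rfl fun i _ => ?_
      ring) m
  have e := key (fun i => -(c i * l (f i))) (fun i => c i * l (w i)) m
  rw [e] at h2
  rw [← h2]
  refine Finset.sum_congr rfl fun i _ => ?_
  ring

/-- all slots -/
lemma ext_all {ι : Type*} (S : Finset ι) (N : ℕ) (f w x : ι → V)
    (h : ∀ (l m s : V →ₗ[ℚ] ℚ) (ν : Fin N → (V →ₗ[ℚ] ℚ)),
      ∑ i ∈ S, (l (w i) * m (f i) - l (f i) * m (w i)) * (∏ k, ν k (f i)) * s (x i) = 0)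
    (l m s : V →ₗ[ℚ] ℂ) (ν : Fin N → (V →ₗ[ℚ] ℂ)) :
    ∑ i ∈ S, (l (w i) * m (f i) - l (f i) * m (w i)) * (∏ k, ν k (f i)) * s (x i) = 0 := by
  have h0 : ∀ (l m s : V →ₗ[ℚ] ℚ) (ν : Fin N → (V →ₗ[ℚ] ℂ)),
      ∑ i ∈ S, (((l (w i) * m (f i) - l (f i) * m (w i)) * s (x i) : ℚ) : ℂ) *
        ∏ k, ν k (f i) = 0 := by
    intro l m s
    refine ext_prod S f N _ fun ν => ?_
    have := h l m s ν
    have h1 : ((∑ i ∈ S, (l (w i) * m (f i) - l (f i) * m (w i)) * (∏ k, ν k (f i)) * s (x i) : ℚ)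
        : ℂ) = 0 := by rw [this, Rat.cast_zero]
    rw [← h1]
    push_cast
    refine Finset.sum_congr rfl fun i _ => ?_
    ring
  have h1 : ∀ (l m : V →ₗ[ℚ] ℚ) (s : V →ₗ[ℚ] ℂ) (ν : Fin N → (V →ₗ[ℚ] ℂ)),
      ∑ i ∈ S, ((((l (w i) * m (f i) - l (f i) * m (w i)) : ℚ) : ℂ) * ∏ k, ν k (f i)) *
        s (x i) = 0 := by
    intro l m s ν
    refine ext_slot S x _ (fun φ => ?_) s
    rw [← h0 l m φ ν]
    refine Finset.sum_congr rfl fun i _ => ?_
    push_cast
    ring
  have h2 := ext_alt S f w (fun i => (∏ k, ν k (f i)) * s (x i)) (fun l m => by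
    rw [← h1 l m s ν]
    refine Finset.sum_congr rfl fun i _ => ?_
    ring) l m
  rw [← h2]
  refine Finset.sum_congr rfl fun i _ => ?_
  ring

/-- a functional with prescribed values on `B` which vanishes on `A`, for `A ∩ B = 0` -/
lemma exists_functional (A B : Submodule ℚ V) (h : Disjoint A B) (φ : V →ₗ[ℚ] ℚ) :
    ∃ ψ : V →ₗ[ℚ] ℚ, (∀ a ∈ A, ψ a = 0) ∧ ∀ b ∈ B, ψ b = φ b := by
  let i : B →ₗ[ℚ] V ⧸ A := A.mkQ.comp B.subtype
  have hi : LinearMap.ker i = ⊥ := by
    rw [LinearMap.ker_eq_bot']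
    intro b hb
    have h1 : (b : V) ∈ A := (Submodule.Quotient.mk_eq_zero A).1 hb
    have h2 := Submodule.disjoint_def.1 h b h1 b.2
    exact Subtype.ext h2
  obtain ⟨r, hr⟩ := i.exists_leftInverse_of_injective hi
  refine ⟨φ.comp (B.subtype.comp (r.comp A.mkQ)), ?_, ?_⟩
  · intro a ha
    have h1 : A.mkQ a = 0 := (Submodule.Quotient.mk_eq_zero A).2 ha
    rw [LinearMap.comp_apply, LinearMap.comp_apply, LinearMap.comp_apply, h1, map_zero, map_zero,
      map_zero]
  · intro b hb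
    have h1 : r (A.mkQ b) = ⟨b, hb⟩ := DFunLike.congr_fun hr ⟨b, hb⟩
    rw [LinearMap.comp_apply, LinearMap.comp_apply, LinearMap.comp_apply, h1]
    rfl

/-- At most `p + 1` subspaces, pairwise disjoint: their `p`-th tensor powers are independent. -/
lemma sub_ind {ι J : Type*} [Fintype ι] [Fintype J] [DecidableEq J] (p : ℕ)
    (hJ : Fintype.card J ≤ p + 1) (c : ι → J) (f : ι → V) (U : J → Submodule ℚ V)
    (hU : ∀ j j', j ≠ j' → Disjoint (U j) (U j')) (hf : ∀ i, f i ∈ U (c i)) (C : ι → ℚ)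
    (h : ∀ ν : Fin p → (V →ₗ[ℚ] ℚ), ∑ i, C i * ∏ k, ν k (f i) = 0) (j : J)
    (ν : Fin p → (V →ₗ[ℚ] ℚ)) :
    ∑ i ∈ Finset.univ.filter (fun i => c i = j), C i * ∏ k, ν k (f i) = 0 := by
  classical
  have hex : ∀ (i : {i : J // i ≠ j}) (k : Fin p), ∃ ψ : V →ₗ[ℚ] ℚ,
      (∀ a ∈ U i, ψ a = 0) ∧ ∀ b ∈ U j, ψ b = ν k b := fun i k =>
    exists_functional (U i) (U j) (hU i j i.2) (ν k)
  choose ψ hψ1 hψ2 using hex
  have hcard : Fintype.card {i : J // i ≠ j} ≤ p := by
    have h1 : Fintype.card {i : J // i ≠ j} = Fintype.card J - 1 := by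
      rw [Fintype.card_subtype_compl, Fintype.card_subtype_eq]
    omega
  obtain ⟨emb⟩ : Nonempty ({i : J // i ≠ j} ↪ Fin p) :=
    Function.Embedding.nonempty_of_card_le (by rw [Fintype.card_fin]; exact hcard)
  let ν' : Fin p → (V →ₗ[ℚ] ℚ) := fun k =>
    if h : ∃ i, emb i = k then ψ h.choose k else ν k
  have hν' : ∀ i, ν' (emb i) = ψ i (emb i) := by
    intro i
    have h : ∃ i', emb i' = emb i := ⟨i, rfl⟩
    show (if h : ∃ i', emb i' = emb i then ψ h.choose (emb i) else ν (emb i)) = ψ i (emb i)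
    rw [dif_pos h, emb.injective h.choose_spec]
  have hj : ∀ k, ∀ b ∈ U j, ν' k b = ν k b := by
    intro k b hb
    show (if h : ∃ i, emb i = k then ψ h.choose k else ν k) b = ν k b
    split_ifs with h
    · exact hψ2 _ k b hb
    · rfl
  rw [← h ν', Finset.sum_filter]
  refine Finset.sum_congr rfl fun i _ => ?_
  split_ifs with hi
  · congr 1
    refine Finset.prod_congr rfl fun k _ => ?_
    rw [hj k]
    rw [← hi]
    exact hf i
  · symm
    rw [Finset.prod_eq_zero (Finset.mem_univ (emb ⟨c i, hi⟩)), mul_zero]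
    rw [hν']
    exact hψ1 _ _ _ (hf i)

/-- A multilinear map which vanishes on generators vanishes on their span. -/
lemma multi_span {N : ℕ} (M : MultilinearMap ℚ (fun _ : Fin N => V) ℂ) (G : Set V)
    (h : ∀ D : Fin N → V, (∀ i, D i ∈ G) → M D = 0) :
    ∀ D : Fin N → V, (∀ i, D i ∈ Submodule.span ℚ G) → M D = 0 := by
  classical
  have key : ∀ T : Finset (Fin N), ∀ D : Fin N → V, (∀ i ∈ T, D i ∈ Submodule.span ℚ G) →
      (∀ i, i ∉ T → D i ∈ G) → M D = 0 := by
    intro T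
    induction T using Finset.induction_on with
    | empty => exact fun D _ h2 => h D fun i => h2 i (by simp)
    | insert a T ha ih =>
      intro D h1 h2
      have hup : Function.update D a (D a) = D := Function.update_eq_self a D
      rw [← hup]
      have hspan := h1 a (Finset.mem_insert_self a T)
      have hind : ∀ y ∈ Submodule.span ℚ G, M (Function.update D a y) = 0 := by
        intro y hy
        induction hy using Submodule.span_induction with
        | mem y hy =>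
          refine ih _ (fun i hi => ?_) (fun i hi => ?_)
          · have hia : i ≠ a := fun h => ha (h ▸ hi)
            rw [Function.update_of_ne hia]
            exact h1 i (Finset.mem_insert_of_mem hi)
          · by_cases hia : i = a
            · subst hia
              rw [Function.update_self]
              exact hy
            · rw [Function.update_of_ne hia]
              exact h2 i (by
                rw [Finset.mem_insert, not_or]
                exact ⟨hia, hi⟩)
        | zero => exact M.map_update_zero D a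
        | add y z _ _ hy hz => rw [M.map_update_add, hy, hz, add_zero]
        | smul r y _ hy => rw [M.map_update_smul, hy, smul_zero]
      exact hind _ hspan
  intro D hD
  exact key Finset.univ D (fun i _ => hD i) (fun i hi => absurd (Finset.mem_univ i) hi)

end Pool.Agent.F194

end
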