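import Pool.Agent.Work.MP_f194bb_nt.Conv

/-!
# MP_f194bb_nt: the torus, coordinates and Fourier coefficients (helper52)
-/

set_option autoImplicit false

open MeasureTheory UnitAddTorus
open scoped ENNReal Topology ComplexConjugate

noncomputable section

namespace Pool.Agent.F194

theorem im_ne_zero_tor (L : PeriodPair) : (conj L.ω₁ * L.ω₂).im ≠ 0 := by
  intro h
  have h1 : (conj L.ω₁ * L.ω₂) = (((conj L.ω₁ * L.ω₂).re : ℝ) : ℂ) := by
    apply Complex.ext <;> simp only [Complex.ofReal_re, Complex.ofReal_im, h]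
  have h2 := LinearIndependent.pair_iff.1 L.indep (-(conj L.ω₁ * L.ω₂).re) (Complex.normSq L.ω₁)
    (by
      rw [Complex.real_smul, Complex.real_smul]
      push_cast
      rw [← h1, ← Complex.mul_conj]
      ring)
  have h3 : L.ω₁ = 0 := Complex.normSq_eq_zero.1 h2.2
  have h4 := LinearIndependent.pair_iff.1 L.indep 1 0 (by rw [h3]; simp)
  exact one_ne_zero h4.1

theorem vol_pos_tor (L : PeriodPair) : 0 < vol L := abs_pos.2 (im_ne_zero_tor L)

theorem areaA_ne_zero (L : PeriodPair) : areaA L ≠ 0 := by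
  rw [areaA_eq, Complex.ofReal_ne_zero]
  exact div_ne_zero (im_ne_zero_tor L) Real.pi_ne_zero

theorem diff_ne_zero (L : PeriodPair) : conj L.ω₁ * L.ω₂ - L.ω₁ * conj L.ω₂ ≠ 0 := by
  intro h
  apply areaA_ne_zero L
  rw [areaA, h, zero_div]

/-- The coordinates of `a ω₁ + b ω₂` are `(b, -a)`. -/
def crd (L : PeriodPair) : L.lattice ≃+ (Fin 2 → ℤ) where
  toFun γ := ![(L.latticeEquivProd γ).2, -(L.latticeEquivProd γ).1]
  invFun k := L.latticeEquivProd.symm (-(k 1), k 0)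
  left_inv γ := by simp
  right_inv k := by
    funext i
    fin_cases i <;> simp
  map_add' γ δ := by
    funext i
    fin_cases i <;> simp [add_comm]

theorem coe_eq (L : PeriodPair) (γ : L.lattice) :
    (γ : ℂ) = -((crd L γ 1 : ℤ) : ℂ) * L.ω₁ + ((crd L γ 0 : ℤ) : ℂ) * L.ω₂ := by
  have h := L.latticeEquiv_symm_apply (L.latticeEquivProd γ)
  rw [LinearEquiv.symm_apply_apply] at h
  have h0 : crd L γ 0 = (L.latticeEquivProd γ).2 := rfl
  have h1 : crd L γ 1 = -(L.latticeEquivProd γ).1 := rfl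
  rw [h0, h1]
  push_cast
  rw [neg_neg]
  exact h

/-- `(z, γ)` is a character of the torus. -/
theorem chi_E (L : PeriodPair) (x : Fin 2 → ℝ) (γ : L.lattice) :
    chi L (E L x) γ = mFourier (-(crd L γ)) fun i => (x i : UnitAddCircle) := by
  simp only [mFourier, ContinuousMap.coe_mk, Fin.prod_univ_two, fourier_coe_apply]
  rw [← Complex.exp_add, chi]
  congr 1
  have hd := diff_ne_zero L
  have hpi : (Real.pi : ℂ) ≠ 0 := by exact_mod_cast Real.pi_ne_zero
  have hI := Complex.I_ne_zero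
  have h1 : E L x * conj (γ : ℂ) - conj (E L x) * γ =
      (x 1 * -((crd L γ 1 : ℤ) : ℂ) - x 0 * ((crd L γ 0 : ℤ) : ℂ)) *
        (conj L.ω₁ * L.ω₂ - L.ω₁ * conj L.ω₂) := by
    rw [coe_eq L γ, E]
    simp only [map_add, map_mul, map_neg, Complex.conj_ofReal, map_intCast]
    ring
  rw [h1, areaA, inv_div]
  simp only [Pi.neg_apply]
  push_cast
  field_simp
  ring

theorem box_eq_tor : (box : Set (Fin 2 → ℝ)) =
    {x : Fin 2 → ℝ | ∀ i, x i ∈ Set.Ioc ((fun _ => (0 : ℝ)) i) ((fun _ => (0 : ℝ)) i + 1)} := by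
  ext x
  simp [box, Set.mem_pi]

theorem tor_coe (L : PeriodPair) (F : ℂ → ℂ) {x : Fin 2 → ℝ} (hx : x ∈ box) :
    tor L F (fun i => (x i : UnitAddCircle)) = F (E L x) := by
  rw [box_eq_tor] at hx
  have h := (measurableEquivPiIoc (fun _ : Fin 2 => (0 : ℝ))).apply_symm_apply ⟨x, hx⟩
  rw [coe_symm_measurableEquivPiIoc_apply] at h
  rw [tor, h]

theorem integral_TT (f : TT → ℂ) :
    ∫ t : TT, f t = ∫ x in box, f fun i => (x i : UnitAddCircle) := by
  have h := mFourierCoeff_eq_integral f 0 (fun _ => (0 : ℝ))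
  rw [mFourierCoeff_def, ← box_eq_tor] at h
  simpa only [neg_zero, mFourier_zero, ContinuousMap.one_apply, one_mul, one_smul] using h

theorem measurableSet_box_tor : MeasurableSet (box : Set (Fin 2 → ℝ)) :=
  MeasurableSet.univ_pi fun _ => measurableSet_Ioc

theorem integral_tor (L : PeriodPair) (F : ℂ → ℂ) : ∫ t : TT, tor L F t = mean L F := by
  rw [integral_TT, mean]
  exact setIntegral_congr_fun measurableSet_box_tor fun x hx => tor_coe L F hx

/-- Fourier coefficients of functions on `ℂ/Γ`. -/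
theorem coeff_tor (L : PeriodPair) (F : ℂ → ℂ) (γ : L.lattice) :
    mFourierCoeff (tor L F) (crd L γ) = mean L (fun z => F z * chi L z γ) := by
  rw [mFourierCoeff_eq_integral _ _ (fun _ => (0 : ℝ)), ← box_eq_tor, mean]
  refine setIntegral_congr_fun measurableSet_box_tor fun x hx => ?_
  rw [tor_coe L F hx, chi_E, smul_eq_mul, mul_comm]

theorem chi_zero (L : PeriodPair) (z : ℂ) : chi L z 0 = 1 := by
  simp [chi]

theorem coeff_tor_zero (L : PeriodPair) (F : ℂ → ℂ) :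
    mFourierCoeff (tor L F) 0 = mean L F := by
  have h := coeff_tor L F 0
  rw [map_zero] at h
  rw [h]
  simp only [ZeroMemClass.coe_zero, chi_zero, mul_one]

theorem integral_mFourier {n : Fin 2 → ℤ} (hn : n ≠ 0) : ∫ t : TT, mFourier n t = 0 := by
  obtain ⟨i, hi⟩ := Function.ne_iff.1 hn
  have hi' : n i ≠ 0 := hi
  set s : TT := Pi.single i (((1 : ℝ) / 2 / n i : ℝ) : UnitAddCircle) with hs
  have h1 : ∀ t : TT, mFourier n (t + s) = -mFourier n t := fun t => by
    simp only [mFourier, ContinuousMap.coe_mk]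
    rw [← Finset.mul_prod_erase Finset.univ _ (Finset.mem_univ i),
      ← Finset.mul_prod_erase Finset.univ _ (Finset.mem_univ i), neg_mul_eq_neg_mul]
    congr 1
    · rw [Pi.add_apply, hs, Pi.single_eq_same]
      exact fourier_add_half_inv_index hi' one_pos (t i)
    · refine Finset.prod_congr rfl fun j hj => ?_
      rw [Pi.add_apply, hs, Pi.single_eq_of_ne (Finset.ne_of_mem_erase hj), add_zero]
  have h2 : ∫ t : TT, mFourier n t = -∫ t : TT, mFourier n t := by
    conv_lhs => rw [← integral_add_right_eq_self (fun t : TT => mFourier n t) s]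
    rw [← integral_neg]
    exact integral_congr_ae (ae_of_all _ h1)
  have h3 : (2 : ℂ) * ∫ t : TT, mFourier n t = 0 := by linear_combination h2
  simpa using h3

theorem coeff_const (a : ℂ) {n : Fin 2 → ℤ} (hn : n ≠ 0) :
    mFourierCoeff (fun _ : TT => a) n = 0 := by
  rw [mFourierCoeff_def, integral_mul_const, integral_mFourier (neg_ne_zero.2 hn), zero_mul]

theorem one_le_norm_int {k : Fin 2 → ℤ} (hk : k ≠ 0) : 1 ≤ ‖k‖ := by
  obtain ⟨i, hi⟩ := Function.ne_iff.1 hk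
  refine le_trans ?_ (norm_le_pi_norm k i)
  rw [Int.norm_eq_abs]
  exact_mod_cast Int.one_le_abs hi

theorem norm_crd_le (L : PeriodPair) :
    ∃ c : ℝ, 0 < c ∧ ∀ γ : L.lattice, c * ‖crd L γ‖ ≤ ‖(γ : ℂ)‖ := by
  set D : ℝ := |(conj L.ω₁ * L.ω₂).im| with hD
  have hDpos : 0 < D := vol_pos_tor L
  set M : ℝ := ‖L.ω₁‖ + ‖L.ω₂‖ with hM
  have hM0 : 0 ≤ M := by positivity
  have h1 : ∀ γ : L.lattice, ∀ i, |((crd L γ i : ℤ) : ℝ)| * D ≤ ‖(γ : ℂ)‖ * M := by
    intro γ i
    have hγ := coe_eq L γ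
    have hM1 : ‖L.ω₁‖ ≤ M := by rw [hM]; linarith [norm_nonneg L.ω₂]
    have hM2 : ‖L.ω₂‖ ≤ M := by rw [hM]; linarith [norm_nonneg L.ω₁]
    fin_cases i
    · have h : (((crd L γ 0 : ℤ) : ℝ)) * (conj L.ω₁ * L.ω₂).im = (conj L.ω₁ * γ).im := by
        rw [hγ]
        have : conj L.ω₁ * (-((crd L γ 1 : ℤ) : ℂ) * L.ω₁ + ((crd L γ 0 : ℤ) : ℂ) * L.ω₂) =
            ((-(crd L γ 1 : ℤ) * Complex.normSq L.ω₁ : ℝ) : ℂ) +
              (((crd L γ 0 : ℤ) : ℝ) : ℂ) * (conj L.ω₁ * L.ω₂) := by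
          push_cast
          rw [← Complex.mul_conj]
          ring
        rw [this, Complex.add_im, Complex.ofReal_im, zero_add, Complex.im_ofReal_mul]
      change |((crd L γ 0 : ℤ) : ℝ)| * D ≤ ‖(γ : ℂ)‖ * M
      rw [hD, ← abs_mul, h]
      refine (Complex.abs_im_le_norm _).trans ?_
      rw [norm_mul, Complex.norm_conj, mul_comm]
      exact mul_le_mul_of_nonneg_left hM1 (norm_nonneg _)
    · have h : -(((crd L γ 1 : ℤ) : ℝ)) * (conj L.ω₁ * L.ω₂).im = (conj (γ : ℂ) * L.ω₂).im := by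
        rw [hγ]
        have : conj (-((crd L γ 1 : ℤ) : ℂ) * L.ω₁ + ((crd L γ 0 : ℤ) : ℂ) * L.ω₂) * L.ω₂ =
            (((crd L γ 0 : ℤ) * Complex.normSq L.ω₂ : ℝ) : ℂ) +
              ((-((crd L γ 1 : ℤ) : ℝ) : ℝ) : ℂ) * (conj L.ω₁ * L.ω₂) := by
          simp only [map_add, map_mul, map_neg, map_intCast]
          push_cast
          rw [← Complex.mul_conj]
          ring
        rw [this, Complex.add_im, Complex.ofReal_im, zero_add, Complex.im_ofReal_mul]
      change |((crd L γ 1 : ℤ) : ℝ)| * D ≤ ‖(γ : ℂ)‖ * M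
      rw [hD, ← abs_neg ((crd L γ 1 : ℤ) : ℝ), ← abs_mul, h]
      refine (Complex.abs_im_le_norm _).trans ?_
      rw [norm_mul, Complex.norm_conj]
      exact mul_le_mul_of_nonneg_left hM2 (norm_nonneg _)
  refine ⟨D / (M + 1), by positivity, fun γ => ?_⟩
  have h2 : ‖crd L γ‖ ≤ ‖(γ : ℂ)‖ * M / D := by
    refine (pi_norm_le_iff_of_nonneg (by positivity)).2 fun i => ?_
    rw [le_div_iff₀ hDpos, Int.norm_eq_abs]
    exact h1 γ i
  calc D / (M + 1) * ‖crd L γ‖ ≤ D / (M + 1) * (‖(γ : ℂ)‖ * M / D) :=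
        mul_le_mul_of_nonneg_left h2 (by positivity)
    _ = ‖(γ : ℂ)‖ * (M / (M + 1)) := by field_simp
    _ ≤ ‖(γ : ℂ)‖ * 1 := by
        refine mul_le_mul_of_nonneg_left ?_ (norm_nonneg _)
        rw [div_le_one (by positivity)]
        linarith
    _ = ‖(γ : ℂ)‖ := mul_one _

end Pool.Agent.F194

end
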