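import Pool.Agent.Work.MP_f194bb_nt.Unfold
import Pool.Agent.Work.MP_f194bb_nt.Tor

/-!
# MP_f194bb_nt: unfolding of sums over the points of `ℂ/Γ`; periodicity and finiteness of divisors
-/

set_option autoImplicit false

open scoped ComplexConjugate ENNReal Topology
open MeasureTheory Set

noncomputable section

namespace Pool.Agent.F194

lemma dv_per (L : PeriodPair) {f : ℂ → ℂ} (hper : Per L f) (l : L.lattice) (z : ℂ) :
    dv f (z + l) = dv f z := by
  unfold dv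
  rw [← meromorphicOrderAt_comp_add_const_eq_meromorphicOrderAt]
  congr 2
  funext w
  exact hper l w

lemma dv_fin {f : ℂ → ℂ} (hf : Meromorphic f) (r : ℝ) :
    (Metric.closedBall (0 : ℂ) r ∩ Function.support (dv f)).Finite := by
  have hfU : MeromorphicOn f (Metric.closedBall 0 r) := fun z _ => hf z
  have hfin : (MeromorphicOn.divisor f (Metric.closedBall 0 r)).support.Finite :=
    (MeromorphicOn.divisor f (Metric.closedBall 0 r)).finiteSupport (isCompact_closedBall 0 r)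
  refine hfin.subset fun x hx => ?_
  rw [Function.mem_support]
  have h1 : MeromorphicOn.divisor f (Metric.closedBall 0 r) x = dv f x :=
    MeromorphicOn.divisor_apply hfU hx.1
  rw [h1]
  exact hx.2

lemma mem_FD (L : PeriodPair) {z : ℂ} :
    z ∈ ZSpan.fundamentalDomain L.basis ↔ ∀ i, co L i z ∈ Ico (0 : ℝ) 1 := Iff.rfl

lemma FD_sub_ball (L : PeriodPair) {z : ℂ} (hz : z ∈ ZSpan.fundamentalDomain L.basis) :
    z ∈ Metric.closedBall (0 : ℂ) (‖L.ω₁‖ + ‖L.ω₂‖) := by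
  rw [mem_FD] at hz
  rw [mem_closedBall_zero_iff, ← E_co L z]
  refine (norm_add_le _ _).trans (add_le_add ?_ ?_)
  · rw [norm_mul, Complex.norm_real, Real.norm_eq_abs, abs_of_nonneg (hz 0).1]
    exact mul_le_of_le_one_left (norm_nonneg _) (hz 0).2.le
  · rw [norm_mul, Complex.norm_real, Real.norm_eq_abs, abs_of_nonneg (hz 1).1]
    exact mul_le_of_le_one_left (norm_nonneg _) (hz 1).2.le

lemma co_add (L : PeriodPair) (z : ℂ) (a b : ℝ) :
    co L 0 (z + (a * L.ω₁ + b * L.ω₂)) = co L 0 z + a ∧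
      co L 1 (z + (a * L.ω₁ + b * L.ω₂)) = co L 1 z + b := by
  have h : (a * L.ω₁ + b * L.ω₂ : ℂ) = E L ![a, b] := by simp [E]
  rw [h, map_add, map_add, co_E, co_E]
  exact ⟨rfl, rfl⟩

/-- the shift -/
private def sh (L : PeriodPair) (p : ℂ × (Fin 2 × Fin 2)) : ℂ :=
  p.1 + (((-(p.2.1 : ℕ) : ℝ) : ℂ) * L.ω₁ + ((-(p.2.2 : ℕ) : ℝ) : ℂ) * L.ω₂)

private lemma sh_co (L : PeriodPair) (p : ℂ × (Fin 2 × Fin 2)) :
    co L 0 (sh L p) = co L 0 p.1 - (p.2.1 : ℕ) ∧ co L 1 (sh L p) = co L 1 p.1 - (p.2.2 : ℕ) := by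
  have := co_add L p.1 (-(p.2.1 : ℕ)) (-(p.2.2 : ℕ))
  rw [← sub_eq_add_neg, ← sub_eq_add_neg] at this
  exact this

private lemma sh_lat (L : PeriodPair) (p : ℂ × (Fin 2 × Fin 2)) {H : ℂ → ℂ} (hper : Per L H) :
    H (sh L p) = H p.1 := by
  have h1 : (((-(p.2.1 : ℕ) : ℝ) : ℂ) * L.ω₁ + ((-(p.2.2 : ℕ) : ℝ) : ℂ) * L.ω₂) ∈ L.lattice := by
    refine add_mem ?_ ?_
    · have := L.lattice.smul_mem (-(p.2.1 : ℤ)) L.ω₁_mem_lattice
      simpa using this
    · have := L.lattice.smul_mem (-(p.2.2 : ℤ)) L.ω₂_mem_lattice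
      simpa using this
  exact hper ⟨_, h1⟩ p.1

private lemma fin2_eq {a b : ℝ} {m n : Fin 2} (ha : a ∈ Ico (0 : ℝ) 1) (hb : b ∈ Ico (0 : ℝ) 1)
    (h : a - (m : ℕ) = b - (n : ℕ)) : m = n := by
  obtain ⟨ha0, ha1⟩ := ha
  obtain ⟨hb0, hb1⟩ := hb
  fin_cases m <;> fin_cases n <;> simp at h ⊢ <;> linarith

private lemma exists_fin2 {s : ℝ} (hs : s ∈ Ioo (-1 : ℝ) 1) :
    ∃ m : Fin 2, s + (m : ℕ) ∈ Ico (0 : ℝ) 1 := by
  obtain ⟨h1, h2⟩ := hs
  by_cases h : 0 ≤ s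
  · exact ⟨0, by simp; exact ⟨h, h2⟩⟩
  · refine ⟨1, ?_⟩
    push Not at h
    simp
    constructor <;> linarith

/-- unfolding of sums -/
lemma unfold_sum (L : PeriodPair) (H : ℂ → ℂ) (hper : Per L H)
    (hfin : (Metric.closedBall (0 : ℂ) (‖L.ω₁‖ + ‖L.ω₂‖) ∩ Function.support H).Finite) :
    ∑ᶠ x, (tens L beta beta x : ℂ) * H x = ∑ᶠ x ∈ ZSpan.fundamentalDomain L.basis, H x := by
  classical
  have hS : (ZSpan.fundamentalDomain L.basis ∩ Function.support H).Finite :=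
    hfin.subset fun x hx => ⟨FD_sub_ball L hx.1, hx.2⟩
  have hR : ∑ᶠ x ∈ ZSpan.fundamentalDomain L.basis, H x = ∑ x ∈ hS.toFinset, H x := by
    refine finsum_mem_eq_sum_of_inter_support_eq H ?_
    rw [Set.Finite.coe_toFinset, inter_assoc, inter_self]
  have hSm : ∀ x ∈ hS.toFinset, ∀ i, co L i x ∈ Ico (0 : ℝ) 1 := fun x hx => by
    rw [Set.Finite.mem_toFinset] at hx
    exact (mem_FD L).1 hx.1
  set T : Finset (ℂ × (Fin 2 × Fin 2)) := hS.toFinset ×ˢ Finset.univ with hT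
  have hinj : Set.InjOn (sh L) T := by
    intro p hp p' hp' h
    have hp1 := hSm p.1 (Finset.mem_product.1 hp).1
    have hp2 := hSm p'.1 (Finset.mem_product.1 hp').1
    have h0 := congrArg (co L 0) h
    have h1 := congrArg (co L 1) h
    rw [(sh_co L p).1, (sh_co L p').1] at h0
    rw [(sh_co L p).2, (sh_co L p').2] at h1
    have e0 := fin2_eq (hp1 0) (hp2 0) h0
    have e1 := fin2_eq (hp1 1) (hp2 1) h1
    have e2 : p.2 = p'.2 := Prod.ext e0 e1
    refine Prod.ext ?_ e2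
    unfold sh at h
    rw [e2] at h
    exact add_right_cancel h
  have hL : ∑ᶠ x, (tens L beta beta x : ℂ) * H x =
      ∑ x ∈ T.image (sh L), (tens L beta beta x : ℂ) * H x := by
    refine finsum_eq_sum_of_support_subset _ ?_
    intro x hx
    have hx1 : (tens L beta beta x : ℂ) * H x ≠ 0 := hx
    have hk : tens L beta beta x ≠ 0 := by
      intro h
      rw [h] at hx1
      simp at hx1
    have hH : H x ≠ 0 := right_ne_zero_of_mul hx1
    have h0 : co L 0 x ∈ Ioo (-1 : ℝ) 1 := by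
      by_contra h1
      exact hk (by rw [tens, unf_beta.supp _ h1, zero_mul])
    have h1 : co L 1 x ∈ Ioo (-1 : ℝ) 1 := by
      by_contra h1
      exact hk (by rw [tens, unf_beta.supp _ h1, mul_zero])
    obtain ⟨m, hm⟩ := exists_fin2 h0
    obtain ⟨n, hn⟩ := exists_fin2 h1
    set y : ℂ := x + (((m : ℕ) : ℝ) * L.ω₁ + ((n : ℕ) : ℝ) * L.ω₂) with hy
    have hc := co_add L x (m : ℕ) (n : ℕ)
    have hsh : sh L (y, (m, n)) = x := by
      unfold sh
      rw [hy]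
      push_cast
      ring
    have hyH : H y ≠ 0 := by
      rw [← sh_lat L (y, (m, n)) hper, hsh]
      exact hH
    rw [Finset.coe_image]
    refine ⟨(y, (m, n)), ?_, hsh⟩
    rw [Finset.mem_coe, hT, Finset.mem_product]
    refine ⟨?_, Finset.mem_univ _⟩
    rw [Set.Finite.mem_toFinset]
    refine ⟨?_, hyH⟩
    rw [mem_FD]
    intro i
    fin_cases i
    · show co L 0 y ∈ _
      rw [hy, hc.1]; exact hm
    · show co L 1 y ∈ _
      rw [hy, hc.2]; exact hn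
  rw [hL, hR, Finset.sum_image hinj, hT, Finset.sum_product]
  refine Finset.sum_congr rfl fun y hy => ?_
  have hyc := hSm y hy
  have h1 : ∀ p : Fin 2 × Fin 2, (tens L beta beta (sh L (y, p)) : ℂ) * H (sh L (y, p)) =
      ((beta (co L 0 y - (p.1 : ℕ)) * beta (co L 1 y - (p.2 : ℕ)) : ℝ) : ℂ) * H y := by
    intro p
    rw [sh_lat L _ hper, tens, (sh_co L _).1, (sh_co L _).2]
  simp only [h1]
  rw [← Finset.sum_mul, Fintype.sum_prod_type]
  simp only [Fin.sum_univ_two]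
  have b0 := beta_add (hyc 0).1 (hyc 0).2.le
  have b1 := beta_add (hyc 1).1 (hyc 1).2.le
  have h2 : (((beta (co L 0 y - ((0 : Fin 2) : ℕ)) * beta (co L 1 y - ((0 : Fin 2) : ℕ)) : ℝ) : ℂ) +
      ((beta (co L 0 y - ((0 : Fin 2) : ℕ)) * beta (co L 1 y - ((1 : Fin 2) : ℕ)) : ℝ) : ℂ) +
      (((beta (co L 0 y - ((1 : Fin 2) : ℕ)) * beta (co L 1 y - ((0 : Fin 2) : ℕ)) : ℝ) : ℂ) +
      ((beta (co L 0 y - ((1 : Fin 2) : ℕ)) * beta (co L 1 y - ((1 : Fin 2) : ℕ)) : ℝ) : ℂ))) =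
      (((beta (co L 0 y) + beta (co L 0 y - 1)) * (beta (co L 1 y) + beta (co L 1 y - 1)) : ℝ) : ℂ) := by
    simp
    ring
  rw [h2, b0, b1]
  simp

end Pool.Agent.F194

end
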