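import Pool.Agent.Work.MP_f194bb_nt.Multi
import Pool.Agent.Work.MP_f194bb_nt.Symbol

/-!
# MP_f194bb_nt: vanishing for groups of rational functions of one elliptic function
-/

set_option autoImplicit false

open scoped ComplexConjugate Topology
open Set

noncomputable section

namespace Pool.Agent.F194

universe u

/-- the weight factor -/
def wt2 (L : PeriodPair) (q : ℕ) (c : Fin (q + 3) → L.lattice) : ℂ :=
  (conj (c (Fin.last (q + 2)) : ℂ) - conj (c (Fin.last (q + 1)).castSucc : ℂ)) /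
    ((∏ i, ‖(c i : ℂ)‖ ^ 2 : ℝ) : ℂ) / 2

/-- the antisymmetrised summand -/
def aterm (L : PeriodPair) (q : ℕ) (P₁ P₂ P₃ : ℂ → ℂ) (c : Fin (q + 3) → L.lattice) : ℂ :=
  wt2 L q c * ((P₃ (c (Fin.last (q + 2))) * P₂ (c (Fin.last (q + 1)).castSucc) -
    P₂ (c (Fin.last (q + 2))) * P₃ (c (Fin.last (q + 1)).castSucc)) *
    (∏ i : Fin q, P₂ (c i.castSucc.castSucc.succ)) * P₁ (c 0))

lemma summable_kterm (L : PeriodPair) (q : ℕ) (P₁ P₂ P₃ : ℂ → ℂ) (h₁ : Bd P₁) (h₂ : Bd P₂)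
    (h₃ : Bd P₃) : Summable (fun c : Idx L q => kterm L q P₁ P₂ P₃ c.1) :=
  ksum_summable' L q h₁ h₂ h₃

lemma ksum_anti (L : PeriodPair) (q : ℕ) (P₁ P₂ P₃ : ℂ → ℂ) (h₁ : Bd P₁) (h₂ : Bd P₂)
    (h₃ : Bd P₃) : Summable (fun c : Idx L q => aterm L q P₁ P₂ P₃ c.1) ∧
      Ksum L q P₁ P₂ P₃ = ∑' c : Idx L q, aterm L q P₁ P₂ P₃ c.1 := by
  obtain ⟨σ, hσ⟩ : ∃ σ : Equiv.Perm (Fin (q + 3)),
    σ = Equiv.swap (Fin.last (q + 1)).castSucc (Fin.last (q + 2)) := ⟨_, rfl⟩
  have e1 : σ (Fin.last (q + 2)) = (Fin.last (q + 1)).castSucc := by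
    rw [hσ, Equiv.swap_apply_right]
  have e2 : σ (Fin.last (q + 1)).castSucc = Fin.last (q + 2) := by
    rw [hσ, Equiv.swap_apply_left]
  have e0 : σ 0 = 0 := by
    rw [hσ]
    refine Equiv.swap_apply_of_ne_of_ne ?_ ?_
    · intro h
      have := congrArg Fin.val h
      simp at this
    · exact (last_ne_zero' q).symm
  have e3 : ∀ i : Fin q, σ i.castSucc.castSucc.succ = i.castSucc.castSucc.succ := by
    intro i
    rw [hσ]
    refine Equiv.swap_apply_of_ne_of_ne ?_ ?_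
    · intro h
      have := congrArg Fin.val h
      simp at this
      have hi := i.2
      omega
    · intro h
      have := congrArg Fin.val h
      simp at this
      have hi := i.2
      omega
  have ha : (Fin.last q).castSucc.succ = (Fin.last (q + 1)).castSucc := by
    rw [Fin.succ_castSucc, Fin.succ_last]
  have hk : ∀ c : Idx L q, kterm L q P₁ P₂ P₃ c.1 + kterm L q P₁ P₂ P₃ (idxPerm L q σ c).1 =
      2 * aterm L q P₁ P₂ P₃ c.1 := by
    intro c
    rw [idxPerm_coe]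
    have hp : (∏ i, ‖((fun i => c.1 (σ i)) i : ℂ)‖ ^ 2 : ℝ) = ∏ i, ‖(c.1 i : ℂ)‖ ^ 2 :=
      Equiv.prod_comp σ fun i => ‖(c.1 i : ℂ)‖ ^ 2
    unfold kterm aterm wt2
    rw [hp]
    simp only [e0, e1, e2, Fin.prod_univ_castSucc, e3, ha]
    ring
  have hs := summable_kterm L q P₁ P₂ P₃ h₁ h₂ h₃
  have hs2 : Summable fun c : Idx L q => kterm L q P₁ P₂ P₃ (idxPerm L q σ c).1 :=
    ((idxPerm L q σ).summable_iff (f := fun c : Idx L q => kterm L q P₁ P₂ P₃ c.1)).2 hs
  have h2 : ∑' c : Idx L q, kterm L q P₁ P₂ P₃ (idxPerm L q σ c).1 = Ksum L q P₁ P₂ P₃ :=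
    (idxPerm L q σ).tsum_eq fun c : Idx L q => kterm L q P₁ P₂ P₃ c.1
  have hsum : Summable (fun c : Idx L q => aterm L q P₁ P₂ P₃ c.1) := by
    have h3 := (hs.add hs2).mul_left (1 / 2 : ℂ)
    refine h3.congr fun c => ?_
    rw [hk c]
    ring
  refine ⟨hsum, ?_⟩
  have h4 : Ksum L q P₁ P₂ P₃ + Ksum L q P₁ P₂ P₃ =
      2 * ∑' c : Idx L q, aterm L q P₁ P₂ P₃ c.1 := by
    conv_lhs => arg 2; rw [← h2]
    rw [Ksum, ← hs.tsum_add hs2, ← tsum_mul_left]
    exact tsum_congr hk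
  linear_combination (1 / 2 : ℂ) * h4

lemma bd_chs (L : PeriodPair) (D : ℂ →₀ ℚ) : Bd (chs L D) := by
  obtain ⟨C, _, hC⟩ := chs_bdd L D
  exact ⟨C, hC⟩

/-- the part in the complement -/
lemma compl_zero (L : PeriodPair) (p : ℕ) {ι : Type*} (S : Finset ι) (f w x : ι → (ℂ →₀ ℚ))
    (h : ∀ (l m s : (ℂ →₀ ℚ) →ₗ[ℚ] ℚ) (ν : Fin (p + 1) → ((ℂ →₀ ℚ) →ₗ[ℚ] ℚ)),
      ∑ i ∈ S, (l (w i) * m (f i) - l (f i) * m (w i)) * (∏ k, ν k (f i)) * s (x i) = 0) :
    ∑ i ∈ S, kdv L (p + 1) (x i) (f i) (w i) = 0 := by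
  have h1 : ∀ i, kdv L (p + 1) (x i) (f i) (w i) =
      ∑' c : Idx L (p + 1), aterm L (p + 1) (chs L (x i)) (chs L (f i)) (chs L (w i)) c.1 :=
    fun i => (ksum_anti L (p + 1) _ _ _ (bd_chs L _) (bd_chs L _) (bd_chs L _)).2
  simp only [h1]
  rw [← Summable.tsum_finsetSum fun i _ =>
    (ksum_anti L (p + 1) _ _ _ (bd_chs L _) (bd_chs L _) (bd_chs L _)).1]
  have h2 : ∀ c : Idx L (p + 1),
      ∑ i ∈ S, aterm L (p + 1) (chs L (x i)) (chs L (f i)) (chs L (w i)) c.1 = 0 := by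
    intro c
    have h3 := ext_all S (p + 1) f w x h (chl L (c.1 (Fin.last (p + 1 + 2))))
      (chl L (c.1 (Fin.last (p + 1 + 1)).castSucc)) (chl L (c.1 0))
      (fun k => chl L (c.1 k.castSucc.castSucc.succ))
    simp only [chl_apply] at h3
    unfold aterm
    rw [← Finset.mul_sum, h3, mul_zero]
  rw [tsum_congr h2, tsum_zero]

section
variable (L : PeriodPair) (q : ℕ)

lemma kdv_add1 (x x' f w : ℂ →₀ ℚ) : kdv L q (x + x') f w = kdv L q x f w + kdv L q x' f w := by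
  have h := ksum_add1 L q (chs L x) (chs L x') (chs L f) (chs L w) (bd_chs L x) (bd_chs L x')
    (bd_chs L f) (bd_chs L w)
  rw [kdv, kdv, kdv, ← h]
  congr 1
  funext z
  exact chs_add L x x' z

lemma kdv_smul1 (c : ℚ) (x f w : ℂ →₀ ℚ) : kdv L q (c • x) f w = c • kdv L q x f w := by
  have h : chs L (c • x) = fun z => (c : ℂ) * chs L x z := funext fun z => chs_smul L c x z
  rw [kdv, kdv, h, ksum_smul1, Rat.smul_def]

lemma kdv_zero1 (f w : ℂ →₀ ℚ) : kdv L q 0 f w = 0 := by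
  have := kdv_smul1 L q 0 0 f w
  rwa [zero_smul, zero_smul] at this

end

/-- The group lemma: a family with the symbol identity, whose first components generate a space
on which `K_n` vanishes. -/
theorem group_zero (L : PeriodPair) (p : ℕ) {ι : Type*} (S : Finset ι) (f w g : ι → (ℂ →₀ ℚ))
    (hid : ∀ (l m r s : (ℂ →₀ ℚ) →ₗ[ℚ] ℚ) (ν : Fin p → ((ℂ →₀ ℚ) →ₗ[ℚ] ℚ)),
      ∑ i ∈ S, (l (w i) * m (f i) - l (f i) * m (w i)) * (∏ k, ν k (f i)) *
        (r (f i) * s (g i) - r (g i) * s (f i)) = 0)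
    (hz : ∀ i ∈ S, ∀ k ∈ S, kdv L (p + 1) (f k) (f i) (w i) = 0) :
    ∑ i ∈ S, kdv L (p + 1) (g i) (f i) (w i) = 0 := by
  classical
  set U : Submodule ℚ (ℂ →₀ ℚ) := Submodule.span ℚ (f '' S) with hU
  have hfU : ∀ i ∈ S, f i ∈ U := fun i hi => Submodule.subset_span ⟨i, hi, rfl⟩
  obtain ⟨U', hU'⟩ := Submodule.exists_isCompl U
  let P : (ℂ →₀ ℚ) →ₗ[ℚ] (ℂ →₀ ℚ) := U.subtype.comp (U.projectionOnto U' hU')
  have hP : ∀ x, P x ∈ U := fun x => (U.projectionOnto U' hU' x).2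
  have hPf : ∀ x ∈ U, P x = x := by
    intro x hx
    have := U.projectionOnto_apply_left hU' ⟨x, hx⟩
    show ((U.projectionOnto U' hU' x : U) : ℂ →₀ ℚ) = x
    rw [this]
  -- the part in `U`
  have h1 : ∀ i ∈ S, ∀ x ∈ U, kdv L (p + 1) x (f i) (w i) = 0 := by
    intro i hi x hx
    induction hx using Submodule.span_induction with
    | mem x hx =>
      obtain ⟨k, hk, rfl⟩ := hx
      exact hz i hi k hk
    | zero => exact kdv_zero1 L _ _ _
    | add x y _ _ hx hy => rw [kdv_add1, hx, hy, add_zero]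
    | smul a x _ hx => rw [kdv_smul1, hx, smul_zero]
  have h2 : ∀ i ∈ S, kdv L (p + 1) (g i) (f i) (w i) =
      kdv L (p + 1) (g i - P (g i)) (f i) (w i) := by
    intro i hi
    have h3 := kdv_add1 L (p + 1) (g i - P (g i)) (P (g i)) (f i) (w i)
    rw [sub_add_cancel, h1 i hi _ (hP _), add_zero] at h3
    exact h3
  rw [Finset.sum_congr rfl h2]
  refine compl_zero L p S f w (fun i => g i - P (g i)) ?_
  intro l m s ν
  have h3 := hid l m (ν 0) (s.comp (LinearMap.id - P)) (fun k => ν k.succ)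
  rw [← h3]
  refine Finset.sum_congr rfl fun i hi => ?_
  have h4 : (s.comp (LinearMap.id - P)) (f i) = 0 := by
    rw [LinearMap.comp_apply, LinearMap.sub_apply, LinearMap.id_apply, hPf _ (hfU i hi), sub_self,
      map_zero]
  have h5 : (s.comp (LinearMap.id - P)) (g i) = s (g i - P (g i)) := rfl
  rw [h4, h5, Fin.prod_univ_succ]
  ring

variable {L : PeriodPair} {K : Type u} [Field K]

lemma isDiv_divT (ρ : EllRep L K) (u : K) : IsDiv L (ρ.ev u) (divT ρ u) := fun x => divT_apply ρ u x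

lemma kdv_divT (ρ : EllRep L K) (q : ℕ) (g f w : K) :
    kdv L q (divT ρ g) (divT ρ f) (divT ρ w) =
      Ksum L q (pr L (dv (ρ.ev g))) (pr L (dv (ρ.ev f))) (pr L (dv (ρ.ev w))) := by
  have h : ∀ u, chs L (divT ρ u) = pr L (dv (ρ.ev u)) := fun u => funext fun γ => chs_divT ρ u γ
  rw [kdv, h, h, h]

/-- A homomorphism `K* → ℚ` which depends only on the divisor. -/
def viaDiv (ρ : EllRep L K) (l : (ℂ →₀ ℚ) →ₗ[ℚ] ℚ) : Additive Kˣ →+ ℚ :=
  l.toAddMonoidHom.comp (divH ρ)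

/-- No relation between the symbols of the `f i` across the groups: every rational relation between
the symbols `((1 - f i) ∧ f i) ⊗ (f i)^p` remains, modulo constants, a relation when it is
restricted to one of the groups `c = j`. (`phiFun l m ν` is the value on the symbol of the linear
form given by `l ∧ m` and `ν`, where `l`, `m`, `ν k` are homomorphisms `K* → ℚ`.) -/
def NoCross (ρ : EllRep L K) {ι J : Type*} [Fintype ι] [DecidableEq J] (p : ℕ) (f : ι → Kˣ)
    (c : ι → J) : Prop :=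
  ∀ C : ι → ℚ, (∀ (l m : Additive Kˣ →+ ℚ) (ν : Fin p → (Additive Kˣ →+ ℚ)),
      ∑ i, C i * phiFun l m ν (some (f i : K)) = 0) →
    ∀ (j : J) (l m : (ℂ →₀ ℚ) →ₗ[ℚ] ℚ) (ν : Fin p → ((ℂ →₀ ℚ) →ₗ[ℚ] ℚ)),
      ∑ i ∈ Finset.univ.filter (fun i => c i = j),
        C i * phiFun (viaDiv ρ l) (viaDiv ρ m) (fun k => viaDiv ρ (ν k)) (some (f i : K)) = 0

/-- The groups `c = j` are at most `p + 1`, and the spaces spanned by the divisors of the `f i` in
two different groups meet only in `0`. -/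
def Apart (ρ : EllRep L K) {ι J : Type*} [Fintype J] (p : ℕ) (f : ι → Kˣ) (c : ι → J) : Prop :=
  Fintype.card J ≤ p + 1 ∧ ∀ j j' : J, j ≠ j' →
    Disjoint (Submodule.span ℚ {D | ∃ i, c i = j ∧ D = divT ρ (f i : K)})
      (Submodule.span ℚ {D | ∃ i, c i = j' ∧ D = divT ρ (f i : K)})

/-- Any two `f i`, `f k` in one group are rational functions of one elliptic function `h`; only
this is asked: the divisors of `f i`, `1 - f i`, `f k` are rational combinations of the divisors of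
the functions `h - a`, `a ∈ ℂ`. -/
def RatGroups (ρ : EllRep L K) {ι J : Type*} (f : ι → Kˣ) (c : ι → J) : Prop :=
  ∀ i k, c i = c k → ∃ h : ℂ → ℂ, Meromorphic h ∧ Per L h ∧
    divT ρ (f i : K) ∈ DivOf L h ∧ divT ρ (1 - f i : K) ∈ DivOf L h ∧
    divT ρ (f k : K) ∈ DivOf L h

lemma phiFun_unit {k : ℕ} (l m : Additive Kˣ →+ ℚ) (ν : Fin k → (Additive Kˣ →+ ℚ)) (u : Kˣ) :
    phiFun l m ν (some (u : K)) = (l (unitOf (some (1 - (u : K)))) * m (Additive.ofMul u) -
      l (Additive.ofMul u) * m (unitOf (some (1 - (u : K))))) * ∏ j, ν j (Additive.ofMul u) := by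
  have h3 : unitOf (some (u : K)) = Additive.ofMul u := by
    simp only [unitOf, dif_neg u.ne_zero, Units.mk0_val]
  rw [phiFun, h3]
  rfl

/-- **Vanishing for groups.** -/
theorem groups_main (ρ : EllRep L K) (p : ℕ) {ι : Type} [Fintype ι] (f g : ι → Kˣ)
    (h : CocycleI p f g) {J : Type*} [Fintype J] [DecidableEq J] (c : ι → J)
    (hc : RatGroups ρ f c) (hJ : Apart ρ p f c ∨ NoCross ρ p f c) :
    ∑ i, Ksum L (p + 1) (pr L (dv (ρ.ev (g i : K)))) (pr L (dv (ρ.ev (f i : K))))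
      (pr L (dv (ρ.ev (1 - f i : K)))) = 0 := by
  simp only [← kdv_divT]
  rw [← Finset.sum_fiberwise Finset.univ c]
  refine Finset.sum_eq_zero fun j _ => ?_
  refine group_zero L p _ (fun i => divT ρ (f i : K)) (fun i => divT ρ (1 - f i : K))
    (fun i => divT ρ (g i : K)) ?_ ?_
  · intro l m r s ν
    -- the total identity
    have htot := fun (l' m' : Additive Kˣ →+ ℚ) (ν' : Fin p → (Additive Kˣ →+ ℚ)) =>
      cocycle_num p f g h l' m' (r.toAddMonoidHom.comp (divH ρ)) (s.toAddMonoidHom.comp (divH ρ)) ν'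
    simp only [AddMonoidHom.comp_apply, divH_ofMul, LinearMap.toAddMonoidHom_coe] at htot
    rcases hJ with ⟨hcard, hdis⟩ | hN
    · have h1 := sub_ind p hcard c (fun i => divT ρ (f i : K))
        (fun j => Submodule.span ℚ {D | ∃ i, c i = j ∧ D = divT ρ (f i : K)}) hdis
        (fun i => Submodule.subset_span ⟨i, rfl, rfl⟩)
        (fun i => (l (divT ρ (1 - f i : K)) * m (divT ρ (f i : K)) -
          l (divT ρ (f i : K)) * m (divT ρ (1 - f i : K))) *
          (r (divT ρ (f i : K)) * s (divT ρ (g i : K)) -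
            r (divT ρ (g i : K)) * s (divT ρ (f i : K)))) (fun ν => by
          have h2 := htot (l.toAddMonoidHom.comp (divH ρ)) (m.toAddMonoidHom.comp (divH ρ))
            (fun k => (ν k).toAddMonoidHom.comp (divH ρ))
          simp only [AddMonoidHom.comp_apply, divH_unitOf, divH_ofMul,
            LinearMap.toAddMonoidHom_coe] at h2
          rw [← h2]
          refine Finset.sum_congr rfl fun i _ => ?_
          ring) j ν
      rw [← h1]
      refine Finset.sum_congr rfl fun i _ => ?_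
      ring
    · have h1 := hN (fun i => r (divT ρ (f i : K)) * s (divT ρ (g i : K)) -
          r (divT ρ (g i : K)) * s (divT ρ (f i : K))) (fun l' m' ν' => by
        rw [← htot l' m' ν']
        refine Finset.sum_congr rfl fun i _ => ?_
        rw [phiFun_unit]
        ring) j l m ν
      rw [← h1]
      refine Finset.sum_congr rfl fun i _ => ?_
      rw [phiFun_unit]
      simp only [viaDiv, AddMonoidHom.comp_apply, divH_unitOf, divH_ofMul,
        LinearMap.toAddMonoidHom_coe]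
      ring
  · intro i hi k hk
    have hi' := (Finset.mem_filter.1 hi).2
    have hk' := (Finset.mem_filter.1 hk).2
    obtain ⟨h, h1, h2, h3, h4, h5⟩ := hc i k (hi'.trans hk'.symm)
    exact kdv_rat L (p + 1) h h1 h2 _ _ _ h5 h3 h4

end Pool.Agent.F194

end
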