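import Pool.Agent.Work.MP_f194bb_nt.Van
import Pool.Agent.Work.MP_f194bb_nt.ConvMul

/-!
# MP_f194bb_nt: functions of one elliptic function (helper52)
-/

set_option autoImplicit false

open MeasureTheory Filter Set
open scoped ENNReal Topology ComplexConjugate

noncomputable section

namespace Pool.Agent.F194

/-- product of the cut off logarithms of `t - a_k` -/
def cutProd {ι : Type*} (s : Finset ι) (b : ContDiffBump (0 : ℝ)) (n : ℕ) (a : ι → ℂ) (t : ℂ) :
    ℂ := ∏ k ∈ s, cutLog b n 1 (t - a k)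

theorem contDiff_cutProd {ι : Type*} (s : Finset ι) (b : ContDiffBump (0 : ℝ)) (n : ℕ)
    (a : ι → ℂ) : ContDiff ℝ 1 (cutProd s b n a) := by
  unfold cutProd
  exact contDiff_prod fun k _ => (contDiff_cutLog b n 1).comp (contDiff_id.sub contDiff_const)

theorem hasCompactSupport_cutProd {ι : Type*} {s : Finset ι} {i₀ : ι} (hi : i₀ ∈ s)
    (b : ContDiffBump (0 : ℝ)) (n : ℕ) (a : ι → ℂ) : HasCompactSupport (cutProd s b n a) := by
  refine HasCompactSupport.intro
    (isCompact_closedBall (a i₀) (Real.exp (b.rOut * (n + 1)))) fun t ht => ?_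
  refine Finset.prod_eq_zero hi (cutLog_eq_zero b n 1 ?_)
  rw [Metric.mem_closedBall, dist_eq_norm, not_le] at ht
  have h1 : b.rOut * (n + 1) ≤ Real.log ‖t - a i₀‖ := by
    rw [Real.le_log_iff_exp_le ((Real.exp_pos _).trans ht)]
    exact ht.le
  exact h1.trans (le_abs_self _)

theorem norm_cutLog_le (b : ContDiffBump (0 : ℝ)) (n : ℕ) (t : ℂ) :
    ‖cutLog b n 1 t‖ ≤ ‖((Real.log ‖t‖ : ℝ) : ℂ)‖ := by
  unfold cutLog
  split_ifs with h
  · rw [norm_zero]
    exact norm_nonneg _
  · rw [Complex.norm_real, Complex.norm_real, norm_mul, pow_one]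
    refine mul_le_of_le_one_left (norm_nonneg _) ?_
    rw [Real.norm_of_nonneg b.nonneg]
    exact b.le_one

theorem tendsto_cutLog (b : ContDiffBump (0 : ℝ)) {t : ℂ} (ht : t ≠ 0) :
    Tendsto (fun n : ℕ => cutLog b n 1 t) atTop (𝓝 ((Real.log ‖t‖ : ℝ) : ℂ)) := by
  refine tendsto_const_nhds.congr' ?_
  obtain ⟨N, hN⟩ := exists_nat_ge (|Real.log ‖t‖| / b.rIn)
  filter_upwards [eventually_ge_atTop N] with n hn
  have h3 : b (Real.log ‖t‖ / (n + 1)) = 1 := by
    apply b.one_of_mem_closedBall
    rw [mem_closedBall_zero_iff, Real.norm_eq_abs, abs_div,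
      abs_of_pos (by positivity : (0 : ℝ) < n + 1), div_le_iff₀ (by positivity)]
    have h4 : (N : ℝ) ≤ n := by exact_mod_cast hn
    rw [div_le_iff₀ b.rIn_pos] at hN
    nlinarith [b.rIn_pos]
  rw [cutLog, if_neg ht, h3, one_mul, pow_one]

theorem holder_three : ENNReal.HolderTriple (3 : ℝ≥0∞) (3 / 2 : ℝ≥0∞) 1 := ⟨by
  rw [ENNReal.inv_div (Or.inl ENNReal.ofNat_ne_top) (Or.inl two_ne_zero)]
  rw [← ENNReal.toReal_eq_toReal_iff' (by finiteness) (by finiteness)]
  rw [ENNReal.toReal_add (by finiteness) (by finiteness)]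
  simp only [ENNReal.toReal_inv, ENNReal.toReal_div, ENNReal.toReal_ofNat]
  norm_num⟩

/-- The mean of `∏ log |h - a_k| h'/(h - b)` is zero. -/
theorem mean_prod_lg (L : PeriodPair) (h : ℂ → ℂ) (hh : Meromorphic h) (hper : Per L h)
    (hc : ∀ a : ℂ, NZ fun z => h z - a) {ι : Type*} (s : Finset ι) (a : ι → ℂ) (b : ℂ) :
    mean L (fun z => (∏ k ∈ s, lg (fun z => h z - a k) z) * qq h b z) = 0 := by
  rcases s.eq_empty_or_nonempty with rfl | ⟨i₀, hi⟩
  · simp only [Finset.prod_empty, one_mul]
    exact mean_qq L h hh hper b (hc b)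
  set β : ContDiffBump (0 : ℝ) := ⟨1, 2, one_pos, one_lt_two⟩ with hβ
  have h1 : ∀ n : ℕ, ∫ x in box, cutProd s β n a (h (E L x)) * qq h b (E L x) = 0 := fun n =>
    mean_V L h hh hper b hc _ (contDiff_cutProd s β n a) (hasCompactSupport_cutProd hi β n a)
  have hm : ∀ k, Meromorphic fun z => h z - a k := fun k => hh.sub (Meromorphic.const _)
  have hlg : ∀ k, ∀ p : ℕ, MemLp (fun x => lg (fun z => h z - a k) (E L x)) p
      (volume.restrict box) := fun k p => (memLp_tor L _ _ (memLp_lg_ball _ (hm k) (hc _) p _)).1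
  have hpow : MemLp (fun x => ∏ k ∈ s, lg (fun z => h z - a k) (E L x)) (3 : ℕ)
      (volume.restrict box) :=
    memLp_prod_all s (fun k _ => hlg k) 3
  have hq : MemLp (fun x => qq h b (E L x)) (3 / 2) (volume.restrict box) :=
    (memLp_tor L _ _ (memLp_qq_ball h b hh (hc b) _)).1
  have := holder_three
  have hint : Integrable (fun x => (∏ k ∈ s, lg (fun z => h z - a k) (E L x)) * qq h b (E L x))
      (volume.restrict box) :=
    memLp_one_iff_integrable.1 (MemLp.smul (p := 3) (q := 3 / 2) (r := 1) hq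
      (by exact_mod_cast hpow))
  have hlim : Tendsto (fun n : ℕ => ∫ x in box, cutProd s β n a (h (E L x)) * qq h b (E L x))
      atTop (𝓝 (∫ x in box, (∏ k ∈ s, lg (fun z => h z - a k) (E L x)) * qq h b (E L x))) := by
    refine tendsto_integral_of_dominated_convergence
      (fun x => ‖(∏ k ∈ s, lg (fun z => h z - a k) (E L x)) * qq h b (E L x)‖) (fun n => ?_)
      hint.norm (fun n => ?_) ?_
    · exact (((contDiff_cutProd s β n a).continuous.measurable.comp
        (hh.measurable.comp (continuous_E L).measurable)).mul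
        ((measurable_qq hh b).comp (continuous_E L).measurable)).aestronglyMeasurable
    · refine ae_of_all _ fun x => ?_
      rw [norm_mul, norm_mul]
      refine mul_le_mul_of_nonneg_right ?_ (norm_nonneg _)
      rw [cutProd, norm_prod, norm_prod]
      exact Finset.prod_le_prod (fun _ _ => norm_nonneg _) fun k _ => norm_cutLog_le β n _
    · have hz : ∀ᵐ x ∂(volume.restrict box), ∀ k ∈ s, h (E L x) - a k ≠ 0 := by
        have hcount : (⋃ k ∈ s, {z | h z - a k = 0}).Countable :=
          s.countable_toSet.biUnion fun k _ => countable_zeros (hm k) (hc _)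
        filter_upwards [ae_E L hcount] with x hx k hk h0
        exact hx (mem_biUnion hk h0)
      filter_upwards [hz] with x hx
      refine Tendsto.mul_const _ ?_
      exact tendsto_finsetProd _ fun k hk => tendsto_cutLog β (hx k hk)
  rw [mean]
  have h4 : (fun n : ℕ => ∫ x in box, cutProd s β n a (h (E L x)) * qq h b (E L x)) =
      fun _ => 0 := funext h1
  rw [h4] at hlim
  exact (tendsto_nhds_unique hlim tendsto_const_nhds)

/-- The mean of `∏ (log |h - a_k| - m_k) h'/(h - b)` is zero. -/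
theorem mean_prod_tl (L : PeriodPair) (h : ℂ → ℂ) (hh : Meromorphic h) (hper : Per L h)
    (hc : ∀ a : ℂ, NZ fun z => h z - a) {ι : Type*} (s : Finset ι) (a : ι → ℂ) (m : ι → ℂ)
    (b : ℂ) :
    mean L (fun z => (∏ k ∈ s, (lg (fun z => h z - a k) z - m k)) * qq h b z) = 0 := by
  classical
  have hm : ∀ k, Meromorphic fun z => h z - a k := fun k => hh.sub (Meromorphic.const _)
  have hlg : ∀ k, ∀ p : ℕ, MemLp (fun x => lg (fun z => h z - a k) (E L x)) p
      (volume.restrict box) := fun k p => (memLp_tor L _ _ (memLp_lg_ball _ (hm k) (hc _) p _)).1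
  have hq : MemLp (fun x => qq h b (E L x)) (3 / 2) (volume.restrict box) :=
    (memLp_tor L _ _ (memLp_qq_ball h b hh (hc b) _)).1
  have := holder_three
  have hint : ∀ t : Finset ι, Integrable
      (fun x => (∏ k ∈ t, lg (fun z => h z - a k) (E L x)) * qq h b (E L x))
      (volume.restrict box) := fun t =>
    memLp_one_iff_integrable.1 (MemLp.smul (p := 3) (q := 3 / 2) (r := 1) hq
      (by exact_mod_cast memLp_prod_all t (fun k _ => hlg k) 3))
  have h1 : ∀ x, (∏ k ∈ s, (lg (fun z => h z - a k) (E L x) - m k)) * qq h b (E L x) =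
      ∑ t ∈ s.powerset, (∏ k ∈ s \ t, -m k) *
        ((∏ k ∈ t, lg (fun z => h z - a k) (E L x)) * qq h b (E L x)) := fun x => by
    simp only [sub_eq_add_neg]
    rw [Finset.prod_add, Finset.sum_mul]
    refine Finset.sum_congr rfl fun t _ => ?_
    ring
  rw [mean, integral_congr_ae (ae_of_all _ h1),
    integral_finset_sum _ fun t _ => (hint t).const_mul _]
  refine Finset.sum_eq_zero fun t _ => ?_
  rw [integral_const_mul]
  have h2 := mean_prod_lg L h hh hper hc t a b
  rw [mean] at h2
  rw [h2, mul_zero]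

end Pool.Agent.F194

end
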