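import Pool.Agent.Work.MP_f194bb_nt.KVanish
import Pool.Agent.Work.MP_f194bb_nt.VanMul

/-!
# MP_f194bb_nt: the lattice sums as integrals (helper52)
-/

set_option autoImplicit false

open MeasureTheory UnitAddTorus
open scoped ENNReal Topology ComplexConjugate

noncomputable section

namespace Pool.Agent.F194

/-- `log |f|` minus its mean -/
def tl (L : PeriodPair) (f : ℂ → ℂ) (z : ℂ) : ℂ := lg f z - mean L (lg f)

/-- the constant for `log |f|` -/
def kap (L : PeriodPair) : ℂ := -(Real.pi * areaA L ^ 2 / (2 * vol L))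

/-- the constant for `f'/f` -/
def kap' (L : PeriodPair) : ℂ := Real.pi * areaA L / vol L

theorem kap_ne (L : PeriodPair) : kap L ≠ 0 := by
  have hpi : (Real.pi : ℂ) ≠ 0 := by exact_mod_cast Real.pi_ne_zero
  have hv : (vol L : ℂ) ≠ 0 := by exact_mod_cast (vol_pos_tor L).ne'
  exact neg_ne_zero.2 (div_ne_zero (mul_ne_zero hpi (pow_ne_zero 2
    (areaA_ne_zero L))) (mul_ne_zero two_ne_zero hv))

theorem kap'_ne (L : PeriodPair) : kap' L ≠ 0 := by
  have hpi : (Real.pi : ℂ) ≠ 0 := by exact_mod_cast Real.pi_ne_zero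
  have hv : (vol L : ℂ) ≠ 0 := by exact_mod_cast (vol_pos_tor L).ne'
  exact div_ne_zero (mul_ne_zero hpi (areaA_ne_zero L)) hv

/-- elliptic functions -/
structure Ell (L : PeriodPair) (f : ℂ → ℂ) : Prop where
  mero : Meromorphic f
  nz : NZ f
  per : Per L f

theorem case_crd (L : PeriodPair) {c₀ : ℝ}
    (hcr : ∀ γ : L.lattice, c₀ * ‖crd L γ‖ ≤ ‖(γ : ℂ)‖) (k : Fin 2 → ℤ) :
    k = 0 ∨ ∃ γ : L.lattice, γ ≠ 0 ∧ crd L γ = k ∧ 1 ≤ ‖k‖ ∧ c₀ * ‖k‖ ≤ ‖(γ : ℂ)‖ := by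
  rcases eq_or_ne k 0 with h | h
  · exact Or.inl h
  · refine Or.inr ⟨(crd L).symm k, ?_, (crd L).apply_symm_apply k, one_le_norm_int h, ?_⟩
    · exact (map_ne_zero_iff _ (crd L).symm.injective).2 h
    · have := hcr ((crd L).symm k)
      rwa [AddEquiv.apply_symm_apply] at this

section

variable {L : PeriodPair} {f : ℂ → ℂ}

theorem memLp_tl (hf : Ell L f) (p : ℕ) : MemLp (tor L (tl L f)) p :=
  (memLp_lg L f hf.mero hf.nz p).sub (memLp_const _)

theorem coeff_tl (hf : Ell L f) (k : Fin 2 → ℤ) :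
    mFourierCoeff (tor L (tl L f)) k = mFourierCoeff (tor L (lg f)) k -
      mFourierCoeff (fun _ : TT => mean L (lg f)) k := by
  have hlgi : Integrable (tor L (lg f)) := by
    have := memLp_lg L f hf.mero hf.nz 1
    rw [Nat.cast_one] at this
    exact memLp_one_iff_integrable.1 this
  rw [mFourierCoeff_def, mFourierCoeff_def, mFourierCoeff_def, ← integral_sub]
  · refine integral_congr_ae (ae_of_all _ fun x => ?_)
    simp only [tor, tl]
    ring
  · exact (memLp_one_iff_integrable.1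
      (memLp_mFourier_mul (memLp_one_iff_integrable.2 hlgi) (-k)))
  · exact (memLp_one_iff_integrable.1
      (memLp_mFourier_mul (memLp_one_iff_integrable.2 (integrable_const _)) (-k)))

theorem coeff_tl_zero (hf : Ell L f) : mFourierCoeff (tor L (tl L f)) 0 = 0 := by
  rw [coeff_tl hf, coeff_tor_zero, mFourierCoeff_def]
  simp only [neg_zero, mFourier_zero, ContinuousMap.one_apply, one_mul, integral_const,
    measureReal_TT, one_smul, sub_self]

theorem coeff_tl_ne (hf : Ell L f) {γ : L.lattice} (hγ : γ ≠ 0) :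
    mFourierCoeff (tor L (tl L f)) (crd L γ) = kap L * (pr L (dv f) γ / ‖(γ : ℂ)‖ ^ 2) := by
  rw [coeff_tl hf, coeff_tor, coeff_const _ ((map_ne_zero_iff _ (crd L).injective).2 hγ), sub_zero]
  exact four_log L f hf.mero hf.nz hf.per γ hγ

theorem bound_tl (hf : Ell L f) : ∃ C : ℝ, 0 ≤ C ∧ ∀ k : Fin 2 → ℤ,
    ‖mFourierCoeff (tor L (tl L f)) k‖ ≤ C * (1 + ‖k‖ ^ 2)⁻¹ := by
  obtain ⟨C₁, hC₁0, hC₁⟩ := pr_bdd L (dv f)
  obtain ⟨c₀, hc₀, hcr⟩ := norm_crd_le L
  refine ⟨‖kap L‖ * C₁ * (2 / c₀ ^ 2), by positivity, fun k => ?_⟩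
  rcases case_crd L hcr k with rfl | ⟨γ, hγ, rfl, h1, h2⟩
  · rw [coeff_tl_zero hf, norm_zero]
    positivity
  · rw [coeff_tl_ne hf hγ]
    rw [norm_mul, norm_div, norm_pow, Complex.norm_real, Real.norm_eq_abs, abs_norm]
    have h3 : (c₀ * ‖crd L γ‖) ^ 2 ≤ ‖(γ : ℂ)‖ ^ 2 :=
      pow_le_pow_left₀ (by positivity) h2 2
    have h4 : 0 < (c₀ * ‖crd L γ‖) ^ 2 := by positivity
    calc ‖kap L‖ * (‖pr L (dv f) γ‖ / ‖(γ : ℂ)‖ ^ 2)
        ≤ ‖kap L‖ * (C₁ / (c₀ * ‖crd L γ‖) ^ 2) := by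
          gcongr
          exact hC₁ _
      _ ≤ (‖kap L‖ * C₁ * (2 / c₀ ^ 2)) * (1 + ‖crd L γ‖ ^ 2)⁻¹ := by
          rw [mul_pow]
          have h5 : (‖crd L γ‖ ^ 2)⁻¹ ≤ 2 * (1 + ‖crd L γ‖ ^ 2)⁻¹ := by
            rw [← one_div, ← one_div, mul_one_div, div_le_div_iff₀ (by positivity)
              (by positivity)]
            nlinarith
          calc ‖kap L‖ * (C₁ / (c₀ ^ 2 * ‖crd L γ‖ ^ 2))
              = (‖kap L‖ * C₁ / c₀ ^ 2) * (‖crd L γ‖ ^ 2)⁻¹ := by field_simp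
            _ ≤ (‖kap L‖ * C₁ / c₀ ^ 2) * (2 * (1 + ‖crd L γ‖ ^ 2)⁻¹) := by gcongr
            _ = _ := by ring

theorem hNZ0 (hf : Ell L f) : NZ fun z => f z - 0 := by
  simpa using hf.nz

theorem memLp_q0 (hf : Ell L f) : MemLp (tor L (qq f 0)) (3 / 2) :=
  memLp_qq L f 0 hf.mero (hNZ0 hf)

theorem coeff_q0_zero (hf : Ell L f) : mFourierCoeff (tor L (qq f 0)) 0 = 0 := by
  rw [coeff_tor_zero]
  exact mean_qq L f hf.mero hf.per 0 (hNZ0 hf)

theorem coeff_q0_ne (hf : Ell L f) {γ : L.lattice} (hγ : γ ≠ 0) :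
    mFourierCoeff (tor L (qq f 0)) (crd L γ) = kap' L * (pr L (dv f) γ / γ) := by
  rw [coeff_tor, kap', ← four_q L f hf.mero hf.nz hf.per γ hγ]
  congr 1
  funext z
  rw [qq, sub_zero]

theorem bound_q0 (hf : Ell L f) : ∃ C : ℝ, 0 ≤ C ∧ ∀ k : Fin 2 → ℤ,
    ‖mFourierCoeff (tor L (qq f 0)) k‖ ≤ C * (1 + ‖k‖)⁻¹ := by
  obtain ⟨C₂, hC₂0, hC₂⟩ := pr_bdd L (dv f)
  obtain ⟨c₀, hc₀, hcr⟩ := norm_crd_le L
  refine ⟨‖kap' L‖ * C₂ * (2 / c₀), by positivity, fun k => ?_⟩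
  rcases case_crd L hcr k with rfl | ⟨γ, hγ, rfl, h1, h2⟩
  · rw [coeff_q0_zero hf, norm_zero]
    positivity
  · rw [coeff_q0_ne hf hγ]
    rw [norm_mul, norm_div]
    have h4 : 0 < c₀ * ‖crd L γ‖ := by positivity
    calc ‖kap' L‖ * (‖pr L (dv f) γ‖ / ‖(γ : ℂ)‖)
        ≤ ‖kap' L‖ * (C₂ / (c₀ * ‖crd L γ‖)) := by
          gcongr
          exact hC₂ _
      _ ≤ (‖kap' L‖ * C₂ * (2 / c₀)) * (1 + ‖crd L γ‖)⁻¹ := by
          have h5 : (‖crd L γ‖)⁻¹ ≤ 2 * (1 + ‖crd L γ‖)⁻¹ := by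
            rw [← one_div, ← one_div, mul_one_div, div_le_div_iff₀ (by positivity)
              (by positivity)]
            linarith
          calc ‖kap' L‖ * (C₂ / (c₀ * ‖crd L γ‖))
              = (‖kap' L‖ * C₂ / c₀) * (‖crd L γ‖)⁻¹ := by field_simp
            _ ≤ (‖kap' L‖ * C₂ / c₀) * (2 * (1 + ‖crd L γ‖)⁻¹) := by gcongr
            _ = _ := by ring

end

/-- the summand without the linear factor, for different functions -/
def kG (L : PeriodPair) (q : ℕ) (P : Fin (q + 3) → ℂ → ℂ) (c : Fin (q + 3) → L.lattice) : ℂ :=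
  (∏ i, P i (c i)) / ((∏ i, ‖(c i : ℂ)‖ ^ 2 : ℝ) : ℂ)

/-- From sums over `(ℤ²)^N` to sums over `Idx`. -/
theorem tsum_idx_mul (L : PeriodPair) (q : ℕ) {P : Fin (q + 3) → ℂ → ℂ} {κ κ' S : ℂ} (hκ : κ ≠ 0)
    (hκ' : κ' ≠ 0) {u : Fin (q + 2) → (Fin 2 → ℤ) → ℂ} {v : (Fin 2 → ℤ) → ℂ}
    (hu0 : ∀ i, u i 0 = 0) (hv0 : v 0 = 0)
    (hu : ∀ i, ∀ γ : L.lattice, γ ≠ 0 →
      u i (crd L γ) = κ * (P i.castSucc γ / ‖(γ : ℂ)‖ ^ 2))
    (hv : ∀ γ : L.lattice, γ ≠ 0 → v (crd L γ) = κ' * (P (Fin.last (q + 2)) γ / γ))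
    (h : HasSum (fun c : Fin (q + 2) → (Fin 2 → ℤ) => (∏ i, u i (c i)) * v (-∑ i, c i)) S) :
    ∑' c : Idx L q, kG L q P c.1 * conj (c.1 (Fin.last (q + 2)) : ℂ) =
      (κ ^ (q + 2) * κ')⁻¹ * S := by
  set s : Idx L q → (Fin (q + 2) → (Fin 2 → ℤ)) := fun c i => crd L (c.1 i.castSucc) with hs
  have hlast : ∀ c : Idx L q, c.1 (Fin.last (q + 2)) = -∑ i : Fin (q + 2), c.1 i.castSucc :=
    fun c => by
      have h1 := c.2.2
      rw [Fin.sum_univ_castSucc] at h1
      exact eq_neg_of_add_eq_zero_right h1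
  have hsl : ∀ c : Idx L q, -∑ i, s c i = crd L (c.1 (Fin.last (q + 2))) := fun c => by
    rw [hlast c, map_neg, map_sum]
  have hinj : Function.Injective s := by
    intro c d hcd
    have h1 : ∀ i : Fin (q + 2), c.1 i.castSucc = d.1 i.castSucc := fun i =>
      (crd L).injective (congr_fun hcd i)
    apply Subtype.ext
    funext i
    induction i using Fin.lastCases with
    | last => rw [hlast c, hlast d, Finset.sum_congr rfl fun i _ => h1 i]
    | cast i => exact h1 i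
  have hrange : ∀ d, d ∉ Set.range s → (∏ i, u i (d i)) * v (-∑ i, d i) = 0 := by
    intro d hd
    by_contra hne
    apply hd
    have h1 : ∀ i, d i ≠ 0 := fun i hi => by
      apply hne
      rw [Finset.prod_eq_zero (Finset.mem_univ i) (by rw [hi, hu0]), zero_mul]
    have h2 : -∑ i, d i ≠ 0 := fun h2 => by
      apply hne
      rw [h2, hv0, mul_zero]
    have hsymm : ∀ k : Fin 2 → ℤ, k ≠ 0 → (crd L).symm k ≠ 0 := fun k hk h3 => by
      apply hk
      have := congr_arg (crd L) h3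
      rwa [AddEquiv.apply_symm_apply, map_zero] at this
    refine ⟨⟨Fin.snoc (α := fun _ => L.lattice) (fun i => (crd L).symm (d i))
      ((crd L).symm (-∑ i, d i)), ?_, ?_⟩, ?_⟩
    · intro i
      induction i using Fin.lastCases with
      | last => rw [Fin.snoc_last]; exact hsymm _ h2
      | cast i => rw [Fin.snoc_castSucc]; exact hsymm _ (h1 i)
    · rw [Fin.sum_univ_castSucc]
      simp only [Fin.snoc_castSucc, Fin.snoc_last]
      rw [← map_sum, ← map_add, add_neg_cancel, map_zero]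
    · funext i
      simp only [hs, Fin.snoc_castSucc, AddEquiv.apply_symm_apply]
  have h3 := (hinj.hasSum_iff hrange).2 h
  have h4 : HasSum (fun c : Idx L q => (κ ^ (q + 2) * κ') *
      (kG L q P c.1 * conj (c.1 (Fin.last (q + 2)) : ℂ))) S := by
    refine h3.congr_fun fun c => ?_
    simp only [Function.comp]
    rw [hsl c, hv _ (c.2.1 _), Finset.prod_congr rfl fun i _ => hu i _ (c.2.1 _),
      Finset.prod_mul_distrib, Finset.prod_const, Finset.card_univ, Fintype.card_fin, kG,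
      Finset.prod_div_distrib, Fin.prod_univ_castSucc (fun i : Fin (q + 3) => ‖(c.1 i : ℂ)‖ ^ 2),
      Fin.prod_univ_castSucc (fun i : Fin (q + 3) => P i (c.1 i))]
    have hne : ∀ i, (c.1 i : ℂ) ≠ 0 := fun i => by
      have := c.2.1 i
      simpa using this
    have hl := hne (Fin.last (q + 2))
    have hp : ∏ i : Fin (q + 2), ((‖(c.1 i.castSucc : ℂ)‖ : ℂ)) ^ 2 ≠ 0 :=
      Finset.prod_ne_zero_iff.2 fun i _ => pow_ne_zero 2
        (Complex.ofReal_ne_zero.2 (norm_ne_zero_iff.2 (hne _)))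
    have hn : ((‖(c.1 (Fin.last (q + 2)) : ℂ)‖ : ℂ)) ^ 2 =
        (c.1 (Fin.last (q + 2)) : ℂ) * conj (c.1 (Fin.last (q + 2)) : ℂ) := by
      rw [Complex.mul_conj, Complex.normSq_eq_norm_sq]
      push_cast
      rfl
    have hcl : conj (c.1 (Fin.last (q + 2)) : ℂ) ≠ 0 := (map_ne_zero _).2 hl
    push_cast
    rw [hn]
    field_simp
  have h5 := h4.tsum_eq
  rw [tsum_mul_left] at h5
  have hne : κ ^ (q + 2) * κ' ≠ 0 := mul_ne_zero (pow_ne_zero _ hκ) hκ'
  rw [← h5, inv_mul_cancel_left₀ hne]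

/-- The sum with the last vector is an integral. -/
theorem kG_last (L : PeriodPair) (q : ℕ) {F : Fin (q + 3) → ℂ → ℂ} (hF : ∀ i, Ell L (F i)) :
    ∑' c : Idx L q, kG L q (fun i => pr L (dv (F i))) c.1 *
        conj (c.1 (Fin.last (q + 2)) : ℂ) =
      (kap L ^ (q + 2) * kap' L)⁻¹ * mean L (fun z => (∏ i : Fin (q + 2), tl L (F i.castSucc) z) *
        qq (F (Fin.last (q + 2))) 0 z) := by
  choose C hC0 hC using fun i : Fin (q + 2) => bound_tl (hF i.castSucc)
  obtain ⟨C', hC'0, hC'⟩ := bound_q0 (hF (Fin.last (q + 2)))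
  have hsum := conv_main_mul (fun i : Fin (q + 2) => tor L (tl L (F i.castSucc)))
    (tor L (qq (F (Fin.last (q + 2))) 0)) (by omega) (fun i p => memLp_tl (hF _) p)
    (memLp_q0 (hF _)) (∑ i, C i + C') (fun i k => (hC i k).trans (by
      refine mul_le_mul_of_nonneg_right ?_ (by positivity)
      have := Finset.single_le_sum (fun i _ => hC0 i) (Finset.mem_univ i)
      linarith)) (fun k => (hC' k).trans (by
      refine mul_le_mul_of_nonneg_right ?_ (by positivity)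
      have := Finset.sum_nonneg fun i (_ : i ∈ Finset.univ) => hC0 i
      linarith))
  rw [tsum_idx_mul L q (kap_ne L) (kap'_ne L) (fun i => coeff_tl_zero (hF _))
    (coeff_q0_zero (hF _)) (fun i γ hγ => coeff_tl_ne (hF _) hγ)
    (fun γ hγ => coeff_q0_ne (hF _) hγ) hsum]
  congr 1
  rw [← integral_tor]
  rfl

theorem kG_perm (L : PeriodPair) (q : ℕ) (P : Fin (q + 3) → ℂ → ℂ)
    (σ : Equiv.Perm (Fin (q + 3))) (c : Fin (q + 3) → L.lattice) :
    kG L q P (fun i => c (σ i)) = kG L q (fun i => P (σ.symm i)) c := by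
  rw [kG, kG]
  congr 1
  · rw [← Equiv.prod_comp σ fun i => P (σ.symm i) (c i)]
    simp only [Equiv.symm_apply_apply]
  · congr 1
    exact Equiv.prod_comp σ fun i => ‖(c i : ℂ)‖ ^ 2

theorem tsum_kG_perm (L : PeriodPair) (q : ℕ) (P : Fin (q + 3) → ℂ → ℂ)
    (σ : Equiv.Perm (Fin (q + 3))) (j : Fin (q + 3)) :
    ∑' c : Idx L q, kG L q P c.1 * conj (c.1 j : ℂ) =
      ∑' c : Idx L q, kG L q (fun i => P (σ.symm i)) c.1 * conj (c.1 (σ j) : ℂ) := by
  have h0 : ∀ c : Idx L q, kG L q P (idxPerm L q σ c).1 * conj ((idxPerm L q σ c).1 j : ℂ) =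
      kG L q (fun i => P (σ.symm i)) c.1 * conj (c.1 (σ j) : ℂ) := fun c => by
    rw [idxPerm_apply, idxPerm_coe, kG_perm]
  calc ∑' c : Idx L q, kG L q P c.1 * conj (c.1 j : ℂ)
      = ∑' c : Idx L q, kG L q P (idxPerm L q σ c).1 * conj ((idxPerm L q σ c).1 j : ℂ) :=
        ((idxPerm L q σ).tsum_eq fun c : Idx L q => kG L q P c.1 * conj (c.1 j : ℂ)).symm
    _ = _ := tsum_congr h0

/-- the three functions as a family -/
def fam3 {A : Type*} (q : ℕ) (u f w : A) (i : Fin (q + 3)) : A :=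
  if i = 0 then u else if i = Fin.last (q + 2) then w else f

theorem fam3_map {A B : Type*} (q : ℕ) (u f w : A) (g : A → B) (i : Fin (q + 3)) :
    g (fam3 q u f w i) = fam3 q (g u) (g f) (g w) i := by
  unfold fam3
  split_ifs <;> rfl

theorem last_ne_zero' (q : ℕ) : (Fin.last (q + 2) : Fin (q + 3)) ≠ 0 := by
  rw [← Fin.succ_last]
  exact Fin.succ_ne_zero _

theorem prod_fam3 (q : ℕ) {L : PeriodPair} (P₁ P₂ P₃ : ℂ → ℂ) (c : Fin (q + 3) → L.lattice) :
    ∏ i, fam3 q P₁ P₂ P₃ i (c i) =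
      P₁ (c 0) * (∏ i : Fin (q + 1), P₂ (c i.castSucc.succ)) * P₃ (c (Fin.last (q + 2))) := by
  rw [Fin.prod_univ_succ, Fin.prod_univ_castSucc, ← mul_assoc]
  congr 1
  · congr 1
    · refine Finset.prod_congr rfl fun i _ => ?_
      have h1 : i.castSucc.succ ≠ (0 : Fin (q + 3)) := Fin.succ_ne_zero _
      have h2 : i.castSucc.succ ≠ Fin.last (q + 2) := by
        rw [Fin.succ_castSucc]
        exact Fin.castSucc_ne_last _
      simp only [fam3, if_neg h1, if_neg h2]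
  · rw [Fin.succ_last]
    simp only [fam3, if_neg (last_ne_zero' q), if_true]

theorem kterm_fam3 (L : PeriodPair) (q : ℕ) (P₁ P₂ P₃ : ℂ → ℂ) (c : Fin (q + 3) → L.lattice) :
    kterm L q P₁ P₂ P₃ c =
      kG L q (fam3 q P₁ P₂ P₃) c * conj (c (Fin.last (q + 2)) : ℂ) -
      kG L q (fam3 q P₁ P₂ P₃) c * conj (c (Fin.last (q + 1)).castSucc : ℂ) := by
  rw [kG, prod_fam3, kterm]
  ring

theorem summable_kG (L : PeriodPair) (q : ℕ) {P : Fin (q + 3) → ℂ → ℂ}
    (hP : ∀ i, ∃ C : ℝ, 0 ≤ C ∧ ∀ z, ‖P i z‖ ≤ C) (j : Fin (q + 3)) :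
    Summable fun c : Idx L q => kG L q P c.1 * conj (c.1 j : ℂ) := by
  choose C hC0 hC using hP
  refine Summable.of_norm_bounded ((idx_summable L q j).mul_left (∏ i, C i)) fun c => ?_
  rw [kG, norm_mul, norm_div, Complex.norm_conj, norm_prod, Complex.norm_real, Real.norm_eq_abs,
    abs_of_nonneg (Finset.prod_nonneg fun i _ => sq_nonneg _)]
  have h1 : ∏ i, ‖P i (c.1 i)‖ ≤ ∏ i, C i :=
    Finset.prod_le_prod (fun i _ => norm_nonneg _) fun i _ => hC i _
  have h2 : 0 ≤ ∏ i, ‖(c.1 i : ℂ)‖ ^ 2 := Finset.prod_nonneg fun i _ => sq_nonneg _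
  calc (∏ i, ‖P i (c.1 i)‖) / (∏ i, ‖(c.1 i : ℂ)‖ ^ 2) * ‖(c.1 j : ℂ)‖
      ≤ (∏ i, C i) / (∏ i, ‖(c.1 i : ℂ)‖ ^ 2) * ‖(c.1 j : ℂ)‖ := by gcongr
    _ = _ := by ring

theorem ell_fam3 {L : PeriodPair} (q : ℕ) {u f w : ℂ → ℂ} (hu : Ell L u) (hf : Ell L f)
    (hw : Ell L w) (i : Fin (q + 3)) : Ell L (fam3 q u f w i) := by
  unfold fam3
  split_ifs
  · exact hu
  · exact hw
  · exact hf

theorem integrable_tl (L : PeriodPair) {ι : Type*} (s : Finset ι) {F : ι → ℂ → ℂ}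
    (hF : ∀ i ∈ s, Ell L (F i)) {w : ℂ → ℂ} (hw : Ell L w) :
    Integrable fun x : TT => (∏ i ∈ s, tor L (tl L (F i)) x) * tor L (qq w 0) x := by
  have := holder_three
  exact memLp_one_iff_integrable.1 (MemLp.smul (p := 3) (q := 3 / 2) (r := 1) (memLp_q0 hw)
    (by exact_mod_cast memLp_prod_all s (fun i hi => memLp_tl (hF i hi)) 3))

/-- **The lattice sum `K_n` as an integral.** -/
theorem kmul (L : PeriodPair) (q : ℕ) {u f w : ℂ → ℂ} (hu : Ell L u) (hf : Ell L f)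
    (hw : Ell L w) :
    Ksum L q (pr L (dv u)) (pr L (dv f)) (pr L (dv w)) =
      (kap L ^ (q + 2) * kap' L)⁻¹ * mean L (fun z => tl L u z * tl L f z ^ q *
        (tl L f z * qq w 0 z - tl L w z * qq f 0 z)) := by
  set F := fam3 q u f w with hF
  have hell : ∀ i, Ell L (F i) := ell_fam3 q hu hf hw
  have hP : (fun i => pr L (dv (F i))) = fam3 q (pr L (dv u)) (pr L (dv f)) (pr L (dv w)) := by
    funext i
    exact fam3_map q u f w (fun f => pr L (dv f)) i
  have hbd : ∀ i, ∃ C : ℝ, 0 ≤ C ∧ ∀ z, ‖(fun i => pr L (dv (F i))) i z‖ ≤ C := fun i =>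
    pr_bdd L (dv (F i))
  -- the transposition of the last two indices
  obtain ⟨σ, hσ⟩ : ∃ σ : Equiv.Perm (Fin (q + 3)),
    σ = Equiv.swap (Fin.last (q + 1)).castSucc (Fin.last (q + 2)) := ⟨_, rfl⟩
  have hσs : σ.symm = σ := by rw [hσ, Equiv.symm_swap]
  have hb : (Fin.last (q + 1)).castSucc ≠ Fin.last (q + 2) := Fin.castSucc_ne_last _
  have h1 : σ (Fin.last (q + 2)) = (Fin.last (q + 1)).castSucc := by
    rw [hσ, Equiv.swap_apply_right]
  have h2 : σ (Fin.last (q + 1)).castSucc = Fin.last (q + 2) := by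
    rw [hσ, Equiv.swap_apply_left]
  have h3 : ∀ i : Fin (q + 1), σ i.castSucc.castSucc = i.castSucc.castSucc := fun i => by
    rw [hσ]
    refine Equiv.swap_apply_of_ne_of_ne ?_ (Fin.castSucc_ne_last _)
    intro h
    exact Fin.castSucc_ne_last i (Fin.castSucc_injective _ h)
  have hF0 : F 0 = u := by simp only [hF, fam3, if_true]
  have hFl : F (Fin.last (q + 2)) = w := by
    simp only [hF, fam3, if_neg (last_ne_zero' q), if_true]
  have hFm : ∀ i : Fin (q + 1), F i.castSucc.succ = f := fun i => by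
    have e1 : i.castSucc.succ ≠ (0 : Fin (q + 3)) := Fin.succ_ne_zero _
    have e2 : i.castSucc.succ ≠ Fin.last (q + 2) := by
      rw [Fin.succ_castSucc]
      exact Fin.castSucc_ne_last _
    simp only [hF, fam3, if_neg e1, if_neg e2]
  have hFm' : ∀ i : Fin q, F i.castSucc.castSucc.succ = f := fun i => hFm i.castSucc
  have hFp : F (Fin.last (q + 1)).castSucc = f := by
    have := hFm (Fin.last q)
    rwa [Fin.succ_castSucc, Fin.succ_last] at this
  -- the two sums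
  have hA := kG_last L q hell
  have hB := kG_last L q (F := fun i => F (σ i)) fun i => hell _
  have hperm := tsum_kG_perm L q (fun i => pr L (dv (F i))) σ (Fin.last (q + 1)).castSucc
  rw [h2, hσs] at hperm
  have hK : Ksum L q (pr L (dv u)) (pr L (dv f)) (pr L (dv w)) =
      ∑' c : Idx L q, kG L q (fun i => pr L (dv (F i))) c.1 *
        conj (c.1 (Fin.last (q + 2)) : ℂ) -
      ∑' c : Idx L q, kG L q (fun i => pr L (dv (F i))) c.1 *
        conj (c.1 (Fin.last (q + 1)).castSucc : ℂ) := by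
    rw [← (summable_kG L q hbd _).tsum_sub (summable_kG L q hbd _), Ksum, hP]
    exact tsum_congr fun c => kterm_fam3 L q _ _ _ c.1
  rw [hK, hperm, hA, hB, ← mul_sub]
  congr 1
  have hint1 : Integrable fun x : TT => (∏ i : Fin (q + 2), tor L (tl L (F i.castSucc)) x) *
      tor L (qq (F (Fin.last (q + 2))) 0) x := integrable_tl L _ (fun i _ => hell _) (hell _)
  have hint2 : Integrable fun x : TT => (∏ i : Fin (q + 2), tor L (tl L (F (σ i.castSucc))) x) *
      tor L (qq (F (σ (Fin.last (q + 2)))) 0) x := integrable_tl L _ (fun i _ => hell _) (hell _)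
  rw [← integral_tor, ← integral_tor, ← integral_tor]
  change (∫ x : TT, (∏ i : Fin (q + 2), tor L (tl L (F i.castSucc)) x) *
      tor L (qq (F (Fin.last (q + 2))) 0) x) -
    (∫ x : TT, (∏ i : Fin (q + 2), tor L (tl L (F (σ i.castSucc))) x) *
      tor L (qq (F (σ (Fin.last (q + 2)))) 0) x) = _
  rw [← integral_sub hint1 hint2]
  refine integral_congr_ae (ae_of_all _ fun x => ?_)
  have e1 : ∏ i : Fin (q + 2), tor L (tl L (F i.castSucc)) x =
      tor L (tl L u) x * tor L (tl L f) x ^ (q + 1) := by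
    rw [Fin.prod_univ_succ, Fin.castSucc_zero, hF0]
    congr 1
    have : ∀ i : Fin (q + 1), F (i.succ.castSucc) = f := fun i => by
      rw [← Fin.succ_castSucc]
      exact hFm i
    rw [Finset.prod_congr rfl fun i _ => by rw [this i]]
    simp
  have e2 : ∏ i : Fin (q + 2), tor L (tl L (F (σ i.castSucc))) x =
      tor L (tl L u) x * tor L (tl L f) x ^ q * tor L (tl L w) x := by
    rw [Fin.prod_univ_castSucc, h2, hFl]
    congr 1
    have : ∀ i : Fin (q + 1), F (σ i.castSucc.castSucc) = F i.castSucc.castSucc := fun i => by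
      rw [h3]
    rw [Finset.prod_congr rfl fun i _ => by rw [this i], Fin.prod_univ_succ, Fin.castSucc_zero,
      Fin.castSucc_zero, hF0]
    congr 1
    have h5 : ∀ i : Fin q, F i.succ.castSucc.castSucc = f := fun i => by
      rw [← Fin.succ_castSucc, ← Fin.succ_castSucc]
      exact hFm' i
    rw [Finset.prod_congr rfl fun i _ => by rw [h5 i]]
    simp
  simp only
  rw [e1, e2, h1, hFl, hFp]
  simp only [tor]
  ring

end Pool.Agent.F194

end
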