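import Pool.Agent.Work.MP_f194bb_nt.Tor

/-!
# MP_f194bb_nt: symmetrisation of the lattice sum (helper52)
-/

set_option autoImplicit false

open MeasureTheory UnitAddTorus
open scoped ENNReal Topology ComplexConjugate

noncomputable section

namespace Pool.Agent.F194

/-- the summand without the linear factor -/
def kW (L : PeriodPair) (q : ℕ) (P P' : ℂ → ℂ) (c : Fin (q + 3) → L.lattice) : ℂ :=
  (∏ i, (if i = Fin.last (q + 2) then P' else P) (c i)) / ((∏ i, ‖(c i : ℂ)‖ ^ 2 : ℝ) : ℂ)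

theorem kW_eq (L : PeriodPair) (q : ℕ) (P P' : ℂ → ℂ) (c : Fin (q + 3) → L.lattice) :
    kW L q P P' c = (∏ i : Fin (q + 2), P (c i.castSucc)) * P' (c (Fin.last (q + 2))) /
      ((∏ i, ‖(c i : ℂ)‖ ^ 2 : ℝ) : ℂ) := by
  rw [kW, Fin.prod_univ_castSucc (fun i : Fin (q + 3) =>
    (if i = Fin.last (q + 2) then P' else P) (c i))]
  simp only [if_true]
  congr 2
  refine Finset.prod_congr rfl fun i _ => ?_
  rw [if_neg (Fin.castSucc_ne_last i)]

theorem kterm_eq (L : PeriodPair) (q : ℕ) (P P' : ℂ → ℂ) (c : Fin (q + 3) → L.lattice) :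
    kterm L q P P P' c = kW L q P P' c * conj (c (Fin.last (q + 2)) : ℂ) -
      kW L q P P' c * conj (c (Fin.last (q + 1)).castSucc : ℂ) := by
  rw [kW_eq, kterm, Fin.prod_univ_succ (fun i : Fin (q + 2) => P (c i.castSucc))]
  simp only [Fin.castSucc_zero, Fin.succ_castSucc]
  ring

theorem summable_kW (L : PeriodPair) (q : ℕ) {P P' : ℂ → ℂ} {C : ℝ} (hP : ∀ z, ‖P z‖ ≤ C)
    (hP' : ∀ z, ‖P' z‖ ≤ C) (j : Fin (q + 3)) :
    Summable fun c : Idx L q => kW L q P P' c.1 * conj (c.1 j : ℂ) := by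
  have hC : 0 ≤ C := (norm_nonneg _).trans (hP 0)
  refine Summable.of_norm_bounded ((idx_summable L q j).mul_left (C ^ (q + 3))) fun c => ?_
  rw [kW, norm_mul, norm_div, Complex.norm_conj, norm_prod, Complex.norm_real, Real.norm_eq_abs,
    abs_of_nonneg (Finset.prod_nonneg fun i _ => sq_nonneg _)]
  have h1 : ∏ i, ‖(if i = Fin.last (q + 2) then P' else P) (c.1 i)‖ ≤ C ^ (q + 3) := by
    refine (Finset.prod_le_prod (fun i _ => norm_nonneg _) (g := fun _ => C) fun i _ => ?_).trans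
      (by simp)
    split_ifs
    · exact hP' _
    · exact hP _
  have h2 : 0 ≤ ∏ i, ‖(c.1 i : ℂ)‖ ^ 2 := Finset.prod_nonneg fun i _ => sq_nonneg _
  calc (∏ i, ‖(if i = Fin.last (q + 2) then P' else P) (c.1 i)‖) /
        (∏ i, ‖(c.1 i : ℂ)‖ ^ 2) * ‖(c.1 j : ℂ)‖
      ≤ C ^ (q + 3) / (∏ i, ‖(c.1 i : ℂ)‖ ^ 2) * ‖(c.1 j : ℂ)‖ := by gcongr
    _ = _ := by ring

/-- permuting the summands -/
def idxPerm (L : PeriodPair) (q : ℕ) (σ : Equiv.Perm (Fin (q + 3))) : Idx L q ≃ Idx L q where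
  toFun c := ⟨fun i => c.1 (σ i), fun i => c.2.1 _, by
    rw [Equiv.sum_comp σ fun i => c.1 i]
    exact c.2.2⟩
  invFun c := ⟨fun i => c.1 (σ.symm i), fun i => c.2.1 _, by
    rw [Equiv.sum_comp σ.symm fun i => c.1 i]
    exact c.2.2⟩
  left_inv c := by
    apply Subtype.ext
    funext i
    simp
  right_inv c := by
    apply Subtype.ext
    funext i
    simp

theorem idxPerm_coe (L : PeriodPair) (q : ℕ) (σ : Equiv.Perm (Fin (q + 3))) (c : Idx L q) :
    (idxPerm L q σ c).1 = fun i => c.1 (σ i) := rfl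

theorem idxPerm_apply (L : PeriodPair) (q : ℕ) (σ : Equiv.Perm (Fin (q + 3))) (c : Idx L q)
    (i : Fin (q + 3)) : (idxPerm L q σ c).1 i = c.1 (σ i) := rfl

theorem kW_perm (L : PeriodPair) (q : ℕ) (P P' : ℂ → ℂ) (σ : Equiv.Perm (Fin (q + 3)))
    (hσ : σ (Fin.last (q + 2)) = Fin.last (q + 2)) (c : Fin (q + 3) → L.lattice) :
    kW L q P P' (fun i => c (σ i)) = kW L q P P' c := by
  have h1 : ∀ i, σ i = Fin.last (q + 2) ↔ i = Fin.last (q + 2) := fun i =>
    ⟨fun h => σ.injective (h.trans hσ.symm), fun h => by rw [h, hσ]⟩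
  rw [kW, kW]
  congr 1
  · rw [← Equiv.prod_comp σ fun i => (if i = Fin.last (q + 2) then P' else P) (c i)]
    refine Finset.prod_congr rfl fun i _ => ?_
    simp only [h1]
  · congr 1
    exact Equiv.prod_comp σ fun i => ‖(c i : ℂ)‖ ^ 2

theorem tsum_swap (L : PeriodPair) (q : ℕ) (P P' : ℂ → ℂ) {a b : Fin (q + 3)}
    (ha : a ≠ Fin.last (q + 2)) (hb : b ≠ Fin.last (q + 2)) :
    ∑' c : Idx L q, kW L q P P' c.1 * conj (c.1 a : ℂ) =
      ∑' c : Idx L q, kW L q P P' c.1 * conj (c.1 b : ℂ) := by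
  obtain ⟨σ, hσ⟩ : ∃ σ : Equiv.Perm (Fin (q + 3)), σ = Equiv.swap a b := ⟨_, rfl⟩
  have hl : σ (Fin.last (q + 2)) = Fin.last (q + 2) := by
    rw [hσ]
    exact Equiv.swap_apply_of_ne_of_ne ha.symm hb.symm
  have hab : σ a = b := by rw [hσ, Equiv.swap_apply_left]
  have h0 : ∀ c : Idx L q, kW L q P P' (idxPerm L q σ c).1 * conj ((idxPerm L q σ c).1 a : ℂ) =
      kW L q P P' c.1 * conj (c.1 b : ℂ) := fun c => by
    rw [idxPerm_apply, idxPerm_coe, kW_perm L q P P' σ hl c.1, hab]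
  calc ∑' c : Idx L q, kW L q P P' c.1 * conj (c.1 a : ℂ)
      = ∑' c : Idx L q, kW L q P P' (idxPerm L q σ c).1 * conj ((idxPerm L q σ c).1 a : ℂ) :=
        ((idxPerm L q σ).tsum_eq fun c : Idx L q => kW L q P P' c.1 * conj (c.1 a : ℂ)).symm
    _ = _ := tsum_congr h0

/-- the sum with the `j`-th vector -/
def kT (L : PeriodPair) (q : ℕ) (P P' : ℂ → ℂ) (j : Fin (q + 3)) : ℂ :=
  ∑' c : Idx L q, kW L q P P' c.1 * conj (c.1 j : ℂ)

theorem sum_kT (L : PeriodPair) (q : ℕ) {P P' : ℂ → ℂ} {C : ℝ} (hP : ∀ z, ‖P z‖ ≤ C)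
    (hP' : ∀ z, ‖P' z‖ ≤ C) : ∑ j, kT L q P P' j = 0 := by
  have h1 : ∑ j, kT L q P P' j =
      ∑' c : Idx L q, ∑ j, kW L q P P' c.1 * conj (c.1 j : ℂ) :=
    (Summable.tsum_finsetSum fun j _ => summable_kW L q hP hP' j).symm
  have h2 : ∀ c : Idx L q, ∑ j, kW L q P P' c.1 * conj (c.1 j : ℂ) = 0 := fun c => by
    rw [← Finset.mul_sum, ← map_sum]
    have h0 : ∑ j, (c.1 j : ℂ) = 0 := by
      have h3 : ((∑ j, c.1 j : L.lattice) : ℂ) = 0 := by
        rw [c.2.2]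
        rfl
      rw [← h3]
      exact (Submodule.coe_sum _ _ _).symm
    rw [h0, map_zero, mul_zero]
  rw [h1, tsum_congr h2, tsum_zero]

/-- If the sum with the last vector vanishes then the whole sum vanishes. -/
theorem ksum_eq_zero_of (L : PeriodPair) (q : ℕ) {P P' : ℂ → ℂ} {C : ℝ} (hP : ∀ z, ‖P z‖ ≤ C)
    (hP' : ∀ z, ‖P' z‖ ≤ C) (h : kT L q P P' (Fin.last (q + 2)) = 0) :
    Ksum L q P P P' = 0 := by
  have hsum := sum_kT L q hP hP'
  have hb' : (Fin.last (q + 1)).castSucc ≠ Fin.last (q + 2) := Fin.castSucc_ne_last _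
  have hTb : ∀ i : Fin (q + 2), kT L q P P' i.castSucc = kT L q P P' (Fin.last (q + 1)).castSucc :=
    fun i => tsum_swap L q P P' (Fin.castSucc_ne_last i) hb'
  rw [Fin.sum_univ_castSucc, h, add_zero, Finset.sum_congr rfl fun i _ => hTb i,
    Finset.sum_const, Finset.card_univ, Fintype.card_fin, nsmul_eq_mul] at hsum
  have hTb0 : kT L q P P' (Fin.last (q + 1)).castSucc = 0 := by
    rcases mul_eq_zero.1 hsum with h1 | h1
    · exact absurd h1 (Nat.cast_ne_zero.2 (by omega))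
    · exact h1
  have hK : Ksum L q P P P' = kT L q P P' (Fin.last (q + 2)) -
      kT L q P P' (Fin.last (q + 1)).castSucc := by
    unfold Ksum kT
    rw [tsum_congr fun c : Idx L q => kterm_eq L q P P' c.1]
    exact (summable_kW L q hP hP' _).tsum_sub (summable_kW L q hP hP' _)
  rw [hK, h, hTb0, sub_zero]

/-- From sums over `(ℤ²)^N` to sums over `Idx`. -/
theorem hasSum_idx (L : PeriodPair) (q : ℕ) {P P' : ℂ → ℂ} {κ κ' : ℂ} (hκ : κ ≠ 0) (hκ' : κ' ≠ 0)
    {u v : (Fin 2 → ℤ) → ℂ} (hu0 : u 0 = 0) (hv0 : v 0 = 0)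
    (hu : ∀ γ : L.lattice, γ ≠ 0 → u (crd L γ) = κ * (P γ / ‖(γ : ℂ)‖ ^ 2))
    (hv : ∀ γ : L.lattice, γ ≠ 0 → v (crd L γ) = κ' * (P' γ / γ))
    (h : HasSum (fun c : Fin (q + 2) → (Fin 2 → ℤ) => (∏ i, u (c i)) * v (-∑ i, c i)) 0) :
    kT L q P P' (Fin.last (q + 2)) = 0 := by
  set s : Idx L q → (Fin (q + 2) → (Fin 2 → ℤ)) := fun c i => crd L (c.1 i.castSucc) with hs
  have hlast : ∀ c : Idx L q, c.1 (Fin.last (q + 2)) = -∑ i : Fin (q + 2), c.1 i.castSucc :=
    fun c => by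
      have h1 := c.2.2
      rw [Fin.sum_univ_castSucc] at h1
      exact eq_neg_of_add_eq_zero_right h1
  have hsl : ∀ c : Idx L q, -∑ i, s c i = crd L (c.1 (Fin.last (q + 2))) := fun c => by
    rw [hlast c, map_neg, map_sum]
  have hinj : Function.Injective s := by
    intro c d hcd
    have h1 : ∀ i : Fin (q + 2), c.1 i.castSucc = d.1 i.castSucc := fun i =>
      (crd L).injective (congr_fun hcd i)
    apply Subtype.ext
    funext i
    induction i using Fin.lastCases with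
    | last => rw [hlast c, hlast d, Finset.sum_congr rfl fun i _ => h1 i]
    | cast i => exact h1 i
  have hrange : ∀ d, d ∉ Set.range s → (∏ i, u (d i)) * v (-∑ i, d i) = 0 := by
    intro d hd
    by_contra hne
    apply hd
    have h1 : ∀ i, d i ≠ 0 := fun i hi => by
      apply hne
      rw [Finset.prod_eq_zero (Finset.mem_univ i) (by rw [hi, hu0]), zero_mul]
    have h2 : -∑ i, d i ≠ 0 := fun h2 => by
      apply hne
      rw [h2, hv0, mul_zero]
    have hsymm : ∀ k : Fin 2 → ℤ, k ≠ 0 → (crd L).symm k ≠ 0 := fun k hk h3 => by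
      apply hk
      have := congr_arg (crd L) h3
      rwa [AddEquiv.apply_symm_apply, map_zero] at this
    refine ⟨⟨Fin.snoc (α := fun _ => L.lattice) (fun i => (crd L).symm (d i))
      ((crd L).symm (-∑ i, d i)), ?_, ?_⟩, ?_⟩
    · intro i
      induction i using Fin.lastCases with
      | last => rw [Fin.snoc_last]; exact hsymm _ h2
      | cast i => rw [Fin.snoc_castSucc]; exact hsymm _ (h1 i)
    · rw [Fin.sum_univ_castSucc]
      simp only [Fin.snoc_castSucc, Fin.snoc_last]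
      rw [← map_sum, ← map_add, add_neg_cancel, map_zero]
    · funext i
      simp only [hs, Fin.snoc_castSucc, AddEquiv.apply_symm_apply]
  have h3 := (hinj.hasSum_iff hrange).2 h
  have h4 : HasSum (fun c : Idx L q => (κ ^ (q + 2) * κ') *
      (kW L q P P' c.1 * conj (c.1 (Fin.last (q + 2)) : ℂ))) 0 := by
    refine h3.congr_fun fun c => ?_
    simp only [Function.comp]
    rw [hsl c, hv _ (c.2.1 _), Finset.prod_congr rfl fun i _ => hu _ (c.2.1 _),
      Finset.prod_mul_distrib, Finset.prod_const, Finset.card_univ, Fintype.card_fin, kW_eq,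
      Finset.prod_div_distrib, Fin.prod_univ_castSucc (fun i : Fin (q + 3) => ‖(c.1 i : ℂ)‖ ^ 2)]
    have hne : ∀ i, (c.1 i : ℂ) ≠ 0 := fun i => by
      have := c.2.1 i
      simpa using this
    have hl := hne (Fin.last (q + 2))
    have hp : ∏ i : Fin (q + 2), ((‖(c.1 i.castSucc : ℂ)‖ : ℂ)) ^ 2 ≠ 0 :=
      Finset.prod_ne_zero_iff.2 fun i _ => pow_ne_zero 2
        (Complex.ofReal_ne_zero.2 (norm_ne_zero_iff.2 (hne _)))
    have hn : ((‖(c.1 (Fin.last (q + 2)) : ℂ)‖ : ℂ)) ^ 2 =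
        (c.1 (Fin.last (q + 2)) : ℂ) * conj (c.1 (Fin.last (q + 2)) : ℂ) := by
      rw [Complex.mul_conj, Complex.normSq_eq_norm_sq]
      push_cast
      rfl
    have hcl : conj (c.1 (Fin.last (q + 2)) : ℂ) ≠ 0 := (map_ne_zero _).2 hl
    push_cast
    rw [hn]
    field_simp
  have h5 := h4.tsum_eq
  rw [tsum_mul_left] at h5
  rcases mul_eq_zero.1 h5 with h6 | h6
  · exact absurd h6 (mul_ne_zero (pow_ne_zero _ hκ) hκ')
  · exact h6

end Pool.Agent.F194

end
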