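import Pool.Agent.Work.MP_f194bb_nt.Dir

/-!
# MP_f194bb_nt: the change of variables `E`
-/

set_option autoImplicit false

open scoped ComplexConjugate ENNReal
open MeasureTheory Set

noncomputable section

namespace Pool.Agent.F194

/-- the matrix of `E` -/
private def Em (L : PeriodPair) : Matrix (Fin 2) (Fin 2) ℝ :=
  ![![L.ω₁.re, L.ω₂.re], ![L.ω₁.im, L.ω₂.im]]

private lemma Em_det (L : PeriodPair) : (Em L).det = (conj L.ω₁ * L.ω₂).im := by
  rw [Matrix.det_fin_two]
  simp [Em]
  ring

private lemma E_eq (L : PeriodPair) :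
    E L = Complex.measurableEquivPi.symm ∘ (Matrix.toLin' (Em L)) := by
  funext x
  apply Complex.measurableEquivPi.injective
  rw [Function.comp_apply, MeasurableEquiv.apply_symm_apply]
  funext i
  show _ = Matrix.toLin' (Em L) x i
  rw [Complex.measurableEquivPi_apply, Matrix.toLin'_apply]
  fin_cases i
  · simp [E, Em, Matrix.mulVec, dotProduct, Fin.sum_univ_two]
    ring
  · simp [E, Em, Matrix.mulVec, dotProduct, Fin.sum_univ_two]
    ring

lemma det_ne (L : PeriodPair) : (conj L.ω₁ * L.ω₂).im ≠ 0 := by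
  rw [← Em_det]
  intro h
  -- a kernel vector gives a relation
  obtain ⟨v, hv, hv2⟩ := Matrix.exists_mulVec_eq_zero_iff.2 h
  apply hv
  apply E_injective L
  have h1 : E L v = Complex.measurableEquivPi.symm (Matrix.toLin' (Em L) v) := congrFun (E_eq L) v
  have h2 : E L 0 = Complex.measurableEquivPi.symm (Matrix.toLin' (Em L) 0) := congrFun (E_eq L) 0
  rw [h1, h2, Matrix.toLin'_apply, hv2, Matrix.toLin'_apply, Matrix.mulVec_zero]

lemma vol_pos (L : PeriodPair) : 0 < vol L := abs_pos.2 (det_ne L)

/-- `E` scales the volume. -/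
lemma map_E (L : PeriodPair) :
    Measure.map (E L) volume = ENNReal.ofReal (vol L)⁻¹ • (volume : Measure ℂ) := by
  have hdet : (Em L).det ≠ 0 := by rw [Em_det]; exact det_ne L
  have h1 := Real.map_matrix_volume_pi_eq_smul_volume_pi hdet
  have h2 : Measurable (Matrix.toLin' (Em L)) :=
    (LinearMap.continuous_of_finiteDimensional _).measurable
  rw [E_eq, ← Measure.map_map Complex.measurableEquivPi.symm.measurable h2, h1, Measure.map_smul,
    (Complex.volume_preserving_equiv_pi.symm _).map_eq, vol, ← Em_det, abs_inv]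

lemma E_embedding (L : PeriodPair) : MeasurableEmbedding (E L) := by
  have h : E L = (L.basis.equivFunL.symm : (Fin 2 → ℝ) → ℂ) := by
    funext x
    rw [← ContinuousLinearEquiv.coe_toLinearEquiv]
    show _ = L.basis.equivFun.symm x
    rw [Module.Basis.equivFun_symm_apply, Fin.sum_univ_two]
    simp [E]
  rw [h]
  exact L.basis.equivFunL.symm.toHomeomorph.measurableEmbedding

lemma integral_E (L : PeriodPair) (F : ℂ → ℂ) :
    ∫ x, F (E L x) = ((vol L)⁻¹ : ℝ) * ∫ z, F z := by
  rw [← (E_embedding L).integral_map, map_E, integral_smul_measure, ENNReal.toReal_ofReal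
    (by have := vol_pos L; positivity), Complex.real_smul]

/-- the box is mapped into a ball -/
lemma E_mem_ball (L : PeriodPair) {x : Fin 2 → ℝ} (hx : x ∈ box) :
    E L x ∈ Metric.closedBall (0 : ℂ) (‖L.ω₁‖ + ‖L.ω₂‖) := by
  have h0 := hx 0 (mem_univ _)
  have h1 := hx 1 (mem_univ _)
  rw [mem_closedBall_zero_iff]
  refine (norm_add_le _ _).trans (add_le_add ?_ ?_)
  · rw [norm_mul, Complex.norm_real, Real.norm_eq_abs, abs_of_pos h0.1]
    exact mul_le_of_le_one_left (norm_nonneg _) h0.2
  · rw [norm_mul, Complex.norm_real, Real.norm_eq_abs, abs_of_pos h1.1]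
    exact mul_le_of_le_one_left (norm_nonneg _) h1.2

/-- `MemLp` on the torus from `MemLp` on a ball. -/
lemma memLp_tor (L : PeriodPair) (F : ℂ → ℂ) (p : ℝ≥0∞)
    (h : MemLp F p (volume.restrict (Metric.closedBall 0 (‖L.ω₁‖ + ‖L.ω₂‖)))) :
    MemLp (fun x => F (E L x)) p (volume.restrict box) ∧ MemLp (tor L F) p := by
  have h1 : MemLp (fun x => F (E L x)) p (volume.restrict box) := by
    have h2 : MemLp F p (Measure.map (E L) (volume.restrict box)) := by
      have h3 : Measure.map (E L) (volume.restrict box) ≤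
          ENNReal.ofReal (vol L)⁻¹ • (volume.restrict (Metric.closedBall (0 : ℂ) (‖L.ω₁‖ + ‖L.ω₂‖))) := by
        rw [← Measure.restrict_smul, ← map_E]
        rw [Measure.le_iff]
        intro s hs
        rw [Measure.map_apply (continuous_E L).measurable hs, Measure.restrict_apply hs,
          Measure.restrict_apply ((continuous_E L).measurable hs),
          Measure.map_apply (continuous_E L).measurable (hs.inter Metric.isClosed_closedBall.measurableSet)]
        refine measure_mono fun x hx => ⟨hx.1, E_mem_ball L hx.2⟩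
      exact (h.smul_measure ENNReal.ofReal_ne_top).mono_measure h3
    exact ((E_embedding L).memLp_map_measure_iff).1 h2
  refine ⟨h1, ?_⟩
  have hb : box = {x : Fin 2 → ℝ | ∀ i, x i ∈ Ioc (0 : ℝ) (0 + 1)} := by
    ext x
    simp [box]
  have hms : MeasurableSet {x : Fin 2 → ℝ | ∀ i, x i ∈ Ioc (0 : ℝ) (0 + 1)} := by
    rw [← hb]; exact measurableSet_box
  have h2 : MemLp ((fun x : Fin 2 → ℝ => F (E L x)) ∘ (Subtype.val : {x : Fin 2 → ℝ //
      ∀ i, x i ∈ Ioc (0 : ℝ) (0 + 1)} → (Fin 2 → ℝ))) p (Measure.comap Subtype.val volume) := by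
    have h3 : MemLp (fun x : Fin 2 → ℝ => F (E L x)) p
        (Measure.map (Subtype.val : {x : Fin 2 → ℝ // ∀ i, x i ∈ Ioc (0 : ℝ) (0 + 1)} → _)
          (Measure.comap Subtype.val volume)) := by
      have h4 := map_comap_subtype_coe hms (volume : Measure (Fin 2 → ℝ))
      have h5 : Measure.map (Subtype.val : {x : Fin 2 → ℝ // ∀ i, x i ∈ Ioc (0 : ℝ) (0 + 1)} → _)
          (Measure.comap Subtype.val volume) = volume.restrict box := by
        rw [hb]
        exact h4
      rw [h5]
      exact h1
    exact ((MeasurableEmbedding.subtype_coe hms).memLp_map_measure_iff).1 h3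
  have hv : (volume : Measure (UnitAddTorus (Fin 2))) = Measure.pi fun _ => AddCircle.haarAddCircle := by
    have h1 : (volume : Measure (AddCircle (1 : ℝ))) = AddCircle.haarAddCircle := by
      rw [AddCircle.volume_eq_smul_haarAddCircle, ENNReal.ofReal_one, one_smul]
    rw [← h1]
    rfl
  rw [hv]
  exact h2.comp_measurePreserving (UnitAddTorus.measurePreserving_equivPiIoc fun _ => (0 : ℝ))

end Pool.Agent.F194

end
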