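import Pool.Agent.Work.MP_f194bb_nt.KMul
import Pool.Agent.Work.MP_f194bb_nt.KsumLin
import Pool.Agent.Work.MP_f194bb_nt.Divs
import Pool.Agent.Work.MP_f194bb_nt.Ext

/-!
# MP_f194bb_nt: the lattice sums as multilinear functions of divisors; rational functions of one
elliptic function
-/

set_option autoImplicit false

open scoped ComplexConjugate Topology
open Set

noncomputable section

namespace Pool.Agent.F194

universe u

/-- `D` is the divisor of `f` on `ℂ/Γ` (points represented in the fundamental parallelogram). -/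
def IsDiv (L : PeriodPair) (f : ℂ → ℂ) (D : ℂ →₀ ℚ) : Prop :=
  ∀ x, D x = (ZSpan.fundamentalDomain L.basis).indicator (fun x => (dv f x : ℚ)) x

/-- The rational combinations of the divisors of the functions `h - a`, `a ∈ ℂ`, that is, of the
divisors of the nonzero elements of `ℂ(h)`. -/
def DivOf (L : PeriodPair) (h : ℂ → ℂ) : Submodule ℚ (ℂ →₀ ℚ) :=
  Submodule.span ℚ {D | ∃ a : ℂ, IsDiv L (fun z => h z - a) D}

/-- the character sum as a linear map -/
def chl (L : PeriodPair) (γ : ℂ) : (ℂ →₀ ℚ) →ₗ[ℚ] ℂ where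
  toFun D := chs L D γ
  map_add' D D' := chs_add L D D' γ
  map_smul' c D := by rw [chs_smul, RingHom.id_apply, Rat.smul_def]

lemma chl_apply (L : PeriodPair) (γ : ℂ) (D : ℂ →₀ ℚ) : chl L γ D = chs L D γ := rfl

lemma chs_isDiv {L : PeriodPair} {f : ℂ → ℂ} {D : ℂ →₀ ℚ} (hD : IsDiv L f D) (γ : ℂ) :
    chs L D γ = pr L (dv f) γ := by
  classical
  unfold chs pr Finsupp.sum
  rw [finsum_mem_def, finsum_eq_sum_of_support_subset (s := D.support)]
  · refine Finset.sum_congr rfl fun x hx => ?_
    rw [Finsupp.mem_support_iff, hD] at hx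
    have h1 := Set.mem_of_indicator_ne_zero hx
    rw [Set.indicator_of_mem h1, hD, Set.indicator_of_mem h1]
    push_cast
    rfl
  · intro x hx
    have h1 := Set.mem_of_indicator_ne_zero hx
    rw [Finset.mem_coe, Finsupp.mem_support_iff, hD, Set.indicator_of_mem h1]
    intro h
    apply hx
    rw [Set.indicator_of_mem h1]
    have : dv f x = 0 := by exact_mod_cast h
    rw [this]
    simp

lemma chs_bd' (L : PeriodPair) (D : ℂ →₀ ℚ) : ∃ C : ℝ, 0 ≤ C ∧ ∀ γ, ‖chs L D γ‖ ≤ C :=
  chs_bdd L D

/-- the lattice sum with the `j`-th vector, as a multilinear map -/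
def Zm (L : PeriodPair) (q : ℕ) (j : Fin (q + 3)) :
    MultilinearMap ℚ (fun _ : Fin (q + 3) => ℂ →₀ ℚ) ℂ where
  toFun D := ∑' c : Idx L q, kG L q (fun i => chs L (D i)) c.1 * conj (c.1 j : ℂ)
  map_update_add' := by
    intro inst D i x y
    have hi : inst = instDecidableEqFin (q + 3) := Subsingleton.elim _ _
    subst hi
    rw [← (summable_kG L q (fun k => chs_bd' L _) j).tsum_add
      (summable_kG L q (fun k => chs_bd' L _) j)]
    refine tsum_congr fun c => ?_
    have h : ∀ z : ℂ →₀ ℚ, kG L q (fun k => chs L (Function.update D i z k)) c.1 =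
        chl L (c.1 i) z * ((∏ k ∈ Finset.univ.erase i, chs L (D k) (c.1 k)) /
          ((∏ k, ‖(c.1 k : ℂ)‖ ^ 2 : ℝ) : ℂ)) := by
      intro z
      rw [kG, ← Finset.mul_prod_erase Finset.univ _ (Finset.mem_univ i), Function.update_self,
        chl_apply, mul_div_assoc]
      congr 2
      refine Finset.prod_congr rfl fun k hk => ?_
      rw [Function.update_of_ne (Finset.ne_of_mem_erase hk)]
    rw [h, h, h, map_add]
    ring
  map_update_smul' := by
    intro inst D i r x
    have hi : inst = instDecidableEqFin (q + 3) := Subsingleton.elim _ _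
    subst hi
    rw [Rat.smul_def, ← tsum_mul_left]
    refine tsum_congr fun c => ?_
    have h : ∀ z : ℂ →₀ ℚ, kG L q (fun k => chs L (Function.update D i z k)) c.1 =
        chl L (c.1 i) z * ((∏ k ∈ Finset.univ.erase i, chs L (D k) (c.1 k)) /
          ((∏ k, ‖(c.1 k : ℂ)‖ ^ 2 : ℝ) : ℂ)) := by
      intro z
      rw [kG, ← Finset.mul_prod_erase Finset.univ _ (Finset.mem_univ i), Function.update_self,
        chl_apply, mul_div_assoc]
      congr 2
      refine Finset.prod_congr rfl fun k hk => ?_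
      rw [Function.update_of_ne (Finset.ne_of_mem_erase hk)]
    rw [h, h, map_smul, Rat.smul_def]
    ring

lemma Zm_apply (L : PeriodPair) (q : ℕ) (j : Fin (q + 3)) (D : Fin (q + 3) → (ℂ →₀ ℚ)) :
    Zm L q j D = ∑' c : Idx L q, kG L q (fun i => chs L (D i)) c.1 * conj (c.1 j : ℂ) := rfl

/-- zero on the divisors of `h - a` -/
lemma Zm_gen (L : PeriodPair) (q : ℕ) (j : Fin (q + 3)) (h : ℂ → ℂ) (hh : Meromorphic h)
    (hper : Per L h) (hc : ∀ a : ℂ, NZ fun z => h z - a) (D : Fin (q + 3) → (ℂ →₀ ℚ))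
    (hD : ∀ i, ∃ a : ℂ, IsDiv L (fun z => h z - a) (D i)) : Zm L q j D = 0 := by
  choose a ha using hD
  have hell : ∀ b : ℂ, Ell L (fun z => h z - b) := fun b =>
    ⟨hh.sub (Meromorphic.const b), hc b, fun l z => by
      show h (z + l) - b = h z - b
      rw [hper l z]⟩
  -- the sum with the last vector
  have hlast : ∀ b : Fin (q + 3) → ℂ,
      ∑' c : Idx L q, kG L q (fun i => pr L (dv fun z => h z - b i)) c.1 *
        conj (c.1 (Fin.last (q + 2)) : ℂ) = 0 := by
    intro b
    rw [kG_last L q (F := fun i z => h z - b i) fun i => hell (b i)]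
    have h1 : mean L (fun z => (∏ i : Fin (q + 2), tl L (fun z => h z - b i.castSucc) z) *
        qq (fun z => h z - b (Fin.last (q + 2))) 0 z) = 0 := by
      have h0 := mean_prod_tl L h hh hper hc Finset.univ (fun i : Fin (q + 2) => b i.castSucc)
        (fun i => mean L (lg fun z => h z - b i.castSucc)) (b (Fin.last (q + 2)))
      have he : (fun z => (∏ i : Fin (q + 2), tl L (fun z => h z - b i.castSucc) z) *
          qq (fun z => h z - b (Fin.last (q + 2))) 0 z) =
          fun z => (∏ k : Fin (q + 2), (lg (fun z => h z - b k.castSucc) z -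
            mean L (lg fun z => h z - b k.castSucc))) * qq h (b (Fin.last (q + 2))) z := by
        funext z
        congr 1
        rw [qq, qq, sub_zero, deriv_sub_const]
      rw [he]
      exact h0
    rw [h1, mul_zero]
  rw [Zm_apply]
  have h2 : ∀ i, chs L (D i) = pr L (dv fun z => h z - a i) := fun i =>
    funext fun γ => chs_isDiv (ha i) γ
  simp only [h2]
  have h3 := tsum_kG_perm L q (fun i => pr L (dv fun z => h z - a i))
    (Equiv.swap j (Fin.last (q + 2))) j
  rw [Equiv.swap_apply_left] at h3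
  rw [h3]
  exact hlast fun i => a ((Equiv.swap j (Fin.last (q + 2))).symm i)

/-- `K_n` of three divisors -/
def kdv (L : PeriodPair) (q : ℕ) (x f w : ℂ →₀ ℚ) : ℂ := Ksum L q (chs L x) (chs L f) (chs L w)

lemma kdv_eq (L : PeriodPair) (q : ℕ) (x f w : ℂ →₀ ℚ) :
    kdv L q x f w = Zm L q (Fin.last (q + 2)) (fam3 q x f w) -
      Zm L q (Fin.last (q + 1)).castSucc (fam3 q x f w) := by
  have h1 : (fun i => chs L (fam3 q x f w i)) = fam3 q (chs L x) (chs L f) (chs L w) := by
    funext i
    exact fam3_map q x f w (fun D => chs L D) i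
  have hbd : ∀ i, ∃ C : ℝ, 0 ≤ C ∧ ∀ z, ‖(fun i => chs L (fam3 q x f w i)) i z‖ ≤ C := fun i =>
    chs_bd' L _
  rw [Zm_apply, Zm_apply, ← (summable_kG L q hbd _).tsum_sub (summable_kG L q hbd _), h1, kdv,
    Ksum]
  exact tsum_congr fun c => kterm_fam3 L q _ _ _ c.1

lemma fam3_mem {V : Type*} (q : ℕ) {x f w : V} {U : Set V} (hx : x ∈ U) (hf : f ∈ U) (hw : w ∈ U)
    (i : Fin (q + 3)) : fam3 q x f w i ∈ U := by
  unfold fam3
  split_ifs
  · exact hx
  · exact hw
  · exact hf

lemma dv_zero_of_const {h : ℂ → ℂ} (hh : Meromorphic h) {a : ℂ} (ha : ¬ NZ fun z => h z - a)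
    (b : ℂ) : ∀ z, dv (fun z => h z - b) z = 0 := by
  have hm : ∀ b : ℂ, Meromorphic fun z => h z - b := fun b => hh.sub (Meromorphic.const b)
  by_cases hb : NZ fun z => h z - b
  · refine dv_eq_zero (hm b) hb (a := a - b) ?_
    have h1 : (fun z => h z - b - (a - b)) = fun z => h z - a := by
      funext z
      ring
    rw [h1]
    exact ha
  · intro z
    have htop : meromorphicOrderAt (fun z => h z - b) z = ⊤ := by
      by_contra hne
      refine hb fun w => ?_
      exact MeromorphicOn.meromorphicOrderAt_ne_top_of_isPreconnected (U := Set.univ)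
        (fun z _ => hm b z) isPreconnected_univ (Set.mem_univ z) (Set.mem_univ w) hne
    rw [dv, htop]
    rfl

/-- `K_n` vanishes on the divisors of rational functions of one elliptic function. -/
theorem kdv_rat (L : PeriodPair) (q : ℕ) (h : ℂ → ℂ) (hh : Meromorphic h) (hper : Per L h)
    (x f w : ℂ →₀ ℚ) (hx : x ∈ DivOf L h) (hf : f ∈ DivOf L h) (hw : w ∈ DivOf L h) :
    kdv L q x f w = 0 := by
  by_cases hc : ∀ a : ℂ, NZ fun z => h z - a
  · have hz : ∀ j, Zm L q j (fam3 q x f w) = 0 := by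
      intro j
      refine multi_span (Zm L q j) {D | ∃ a : ℂ, IsDiv L (fun z => h z - a) D} (fun D hD => ?_) _
        fun i => ?_
      · exact Zm_gen L q j h hh hper hc D hD
      · exact fam3_mem q (U := (DivOf L h : Set (ℂ →₀ ℚ))) hx hf hw i
    rw [kdv_eq, hz, hz, sub_zero]
  · push Not at hc
    obtain ⟨a, ha⟩ := hc
    have h1 : DivOf L h = ⊥ := by
      rw [eq_bot_iff, DivOf, Submodule.span_le]
      rintro D ⟨b, hb⟩
      rw [SetLike.mem_coe, Submodule.mem_bot]
      ext y
      rw [hb y, Finsupp.zero_apply]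
      by_cases hy : y ∈ ZSpan.fundamentalDomain L.basis
      · rw [Set.indicator_of_mem hy, dv_zero_of_const hh ha b y, Int.cast_zero]
      · rw [Set.indicator_of_notMem hy]
    rw [h1, Submodule.mem_bot] at hx
    have h2 : fam3 q x f w 0 = 0 := by
      unfold fam3
      rw [if_pos rfl, hx]
    rw [kdv_eq, (Zm L q _).map_coord_zero 0 h2, (Zm L q _).map_coord_zero 0 h2, sub_zero]

end Pool.Agent.F194

end
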