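import Mathlib

/-!
# MP_f194bb_nt: Parseval's formula for `F ∈ L^p`, `G ∈ L^{p'}` (helper52)
-/

set_option autoImplicit false

open MeasureTheory UnitAddTorus
open scoped ENNReal Topology Uniformity BoundedContinuousFunction

noncomputable section

namespace Pool.Agent.F194

/-- the two-dimensional torus -/
abbrev TT := UnitAddTorus (Fin 2)

/-- The Fourier coefficients are integrals for the usual measure of the torus (in Mathlib they are
defined with the normalised Haar measures of the factors). -/
theorem mFourierCoeff_def (f : TT → ℂ) (n : Fin 2 → ℤ) :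
    mFourierCoeff f n = ∫ t : TT, mFourier (-n) t * f t := by
  have h : (volume : Measure TT) = Measure.pi fun _ => AddCircle.haarAddCircle := by
    have h1 : (volume : Measure (AddCircle (1 : ℝ))) = AddCircle.haarAddCircle := by
      rw [AddCircle.volume_eq_smul_haarAddCircle, ENNReal.ofReal_one, one_smul]
    rw [← h1]
    rfl
  rw [h]
  rfl

theorem mFourier_add_apply (n : Fin 2 → ℤ) (x y : TT) :
    mFourier n (x + y) = mFourier n x * mFourier n y := by
  simp only [mFourier, ContinuousMap.coe_mk, Pi.add_apply, ← Finset.prod_mul_distrib]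
  refine Finset.prod_congr rfl fun i _ => ?_
  simp only [fourier_apply, smul_add, AddCircle.toCircle_add, Circle.coe_mul]

theorem mFourier_zero_apply (n : Fin 2 → ℤ) : mFourier n (0 : TT) = 1 := by
  simp only [mFourier, ContinuousMap.coe_mk, Pi.zero_apply, fourier_eval_zero,
    Finset.prod_const_one]

theorem norm_mFourier_apply (n : Fin 2 → ℤ) (x : TT) : ‖mFourier n x‖ = 1 := by
  simp only [mFourier, ContinuousMap.coe_mk, norm_prod, fourier_apply, Circle.norm_coe,
    Finset.prod_const_one]

theorem mFourier_neg_mul (n : Fin 2 → ℤ) (x : TT) : mFourier (-n) x * mFourier n x = 1 := by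
  rw [← mFourier_add, neg_add_cancel, mFourier_zero]
  rfl

theorem mFourier_neg_neg (n : Fin 2 → ℤ) (x : TT) : mFourier (-n) (-x) = mFourier n x := by
  have h1 := mFourier_add_apply (-n) x (-x)
  rw [add_neg_cancel, mFourier_zero_apply] at h1
  have h2 := mFourier_neg_mul n x
  have h3 : mFourier (-n) x ≠ 0 := left_ne_zero_of_mul (h2.trans_ne one_ne_zero)
  exact mul_left_cancel₀ h3 (h1.symm.trans h2.symm)

theorem memLp_mFourier_mul {p : ℝ≥0∞} {G : TT → ℂ} (hG : MemLp G p) (n : Fin 2 → ℤ) :
    MemLp (fun x => mFourier n x * G x) p := by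
  refine hG.of_le ((mFourier n).continuous.aestronglyMeasurable.mul hG.1) (ae_of_all _ fun x => ?_)
  rw [norm_mul, norm_mFourier_apply, one_mul]

theorem memLp_shift {p : ℝ≥0∞} {G : TT → ℂ} (hG : MemLp G p) (t : TT) :
    MemLp (fun z => G (z + t)) p :=
  hG.comp_measurePreserving (measurePreserving_add_right volume t)

theorem eLpNorm_shift {p : ℝ≥0∞} {G : TT → ℂ} (hG : MemLp G p) (t : TT) :
    eLpNorm (fun z => G (z + t)) p = eLpNorm G p :=
  eLpNorm_comp_measurePreserving hG.1 (measurePreserving_add_right volume t)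

/-- Hölder's inequality for an integral. -/
theorem norm_integral_mul_le {p q : ℝ≥0∞} [ENNReal.HolderTriple p q 1] {F G : TT → ℂ}
    (hF : MemLp F p) (hG : MemLp G q) :
    ‖∫ x, F x * G x‖ₑ ≤ eLpNorm F p * eLpNorm G q := by
  calc ‖∫ x, F x * G x‖ₑ ≤ ∫⁻ x, ‖F x * G x‖ₑ := enorm_integral_le_lintegral_enorm _
    _ = eLpNorm (F • G) 1 volume := by
      rw [eLpNorm_one_eq_lintegral_enorm]
      rfl
    _ ≤ _ := eLpNorm_smul_le_mul_eLpNorm hG.1 hF.1

theorem one_le_of_holder (p q : ℝ≥0∞) [h : ENNReal.HolderTriple p q 1] : 1 ≤ p ∧ 1 ≤ q := by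
  have h1 := h.inv_add_inv_eq_inv
  rw [inv_one] at h1
  constructor
  · rw [← ENNReal.inv_le_one, ← h1]
    exact le_self_add
  · rw [← ENNReal.inv_le_one, ← h1]
    exact le_add_self

/-- the correlation of `F` and `G` -/
def corr (F G : TT → ℂ) (t : TT) : ℂ := ∫ z, F z * G (z + t)

theorem corr_continuous_of_continuous (g : TT →ᵇ ℂ) {G : TT → ℂ} (hG : Integrable G) :
    Continuous (corr g G) := by
  have h1 : corr g G = fun t => ∫ w, g (w - t) * G w := by
    funext t
    rw [corr, ← integral_add_right_eq_self (fun w => g (w - t) * G w) t]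
    simp
  rw [h1]
  refine continuous_of_dominated (bound := fun w => ‖g‖ * ‖G w‖) (fun t => ?_) (fun t => ?_)
    (hG.norm.const_mul _) (ae_of_all _ fun w => ?_)
  · exact ((g.continuous.comp (continuous_id.sub continuous_const)).aestronglyMeasurable).mul hG.1
  · refine ae_of_all _ fun w => ?_
    rw [norm_mul]
    exact mul_le_mul_of_nonneg_right (g.norm_coe_le_norm _) (norm_nonneg _)
  · exact (g.continuous.comp (continuous_const.sub continuous_id)).mul continuous_const

theorem corr_continuous {p q : ℝ≥0∞} [ENNReal.HolderTriple p q 1] (hp : p ≠ ∞) {F G : TT → ℂ}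
    (hF : MemLp F p) (hG : MemLp G q) : Continuous (corr F G) := by
  obtain ⟨hp1, hq1⟩ := one_le_of_holder p q
  have hGi : Integrable G := hG.integrable hq1
  refine continuous_of_uniform_approx_of_continuous fun u hu => ?_
  obtain ⟨ε, hε, hεu⟩ := Metric.mem_uniformity_dist.1 hu
  set M : ℝ≥0∞ := eLpNorm G q with hM
  have hMtop : M ≠ ∞ := hG.2.ne
  obtain ⟨δ, hδ0, hδ⟩ : ∃ δ : ℝ≥0∞, δ ≠ 0 ∧ δ * M < ENNReal.ofReal ε := by
    rcases eq_or_ne M 0 with h0 | h0
    · exact ⟨1, one_ne_zero, by rw [h0, mul_zero]; exact ENNReal.ofReal_pos.2 hε⟩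
    · refine ⟨ENNReal.ofReal (ε / 2) / M, ?_, ?_⟩
      · exact (ENNReal.div_pos (ENNReal.ofReal_pos.2 (half_pos hε)).ne' hMtop).ne'
      · rw [ENNReal.div_mul_cancel h0 hMtop]
        exact (ENNReal.ofReal_lt_ofReal_iff hε).2 (half_lt_self hε)
  obtain ⟨g, hg, hgm⟩ := hF.exists_boundedContinuous_eLpNorm_sub_le hp hδ0
  refine ⟨corr g G, corr_continuous_of_continuous g hGi, fun t => hεu ?_⟩
  have hsh := memLp_shift hG t
  have hi1 : Integrable fun z => F z * G (z + t) := by
    have := memLp_one_iff_integrable.1 (MemLp.smul (p := p) (q := q) (r := 1) hsh hF)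
    exact this
  have hi2 : Integrable fun z => g z * G (z + t) := by
    have := memLp_one_iff_integrable.1 (MemLp.smul (p := p) (q := q) (r := 1) hsh hgm)
    exact this
  have h2 : corr F G t - corr g G t = ∫ z, (F - g) z * G (z + t) := by
    rw [corr, corr, ← integral_sub hi1 hi2]
    refine integral_congr_ae (ae_of_all _ fun z => ?_)
    simp only [Pi.sub_apply]
    ring
  have h3 : ‖corr F G t - corr g G t‖ₑ < ENNReal.ofReal ε := by
    rw [h2]
    refine (norm_integral_mul_le (p := p) (q := q) (hF.sub hgm) hsh).trans_lt ?_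
    rw [eLpNorm_shift hG]
    exact (mul_le_mul_left hg _).trans_lt hδ
  rw [dist_eq_norm, ← ENNReal.ofReal_lt_ofReal_iff hε, ofReal_norm_eq_enorm]
  exact h3

theorem coeff_corr {F G : TT → ℂ} (hF : Integrable F) (hG : Integrable G) (k : Fin 2 → ℤ) :
    mFourierCoeff (corr F G) k = mFourierCoeff F (-k) * mFourierCoeff G k := by
  have hprod : Integrable (fun p : TT × TT => F p.1 * G p.2) (volume.prod volume) :=
    hF.mul_prod hG
  have hsh : Integrable (fun p : TT × TT => F p.1 * G (p.1 + p.2)) (volume.prod volume) :=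
    (measurePreserving_prod_add (volume : Measure TT) (volume : Measure TT)).integrable_comp_of_integrable
      hprod
  have hint : Integrable (Function.uncurry fun (t z : TT) => mFourier (-k) t * (F z * G (z + t)))
      (volume.prod volume) := by
    have h1 : Integrable (fun p : TT × TT => F p.2 * G (p.2 + p.1)) (volume.prod volume) :=
      hsh.swap
    refine h1.mono (((mFourier (-k)).continuous.comp continuous_fst).aestronglyMeasurable.mul
      h1.1) (ae_of_all _ fun p => ?_)
    simp only [Function.uncurry]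
    rw [norm_mul, norm_mFourier_apply, one_mul]
  have h2 : mFourierCoeff (corr F G) k =
      ∫ t, ∫ z, mFourier (-k) t * (F z * G (z + t)) := by
    rw [mFourierCoeff_def]
    refine integral_congr_ae (ae_of_all _ fun t => ?_)
    simp only [corr]
    exact (integral_const_mul _ _).symm
  rw [h2, integral_integral_swap hint]
  have h3 : ∀ z : TT, ∫ t, mFourier (-k) t * (F z * G (z + t)) =
      mFourier k z * F z * mFourierCoeff G k := fun z => by
    have h4 : ∀ t : TT, mFourier (-k) t * (F z * G (z + t)) =
        (mFourier k z * F z) * (mFourier (-k) (z + t) * G (z + t)) := fun t => by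
      rw [mFourier_add_apply (-k) z t]
      have := mFourier_neg_mul k z
      linear_combination (-F z * G (z + t) * mFourier (-k) t) * this
    rw [integral_congr_ae (ae_of_all _ h4), integral_const_mul,
      integral_add_left_eq_self (fun w => mFourier (-k) w * G w) z, ← mFourierCoeff_def]
  rw [integral_congr_ae (ae_of_all _ h3), integral_mul_const]
  rw [mFourierCoeff_def F, neg_neg]

/-- Parseval's formula for conjugate exponents, when the sum converges absolutely. -/
theorem hasSum_parseval {p q : ℝ≥0∞} [ENNReal.HolderTriple p q 1] (hp : p ≠ ∞) {F G : TT → ℂ}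
    (hF : MemLp F p) (hG : MemLp G q)
    (hs : Summable fun k => mFourierCoeff F k * mFourierCoeff G (-k)) :
    HasSum (fun k => mFourierCoeff F k * mFourierCoeff G (-k)) (∫ x, F x * G x) := by
  obtain ⟨hp1, hq1⟩ := one_le_of_holder p q
  have hFi : Integrable F := hF.integrable hp1
  have hGi : Integrable G := hG.integrable hq1
  set X : C(TT, ℂ) := ⟨corr F G, corr_continuous hp hF hG⟩ with hX
  have hc : ∀ k, mFourierCoeff X k = mFourierCoeff F (-k) * mFourierCoeff G k := fun k =>
    coeff_corr hFi hGi k
  have hsX : Summable (mFourierCoeff X) := by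
    rw [← (Equiv.neg (Fin 2 → ℤ)).summable_iff]
    refine hs.congr fun k => ?_
    simp only [Function.comp, Equiv.neg_apply]
    rw [hc, neg_neg]
  have h := hasSum_mFourier_series_apply_of_summable hsX 0
  rw [← (Equiv.neg (Fin 2 → ℤ)).hasSum_iff] at h
  have h0 : X 0 = ∫ x, F x * G x := by
    change corr F G 0 = _
    simp only [corr, add_zero]
  rw [h0] at h
  refine h.congr_fun fun k => ?_
  simp only [Function.comp, Equiv.neg_apply, smul_eq_mul]
  rw [hc, neg_neg, mFourier_zero_apply, mul_one]

end Pool.Agent.F194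

end
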