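import Pool.Agent.Work.MP_f194bb_nt.Groups

/-!
# MP_f194bb_nt: the divisors of the elements of `ℂ(h)`

The hypothesis `RatGroups` holds when, in each group, any two of the functions lie in `ℂ(h)` for a
nonconstant elliptic function `h`.
-/

set_option autoImplicit false

open scoped ComplexConjugate Topology
open Set

noncomputable section

namespace Pool.Agent.F194

universe u

/-- `u ∈ ℂ(h)`: `Q(h) u = P(h)` for polynomials `P`, `Q ≠ 0`. -/
def InRat (h u : ℂ → ℂ) : Prop :=
  ∃ P Q : Polynomial ℂ, Q ≠ 0 ∧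
    (fun z => Q.eval (h z) * u z) =ᶠ[Filter.codiscrete ℂ] fun z => P.eval (h z)

lemma exists_isDiv (L : PeriodPair) {f : ℂ → ℂ} (hf : Meromorphic f) :
    ∃ D : ℂ →₀ ℚ, IsDiv L f D :=
  ⟨Finsupp.ofSupportFinite
    ((ZSpan.fundamentalDomain L.basis).indicator fun x => (dv f x : ℚ))
    ((dv_fin hf (‖L.ω₁‖ + ‖L.ω₂‖)).subset fun x hx => by
      have h1 : x ∈ ZSpan.fundamentalDomain L.basis := Set.mem_of_indicator_ne_zero hx
      refine ⟨FD_sub_ball L h1, fun h => hx ?_⟩
      rw [Set.indicator_of_mem h1, h, Int.cast_zero]), fun _ => rfl⟩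

lemma dv_mul' {F G : ℂ → ℂ} (hF : Meromorphic F) (hG : Meromorphic G) (hF0 : NZ F) (hG0 : NZ G)
    (x : ℂ) : dv (F * G) x = dv F x + dv G x := by
  rw [dv, dv, dv, meromorphicOrderAt_mul (hF x) (hG x), WithTop.untop₀_add (hF0 x) (hG0 x)]

lemma nz_mul {F G : ℂ → ℂ} (hF : Meromorphic F) (hG : Meromorphic G) (hF0 : NZ F) (hG0 : NZ G) :
    NZ (F * G) := by
  intro z
  rw [meromorphicOrderAt_mul (hF z) (hG z)]
  exact WithTop.add_ne_top.2 ⟨hF0 z, hG0 z⟩

lemma IsDiv.mul {L : PeriodPair} {F G : ℂ → ℂ} {D D' : ℂ →₀ ℚ} (hF : Meromorphic F)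
    (hG : Meromorphic G) (hF0 : NZ F) (hG0 : NZ G) (hD : IsDiv L F D) (hD' : IsDiv L G D') :
    IsDiv L (F * G) (D + D') := by
  intro x
  rw [Finsupp.add_apply, hD, hD']
  by_cases hx : x ∈ ZSpan.fundamentalDomain L.basis
  · rw [Set.indicator_of_mem hx, Set.indicator_of_mem hx, Set.indicator_of_mem hx,
      dv_mul' hF hG hF0 hG0]
    push_cast
    rfl
  · rw [Set.indicator_of_notMem hx, Set.indicator_of_notMem hx, Set.indicator_of_notMem hx,
      add_zero]

/-- products of factors `h - a` -/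
lemma prod_div (L : PeriodPair) {h : ℂ → ℂ} (hh : Meromorphic h)
    (hc : ∀ a : ℂ, NZ fun z => h z - a) (s : Multiset ℂ) :
    Meromorphic (fun z => (s.map fun a => h z - a).prod) ∧
      NZ (fun z => (s.map fun a => h z - a).prod) ∧
      ∃ D ∈ DivOf L h, IsDiv L (fun z => (s.map fun a => h z - a).prod) D := by
  induction s using Multiset.induction_on with
  | empty =>
    have h1 : (fun z => (Multiset.map (fun a => h z - a) 0).prod) = fun _ => (1 : ℂ) := by
      funext z
      simp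
    have h2 : ∀ z, meromorphicOrderAt (fun _ : ℂ => (1 : ℂ)) z = 0 := by
      intro z
      rw [meromorphicOrderAt_const]
      simp
    rw [h1]
    refine ⟨Meromorphic.const 1, fun z => by rw [h2 z]; simp, 0, zero_mem _, ?_⟩
    intro x
    by_cases hx : x ∈ ZSpan.fundamentalDomain L.basis
    · rw [Set.indicator_of_mem hx, dv, h2]
      simp
    · rw [Set.indicator_of_notMem hx]
      simp
  | cons a s ih =>
    obtain ⟨h1, h2, D, h3, h4⟩ := ih
    have h5 : (fun z => (Multiset.map (fun a => h z - a) (a ::ₘ s)).prod) =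
        (fun z => h z - a) * fun z => (s.map fun a => h z - a).prod := by
      funext z
      rw [Multiset.map_cons, Multiset.prod_cons]
      rfl
    have h6 : Meromorphic fun z => h z - a := hh.sub (Meromorphic.const a)
    obtain ⟨D', hD'⟩ := exists_isDiv L h6
    rw [h5]
    exact ⟨h6.mul h1, nz_mul h6 h1 (hc a) h2, D' + D,
      add_mem (Submodule.subset_span ⟨a, hD'⟩) h3, IsDiv.mul h6 h1 (hc a) h2 hD' h4⟩

/-- nonzero polynomials in `h` -/
lemma poly_div (L : PeriodPair) {h : ℂ → ℂ} (hh : Meromorphic h)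
    (hc : ∀ a : ℂ, NZ fun z => h z - a) (P : Polynomial ℂ) (hP : P ≠ 0) :
    Meromorphic (fun z => P.eval (h z)) ∧ NZ (fun z => P.eval (h z)) ∧
      ∃ D ∈ DivOf L h, IsDiv L (fun z => P.eval (h z)) D := by
  obtain ⟨h1, h2, D, h3, h4⟩ := prod_div L hh hc P.roots
  have hsplit : P = Polynomial.C P.leadingCoeff * (P.roots.map fun a => Polynomial.X -
      Polynomial.C a).prod := by
    have := IsAlgClosed.splits P
    exact this.eq_prod_roots
  have hl : P.leadingCoeff ≠ 0 := Polynomial.leadingCoeff_ne_zero.2 hP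
  have he : (fun z => P.eval (h z)) = (fun _ => P.leadingCoeff) *
      fun z => (P.roots.map fun a => h z - a).prod := by
    funext z
    conv_lhs => rw [hsplit]
    rw [Polynomial.eval_mul, Polynomial.eval_C, Polynomial.eval_multiset_prod, Multiset.map_map]
    simp
  have hcm : Meromorphic fun _ : ℂ => P.leadingCoeff := Meromorphic.const _
  have hco : ∀ z, meromorphicOrderAt (fun _ : ℂ => P.leadingCoeff) z = 0 := by
    intro z
    rw [meromorphicOrderAt_const]
    simp [hP]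
  have hc0 : NZ fun _ : ℂ => P.leadingCoeff := fun z => by rw [hco z]; simp
  rw [he]
  refine ⟨hcm.mul h1, nz_mul hcm h1 hc0 h2, D, h3, ?_⟩
  have h5 : IsDiv L (fun _ : ℂ => P.leadingCoeff) 0 := by
    intro x
    by_cases hx : x ∈ ZSpan.fundamentalDomain L.basis
    · rw [Set.indicator_of_mem hx, dv, hco]
      simp
    · rw [Set.indicator_of_notMem hx]
      simp
  have := IsDiv.mul hcm h1 hc0 h2 h5 h4
  rwa [zero_add] at this

variable {L : PeriodPair} {K : Type u} [Field K]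

lemma mem_divOf (ρ : EllRep L K) {h : ℂ → ℂ} (hh : Meromorphic h)
    (hc : ∀ a : ℂ, NZ fun z => h z - a) (u : K) (hu : InRat h (ρ.ev u)) :
    divT ρ u ∈ DivOf L h := by
  by_cases hu0 : u = 0
  · have : divT ρ u = 0 := by
      rw [hu0]
      ext x
      rw [divT_apply, ρ.dv_zero]
      by_cases h : x ∈ ZSpan.fundamentalDomain L.basis
      · rw [Set.indicator_of_mem h]; simp
      · rw [Set.indicator_of_notMem h]; simp
    rw [this]
    exact zero_mem _
  obtain ⟨P, Q, hQ, hPQ⟩ := hu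
  obtain ⟨hQm, hQ0, DQ, hDQ, hDQ'⟩ := poly_div L hh hc Q hQ
  have hmul : (fun z => Q.eval (h z)) * ρ.ev u =ᶠ[Filter.codiscrete ℂ] fun z => P.eval (h z) := hPQ
  have hNZ : NZ ((fun z => Q.eval (h z)) * ρ.ev u) := nz_mul hQm (ρ.mero u) hQ0 (ρ.nz hu0)
  have hP : P ≠ 0 := by
    rintro rfl
    apply hNZ 0
    rw [order_congr hmul, meromorphicOrderAt_eq_top_iff]
    exact Filter.Eventually.of_forall fun z => by simp
  obtain ⟨_, _, DP, hDP, hDP'⟩ := poly_div L hh hc P hP
  have he : divT ρ u = DP - DQ := by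
    ext x
    rw [Finsupp.sub_apply, divT_apply, hDP', hDQ']
    by_cases hx : x ∈ ZSpan.fundamentalDomain L.basis
    · rw [Set.indicator_of_mem hx, Set.indicator_of_mem hx, Set.indicator_of_mem hx,
        ← dv_congr hmul, dv_mul' hQm (ρ.mero u) hQ0 (ρ.nz hu0)]
      push_cast
      ring
    · rw [Set.indicator_of_notMem hx, Set.indicator_of_notMem hx, Set.indicator_of_notMem hx,
        sub_zero]
  rw [he]
  exact sub_mem hDP hDQ

lemma InRat.one_sub (ρ : EllRep L K) {h : ℂ → ℂ} {u : K} (hu : InRat h (ρ.ev u)) :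
    InRat h (ρ.ev (1 - u)) := by
  obtain ⟨P, Q, hQ, hPQ⟩ := hu
  refine ⟨Q - P, Q, hQ, ?_⟩
  filter_upwards [hPQ, ρ.one_sub u] with z h1 h2
  rw [h2, Polynomial.eval_sub, mul_sub, mul_one, h1]

/-- Functions which lie, two by two, in a common field `ℂ(h)` satisfy `RatGroups`. -/
theorem ratGroups_of_inRat (ρ : EllRep L K) {ι J : Type*} (f : ι → Kˣ) (c : ι → J)
    (H : ∀ i k, c i = c k → ∃ h : ℂ → ℂ, Meromorphic h ∧ Per L h ∧ (∀ a : ℂ, NZ fun z => h z - a) ∧
      InRat h (ρ.ev (f i : K)) ∧ InRat h (ρ.ev (f k : K))) : RatGroups ρ f c := by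
  intro i k hik
  obtain ⟨h, h1, h2, h3, h4, h5⟩ := H i k hik
  exact ⟨h, h1, h2, mem_divOf ρ h1 h3 _ h4, mem_divOf ρ h1 h3 _ (InRat.one_sub ρ h4),
    mem_divOf ρ h1 h3 _ h5⟩

end Pool.Agent.F194

end
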