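import Pool.Agent.Work.MP_f194bb_nt.Asm

/-!
# The sums `K_n` vanish on short 2-cocycles

`L` is a lattice, `K` a field of elliptic functions for it (for instance `ℚ(E)`), `n = p + 4`.
`CocycleI p f g` is condition (i): `∑ {f i}_{n-2} ⊗ (f i ∧ g i) = 0` in `B_{n-2}(K) ⊗ Λ² K*`.
If the divisors of the `f i` lie on at most `n - 3` lines of the space of divisors with rational
coefficients (or, more generally, if the `(n-4)`-th tensor powers of vectors spanning these lines
are linearly independent), then `∑ K_n((g i), (f i), (1 - f i)) = 0`.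
-/

namespace Pool.Agent.Results.MP_f194bb_nt.ShortCocycles

open Pool.Agent.F194

universe u v

theorem result (L : PeriodPair) {K : Type u} [Field K] (ρ : EllRep L K) (p : ℕ)
    {ι : Type} [Fintype ι] (f g : ι → Kˣ) (h : CocycleI p f g)
    {J : Type v} [Fintype J] (e : J → (ℂ →₀ ℚ))
    (he : Fintype.card J ≤ p + 1 ∨ PowInd p e)
    (hf : ∀ i, ∃ (j : J) (a : ℚ), divT ρ (f i : K) = a • e j) :
    ∑ i, Ksum L (p + 1) (pr L (dv (ρ.ev (g i : K)))) (pr L (dv (ρ.ev (f i : K))))
      (pr L (dv (ρ.ev (1 - f i : K)))) = 0 :=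
  short_cocycle ρ p f g h e he hf

end Pool.Agent.Results.MP_f194bb_nt.ShortCocycles
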