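import Pool.Agent.Work.MP_f194bb_nt.Asm
import Pool.Agent.Work.MP_f194bb_nt.Box
import Pool.Agent.Work.MP_f194bb_nt.Riem

/-!
# MP_f194bb_nt: cocycles with bounded support
-/

set_option autoImplicit false

open scoped ComplexConjugate Topology
open Set

noncomputable section

namespace Pool.Agent.F194

universe u

variable {L : PeriodPair} {K : Type u} [Field K]

lemma dv_bound' (ρ : EllRep L K) (u : Kˣ) (S : Finset ℂ)
    (hS : ∀ x ∈ ZSpan.fundamentalDomain L.basis,
      (dv (ρ.ev (u : K)) x ≠ 0 ∨ dv (ρ.ev (1 - u : K)) x ≠ 0) → x ∈ S) :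
    ∀ x ∈ ZSpan.fundamentalDomain L.basis, |dv (ρ.ev (u : K)) x| ≤ S.card := by
  by_cases hc : ∀ a : ℂ, NZ fun z => ρ.ev (u : K) z - a
  · refine dv_bound L _ (ρ.mero _) (ρ.per _) hc S fun x hx h => hS x hx ?_
    rw [dv_congr (ρ.one_sub (u : K))]
    exact h
  · push Not at hc
    obtain ⟨a, ha⟩ := hc
    intro x _
    rw [dv_eq_zero (ρ.mero _) (ρ.nz u.ne_zero) ha x]
    simp

/-- **Bounded support.** -/
theorem bounded_support (ρ : EllRep L K) (p : ℕ) {ι : Type} [Fintype ι] (f g : ι → Kˣ)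
    (h : CocycleI p f g) (S : Finset ℂ)
    (hS : ∀ i, ∀ x ∈ ZSpan.fundamentalDomain L.basis,
      (dv (ρ.ev (f i : K)) x ≠ 0 ∨ dv (ρ.ev (1 - f i : K)) x ≠ 0) → x ∈ S)
    (hp : (S.card - 1) * (2 * S.card * (S.card + 1)) ≤ p) :
    ∑ i, Ksum L (p + 1) (pr L (dv (ρ.ev (g i : K)))) (pr L (dv (ρ.ev (f i : K))))
      (pr L (dv (ρ.ev (1 - f i : K)))) = 0 := by
  classical
  by_cases hne : ∃ i, divT ρ (f i : K) ≠ 0
  · obtain ⟨T, t, h1, h2, h3⟩ := lines_reps (fun i => divT ρ (f i : K)) hne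
    refine short_cocycle ρ p f g h (fun W : T => divT ρ (f (t W) : K)) (Or.inr ?_)
      (fun i => h3 i)
    refine powInd_of_sep p _ fun W => ?_
    refine sep_box S.card p S (fun W : T => divT ρ (f (t W) : K)) ?_ ?_ h1 (fun W W' => h2 W W')
      hp W
    · intro W x
      by_cases hx : x ∈ ZSpan.fundamentalDomain L.basis
      · refine ⟨dv (ρ.ev (f (t W) : K)) x, dv_bound' ρ (f (t W)) S (hS _) x hx, ?_⟩
        show divT ρ (f (t W) : K) x = _
        rw [divT_apply, Set.indicator_of_mem hx]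
      · refine ⟨0, by simp, ?_⟩
        show divT ρ (f (t W) : K) x = _
        rw [divT_apply, Set.indicator_of_notMem hx, Int.cast_zero]
    · intro W x hx
      show divT ρ (f (t W) : K) x = 0
      rw [divT_apply]
      by_cases hxF : x ∈ ZSpan.fundamentalDomain L.basis
      · rw [Set.indicator_of_mem hxF]
        by_contra hcon
        apply hx
        refine hS (t W) x hxF (Or.inl fun h0 => hcon ?_)
        rw [h0, Int.cast_zero]
      · rw [Set.indicator_of_notMem hxF]
  · push Not at hne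
    refine short_cocycle ρ p f g h (fun _ : Unit => 0) (Or.inl (by simp)) fun i => ⟨(), 0, ?_⟩
    rw [hne i, zero_smul]

end Pool.Agent.F194

end
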