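import Pool.Agent.Work.MP_f194bb_nt.Torus

/-!
# MP_f194bb_nt: statements of the analytic modules (nothing may import this file in the end)
-/

set_option autoImplicit false

open scoped ComplexConjugate
open MeasureTheory

noncomputable section

namespace Pool.Agent.F194.Tasks
open Pool.Agent.F194

/-- DIR (Dir.lean): the mean of a derivative of a periodic function is zero. -/
theorem mean_fderiv (L : PeriodPair) (F : ℂ → ℂ) (hper : Per L F) (S : Set ℂ) (hS : S.Countable)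
    (hF : ∀ z, z ∉ S → ContDiffAt ℝ 1 F z)
    (hint : IntegrableOn (fun x => ‖fderiv ℝ F (E L x)‖) box) (w : ℂ) :
    mean L (fun z => fderiv ℝ F z w) = 0 := sorry

/-- CP (CP.lean): Cauchy-Pompeiu. -/
theorem cauchy_pompeiu (V : ℂ → ℂ) (hV : ContDiff ℝ 1 V) (hc : HasCompactSupport V) (t : ℂ) :
    Integrable (fun ζ => dbar V ζ / (t - ζ)) ∧
      V t = (Real.pi : ℂ)⁻¹ * ∫ ζ, dbar V ζ / (t - ζ) := sorry

/-- LOC (Loc.lean): `|log ‖f‖|^k` and `|f'/f|^(3/2)` are locally integrable. -/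
theorem loc_log (f : ℂ → ℂ) (hf : Meromorphic f) (h0 : NZ f) (k : ℕ) (r : ℝ) :
    IntegrableOn (fun z => |Real.log ‖f z‖| ^ k) (Metric.closedBall 0 r) := sorry

theorem loc_q (f : ℂ → ℂ) (hf : Meromorphic f) (h0 : NZ f) (r : ℝ) :
    IntegrableOn (fun z => ‖deriv f z / f z‖ ^ (3 / 2 : ℝ)) (Metric.closedBall 0 r) := sorry

theorem memLp_lg (L : PeriodPair) (f : ℂ → ℂ) (hf : Meromorphic f) (h0 : NZ f) (p : ℕ) :
    MemLp (tor L (lg f)) p := sorry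

theorem memLp_qq (L : PeriodPair) (f : ℂ → ℂ) (c : ℂ) (hf : Meromorphic f)
    (h0 : NZ fun z => f z - c) : MemLp (tor L (qq f c)) (3 / 2) := sorry

/-- FOUR (Four.lean): Fourier coefficients of `f'/f` and of `log ‖f‖`. -/
theorem four_q (L : PeriodPair) (f : ℂ → ℂ) (hf : Meromorphic f) (h0 : NZ f) (hper : Per L f)
    (γ : L.lattice) (hγ : γ ≠ 0) :
    mean L (fun z => deriv f z / f z * chi L z γ) =
      Real.pi * areaA L / vol L * (pr L (dv f) γ / γ) := sorry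

theorem four_log (L : PeriodPair) (f : ℂ → ℂ) (hf : Meromorphic f) (h0 : NZ f) (hper : Per L f)
    (γ : L.lattice) (hγ : γ ≠ 0) :
    mean L (fun z => lg f z * chi L z γ) =
      -(Real.pi * areaA L ^ 2 / (2 * vol L)) * (pr L (dv f) γ / ‖(γ : ℂ)‖ ^ 2) := sorry

/-- VAN (Van.lean): the vanishing of `∫ V(f) f'/(f - c)`. -/
theorem mean_qq (L : PeriodPair) (f : ℂ → ℂ) (hf : Meromorphic f) (hper : Per L f) (c : ℂ)
    (hc : NZ fun z => f z - c) : mean L (qq f c) = 0 := sorry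

theorem mean_V (L : PeriodPair) (f : ℂ → ℂ) (hf : Meromorphic f) (hper : Per L f) (c : ℂ)
    (hc : ∀ a : ℂ, NZ fun z => f z - a) (V : ℂ → ℂ) (hV : ContDiff ℝ 1 V)
    (hcp : HasCompactSupport V) : mean L (fun z => V (f z) * qq f c z) = 0 := sorry

theorem mean_log_pow (L : PeriodPair) (f : ℂ → ℂ) (hf : Meromorphic f) (hper : Per L f) (c : ℂ)
    (hc : ∀ a : ℂ, NZ fun z => f z - a) (k : ℕ) :
    mean L (fun z => lg f z ^ k * qq f c z) = 0 := sorry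

/-- CONV (Conv.lean): the multiple Fourier sum of `U^N Q`. -/
theorem conv_main (U Q : UnitAddTorus (Fin 2) → ℂ) (N : ℕ) (hN : 2 ≤ N)
    (hU : ∀ p : ℕ, MemLp U p) (hQ : MemLp Q (3 / 2)) (C : ℝ)
    (ha : ∀ k : Fin 2 → ℤ, ‖UnitAddTorus.mFourierCoeff U k‖ ≤ C * (1 + ‖k‖ ^ 2)⁻¹)
    (hq : ∀ k : Fin 2 → ℤ, ‖UnitAddTorus.mFourierCoeff Q k‖ ≤ C * (1 + ‖k‖)⁻¹) :
    HasSum (fun c : Fin N → (Fin 2 → ℤ) =>
      (∏ i, UnitAddTorus.mFourierCoeff U (c i)) * UnitAddTorus.mFourierCoeff Q (-∑ i, c i))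
      (∫ x, U x ^ N * Q x) := sorry

/-- KV (KVanish.lean): the analytic main theorem. -/
theorem kvanish (L : PeriodPair) (q : ℕ) (f : ℂ → ℂ) (hf : Meromorphic f) (hper : Per L f)
    (h0 : NZ f) (h1 : NZ fun z => 1 - f z) :
    Ksum L q (pr L (dv f)) (pr L (dv f)) (pr L (dv fun z => 1 - f z)) = 0 := sorry

/-- KSUM (KsumLin.lean): formal properties of `Ksum`. -/
theorem ksum_summable (L : PeriodPair) (q : ℕ) (P₁ P₂ P₃ : ℂ → ℂ) (C : ℝ)
    (h₁ : ∀ z, ‖P₁ z‖ ≤ C) (h₂ : ∀ z, ‖P₂ z‖ ≤ C) (h₃ : ∀ z, ‖P₃ z‖ ≤ C) :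
    Summable (fun c : Idx L q => kterm L q P₁ P₂ P₃ c) := sorry

theorem ksum_swap (L : PeriodPair) (q : ℕ) (P₁ P₂ : ℂ → ℂ) : Ksum L q P₁ P₂ P₂ = 0 := sorry

end Pool.Agent.F194.Tasks

end
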