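import Pool.Agent.Work.MP_f194bb_nt.Defs

/-!
# MP_f194bb_nt: the torus `ℂ/Γ`, coordinates and means (definitions)
-/

set_option autoImplicit false

open scoped ComplexConjugate
open MeasureTheory

noncomputable section

namespace Pool.Agent.F194

/-- coordinates on `ℂ` -/
def E (L : PeriodPair) (x : Fin 2 → ℝ) : ℂ := x 0 * L.ω₁ + x 1 * L.ω₂

/-- the unit box -/
def box : Set (Fin 2 → ℝ) := Set.pi Set.univ fun _ => Set.Ioc (0 : ℝ) 1

/-- the mean of a function over the fundamental parallelogram -/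
def mean (L : PeriodPair) (F : ℂ → ℂ) : ℂ := ∫ x in box, F (E L x)

/-- area of the fundamental parallelogram -/
def vol (L : PeriodPair) : ℝ := |(conj L.ω₁ * L.ω₂).im|

/-- the function on the torus defined by a function on `ℂ` -/
def tor (L : PeriodPair) (F : ℂ → ℂ) (x : UnitAddTorus (Fin 2)) : ℂ :=
  F (E L (UnitAddTorus.measurableEquivPiIoc (fun _ => (0 : ℝ)) x : Fin 2 → ℝ))

/-- `∂/∂z̄` -/
def dbar (V : ℂ → ℂ) (z : ℂ) : ℂ := (fderiv ℝ V z 1 + Complex.I * fderiv ℝ V z Complex.I) / 2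

/-- `∂/∂z` -/
def dd (V : ℂ → ℂ) (z : ℂ) : ℂ := (fderiv ℝ V z 1 - Complex.I * fderiv ℝ V z Complex.I) / 2

/-- `Γ`-periodic -/
def Per (L : PeriodPair) (F : ℂ → ℂ) : Prop := ∀ l : L.lattice, ∀ z, F (z + l) = F z

/-- A nonzero meromorphic function (nowhere locally zero). -/
def NZ (f : ℂ → ℂ) : Prop := ∀ z, meromorphicOrderAt f z ≠ ⊤

/-- `log ‖f‖` as a complex valued function -/
def lg (f : ℂ → ℂ) (z : ℂ) : ℂ := ((Real.log ‖f z‖ : ℝ) : ℂ)

/-- `f'/(f - c)` -/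
def qq (f : ℂ → ℂ) (c : ℂ) (z : ℂ) : ℂ := deriv f z / (f z - c)

end Pool.Agent.F194

end
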