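import Pool.Agent.Work.MP_f194bb_nt.Meas

/-!
# MP_f194bb_nt: a partition of unity on `ℂ/Γ` and unfolding
-/

set_option autoImplicit false

open scoped ComplexConjugate ENNReal Topology
open MeasureTheory Set

noncomputable section

namespace Pool.Agent.F194

/-- a bump with `β(s) + β(s-1) = 1` on `[0,1]`, supported in `[-1,1]` -/
def beta (s : ℝ) : ℝ := Real.smoothTransition (1 + s) - Real.smoothTransition s

lemma beta_smooth : ContDiff ℝ 2 beta := by
  unfold beta
  have h : ContDiff ℝ 2 Real.smoothTransition := Real.smoothTransition.contDiff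
  fun_prop

lemma beta_zero_of_le {s : ℝ} (h : s ≤ -1) : beta s = 0 := by
  unfold beta
  rw [Real.smoothTransition.zero_of_nonpos (by linarith),
    Real.smoothTransition.zero_of_nonpos (by linarith), sub_zero]

lemma beta_zero_of_ge {s : ℝ} (h : 1 ≤ s) : beta s = 0 := by
  unfold beta
  rw [Real.smoothTransition.one_of_one_le (by linarith), Real.smoothTransition.one_of_one_le h,
    sub_self]

lemma beta_add {s : ℝ} (h0 : 0 ≤ s) (h1 : s ≤ 1) : beta s + beta (s - 1) = 1 := by
  unfold beta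
  rw [Real.smoothTransition.one_of_one_le (by linarith : (1 : ℝ) ≤ 1 + s),
    show 1 + (s - 1) = s by ring, Real.smoothTransition.zero_of_nonpos (by linarith : s - 1 ≤ 0)]
  ring

/-- Data for unfolding in one variable. -/
structure Unf (a : ℝ → ℝ) (c : ℝ) : Prop where
  cont : Continuous a
  supp : ∀ s, s ∉ Ioo (-1 : ℝ) 1 → a s = 0
  add : ∀ s ∈ Ioo (0 : ℝ) 1, a s + a (s - 1) = c

lemma unf_beta : Unf beta 1 where
  cont := beta_smooth.continuous
  supp s hs := by
    rw [mem_Ioo, not_and_or, not_lt, not_lt] at hs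
    rcases hs with h | h
    · exact beta_zero_of_le h
    · exact beta_zero_of_ge h
  add s hs := beta_add hs.1.le hs.2.le

lemma unf_dbeta : Unf (deriv beta) 0 where
  cont := beta_smooth.continuous_deriv (by norm_num)
  supp s hs := by
    rw [mem_Ioo, not_and_or, not_lt, not_lt] at hs
    have hd : HasDerivAt beta (deriv beta s) s :=
      (beta_smooth.differentiable (by norm_num) s).hasDerivAt
    rcases hs with h | h
    · have h1 : HasDerivWithinAt beta (deriv beta s) (Iic s) s := hd.hasDerivWithinAt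
      have h2 : HasDerivWithinAt beta 0 (Iic s) s := by
        refine (hasDerivWithinAt_const s (Iic s) (0 : ℝ)).congr (fun y hy => ?_) ?_
        · exact beta_zero_of_le (le_trans hy h)
        · exact beta_zero_of_le h
      exact (uniqueDiffWithinAt_Iic s).eq_deriv _ h1 h2
    · have h1 : HasDerivWithinAt beta (deriv beta s) (Ici s) s := hd.hasDerivWithinAt
      have h2 : HasDerivWithinAt beta 0 (Ici s) s := by
        refine (hasDerivWithinAt_const s (Ici s) (0 : ℝ)).congr (fun y hy => ?_) ?_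
        · exact beta_zero_of_ge (le_trans h hy)
        · exact beta_zero_of_ge h
      exact (uniqueDiffWithinAt_Ici s).eq_deriv _ h1 h2
  add s hs := by
    have hd : ∀ s, HasDerivAt beta (deriv beta s) s := fun s =>
      (beta_smooth.differentiable (by norm_num) s).hasDerivAt
    have h1 : HasDerivAt (fun s => beta s + beta (s - 1)) (deriv beta s + deriv beta (s - 1)) s := by
      have h2 := (hd (s - 1)).comp s ((hasDerivAt_id s).sub_const 1)
      rw [mul_one] at h2
      exact (hd s).add h2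
    have h3 : (fun s => beta s + beta (s - 1)) =ᶠ[𝓝 s] fun _ => 1 := by
      filter_upwards [isOpen_Ioo.mem_nhds hs] with t ht
      exact beta_add ht.1.le ht.2.le
    have h4 := h3.deriv_eq
    rw [h1.deriv, deriv_const] at h4
    exact h4

/-- unfolding in one variable -/
lemma unfold_one {a : ℝ → ℝ} {c : ℝ} (ha : Unf a c) (g : ℝ → ℂ) (hg : ∀ s, g (s + 1) = g s)
    (hi : IntegrableOn g (Ioc (0 : ℝ) 1)) :
    Integrable (fun s => (a s : ℂ) * g s) ∧
      ∫ s, (a s : ℂ) * g s = c * ∫ s in Ioc (0 : ℝ) 1, g s := by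
  have hac : Continuous fun s => (a s : ℂ) := Complex.continuous_ofReal.comp ha.cont
  have hi0 : IntervalIntegrable g volume 0 1 :=
    (intervalIntegrable_iff_integrableOn_Ioc_of_le zero_le_one).2 hi
  have hi1 : IntervalIntegrable g volume (-1) 0 := by
    have h := hi0.comp_add_right 1
    simp only [hg] at h
    norm_num at h
    exact h
  have hp : ∀ s, (a s : ℂ) * g s = 0 ∨ s ∈ Ioc (-1 : ℝ) 1 := by
    intro s
    by_cases h : s ∈ Ioo (-1 : ℝ) 1
    · exact Or.inr ⟨h.1, h.2.le⟩
    · left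
      rw [ha.supp s h]
      simp
  have hmul : ∀ x y, IntervalIntegrable g volume x y →
      IntervalIntegrable (fun s => (a s : ℂ) * g s) volume x y := fun x y h =>
    h.continuousOn_mul hac.continuousOn
  have hI : IntervalIntegrable (fun s => (a s : ℂ) * g s) volume (-1) 1 :=
    (hmul _ _ hi1).trans (hmul _ _ hi0)
  have hII : IntegrableOn (fun s => (a s : ℂ) * g s) (Ioc (-1 : ℝ) 1) :=
    (intervalIntegrable_iff_integrableOn_Ioc_of_le (by norm_num)).1 hI
  refine ⟨(integrableOn_iff_integrable_of_support_subset fun s hs => (hp s).resolve_left hs).1 hII,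
    ?_⟩
  have h1 : ∫ s, (a s : ℂ) * g s = ∫ s in (-1 : ℝ)..1, (a s : ℂ) * g s := by
    rw [intervalIntegral.integral_of_le (by norm_num)]
    exact (setIntegral_eq_integral_of_forall_compl_eq_zero fun s hs => (hp s).resolve_right hs).symm
  rw [h1, ← intervalIntegral.integral_add_adjacent_intervals (hmul _ _ hi1) (hmul _ _ hi0)]
  have h2 : ∫ s in (-1 : ℝ)..0, (a s : ℂ) * g s = ∫ s in (0 : ℝ)..1, (a (s - 1) : ℂ) * g s := by
    have h3 := intervalIntegral.integral_comp_sub_right (fun s => (a s : ℂ) * g s) (1 : ℝ)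
      (a := 0) (b := 1)
    norm_num at h3
    rw [← h3]
    refine intervalIntegral.integral_congr fun s _ => ?_
    show (a (s - 1) : ℂ) * g (s - 1) = (a (s - 1) : ℂ) * g s
    rw [← hg (s - 1), sub_add_cancel]
  have hm2 : IntervalIntegrable (fun s => (a (s - 1) : ℂ) * g s) volume 0 1 :=
    hi0.continuousOn_mul (by
      have : Continuous fun s : ℝ => (a (s - 1) : ℂ) := hac.comp (by fun_prop)
      exact this.continuousOn)
  rw [h2, ← intervalIntegral.integral_add hm2 (hmul _ _ hi0),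
    intervalIntegral.integral_of_le zero_le_one, ← integral_const_mul, integral_Ioc_eq_integral_Ioo,
    integral_Ioc_eq_integral_Ioo]
  refine setIntegral_congr_fun measurableSet_Ioo fun s hs => ?_
  have := ha.add s hs
  show (a (s - 1) : ℂ) * g s + (a s : ℂ) * g s = c * g s
  rw [← this]
  push_cast
  ring

/-- a periodic property that holds almost everywhere on a period -/
lemma ae_of_periodic {P : ℝ → Prop} (hP : ∀ t, P (t + 1) ↔ P t)
    (h : ∀ᵐ t ∂(volume.restrict (Ioc (0 : ℝ) 1)), P t) : ∀ᵐ t, P t := by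
  have hPn : ∀ (n : ℕ) t, P (t + n) ↔ P t := by
    intro n
    induction n with
    | zero => intro t; simp
    | succ n ih =>
      intro t
      rw [Nat.cast_succ, ← add_assoc, hP, ih]
  have hPz : ∀ (n : ℤ) t, P (t - n) ↔ P t := by
    intro n t
    obtain ⟨m, rfl | rfl⟩ := n.eq_nat_or_neg
    · have := hPn m (t - m)
      rw [sub_add_cancel] at this
      simpa using this.symm
    · have := hPn m t
      simpa using this
  rw [ae_restrict_iff' measurableSet_Ioc] at h
  have h2 : ∀ n : ℤ, ∀ᵐ t : ℝ, t - n ∈ Ioc (0 : ℝ) 1 → P (t - n) := fun n =>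
    (measurePreserving_sub_right volume (n : ℝ)).quasiMeasurePreserving.ae h
  rw [← ae_all_iff] at h2
  filter_upwards [h2] with t ht
  have h3 := ht (⌈t⌉ - 1) (by
    have h4 := Int.le_ceil t
    have h5 := Int.ceil_lt_add_one t
    push_cast
    constructor <;> linarith)
  exact (hPz _ _).1 h3

lemma unfold_two {a b : ℝ → ℝ} {ca cb : ℝ} (ha : Unf a ca) (hb : Unf b cb) (G : ℝ → ℝ → ℂ)
    (h1 : ∀ s t, G (s + 1) t = G s t) (h2 : ∀ s t, G s (t + 1) = G s t)
    (hi : IntegrableOn (fun p : ℝ × ℝ => G p.1 p.2) (Ioc (0 : ℝ) 1 ×ˢ Ioc (0 : ℝ) 1))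
    (hi2 : Integrable (fun p : ℝ × ℝ => (a p.1 : ℂ) * ((b p.2 : ℂ) * G p.1 p.2))) :
    ∫ p : ℝ × ℝ, (a p.1 : ℂ) * ((b p.2 : ℂ) * G p.1 p.2) =
      ca * (cb * ∫ p in Ioc (0 : ℝ) 1 ×ˢ Ioc (0 : ℝ) 1, G p.1 p.2) := by
  unfold IntegrableOn at hi
  rw [Measure.volume_eq_prod, ← Measure.prod_restrict] at hi
  have hae : ∀ᵐ s : ℝ, IntegrableOn (fun t => G s t) (Ioc (0 : ℝ) 1) := by
    refine ae_of_periodic (fun s => ?_) hi.prod_right_ae
    have : (fun t => G (s + 1) t) = fun t => G s t := funext fun t => h1 s t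
    rw [this]
  rw [Measure.volume_eq_prod, integral_prod _ (by rwa [Measure.volume_eq_prod] at hi2)]
  have h3 : ∀ᵐ s : ℝ, ∫ t, (a s : ℂ) * ((b t : ℂ) * G s t) =
      (a s : ℂ) * (cb * ∫ t in Ioc (0 : ℝ) 1, G s t) := by
    filter_upwards [hae] with s hs
    rw [integral_const_mul, (unfold_one hb (fun t => G s t) (h2 s) hs).2]
  rw [integral_congr_ae h3, (unfold_one ha (fun s => cb * ∫ t in Ioc (0 : ℝ) 1, G s t) ?_ ?_).2,
    integral_const_mul, ← Measure.prod_restrict, integral_prod _ hi]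
  · intro s
    have : (fun t => G (s + 1) t) = fun t => G s t := funext fun t => h1 s t
    rw [this]
  · exact hi.integral_prod_left.const_mul _

/-- coordinates -/
def co (L : PeriodPair) (i : Fin 2) : ℂ →L[ℝ] ℝ :=
  (ContinuousLinearMap.proj i).comp (L.basis.equivFunL : ℂ →L[ℝ] (Fin 2 → ℝ))

lemma co_E (L : PeriodPair) (x : Fin 2 → ℝ) (i : Fin 2) : co L i (E L x) = x i := by
  have h : E L x = L.basis.equivFunL.symm x := by
    rw [← ContinuousLinearEquiv.coe_toLinearEquiv]
    show _ = L.basis.equivFun.symm x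
    rw [Module.Basis.equivFun_symm_apply, Fin.sum_univ_two]
    simp [E]
  show (L.basis.equivFunL (E L x)) i = x i
  rw [h, ContinuousLinearEquiv.apply_symm_apply]

lemma E_co (L : PeriodPair) (z : ℂ) : E L (fun i => co L i z) = z := by
  obtain ⟨x, rfl⟩ := exists_coord L z
  congr 1
  funext i
  exact co_E L x i

/-- the function `a(s) b(t)` of the point with coordinates `(s,t)` -/
def tens (L : PeriodPair) (a b : ℝ → ℝ) (z : ℂ) : ℝ := a (co L 0 z) * b (co L 1 z)

lemma tens_E (L : PeriodPair) (a b : ℝ → ℝ) (x : Fin 2 → ℝ) :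
    tens L a b (E L x) = a (x 0) * b (x 1) := by
  rw [tens, co_E, co_E]

lemma tens_supp (L : PeriodPair) {a b : ℝ → ℝ} {ca cb : ℝ} (ha : Unf a ca) (hb : Unf b cb) (z : ℂ)
    (hz : z ∉ Metric.closedBall (0 : ℂ) (‖L.ω₁‖ + ‖L.ω₂‖)) : tens L a b z = 0 := by
  by_contra h
  apply hz
  rw [tens] at h
  have h0 : co L 0 z ∈ Ioo (-1 : ℝ) 1 := by
    by_contra h1
    rw [ha.supp _ h1, zero_mul] at h
    exact h rfl
  have h1 : co L 1 z ∈ Ioo (-1 : ℝ) 1 := by
    by_contra h1
    rw [hb.supp _ h1, mul_zero] at h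
    exact h rfl
  rw [mem_closedBall_zero_iff, ← E_co L z]
  refine (norm_add_le _ _).trans (add_le_add ?_ ?_)
  · rw [norm_mul, Complex.norm_real, Real.norm_eq_abs]
    exact mul_le_of_le_one_left (norm_nonneg _) (abs_le.2 ⟨h0.1.le, h0.2.le⟩)
  · rw [norm_mul, Complex.norm_real, Real.norm_eq_abs]
    exact mul_le_of_le_one_left (norm_nonneg _) (abs_le.2 ⟨h1.1.le, h1.2.le⟩)

lemma tens_cont (L : PeriodPair) {a b : ℝ → ℝ} (ha : Continuous a) (hb : Continuous b) :
    Continuous (tens L a b) := by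
  unfold tens
  fun_prop

lemma tens_compact (L : PeriodPair) {a b : ℝ → ℝ} {ca cb : ℝ} (ha : Unf a ca) (hb : Unf b cb) :
    HasCompactSupport (tens L a b) :=
  HasCompactSupport.intro (isCompact_closedBall _ _) fun z hz => tens_supp L ha hb z hz

lemma tens_mul_integrable (L : PeriodPair) {a b : ℝ → ℝ} {ca cb : ℝ} (ha : Unf a ca)
    (hb : Unf b cb) (F : ℂ → ℂ) (hF : ∀ r, IntegrableOn F (Metric.closedBall 0 r)) :
    Integrable (fun z => (tens L a b z : ℂ) * F z) := by
  have hc := tens_cont L ha.cont hb.cont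
  obtain ⟨C, hC⟩ := (tens_compact L ha hb).exists_bound_of_continuous hc
  have h1 : IntegrableOn (fun z => (tens L a b z : ℂ) * F z)
      (Metric.closedBall 0 (‖L.ω₁‖ + ‖L.ω₂‖)) := by
    refine Integrable.bdd_mul (c := C) (hF _) ?_ ?_
    · exact (Complex.continuous_ofReal.comp hc).aestronglyMeasurable
    · refine Filter.Eventually.of_forall fun z => ?_
      rw [Complex.norm_real]
      exact hC z
  refine (integrableOn_iff_integrable_of_support_subset ?_).1 h1
  intro z hz
  by_contra h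
  apply hz
  show (tens L a b z : ℂ) * F z = 0
  rw [tens_supp L ha hb z h]
  simp

/-- unfolding on `ℂ` -/
lemma unfold_C (L : PeriodPair) {a b : ℝ → ℝ} {ca cb : ℝ} (ha : Unf a ca) (hb : Unf b cb)
    (F : ℂ → ℂ) (hper : Per L F) (hF : ∀ r, IntegrableOn F (Metric.closedBall 0 r)) :
    ∫ z, (tens L a b z : ℂ) * F z = vol L * (ca * (cb * mean L F)) := by
  have hv := vol_pos L
  have h1 := integral_E L (fun z => (tens L a b z : ℂ) * F z)
  have h2 : ∫ z, (tens L a b z : ℂ) * F z =
      vol L * ∫ x, (tens L a b (E L x) : ℂ) * F (E L x) := by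
    rw [h1]
    push_cast
    rw [← mul_assoc, mul_inv_cancel₀ (by exact_mod_cast hv.ne'), one_mul]
  rw [h2]
  congr 1
  have h3 : ∫ x : Fin 2 → ℝ, (tens L a b (E L x) : ℂ) * F (E L x) =
      ∫ p : ℝ × ℝ, (a p.1 : ℂ) * ((b p.2 : ℂ) * F (p.1 * L.ω₁ + p.2 * L.ω₂)) := by
    rw [← (volume_preserving_finTwoArrow ℝ).integral_comp
      (MeasurableEquiv.measurableEmbedding _)]
    refine integral_congr_ae (Filter.Eventually.of_forall fun x => ?_)
    show (tens L a b (E L x) : ℂ) * F (E L x) =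
      (a (x 0) : ℂ) * ((b (x 1) : ℂ) * F (x 0 * L.ω₁ + x 1 * L.ω₂))
    rw [tens_E]
    push_cast
    rw [mul_assoc]
    rfl
  have hmean : mean L F = ∫ p in Ioc (0 : ℝ) 1 ×ˢ Ioc (0 : ℝ) 1, F (p.1 * L.ω₁ + p.2 * L.ω₂) :=
    box_integral fun s t => F (s * L.ω₁ + t * L.ω₂)
  have hbox : IntegrableOn (fun x => F (E L x)) box := by
    have := (memLp_tor L F 1 (memLp_one_iff_integrable.2 (hF _))).1
    exact memLp_one_iff_integrable.1 this
  have hall : Integrable fun x : Fin 2 → ℝ => (tens L a b (E L x) : ℂ) * F (E L x) := by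
    have h4 := tens_mul_integrable L ha hb F hF
    have h5 : Integrable (fun z => (tens L a b z : ℂ) * F z) (Measure.map (E L) volume) := by
      rw [map_E]
      exact h4.smul_measure ENNReal.ofReal_ne_top
    exact ((E_embedding L).integrable_map_iff).1 h5
  rw [h3, hmean]
  refine unfold_two ha hb (fun s t => F (s * L.ω₁ + t * L.ω₂)) ?_ ?_ ?_ ?_
  · intro s t
    rw [← per_one L hper (s * L.ω₁ + t * L.ω₂)]
    congr 1
    push_cast
    ring
  · intro s t
    rw [← per_two L hper (s * L.ω₁ + t * L.ω₂)]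
    congr 1
    push_cast
    ring
  · exact (box_integrable fun s t => F (s * L.ω₁ + t * L.ω₂)).1 hbox
  · have h6 := (volume_preserving_finTwoArrow ℝ).integrable_comp_emb
      (MeasurableEquiv.measurableEmbedding _)
      (g := fun p : ℝ × ℝ => (a p.1 : ℂ) * ((b p.2 : ℂ) * F (p.1 * L.ω₁ + p.2 * L.ω₂)))
    rw [← h6]
    refine hall.congr (Filter.Eventually.of_forall fun x => ?_)
    show (tens L a b (E L x) : ℂ) * F (E L x) =
      (a (x 0) : ℂ) * ((b (x 1) : ℂ) * F (x 0 * L.ω₁ + x 1 * L.ω₂))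
    rw [tens_E]
    push_cast
    rw [mul_assoc]
    rfl

end Pool.Agent.F194

end
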